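import Pool.Agent.StB.Defs

set_option autoImplicit false

open scoped BigOperators

namespace Pool.Agent.StB

/-- Module li1 (text 3.2). Orthonormal basis `e_l` of `W`, `i` with
`τ = ∑ l, e_l(i) ^ 2 ≥ dim W / |ι|`, `w = ∑ l, e_l(i) e_l`, row `i` of `F w = 0`. -/
theorem lin_alg {ι : Type} [Fintype ι] [DecidableEq ι] (F : ι → ι → ℝ) {η : ℝ} (hη : 0 ≤ η)
    (hd : ∀ i, F i i ≤ -1) (ho : ∀ i j, i ≠ j → |F i j| ≤ η) (W : Submodule ℝ (ι → ℝ))
    (hW : ∀ w ∈ W, ∀ i, ∑ j, F i j * w j = 0) :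
    (Module.finrank ℝ W : ℝ) ≤ η ^ 2 * (Fintype.card ι : ℝ) ^ 2 := by

  classical
  let L : EuclideanSpace ℝ ι ≃ₗ[ℝ] (ι → ℝ) := WithLp.linearEquiv 2 ℝ (ι → ℝ)
  obtain ⟨W', hW'⟩ : ∃ W' : Submodule ℝ (EuclideanSpace ℝ ι), W' = W.map L.symm.toLinearMap :=
    ⟨_, rfl⟩
  have hfin : Module.finrank ℝ W' = Module.finrank ℝ W := by
    rw [hW']
    exact LinearEquiv.finrank_map_eq L.symm W
  obtain ⟨b⟩ : Nonempty (OrthonormalBasis (Fin (Module.finrank ℝ W')) ℝ W') :=
    ⟨stdOrthonormalBasis ℝ W'⟩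
  obtain ⟨e, he⟩ : ∃ e : Fin (Module.finrank ℝ W') → ι → ℝ,
      ∀ l i, e l i = (b l : EuclideanSpace ℝ ι) i := ⟨_, fun _ _ => rfl⟩
  have horth : ∀ l l', ∑ i, e l i * e l' i = if l = l' then 1 else 0 := by
    intro l l'
    have h1 := (orthonormal_iff_ite.1 b.orthonormal) l l'
    rw [← h1, Submodule.coe_inner, PiLp.inner_apply]
    refine Finset.sum_congr rfl fun i _ => ?_
    rw [he, he]
    simp [mul_comm]
  have hmem : ∀ l, e l ∈ W := by
    intro l
    have hWm : ∀ v : EuclideanSpace ℝ ι, v ∈ W' → L v ∈ W := by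
      intro v hv
      rw [hW'] at hv
      obtain ⟨w, hw, rfl⟩ := hv
      exact hw
    have h2 : e l = L (b l : EuclideanSpace ℝ ι) := by
      funext i
      rw [he]
      rfl
    rw [h2]
    exact hWm _ (b l).2
  generalize Module.finrank ℝ W' = m at *
  rw [← hfin]
  obtain ⟨τ, hτ⟩ : ∃ τ : ι → ℝ, ∀ i, τ i = ∑ l, e l i * e l i := ⟨_, fun _ => rfl⟩
  have hsum : ∑ i, τ i = m := by
    rw [Finset.sum_congr rfl fun i _ => hτ i, Finset.sum_comm,
      Finset.sum_congr rfl fun l _ => (horth l l).trans (if_pos rfl), Finset.sum_const,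
      Finset.card_univ, Fintype.card_fin, nsmul_eq_mul, mul_one]
  rcases isEmpty_or_nonempty ι with hι | hι
  · rw [Finset.univ_eq_empty, Finset.sum_empty] at hsum
    rw [← hsum]
    positivity
  have hM : (0 : ℝ) < Fintype.card ι := by exact_mod_cast Fintype.card_pos
  obtain ⟨i, hi⟩ : ∃ i, (m : ℝ) ≤ Fintype.card ι * τ i := by
    by_contra hcon
    push Not at hcon
    have h1 : ∑ i, (Fintype.card ι : ℝ) * τ i < ∑ _i : ι, (m : ℝ) :=
      Finset.sum_lt_sum_of_nonempty Finset.univ_nonempty fun i _ => hcon i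
    rw [← Finset.mul_sum, hsum, Finset.sum_const, Finset.card_univ, nsmul_eq_mul] at h1
    exact lt_irrefl _ h1
  have hτ0 : 0 ≤ τ i := by
    rw [hτ]
    exact Finset.sum_nonneg fun l _ => mul_self_nonneg _
  obtain ⟨w, hw⟩ : ∃ w : ι → ℝ, w = ∑ l, e l i • e l := ⟨_, rfl⟩
  have hwW : w ∈ W := by
    rw [hw]
    exact W.sum_mem fun l _ => W.smul_mem _ (hmem l)
  have hwj : ∀ j, w j = ∑ l, e l i * e l j := by
    intro j
    rw [hw, Finset.sum_apply]
    rfl
  have hwi : w i = τ i := by rw [hwj, hτ]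
  have hnorm : ∑ j, w j * w j = τ i := by
    have h1 : ∀ j, w j * w j = ∑ l, ∑ l', e l i * e l' i * (e l j * e l' j) := by
      intro j
      rw [hwj, Finset.sum_mul_sum]
      refine Finset.sum_congr rfl fun l _ => Finset.sum_congr rfl fun l' _ => ?_
      ring
    rw [Finset.sum_congr rfl fun j _ => h1 j, Finset.sum_comm, hτ]
    refine Finset.sum_congr rfl fun l _ => ?_
    rw [Finset.sum_comm, Finset.sum_eq_single l]
    · rw [← Finset.mul_sum, horth, if_pos rfl, mul_one]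
    · intro l' _ hl'
      rw [← Finset.mul_sum, horth, if_neg (Ne.symm hl'), mul_zero]
    · intro h
      exact absurd (Finset.mem_univ _) h
  have hrow := hW w hwW i
  rw [← Finset.add_sum_erase _ _ (Finset.mem_univ i), hwi] at hrow
  have h1 : τ i ≤ η * ∑ j, |w j| := by
    have h2 : -(F i i * τ i) = ∑ j ∈ Finset.univ.erase i, F i j * w j := by linarith
    have h3 : τ i ≤ -(F i i * τ i) := by nlinarith [hd i]
    have h4 : ∑ j ∈ Finset.univ.erase i, F i j * w j ≤
        ∑ j ∈ Finset.univ.erase i, η * |w j| := by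
      refine Finset.sum_le_sum fun j hj => ?_
      refine (le_abs_self _).trans ?_
      rw [abs_mul]
      exact mul_le_mul_of_nonneg_right (ho i j (Finset.ne_of_mem_erase hj).symm) (abs_nonneg _)
    have h5 : ∑ j ∈ Finset.univ.erase i, η * |w j| ≤ η * ∑ j, |w j| := by
      rw [Finset.mul_sum]
      exact Finset.sum_le_sum_of_subset_of_nonneg (Finset.erase_subset _ _) fun j _ _ =>
        mul_nonneg hη (abs_nonneg _)
    linarith
  have h2 : (∑ j, |w j|) ^ 2 ≤ Fintype.card ι * τ i := by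
    have h3 := sq_sum_le_card_mul_sum_sq (s := (Finset.univ : Finset ι)) (f := fun j => |w j|)
    rw [Finset.card_univ] at h3
    refine h3.trans (le_of_eq ?_)
    rw [← hnorm]
    congr 1
    refine Finset.sum_congr rfl fun j _ => ?_
    rw [sq_abs, sq]
  have h3 : τ i * τ i ≤ η ^ 2 * Fintype.card ι * τ i := by
    have h4 : τ i ^ 2 ≤ (η * ∑ j, |w j|) ^ 2 := pow_le_pow_left₀ hτ0 h1 2
    rw [mul_pow] at h4
    have h5 := mul_le_mul_of_nonneg_left h2 (sq_nonneg η)
    nlinarith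
  refine hi.trans ?_
  rcases eq_or_lt_of_le hτ0 with h4 | h4
  · rw [← h4, mul_zero]
    positivity
  · have h5 := le_of_mul_le_mul_right h3 h4
    have h6 := mul_le_mul_of_nonneg_left h5 hM.le
    nlinarith

/-- Module li2 (rank-nullity). -/
theorem codim {ι : Type} [Fintype ι] [DecidableEq ι] {n q : ℕ} (g : Fin n → ι → Fin (q + 1)) :
    ∃ W : Submodule ℝ (ι → ℝ),
      (∀ w ∈ W, ∑ i, w i = 0 ∧ ∀ k v, ∑ i ∈ Finset.univ.filter (fun i => g k i = v), w i = 0) ∧
      Fintype.card ι ≤ Module.finrank ℝ W + (n * (q + 1) + 1) := by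

  classical
  let T : (ι → ℝ) →ₗ[ℝ] (Option (Fin n × Fin (q + 1)) → ℝ) := LinearMap.pi fun o =>
    match o with
    | none => ∑ i, LinearMap.proj i
    | some p => ∑ i ∈ Finset.univ.filter (fun i => g p.1 i = p.2), LinearMap.proj i
  refine ⟨LinearMap.ker T, fun w hw => ?_, ?_⟩
  · have h1 : T w = 0 := hw
    constructor
    · have h2 := congrFun h1 none
      have h3 : T w none = ∑ i, w i := by
        show (∑ i, LinearMap.proj (R := ℝ) (φ := fun _ : ι => ℝ) i) w = _
        rw [LinearMap.sum_apply]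
        rfl
      rw [← h3, h2]
      rfl
    · intro k v
      have h2 := congrFun h1 (some (k, v))
      have h3 : T w (some (k, v)) = ∑ i ∈ Finset.univ.filter (fun i => g k i = v), w i := by
        show (∑ i ∈ Finset.univ.filter (fun i => g k i = v),
          LinearMap.proj (R := ℝ) (φ := fun _ : ι => ℝ) i) w = _
        rw [LinearMap.sum_apply]
        rfl
      rw [← h3, h2]
      rfl
  · have h1 := LinearMap.finrank_range_add_finrank_ker T
    have h2 : Module.finrank ℝ (LinearMap.range T) ≤ n * (q + 1) + 1 := by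
      refine (Submodule.finrank_le _).trans ?_
      rw [Module.finrank_fintype_fun_eq_card, Fintype.card_option, Fintype.card_prod,
        Fintype.card_fin, Fintype.card_fin]
    rw [Module.finrank_fintype_fun_eq_card] at h1
    omega

/-- Module li3: `lin_alg` and `codim` together. -/
theorem rank_principle {ι : Type} [Fintype ι] [DecidableEq ι] {n q : ℕ}
    (g : Fin n → ι → Fin (q + 1)) (ψ : Fin n → Fin (q + 1) → Fin (q + 1) → ℝ) (c0 : ℝ)
    {η : ℝ} (hη : 0 ≤ η) (hd : ∀ i, ∑ k, ψ k (g k i) (g k i) + c0 ≤ -1)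
    (ho : ∀ i j, i ≠ j → |∑ k, ψ k (g k i) (g k j) + c0| ≤ η) :
    (Fintype.card ι : ℝ) ≤ n * (q + 1) + 1 + η ^ 2 * (Fintype.card ι : ℝ) ^ 2 := by

  obtain ⟨W, hW, hcard⟩ := codim g
  have h1 : ∀ w ∈ W, ∀ i, ∑ j, (∑ k, ψ k (g k i) (g k j) + c0) * w j = 0 := by
    intro w hw i
    obtain ⟨h2, h3⟩ := hW w hw
    have h4 : ∀ k, ∑ j, ψ k (g k i) (g k j) * w j = 0 := by
      intro k
      rw [← Finset.sum_fiberwise Finset.univ (g k)]
      refine Finset.sum_eq_zero fun v _ => ?_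
      have h5 : ∑ j ∈ Finset.univ.filter (fun j => g k j = v), ψ k (g k i) (g k j) * w j =
          ψ k (g k i) v * ∑ j ∈ Finset.univ.filter (fun j => g k j = v), w j := by
        rw [Finset.mul_sum]
        refine Finset.sum_congr rfl fun j hj => ?_
        rw [(Finset.mem_filter.1 hj).2]
      rw [h5, h3, mul_zero]
    have h5 : ∑ j, (∑ k, ψ k (g k i) (g k j) + c0) * w j =
        ∑ k, ∑ j, ψ k (g k i) (g k j) * w j + c0 * ∑ j, w j := by
      rw [Finset.sum_comm, Finset.mul_sum, ← Finset.sum_add_distrib]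
      refine Finset.sum_congr rfl fun j _ => ?_
      rw [add_mul, Finset.sum_mul]
    rw [h5, Finset.sum_eq_zero fun k _ => h4 k, h2, mul_zero, add_zero]
  have h2 := lin_alg (fun i j => ∑ k, ψ k (g k i) (g k j) + c0) hη hd ho W h1
  have h3 : (Fintype.card ι : ℝ) ≤ Module.finrank ℝ W + (n * (q + 1) + 1) := by
    exact_mod_cast hcard
  linarith

end Pool.Agent.StB
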