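import Pool.Agent.StB.GrL
import Pool.Agent.StB.Lin

set_option autoImplicit false

open scoped BigOperators

namespace Pool.Agent.StB

/-- Module cl1 (text 3.3, one coordinate). `D = max |y i - y j|`, `μ = min y`; if `D = 0` take
`g = 0`, otherwise `g i = floor (q (y i - μ) / D)` and `δ = D / (2 γ q)`. -/
theorem approx_one {P q : ℕ} (hP : 1 ≤ P) (hq : 2 * P ≤ q) {φ : ℝ → ℝ} (hφ : Gr P φ)
    {ι : Type} [Fintype ι] [Nonempty ι] (y c : ι → ℝ) {γ : ℝ} (hγ : 0 < γ)
    (hc : ∀ i, γ ≤ c i ∧ c i ≤ γ * (1 + 1 / q))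
    (h : ∀ i j, i ≠ j → φ ((y i - y j) / (c i + c j)) ≤ 1) :
    ∃ (g : ι → Fin (q + 1)) (δ : ℝ), ∀ i j, i ≠ j →
      |φ ((((g i : ℕ) : ℝ) - ((g j : ℕ) : ℝ)) * δ) - φ ((y i - y j) / (c i + c j))|
        ≤ 4 * P / q := by
  classical
  have hq1 : 1 ≤ q := by omega
  have hq0 : (0 : ℝ) < q := by exact_mod_cast hq1
  have hP0 : (0 : ℝ) < P := by exact_mod_cast hP
  have hqP : 2 * (P : ℝ) ≤ q := by exact_mod_cast hq
  obtain ⟨p, hp⟩ := Finite.exists_min y
  obtain ⟨M, hM⟩ := Finite.exists_max y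
  rcases eq_or_lt_of_le (hp M) with h0 | h0
  · refine ⟨fun _ => 0, 0, fun i j _ => ?_⟩
    have h1 : y i = y j := by
      have h2 := hp i
      have h3 := hM i
      have h4 := hp j
      have h5 := hM j
      linarith
    rw [h1]
    simp only [sub_self, zero_div, zero_mul, hφ.zero, abs_zero]
    positivity
  set D := y M - y p with hD
  have hD0 : 0 < D := by linarith
  set R := D / (2 * γ) with hR
  have hR0 : 0 < R := by positivity
  have hMp : M ≠ p := by
    intro h1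
    rw [h1] at h0
    exact lt_irrefl _ h0
  have hφR : φ R ≤ 2 := by
    have hcM := hc M
    have hcp := hc p
    have hs : 0 < c M + c p := by linarith
    set z := D / (c M + c p) with hz
    have hz1 : φ z ≤ 1 := h M p hMp
    have hz0 : 0 < z := by positivity
    set L := (c M + c p) / (2 * γ) with hL
    have hL1 : 1 ≤ L := by
      rw [hL, le_div_iff₀ (by positivity)]
      linarith
    have hL2 : L ≤ 1 + 1 / q := by
      rw [hL, div_le_iff₀ (by positivity)]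
      linarith
    have hRz : R = L * z := by
      rw [hR, hL, hz]
      field_simp
    rw [hRz]
    have h1 := hφ.grow L z hL1 hz0.le
    have h2 : L ^ P ≤ (1 + 1 / (q : ℝ)) ^ P := pow_le_pow_left₀ (by linarith) hL2 _
    have h3 : 1 + (P : ℝ) * (-(1 / (q : ℝ))) ≤ (1 + -(1 / (q : ℝ))) ^ P := by
      refine one_add_mul_le_pow ?_ P
      have : 1 / (q : ℝ) ≤ 1 := by
        rw [div_le_one hq0]
        exact_mod_cast hq1
      linarith
    have h4 : (P : ℝ) * (1 / (q : ℝ)) ≤ 1 / 2 := by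
      rw [mul_one_div, div_le_iff₀ hq0]
      linarith
    have h5 : (1 + 1 / (q : ℝ)) ^ P * (1 + -(1 / (q : ℝ))) ^ P ≤ 1 := by
      rw [← mul_pow]
      refine pow_le_one₀ ?_ ?_
      · have : 1 / (q : ℝ) ≤ 1 := by
          rw [div_le_one hq0]
          exact_mod_cast hq1
        have h6 : 0 ≤ 1 / (q : ℝ) := by positivity
        exact mul_nonneg (by linarith) (by linarith)
      · nlinarith [sq_nonneg (1 / (q : ℝ))]
    have h6 : (0 : ℝ) ≤ (1 + 1 / (q : ℝ)) ^ P := by positivity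
    have h7 : (1 + 1 / (q : ℝ)) ^ P * (1 / 2) ≤ 1 := by
      refine (mul_le_mul_of_nonneg_left ?_ h6).trans h5
      linarith
    have h8 : L ^ P * φ z ≤ L ^ P * 1 := mul_le_mul_of_nonneg_left hz1 (by positivity)
    linarith
  have hx0 : ∀ i, 0 ≤ q * (y i - y p) / D := by
    intro i
    have : 0 ≤ y i - y p := by linarith [hp i]
    positivity
  have hxq : ∀ i, q * (y i - y p) / D ≤ q := by
    intro i
    rw [div_le_iff₀ hD0]
    exact mul_le_mul_of_nonneg_left (by linarith [hM i]) hq0.le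
  refine ⟨fun i => ⟨⌊q * (y i - y p) / D⌋₊, Nat.lt_succ_of_le (Nat.floor_le_of_le (hxq i))⟩,
    D / (2 * γ * q), ?_⟩
  intro i j hij
  have hci := hc i
  have hcj := hc j
  have hs : 0 < c i + c j := by linarith
  have hδ : D / (2 * γ * q) = R / q := by rw [hR]; field_simp
  have hgi := Nat.floor_le (hx0 i)
  have hgj := Nat.floor_le (hx0 j)
  have hgi' := Nat.lt_floor_add_one (q * (y i - y p) / D)
  have hgj' := Nat.lt_floor_add_one (q * (y j - y p) / D)
  have hgi0 : (0 : ℝ) ≤ (⌊q * (y i - y p) / D⌋₊ : ℝ) := Nat.cast_nonneg _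
  have hgj0 : (0 : ℝ) ≤ (⌊q * (y j - y p) / D⌋₊ : ℝ) := Nat.cast_nonneg _
  have hyD : |y i - y j| ≤ D := by
    rw [abs_le]
    constructor <;> linarith [hp i, hp j, hM i, hM j]
  show |φ (((⌊q * (y i - y p) / D⌋₊ : ℝ) - (⌊q * (y j - y p) / D⌋₊ : ℝ)) * (D / (2 * γ * q))) -
    φ ((y i - y j) / (c i + c j))| ≤ 4 * P / q
  set A := ((⌊q * (y i - y p) / D⌋₊ : ℝ) - (⌊q * (y j - y p) / D⌋₊ : ℝ)) with hA
  have hAq : |A| ≤ q := by
    rw [abs_le]
    constructor <;> linarith [hxq i, hxq j]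
  have ha : |A * (D / (2 * γ * q))| ≤ R := by
    rw [hδ, abs_mul, abs_of_nonneg (by positivity : 0 ≤ R / q)]
    calc |A| * (R / q) ≤ q * (R / q) := by gcongr
      _ = R := by field_simp
  have hb : |(y i - y j) / (c i + c j)| ≤ R := by
    rw [abs_div, abs_of_pos hs, hR]
    exact div_le_div₀ hD0.le hyD (by positivity) (by linarith)
  have hab : |A * (D / (2 * γ * q)) - (y i - y j) / (c i + c j)| ≤ 2 * R / q := by
    have e1 : |A * (D / (2 * γ * q)) - (y i - y j) / (2 * γ)| ≤ R / q := by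
      have : A * (D / (2 * γ * q)) - (y i - y j) / (2 * γ) =
          (A - (q * (y i - y p) / D - q * (y j - y p) / D)) * (R / q) := by
        rw [hR]
        field_simp
        ring
      rw [this, abs_mul, abs_of_nonneg (by positivity : 0 ≤ R / q)]
      have h1 : |A - (q * (y i - y p) / D - q * (y j - y p) / D)| ≤ 1 := by
        rw [abs_le]
        constructor <;> linarith
      calc _ ≤ 1 * (R / q) := by gcongr
        _ = R / q := one_mul _
    have e2 : |(y i - y j) / (2 * γ) - (y i - y j) / (c i + c j)| ≤ R / q := by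
      have : (y i - y j) / (2 * γ) - (y i - y j) / (c i + c j) =
          (y i - y j) * ((c i + c j - 2 * γ) / (2 * γ * (c i + c j))) := by
        field_simp
      rw [this, abs_mul]
      have h1 : 0 ≤ (c i + c j - 2 * γ) / (2 * γ * (c i + c j)) :=
        div_nonneg (by linarith) (by positivity)
      rw [abs_of_nonneg h1]
      have h2 : (c i + c j - 2 * γ) / (2 * γ * (c i + c j)) ≤ 1 / (2 * γ * q) := by
        rw [div_le_div_iff₀ (by positivity) (by positivity)]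
        have h3 : (c i + c j - 2 * γ) * q ≤ 2 * γ := by
          have h4 : c i + c j - 2 * γ ≤ 2 * γ / q := by
            have : 2 * γ / q = 2 * (γ * (1 + 1 / q)) - 2 * γ := by ring
            linarith
          calc (c i + c j - 2 * γ) * q ≤ 2 * γ / q * q := by gcongr
            _ = 2 * γ := by field_simp
        nlinarith
      calc |y i - y j| * ((c i + c j - 2 * γ) / (2 * γ * (c i + c j)))
          ≤ D * (1 / (2 * γ * q)) := mul_le_mul hyD h2 h1 hD0.le
        _ = R / q := by rw [hR]; field_simp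
    have e3 := abs_sub_le (A * (D / (2 * γ * q))) ((y i - y j) / (2 * γ)) ((y i - y j) / (c i + c j))
    have e4 : 2 * R / q = R / q + R / q := by ring
    linarith
  have hlip := hφ.lip hP hR0 hφR ha hb
  refine hlip.trans ?_
  calc 2 * P / R * |A * (D / (2 * γ * q)) - (y i - y j) / (c i + c j)|
      ≤ 2 * P / R * (2 * R / q) := by gcongr
    _ = 4 * P / q := by field_simp; norm_num

/-- Module cl2 (text 3.3): a class whose size `M` satisfies `32 P² n² M ≤ q²` has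
`M ≤ 2 (n (q + 1) + 1)`. -/
theorem class_small {n P q : ℕ} (hn : 1 ≤ n) (hP : 1 ≤ P) (hq : 2 * P ≤ q) (φ : Fin n → ℝ → ℝ)
    (hφ : ∀ k, Gr P (φ k)) {ι : Type} [Fintype ι] [DecidableEq ι] (y : ι → Fin n → ℝ) (c : ι → ℝ)
    (h : EqSys φ y c) {γ : ℝ} (hγ : 0 < γ) (hc : ∀ i, γ ≤ c i ∧ c i ≤ γ * (1 + 1 / q))
    (hM : 32 * P ^ 2 * n ^ 2 * Fintype.card ι ≤ q ^ 2) :
    Fintype.card ι ≤ 2 * (n * (q + 1) + 1) := by
  classical
  rcases isEmpty_or_nonempty ι with he | he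
  · simp
  have hq1 : 1 ≤ q := by omega
  have hq0 : (0 : ℝ) < q := by exact_mod_cast hq1
  have h1 : ∀ k : Fin n, ∃ (g : ι → Fin (q + 1)) (δ : ℝ), ∀ i j, i ≠ j →
      |φ k ((((g i : ℕ) : ℝ) - ((g j : ℕ) : ℝ)) * δ) - φ k ((y i k - y j k) / (c i + c j))|
        ≤ 4 * P / q := by
    intro k
    refine approx_one hP hq (hφ k) (fun i => y i k) c hγ hc ?_
    intro i j hij
    rw [← h i j hij]
    exact Finset.single_le_sum (f := fun k => φ k ((y i k - y j k) / (c i + c j)))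
      (fun k _ => (hφ k).nonneg _) (Finset.mem_univ k)
  choose g δ hg using h1
  have h3 := rank_principle g
    (fun k u v => φ k ((((u : ℕ) : ℝ) - ((v : ℕ) : ℝ)) * δ k)) (-1) (η := 4 * P * n / q)
    (by positivity) ?_ ?_
  · have hM' : 32 * (P : ℝ) ^ 2 * (n : ℝ) ^ 2 * Fintype.card ι ≤ (q : ℝ) ^ 2 := by exact_mod_cast hM
    set M : ℝ := (Fintype.card ι : ℝ) with hMdef
    have hM0 : 0 ≤ M := by positivity
    have h4 : (4 * (P : ℝ) * n / q) ^ 2 * M ^ 2 ≤ M / 2 := by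
      have : (4 * (P : ℝ) * n / q) ^ 2 * M ^ 2 =
          (32 * (P : ℝ) ^ 2 * (n : ℝ) ^ 2 * M) * (M / (2 * q ^ 2)) := by
        field_simp
        ring
      rw [this]
      calc (32 * (P : ℝ) ^ 2 * (n : ℝ) ^ 2 * M) * (M / (2 * q ^ 2))
          ≤ (q : ℝ) ^ 2 * (M / (2 * q ^ 2)) := by gcongr
        _ = M / 2 := by field_simp
    have h5 : M ≤ 2 * (n * (q + 1) + 1) := by linarith
    rw [hMdef] at h5
    exact_mod_cast h5
  · intro i
    simp only [sub_self, zero_mul, (hφ _).zero, Finset.sum_const_zero, zero_add, le_refl]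
  · intro i j hij
    have h4 : ∑ k, φ k ((((g k i : ℕ) : ℝ) - ((g k j : ℕ) : ℝ)) * δ k) + (-1) =
        ∑ k, (φ k ((((g k i : ℕ) : ℝ) - ((g k j : ℕ) : ℝ)) * δ k) -
          φ k ((y i k - y j k) / (c i + c j))) := by
      rw [Finset.sum_sub_distrib, h i j hij]
      ring
    rw [h4]
    calc |∑ k, (φ k ((((g k i : ℕ) : ℝ) - ((g k j : ℕ) : ℝ)) * δ k) -
          φ k ((y i k - y j k) / (c i + c j)))|
        ≤ ∑ k, |φ k ((((g k i : ℕ) : ℝ) - ((g k j : ℕ) : ℝ)) * δ k) -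
          φ k ((y i k - y j k) / (c i + c j))| := Finset.abs_sum_le_sum_abs _ _
      _ ≤ ∑ _k : Fin n, (4 * P / q : ℝ) := Finset.sum_le_sum fun k _ => hg k i j hij
      _ = 4 * P * n / q := by
          rw [Finset.sum_const, Finset.card_univ, Fintype.card_fin, nsmul_eq_mul]; ring

/-- Module cl3 (text 3.4, first part), `q = 72 P² n³`: pass to a subset with exactly
`2 (n (q + 1) + 1) + 1` elements. -/
theorem class_card {n P : ℕ} (hn : 1 ≤ n) (hP : 1 ≤ P) (φ : Fin n → ℝ → ℝ)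
    (hφ : ∀ k, Gr P (φ k)) {ι : Type} [Fintype ι] [DecidableEq ι] (y : ι → Fin n → ℝ) (c : ι → ℝ)
    (h : EqSys φ y c) {γ : ℝ} (hγ : 0 < γ)
    (hc : ∀ i, γ ≤ c i ∧ c i ≤ γ * (1 + 1 / ((72 * P ^ 2 * n ^ 3 : ℕ) : ℝ))) :
    Fintype.card ι ≤ 2 * (n * (72 * P ^ 2 * n ^ 3 + 1) + 1) := by
  classical
  by_contra hlt
  push Not at hlt
  obtain ⟨S, -, hS⟩ := Finset.exists_subset_card_eq (s := (Finset.univ : Finset ι))
    (n := 2 * (n * (72 * P ^ 2 * n ^ 3 + 1) + 1) + 1) (by rw [Finset.card_univ]; omega)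
  have hPP : P ≤ P ^ 2 := by
    calc P = P ^ 1 := by ring
      _ ≤ P ^ 2 := Nat.pow_le_pow_right hP (by norm_num)
  have hn3 : 1 ≤ n ^ 3 := Nat.pow_pos hn
  have hq : 2 * P ≤ 72 * P ^ 2 * n ^ 3 := by
    calc 2 * P ≤ 72 * P ^ 2 * 1 := by omega
      _ ≤ 72 * P ^ 2 * n ^ 3 := Nat.mul_le_mul_left _ hn3
  have h1 := class_small (ι := {i : ι // i ∈ S}) hn hP hq φ hφ (fun i => y i) (fun i => c i)
    (fun i j hij => h i j (fun h => hij (Subtype.ext h))) hγ (fun i => hc i) ?_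
  · rw [Fintype.card_coe, hS] at h1
    omega
  · rw [Fintype.card_coe, hS]
    -- `32 P² n² (2 n (q + 1) + 3) ≤ q²`
    have e1 : 2 * (n * (72 * P ^ 2 * n ^ 3 + 1) + 1) + 1 ≤ 149 * (P ^ 2 * n ^ 4) := by
      have h2 : n ≤ P ^ 2 * n ^ 4 := by
        calc n = 1 * n ^ 1 := by ring
          _ ≤ P ^ 2 * n ^ 4 := Nat.mul_le_mul (Nat.one_le_pow _ _ hP)
            (Nat.pow_le_pow_right hn (by norm_num))
      have h3 : 2 * (n * (72 * P ^ 2 * n ^ 3 + 1) + 1) + 1 =
        144 * (P ^ 2 * n ^ 4) + 2 * n + 3 := by ring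
      rw [h3]
      omega
    calc 32 * P ^ 2 * n ^ 2 * (2 * (n * (72 * P ^ 2 * n ^ 3 + 1) + 1) + 1)
        ≤ 32 * P ^ 2 * n ^ 2 * (149 * (P ^ 2 * n ^ 4)) := Nat.mul_le_mul_left _ e1
      _ = 4768 * (P ^ 4 * n ^ 6) := by ring
      _ ≤ 5184 * (P ^ 4 * n ^ 6) := Nat.mul_le_mul_right _ (by norm_num)
      _ = (72 * P ^ 2 * n ^ 3) ^ 2 := by ring

end Pool.Agent.StB
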