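import Pool.Agent.StB.Big
import Pool.Agent.StB.Cls

set_option autoImplicit false

open scoped BigOperators

namespace Pool.Agent.StB

/-- Module ca1: a number in `[c, Λ c)` lies in one of `q * clog 2 Λ` intervals of ratio
`1 + 1 / q`. -/
theorem geo_cover {q Λ : ℕ} (hq : 1 ≤ q) {c t : ℝ} (hc : 0 < c) (h1 : c ≤ t) (h2 : t < Λ * c) :
    ∃ s : Fin (q * Nat.clog 2 Λ),
      c * (1 + 1 / (q : ℝ)) ^ (s : ℕ) ≤ t ∧ t ≤ c * (1 + 1 / (q : ℝ)) ^ (s : ℕ) * (1 + 1 / (q : ℝ)) := by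
  classical
  have hq0 : (0 : ℝ) < q := by exact_mod_cast hq
  have hr : (2 : ℝ) ≤ (1 + 1 / (q : ℝ)) ^ q := by
    have := one_add_mul_le_pow (a := 1 / (q : ℝ)) (by have : (0 : ℝ) < 1 / q := by positivity
                                                      linarith) q
    have h3 : 1 + (q : ℝ) * (1 / q) = 2 := by field_simp; norm_num
    linarith
  have hbig : t < c * (1 + 1 / (q : ℝ)) ^ (q * Nat.clog 2 Λ) := by
    have h3 : (Λ : ℝ) ≤ (1 + 1 / (q : ℝ)) ^ (q * Nat.clog 2 Λ) := by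
      rw [pow_mul]
      calc (Λ : ℝ) ≤ (2 : ℝ) ^ Nat.clog 2 Λ := by
            exact_mod_cast Nat.le_pow_clog (by norm_num) Λ
        _ ≤ _ := pow_le_pow_left₀ (by norm_num) hr _
    calc t < Λ * c := h2
      _ = c * Λ := mul_comm _ _
      _ ≤ _ := mul_le_mul_of_nonneg_left h3 hc.le
  have hex : ∃ m : ℕ, t < c * (1 + 1 / (q : ℝ)) ^ m := ⟨_, hbig⟩
  have hm := Nat.find_spec hex
  have hle : Nat.find hex ≤ q * Nat.clog 2 Λ := Nat.find_min' hex hbig
  have hne : Nat.find hex ≠ 0 := by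
    intro h0
    rw [h0, pow_zero, mul_one] at hm
    linarith
  obtain ⟨s, hs⟩ := Nat.exists_eq_succ_of_ne_zero hne
  refine ⟨⟨s, by omega⟩, ?_, ?_⟩
  · have := Nat.find_min hex (m := s) (by omega)
    exact not_lt.1 this
  · rw [hs, pow_succ, ← mul_assoc] at hm
    exact hm.le

/-- Module ca2 (text 3.4, end). -/
theorem core_A {n P : ℕ} (hn : 1 ≤ n) (hP : 1 ≤ P) (φ : Fin n → ℝ → ℝ)
    (hφ : ∀ k, Gr P (φ k)) {ι : Type} [Fintype ι] (y : ι → Fin n → ℝ) (c : ι → ℝ)
    (hc : ∀ i, 0 < c i) (h : EqSys φ y c) :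
    Fintype.card ι ≤ 11000 * P ^ 4 * n ^ 7 * Nat.clog 2 (2 * P * n) := by
  classical
  rcases isEmpty_or_nonempty ι with he | he
  · simp
  obtain ⟨i0, h0⟩ := Finite.exists_min c
  have hPn : 1 ≤ P * n := Nat.mul_pos hP hn
  have hC : 1 ≤ Nat.clog 2 (2 * P * n) := by
    refine Nat.clog_pos (by norm_num) ?_
    rw [mul_assoc]; omega
  set C := Nat.clog 2 (2 * P * n) with hCdef
  have hq1 : 1 ≤ 72 * P ^ 2 * n ^ 3 := Nat.mul_pos (Nat.mul_pos (by norm_num) (Nat.pow_pos hP)) (Nat.pow_pos hn)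
  set q := 72 * P ^ 2 * n ^ 3 with hq
  set L := Finset.univ.filter (fun i => i ≠ i0 ∧ 2 * P * n * c i0 < c i + c i0) with hLdef
  have hL : L.card ≤ 2 * n := big_card hn hP φ hφ y c hc h i0 h0
  have hR : ∀ i, ∃ s : ℕ, i ∉ L → s < q * C ∧ c i0 * (1 + 1 / (q : ℝ)) ^ s ≤ c i ∧
      c i ≤ c i0 * (1 + 1 / (q : ℝ)) ^ s * (1 + 1 / (q : ℝ)) := by
    intro i
    by_cases hi : i ∈ L
    · exact ⟨0, fun h => absurd hi h⟩
    · have h2 : c i < ((2 * P * n : ℕ) : ℝ) * c i0 := by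
        have hPn' : (1 : ℝ) ≤ P * n := by exact_mod_cast hPn
        push_cast
        by_cases hii : i = i0
        · subst hii
          nlinarith [hc i]
        · have : ¬ (2 * P * n * c i0 < c i + c i0) := by
            intro h3
            exact hi (by simp [hLdef, hii, h3])
          have := hc i0
          linarith
      obtain ⟨s, hs1, hs2⟩ := geo_cover hq1 (hc i0) (h0 i) h2
      exact ⟨s, fun _ => ⟨s.2, hs1, hs2⟩⟩
  choose f hf using hR
  have hfib : ∀ s ∈ Finset.range (q * C),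
      ((Finset.univ \ L).filter (fun i => f i = s)).card ≤ 2 * (n * (q + 1) + 1) := by
    intro s _
    set F := (Finset.univ \ L).filter (fun i => f i = s) with hF
    have h1 := class_card hn hP φ hφ (ι := {i : ι // i ∈ F}) (fun i => y i) (fun i => c i)
      (fun i j hij => h i j (fun h => hij (Subtype.ext h)))
      (γ := c i0 * (1 + 1 / (q : ℝ)) ^ s) (by have := hc i0; positivity) ?_
    · rwa [Fintype.card_coe] at h1
    · intro i
      have hi := Finset.mem_filter.1 i.2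
      have := hf i (Finset.mem_sdiff.1 hi.1).2
      rw [hi.2] at this
      exact this.2
  have hcardR : (Finset.univ \ L).card ≤ 2 * (n * (q + 1) + 1) * (Finset.range (q * C)).card :=
    Finset.card_le_mul_card_image_of_maps_to (f := f) (fun i hi => by
      rw [Finset.mem_sdiff] at hi
      exact Finset.mem_range.2 (hf i hi.2).1) _ hfib
  have hcard : Fintype.card ι ≤ 2 * n + 2 * (n * (q + 1) + 1) * (q * C) := by
    have h1 : Fintype.card ι = (Finset.univ \ L).card + L.card := by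
      rw [Finset.card_sdiff_add_card_eq_card (Finset.subset_univ _), Finset.card_univ]
    rw [Finset.card_range] at hcardR
    omega
  refine hcard.trans ?_
  have e1 : n ≤ P ^ 2 * n ^ 4 := by
    calc n = 1 * n ^ 1 := by ring
      _ ≤ P ^ 2 * n ^ 4 := Nat.mul_le_mul (Nat.one_le_pow _ _ hP) (Nat.pow_le_pow_right hn (by norm_num))
  have e2 : n ≤ P ^ 4 * n ^ 7 * C := by
    calc n = 1 * n ^ 1 * 1 := by ring
      _ ≤ P ^ 4 * n ^ 7 * C := Nat.mul_le_mul (Nat.mul_le_mul (Nat.one_le_pow _ _ hP)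
        (Nat.pow_le_pow_right hn (by norm_num))) hC
  have e3 : 2 * (n * (q + 1) + 1) ≤ 148 * (P ^ 2 * n ^ 4) := by
    have : n * q = 72 * (P ^ 2 * n ^ 4) := by rw [hq]; ring
    have h2 : 2 * (n * (q + 1) + 1) = 2 * (n * q) + 2 * n + 2 := by ring
    rw [h2, this]
    omega
  have e4 : 2 * (n * (q + 1) + 1) * (q * C) ≤ 10656 * (P ^ 4 * n ^ 7 * C) := by
    calc 2 * (n * (q + 1) + 1) * (q * C) ≤ 148 * (P ^ 2 * n ^ 4) * (q * C) :=
          Nat.mul_le_mul_right _ e3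
      _ = 10656 * (P ^ 4 * n ^ 7 * C) := by rw [hq]; ring
  have e5 : 11000 * P ^ 4 * n ^ 7 * C = 11000 * (P ^ 4 * n ^ 7 * C) := by ring
  rw [e5]
  omega

end Pool.Agent.StB
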