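import Pool.Agent.StB.Red
import Pool.Agent.StB.CoreA

set_option autoImplicit false

open scoped BigOperators

namespace Pool.Agent.StB

/-- Module ma1: the body is convex and symmetric, its constraint functions are continuous. -/
theorem sumBody_convex {d s n P : ℕ} (f : Fin s → E d →ₗ[ℝ] ℝ) (a : Fin n → E d →ₗ[ℝ] ℝ)
    (φ : Fin n → ℝ → ℝ) (hφ : ∀ k, Gr P (φ k)) : Convex ℝ (sumBody f a φ) := by
  intro y hy z hz α β hα hβ hab
  refine ⟨fun l => ?_, ?_⟩
  · have h1 := hy.1 l
    have h2 := hz.1 l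
    rw [map_add, map_smul, map_smul, smul_eq_mul, smul_eq_mul]
    calc |α * f l y + β * f l z| ≤ |α * f l y| + |β * f l z| := abs_add_le _ _
      _ = α * |f l y| + β * |f l z| := by rw [abs_mul, abs_mul, abs_of_nonneg hα, abs_of_nonneg hβ]
      _ ≤ α * 1 + β * 1 := by gcongr
      _ = 1 := by rw [mul_one, mul_one, hab]
  · calc ∑ k, φ k (a k (α • y + β • z)) ≤ ∑ k, (α * φ k (a k y) + β * φ k (a k z)) := by
          refine Finset.sum_le_sum fun k _ => ?_
          have := (hφ k).conv.2 (Set.mem_univ (a k y)) (Set.mem_univ (a k z)) hα hβ hab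
          simpa [map_add, map_smul, smul_eq_mul] using this
      _ = α * ∑ k, φ k (a k y) + β * ∑ k, φ k (a k z) := by
          rw [Finset.sum_add_distrib, Finset.mul_sum, Finset.mul_sum]
      _ ≤ α * 1 + β * 1 := by
          have h1 := hy.2
          have h2 := hz.2
          gcongr
      _ = 1 := by rw [mul_one, mul_one, hab]

/-- Module ma1. -/
theorem sumBody_neg {d s n P : ℕ} (f : Fin s → E d →ₗ[ℝ] ℝ) (a : Fin n → E d →ₗ[ℝ] ℝ)
    (φ : Fin n → ℝ → ℝ) (hφ : ∀ k, Gr P (φ k)) : ∀ y ∈ sumBody f a φ, -y ∈ sumBody f a φ := by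
  rintro y ⟨h1, h2⟩
  refine ⟨fun l => by simpa using h1 l, ?_⟩
  simpa [(hφ _).even] using h2

/-- Module ma1 (convex functions on `ℝ` are continuous). -/
theorem Gr.continuous {P : ℕ} {φ : ℝ → ℝ} (h : Gr P φ) : Continuous φ := by
  have h1 : ContinuousOn φ Set.univ := h.conv.continuousOn isOpen_univ
  exact continuousOn_univ.1 h1

/-- Module ma2 (text section 1 for the sum body): use `red_mem`, `red_not`, `red_eq` with
`τ = Option (Fin s)`. -/
theorem pair_A {d s n P N : ℕ} (f : Fin s → E d →ₗ[ℝ] ℝ) (a : Fin n → E d →ₗ[ℝ] ℝ)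
    (φ : Fin n → ℝ → ℝ) (hφ : ∀ k, Gr P (φ k)) {c : Fin N → ℝ} {x : Fin N → E d}
    (hT : Tangent (sumBody f a φ) c x) {i j : Fin N} (hij : i ≠ j) :
    (∀ l, |f l (x i) - f l (x j)| ≤ c i + c j) ∧
    ((∃ l, |f l (x i) - f l (x j)| = c i + c j) ∨
      ∑ k, φ k ((a k (x i) - a k (x j)) / (c i + c j)) = 1) := by
  classical
  have hs := sumBody_neg f a φ hφ
  have hpos : 0 < c i + c j := add_pos (hT.1 i) (hT.1 j)
  set w := (c i + c j)⁻¹ • (x i - x j) with hw
  have hmem : w ∈ sumBody f a φ := red_mem (sumBody_convex f a φ hφ) hs hT hij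
  have hnot : w ∉ interior (sumBody f a φ) := red_not hs hT hij
  have hfw : ∀ l, f l w = (c i + c j)⁻¹ * (f l (x i) - f l (x j)) := by
    intro l; simp [hw, map_sub]
  have haw : ∀ k, a k w = (a k (x i) - a k (x j)) / (c i + c j) := by
    intro k; simp [hw, map_sub, div_eq_inv_mul]
  have hset : sumBody f a φ = {z | ∀ t : Option (Fin s),
      (t.elim (fun (z : E d) => ∑ k, φ k (a k z)) (fun l (z : E d) => |f l z|)) z ≤ 1} := by
    ext z
    simp only [sumBody, Set.mem_ofPred_eq]
    constructor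
    · rintro ⟨h1, h2⟩ (_ | l)
      · exact h2
      · exact h1 l
    · intro h
      exact ⟨fun l => h (some l), h none⟩
  have hcont : ∀ t : Option (Fin s), Continuous
      (t.elim (fun (z : E d) => ∑ k, φ k (a k z)) (fun l (z : E d) => |f l z|)) := by
    rintro (_ | l)
    · show Continuous (fun (z : E d) => ∑ k, φ k (a k z))
      refine continuous_finsetSum _ fun k _ => ?_
      exact (hφ k).continuous.comp (LinearMap.continuous_of_finiteDimensional (a k))
    · exact (LinearMap.continuous_of_finiteDimensional (f l)).abs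
  refine ⟨fun l => ?_, ?_⟩
  · have h1 := hmem.1 l
    rw [hfw, abs_mul, abs_of_pos (inv_pos.2 hpos), inv_mul_le_iff₀ hpos, mul_one] at h1
    exact h1
  · rw [hset] at hmem hnot
    obtain ⟨t, ht⟩ := red_eq _ hcont hmem hnot
    rcases t with _ | l
    · right
      have h1 : ∑ k, φ k (a k w) = 1 := ht
      simpa only [haw] using h1
    · left
      refine ⟨l, ?_⟩
      have h1 : |f l w| = 1 := ht
      rw [hfw, abs_mul, abs_of_pos (inv_pos.2 hpos), inv_mul_eq_iff_eq_mul₀ hpos.ne', mul_one] at h1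
      exact h1

/-- Module ma3: THEOREM A. -/
theorem main_A {d s n P : ℕ} (hn : 1 ≤ n) (hP : 1 ≤ P) (f : Fin s → E d →ₗ[ℝ] ℝ)
    (a : Fin n → E d →ₗ[ℝ] ℝ) (φ : Fin n → ℝ → ℝ) (hφ : ∀ k, Gr P (φ k)) {N : ℕ}
    (c : Fin N → ℝ) (x : Fin N → E d) (hT : Tangent (sumBody f a φ) c x) :
    N ≤ 2 ^ s * (11000 * P ^ 4 * n ^ 7 * Nat.clog 2 (2 * P * n)) := by
  classical
  have hsl : ∀ l : Fin s, ∃ col : Fin N → Bool,
      ∀ i j, col i = col j → |f l (x i) - f l (x j)| < c i + c j := by
    intro l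
    refine slab_col c (fun i => f l (x i)) hT.1 ?_
    intro i j
    by_cases hij : i = j
    · subst hij
      have := hT.1 i
      simp only [sub_self, abs_zero]
      linarith
    · exact (pair_A f a φ hφ hT hij).1 l
  choose col hcol using hsl
  refine col_split (fun i l => col l i) ?_
  intro v
  have h := core_A hn hP φ hφ
    (fun (i : {i : Fin N // i ∈ Finset.univ.filter (fun i => (fun l => col l i) = v)}) k =>
      a k (x i)) (fun i => c i) (fun i => hT.1 i) ?_
  · rwa [Fintype.card_coe] at h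
  · intro i j hij
    have hij' : (i : Fin N) ≠ j := fun h => hij (Subtype.ext h)
    have hi := (Finset.mem_filter.1 i.2).2
    have hj := (Finset.mem_filter.1 j.2).2
    rcases (pair_A f a φ hφ hT hij').2 with ⟨l, hl⟩ | hb
    · exfalso
      have := hcol l i j (congrFun (hi.trans hj.symm) l)
      linarith
    · exact hb

end Pool.Agent.StB
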