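import Pool.Agent.StB.CoreB

set_option autoImplicit false

open scoped BigOperators

namespace Pool.Agent.StB

/-- Module mb1. Barycentric coordinates: linear functionals `l k` with sum `0`, such that the
simplex is `{z | l k z ≥ b k}`, `∑ b k = -1`, its interior is `{z | l k z > b k}`, and every vector
with sum `0` is `(l k z)_k` for some `z`. (`AffineBasis`, `convexHull_eq_nonneg_coord`,
`interior_convexHull`.) -/
theorem simplex_coords {d : ℕ} (p : Fin (d + 1) → E d) (hp : AffineIndependent ℝ p) :
    ∃ (l : Fin (d + 1) → E d →ₗ[ℝ] ℝ) (b : Fin (d + 1) → ℝ),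
      (∀ z, ∑ k, l k z = 0) ∧ ∑ k, b k = -1 ∧
      convexHull ℝ (Set.range p) = {z | ∀ k, b k ≤ l k z} ∧
      interior (convexHull ℝ (Set.range p)) = {z | ∀ k, b k < l k z} ∧
      ∀ y : Fin (d + 1) → ℝ, ∑ k, y k = 0 → ∃ z, ∀ k, l k z = y k := by
  classical
  have htop : affineSpan ℝ (Set.range p) = ⊤ := by
    rw [hp.affineSpan_eq_top_iff_card_eq_finrank_add_one]
    simp
  let B : AffineBasis (Fin (d + 1)) ℝ (E d) := ⟨p, hp, htop⟩
  have hB : ∀ k, B k = p k := fun _ => rfl
  have hdec : ∀ k z, B.coord k z = (B.coord k).linear z + B.coord k 0 := by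
    intro k z
    have := (B.coord k).map_vadd 0 z
    simpa using this
  have hs : ∀ z, ∑ k, B.coord k z = 1 := fun z => B.sum_coord_apply_eq_one z
  refine ⟨fun k => (B.coord k).linear, fun k => - B.coord k 0, ?_, ?_, ?_, ?_, ?_⟩
  · intro z
    have h1 := hs z
    rw [Finset.sum_congr rfl fun k _ => hdec k z, Finset.sum_add_distrib, hs 0] at h1
    linarith
  · rw [Finset.sum_neg_distrib, hs 0]
  · have h1 := B.convexHull_eq_nonneg_coord
    have h2 : Set.range B = Set.range p := rfl
    rw [← h2, h1]
    ext z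
    simp only [Set.mem_ofPred_eq]
    refine forall_congr' fun k => ?_
    rw [hdec k z]
    constructor <;> intro h <;> linarith
  · have h1 := B.interior_convexHull
    have h2 : Set.range B = Set.range p := rfl
    rw [← h2, h1]
    ext z
    simp only [Set.mem_ofPred_eq]
    refine forall_congr' fun k => ?_
    rw [hdec k z]
    constructor <;> intro h <;> linarith
  · intro y hy
    refine ⟨∑ j, y j • p j, fun k => ?_⟩
    have h1 : ∀ j, (B.coord k).linear (p j) = (if k = j then 1 else 0) - B.coord k 0 := by
      intro j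
      have h2 := hdec k (p j)
      have h3 : B.coord k (p j) = if k = j then 1 else 0 := by
        rw [← hB j, B.coord_apply]
      rw [h3] at h2
      linarith
    rw [map_sum]
    simp only [map_smul, smul_eq_mul, h1, mul_sub, Finset.sum_sub_distrib]
    rw [← Finset.sum_mul, hy]
    simp

private theorem mb2_key {d : ℕ} {K : Set (E d)} (z : E d) {r : ℝ} (hr : 0 < r) {u : E d}
    (hu : r⁻¹ • (u - z) ∈ interior K) : u ∈ interior ((fun y => z + r • y) '' K) := by
  have h3 : IsOpenMap (fun y : E d => z + r • y) :=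
    (isOpenMap_add_left z).comp (isOpenMap_smul₀ hr.ne')
  refine h3.image_interior_subset K ⟨_, hu, ?_⟩
  simp [smul_smul, hr.ne']

/-- Module mb2 (text section 4, (T)): `a i k = l k (x i) + c i * b k`. -/
theorem simplex_sys {d : ℕ} (p : Fin (d + 1) → E d) (hp : AffineIndependent ℝ p) {N : ℕ}
    (c : Fin N → ℝ) (x : Fin N → E d) (hT : Tangent (convexHull ℝ (Set.range p)) c x) :
    ∃ a : Fin N → Fin (d + 1) → ℝ, SimSys a c := by
  obtain ⟨l, b, hl, hb, hK, hI, hsur⟩ := simplex_coords p hp
  refine ⟨fun i k => l k (x i) + c i * b k, ?_, ?_⟩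
  · intro i
    rw [Finset.sum_add_distrib, hl, ← Finset.mul_sum, hb]
    ring
  · intro i j hij
    have hmax : ∀ i, ∀ P ∈ (fun y => x i + c i • y) '' (convexHull ℝ (Set.range p)), ∀ k,
        l k (x i) + c i * b k ≤ l k P := by
      rintro i P ⟨u, hu, rfl⟩ k
      rw [hK] at hu
      simp only [map_add, map_smul, smul_eq_mul]
      have := mul_le_mul_of_nonneg_left (hu k) (hT.1 i).le
      linarith
    apply le_antisymm
    · obtain ⟨P, hPi, hPj⟩ := (hT.2 i j hij).1
      rw [← hl P]
      exact Finset.sum_le_sum fun k _ => max_le (hmax i P hPi k) (hmax j P hPj k)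
    · by_contra hneg
      push Not at hneg
      set σ := -∑ k, max (l k (x i) + c i * b k) (l k (x j) + c j * b k) with hσ
      have hσ0 : 0 < σ := by linarith
      have hd : (0 : ℝ) < ((d + 1 : ℕ) : ℝ) := by positivity
      obtain ⟨z, hz⟩ := hsur (fun k => max (l k (x i) + c i * b k) (l k (x j) + c j * b k) +
        σ / ((d + 1 : ℕ) : ℝ)) (by
          rw [Finset.sum_add_distrib, Finset.sum_const, Finset.card_univ, Fintype.card_fin,
            nsmul_eq_mul, mul_div_cancel₀ _ hd.ne']
          linarith)
      have hgt : 0 < σ / ((d + 1 : ℕ) : ℝ) := by positivity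
      have hint : ∀ i', (∀ k, l k (x i') + c i' * b k < l k z) →
          z ∈ interior ((fun y => x i' + c i' • y) '' (convexHull ℝ (Set.range p))) := by
        intro i' hi'
        have hci := hT.1 i'
        refine mb2_key (x i') hci ?_
        rw [hI]
        intro k
        rw [map_smul, map_sub, smul_eq_mul, lt_inv_mul_iff₀ hci]
        have := hi' k
        linarith
      have h1 : z ∈ interior ((fun y => x i + c i • y) '' (convexHull ℝ (Set.range p))) := by
        refine hint i fun k => ?_
        rw [hz k]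
        have := le_max_left (l k (x i) + c i * b k) (l k (x j) + c j * b k)
        linarith
      have h2 : z ∈ interior ((fun y => x j + c j • y) '' (convexHull ℝ (Set.range p))) := by
        refine hint j fun k => ?_
        rw [hz k]
        have := le_max_right (l k (x i) + c i * b k) (l k (x j) + c j * b k)
        linarith
      exact (Set.eq_empty_iff_forall_notMem.1 (hT.2 i j hij).2) z ⟨h1, h2⟩

/-- Module mb3: THEOREM B. -/
theorem main_B {d : ℕ} (hd : 1 ≤ d) (p : Fin (d + 1) → E d) (hp : AffineIndependent ℝ p) {N : ℕ}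
    (c : Fin N → ℝ) (x : Fin N → E d) (hT : Tangent (convexHull ℝ (Set.range p)) c x) :
    N ≤ 50 * (d + 1) ^ 4 * (Nat.clog 2 (d + 1) + 1) := by
  obtain ⟨a, ha⟩ := simplex_sys p hp c x hT
  have := core_B (by omega : 2 ≤ d + 1) hT.1 ha
  simpa using this

end Pool.Agent.StB
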