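import Pool.Agent.StB.GrL

set_option autoImplicit false

open scoped BigOperators

namespace Pool.Agent.StB

/-- Module bg1 (text 3.1). With `ρ = ra + rb` and `S = ∑ l, φ l ((ya l - yb l) / ρ)`:
`S ≤ 1 - min ra rb / (ρ n)` by convexity (in the coordinate `k` the smaller of the two terms is
saved) and `S ≥ (1 - 2 c / ρ) ^ P ≥ 1 - 2 c P / ρ` by the growth condition with
`L = ρ / (ρ - 2 c)`. -/
theorem big_pair {n P : ℕ} (hn : 1 ≤ n) (hP : 1 ≤ P) (φ : Fin n → ℝ → ℝ)
    (hφ : ∀ k, Gr P (φ k)) (ya yb : Fin n → ℝ) {ra rb c : ℝ} (hc : 0 < c) (hra : 2 * c ≤ ra)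
    (hrb : 2 * c ≤ rb) (h1 : ∑ k, φ k (ya k / ra) = 1) (h2 : ∑ k, φ k (yb k / rb) = 1)
    (h3 : ∑ k, φ k ((ya k - yb k) / (ra + rb - 2 * c)) = 1) (k : Fin n)
    (hka : 1 / (n : ℝ) ≤ φ k (ya k / ra)) (hkb : 1 / (n : ℝ) ≤ φ k (yb k / rb))
    (hsg : 0 ≤ ya k * yb k) : min ra rb ≤ 2 * P * n * c := by

  have hra0 : 0 < ra := by linarith
  have hrb0 : 0 < rb := by linarith
  have hn' : (0 : ℝ) < n := by exact_mod_cast hn
  obtain ⟨ρ, hρ⟩ : ∃ ρ, ρ = ra + rb := ⟨_, rfl⟩
  have hρ0 : 0 < ρ := by linarith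
  have hρ4 : 4 * c ≤ ρ := by linarith
  have hρc : 0 < ρ - 2 * c := by linarith
  -- upper bound
  have hup : ∀ l, φ l ((ya l - yb l) / ρ) ≤
      ra / ρ * φ l (ya l / ra) + rb / ρ * φ l (yb l / rb) := by
    intro l
    have e1 : (ya l - yb l) / ρ = ra / ρ * (ya l / ra) - rb / ρ * (yb l / rb) := by
      field_simp
    rw [e1]
    refine (hφ l).comb (by positivity) (by positivity) ?_
    rw [← add_div, ← hρ, div_self hρ0.ne']
  have hk : φ k ((ya k - yb k) / ρ) + min ra rb / ρ * (1 / n) ≤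
      ra / ρ * φ k (ya k / ra) + rb / ρ * φ k (yb k / rb) := by
    have hmn : 0 < min ra rb := lt_min hra0 hrb0
    have aux : ∀ (s t r r' : ℝ), 0 < r → 0 < r' → 0 ≤ s * t → |t| ≤ |s| →
        min ra rb ≤ r' → 1 / (n : ℝ) ≤ φ k (t / r') →
        φ k ((s - t) / ρ) + min ra rb / ρ * (1 / n) ≤
          r / ρ * φ k (s / r) + r' / ρ * φ k (t / r') ∨ ρ < r := by
      intro s t r r' hr hr' hst hts hm hφt
      by_cases hrρ : ρ < r
      · exact Or.inr hrρ
      left
      rw [not_lt] at hrρ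
      have h4 : |s - t| ≤ |s| := by
        rcases le_or_gt 0 s with h5 | h5
        · rcases eq_or_lt_of_le h5 with h6 | h6
          · rw [← h6, abs_zero] at hts
            have h7 : t = 0 := abs_eq_zero.1 (le_antisymm hts (abs_nonneg t))
            rw [← h6, h7, sub_zero]
          · have h7 : 0 ≤ t := by
              by_contra h8
              rw [not_le] at h8
              have := mul_neg_of_pos_of_neg h6 h8
              linarith
            rw [abs_of_nonneg h7, abs_of_nonneg h5] at hts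
            rw [abs_of_nonneg (by linarith), abs_of_nonneg h5]
            linarith
        · have h7 : t ≤ 0 := by
            by_contra h8
            rw [not_le] at h8
            have := mul_neg_of_neg_of_pos h5 h8
            linarith
          rw [abs_of_nonpos h7, abs_of_neg h5] at hts
          rw [abs_of_nonpos (by linarith), abs_of_neg h5]
          linarith
      have h5 : φ k ((s - t) / ρ) ≤ r / ρ * φ k (s / r) := by
        rw [← (hφ k).abs ((s - t) / ρ), abs_div, abs_of_pos hρ0]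
        have h6 : |s - t| / ρ ≤ |s| / ρ := div_le_div_of_nonneg_right h4 hρ0.le
        refine ((hφ k).mono (by positivity) h6).trans ?_
        have h7 : |s| / ρ = r / ρ * |s / r| := by
          rw [abs_div, abs_of_pos hr]
          field_simp
        rw [h7, ← (hφ k).abs (s / r)]
        exact (hφ k).smul (by positivity) ((div_le_one hρ0).2 hrρ)
      have h6 : min ra rb / ρ * (1 / n) ≤ r' / ρ * φ k (t / r') :=
        mul_le_mul (div_le_div_of_nonneg_right hm hρ0.le) hφt (by positivity) (by positivity)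
      linarith
    rcases le_total |yb k| |ya k| with h4 | h4
    · rcases aux (ya k) (yb k) ra rb hra0 hrb0 hsg h4 (min_le_right _ _) hkb with h5 | h5
      · exact h5
      · linarith
    · rcases aux (yb k) (ya k) rb ra hrb0 hra0 (by linarith [mul_comm (ya k) (yb k)]) h4
        (min_le_left _ _) hka with h5 | h5
      · have h6 : (yb k - ya k) / ρ = -((ya k - yb k) / ρ) := by ring
        rw [h6, (hφ k).even] at h5
        linarith
      · linarith
  have hS : ∑ l, φ l ((ya l - yb l) / ρ) ≤ 1 - min ra rb / ρ * (1 / n) := by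
    have h4 : ∑ l, φ l ((ya l - yb l) / ρ) + min ra rb / ρ * (1 / n) ≤
        ∑ l, (ra / ρ * φ l (ya l / ra) + rb / ρ * φ l (yb l / rb)) := by
      rw [← Finset.add_sum_erase _ _ (Finset.mem_univ k),
        ← Finset.add_sum_erase _ (fun l => ra / ρ * φ l (ya l / ra) + rb / ρ * φ l (yb l / rb))
          (Finset.mem_univ k)]
      have h5 := Finset.sum_le_sum fun l (_ : l ∈ Finset.univ.erase k) => hup l
      linarith
    rw [Finset.sum_add_distrib, ← Finset.mul_sum, ← Finset.mul_sum, h1, h2, mul_one, mul_one,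
      ← add_div, ← hρ, div_self hρ0.ne'] at h4
    linarith
  -- lower bound
  have hL : 1 ≤ ρ / (ρ - 2 * c) := by
    rw [one_le_div hρc]
    linarith
  have hlo : 1 ≤ (ρ / (ρ - 2 * c)) ^ P * ∑ l, φ l ((ya l - yb l) / ρ) := by
    rw [Finset.mul_sum, ← h3]
    refine Finset.sum_le_sum fun l _ => ?_
    have e1 : (ya l - yb l) / (ra + rb - 2 * c) = ρ / (ρ - 2 * c) * ((ya l - yb l) / ρ) := by
      rw [← hρ]
      field_simp
    rw [e1, ← (hφ l).abs (ρ / (ρ - 2 * c) * ((ya l - yb l) / ρ)), abs_mul,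
      abs_of_nonneg (by linarith : 0 ≤ ρ / (ρ - 2 * c)), ← (hφ l).abs ((ya l - yb l) / ρ)]
    exact (hφ l).grow _ _ hL (abs_nonneg _)
  have hinv : (1 - 2 * c / ρ) ^ P * (ρ / (ρ - 2 * c)) ^ P = 1 := by
    rw [← mul_pow]
    have e2 : (1 - 2 * c / ρ) * (ρ / (ρ - 2 * c)) = 1 := by
      field_simp
    rw [e2, one_pow]
  have hq0 : 0 ≤ 1 - 2 * c / ρ := by
    rw [sub_nonneg, div_le_one hρ0]
    linarith
  have h4 : (1 - 2 * c / ρ) ^ P ≤ ∑ l, φ l ((ya l - yb l) / ρ) := by
    have h5 := mul_le_mul_of_nonneg_left hlo (pow_nonneg hq0 P)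
    rw [← mul_assoc, hinv, one_mul, mul_one] at h5
    exact h5
  have h5 : 1 + (P : ℝ) * (-(2 * c / ρ)) ≤ (1 + -(2 * c / ρ)) ^ P := by
    refine one_add_mul_le_pow ?_ P
    linarith
  have h6 : (1 + -(2 * c / ρ)) = 1 - 2 * c / ρ := by ring
  rw [h6] at h5
  have h7 : min ra rb / ρ * (1 / n) ≤ P * (2 * c / ρ) := by linarith
  have h8 : min ra rb / ρ * (1 / n) * (ρ * n) = min ra rb := by
    field_simp
  have h9 : P * (2 * c / ρ) * (ρ * n) = 2 * P * n * c := by
    field_simp
  have h10 := mul_le_mul_of_nonneg_right h7 (mul_nonneg hρ0.le hn'.le)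
  rw [h8, h9] at h10
  exact h10

/-- Module bg2 (text 3.1). `i ↦ (k i, sign)` is injective on the large indices. -/
theorem big_card {n P : ℕ} (hn : 1 ≤ n) (hP : 1 ≤ P) (φ : Fin n → ℝ → ℝ)
    (hφ : ∀ k, Gr P (φ k)) {ι : Type} [Fintype ι] [DecidableEq ι] (y : ι → Fin n → ℝ) (c : ι → ℝ)
    (hc : ∀ i, 0 < c i) (h : EqSys φ y c) (i0 : ι) (h0 : ∀ i, c i0 ≤ c i) :
    (Finset.univ.filter (fun i => i ≠ i0 ∧ 2 * P * n * c i0 < c i + c i0)).card ≤ 2 * n := by

  have hn' : (0 : ℝ) < n := by exact_mod_cast hn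
  have hex : ∀ i, ∃ k : Fin n, i ≠ i0 → 1 / (n : ℝ) ≤ φ k ((y i k - y i0 k) / (c i + c i0)) := by
    intro i
    by_cases hi : i = i0
    · exact ⟨⟨0, hn⟩, fun h' => absurd hi h'⟩
    · by_contra hcon
      push Not at hcon
      have h1 := h i i0 hi
      have h2 : ∑ k, φ k ((y i k - y i0 k) / (c i + c i0)) < ∑ _k : Fin n, 1 / (n : ℝ) :=
        Finset.sum_lt_sum_of_nonempty ⟨⟨0, hn⟩, Finset.mem_univ _⟩ fun k _ => (hcon k).2
      rw [h1, Finset.sum_const, Finset.card_univ, Fintype.card_fin, nsmul_eq_mul,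
        mul_one_div_cancel hn'.ne'] at h2
      exact lt_irrefl _ h2
  choose kk hkk using hex
  have hcard : (2 * n : ℕ) = (Finset.univ : Finset (Fin n × Bool)).card := by
    rw [Finset.card_univ, Fintype.card_prod, Fintype.card_fin, Fintype.card_bool, mul_comm]
  rw [hcard]
  refine Finset.card_le_card_of_injOn (fun i => (kk i, decide (0 ≤ y i (kk i) - y i0 (kk i))))
    (fun i _ => Finset.mem_coe.2 (Finset.mem_univ _)) ?_
  intro i hi j hj hij
  have hi := (Finset.mem_filter.1 (Finset.mem_coe.1 hi)).2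
  have hj := (Finset.mem_filter.1 (Finset.mem_coe.1 hj)).2
  by_contra hne
  obtain ⟨h1, h2⟩ := Prod.mk.inj hij
  rw [decide_eq_decide] at h2
  have h3 := hkk i hi.1
  have h4 := hkk j hj.1
  rw [← h1] at h2 h4
  have h5 := big_pair hn hP φ hφ (fun l => y i l - y i0 l) (fun l => y j l - y i0 l)
    (ra := c i + c i0) (rb := c j + c i0) (c := c i0) (hc i0)
    (by have := h0 i; linarith) (by have := h0 j; linarith) (h i i0 hi.1) (h j i0 hj.1)
    (by
      have e := h i j hne
      have e1 : c i + c i0 + (c j + c i0) - 2 * c i0 = c i + c j := by ring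
      rw [e1]
      rw [← e]
      refine Finset.sum_congr rfl fun l _ => ?_
      congr 2
      ring) (kk i) h3 h4
    (by
      by_cases h6 : 0 ≤ y i (kk i) - y i0 (kk i)
      · exact mul_nonneg h6 (h2.1 h6)
      · have h7 : ¬ 0 ≤ y j (kk i) - y i0 (kk i) := fun h' => h6 (h2.2 h')
        exact mul_nonneg_of_nonpos_of_nonpos (not_le.1 h6).le (not_le.1 h7).le)
  rcases min_le_iff.1 h5 with h6 | h6
  · linarith [hi.2]
  · linarith [hj.2]

end Pool.Agent.StB
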