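import Pool.Agent.StB.Lew

/-!
# Points of a subspace of `L_p` in Lewis' position
-/

set_option autoImplicit false

open scoped BigOperators
open MeasureTheory

namespace Pool.Agent.StB

/-- The measure with small atoms at the basis vectors. -/
noncomputable def lewMu {e : ℕ} (μ : Measure (E e)) (ε : ℝ) : Measure (E e) :=
  μ + ∑ k : Fin e, ENNReal.ofReal ε • Measure.dirac (EuclideanSpace.single k (1 : ℝ))

theorem lewMu_int {e : ℕ} {μ : Measure (E e)} {ε : ℝ} (hε : 0 ≤ ε) {f : E e → ℝ}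
    (hf : Integrable f μ) :
    Integrable f (lewMu μ ε) ∧ ∫ u, f u ∂(lewMu μ ε) =
      ∫ u, f u ∂μ + ∑ k : Fin e, ε * f (EuclideanSpace.single k (1 : ℝ)) := by
  have h1 : ∀ k : Fin e, Integrable f
      (ENNReal.ofReal ε • Measure.dirac (EuclideanSpace.single k (1 : ℝ))) := fun k =>
    (integrable_dirac (by simp)).smul_measure ENNReal.ofReal_ne_top
  have h2 : Integrable f
      (∑ k : Fin e, ENNReal.ofReal ε • Measure.dirac (EuclideanSpace.single k (1 : ℝ))) :=
    integrable_finsetSum_measure.2 fun k _ => h1 k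
  refine ⟨hf.add_measure h2, ?_⟩
  rw [lewMu, integral_add_measure hf h2, integral_finsetSum_measure fun k _ => h1 k]
  congr 1
  refine Finset.sum_congr rfl fun k _ => ?_
  rw [integral_smul_measure, integral_dirac, ENNReal.toReal_ofReal hε, smul_eq_mul]

/-- Points in Lewis' position. -/
theorem lew_pts {e : ℕ} {p : ℝ} (hp : 2 ≤ p) (μ : Measure (E e))
    (hμ : Integrable (fun u => ‖u‖ ^ p) μ) {ι : Type} [Fintype ι] (v : ι → E e) (r : ι → ℝ)
    (hr : ∀ i, 0 < r i) (h : ∀ i, ∫ u, |inner ℝ (v i) u| ^ p ∂μ ≤ r i ^ p) :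
    ∃ ρ : E e → ℝ, (∀ u, 0 ≤ ρ u) ∧ Integrable (fun u => ρ u ^ p) μ ∧ ∫ u, ρ u ^ p ∂μ ≤ 1 ∧
      ∀ i u, |inner ℝ (v i) u| ≤ Real.sqrt (30 * 4 ^ (p - 2) * e) * (2 * r i) * ρ u := by
  classical
  have hp0 : 0 < p := by linarith
  -- the atoms
  obtain ⟨ε, hε, hεi⟩ : ∃ ε : ℝ, 0 < ε ∧ ∀ i, ε * ∑ k : Fin e, |v i k| ^ p ≤ r i ^ p := by
    have h1 : ∀ i, ∃ ε : ℝ, 0 < ε ∧ ε * ∑ k : Fin e, |v i k| ^ p ≤ r i ^ p := by
      intro i
      have h2 : 0 ≤ ∑ k : Fin e, |v i k| ^ p :=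
        Finset.sum_nonneg fun k _ => Real.rpow_nonneg (abs_nonneg _) _
      have h3 : 0 < r i ^ p := Real.rpow_pos_of_pos (hr i) _
      refine ⟨r i ^ p / (1 + ∑ k : Fin e, |v i k| ^ p), by positivity, ?_⟩
      rw [div_mul_eq_mul_div, div_le_iff₀ (by linarith)]
      nlinarith
    choose ε hε hε2 using h1
    rcases isEmpty_or_nonempty ι with hemp | hne
    · exact ⟨1, one_pos, fun i => (hemp.false i).elim⟩
    · obtain ⟨i0, hi0⟩ := Finite.exists_min ε
      refine ⟨ε i0, hε i0, fun i => ?_⟩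
      refine le_trans (mul_le_mul_of_nonneg_right (hi0 i) ?_) (hε2 i)
      exact Finset.sum_nonneg fun k _ => Real.rpow_nonneg (abs_nonneg _) _
  have hν : Integrable (fun u => ‖u‖ ^ p) (lewMu μ ε) :=
    (lewMu_int hε.le hμ).1
  have hnd : ∀ (k : Fin e) (T : E e →ₗ[ℝ] E e),
      ε * ‖T (EuclideanSpace.single k (1 : ℝ))‖ ^ p ≤ ∫ u, ‖T u‖ ^ p ∂(lewMu μ ε) := by
    intro k T
    rw [(lewMu_int hε.le (lew_int (by linarith) hμ T)).2]
    have h1 : 0 ≤ ∫ u, ‖T u‖ ^ p ∂μ := integral_nonneg fun u => Real.rpow_nonneg (norm_nonneg _) _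
    have h2 := Finset.single_le_sum (f := fun k : Fin e =>
      ε * ‖T (EuclideanSpace.single k (1 : ℝ))‖ ^ p) (fun k _ => by positivity) (Finset.mem_univ k)
    linarith
  obtain ⟨S, hS0, hS1, hS2⟩ := lewis hp (lewMu μ ε) hν hε hnd
  refine ⟨fun u => ‖S u‖, fun u => norm_nonneg _, lew_int (by linarith) hμ S, ?_, ?_⟩
  · rw [(lewMu_int hε.le (lew_int (by linarith) hμ S)).2] at hS1
    have h1 : 0 ≤ ∑ k : Fin e, ε * ‖S (EuclideanSpace.single k (1 : ℝ))‖ ^ p :=
      Finset.sum_nonneg fun k _ => by positivity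
    linarith
  · intro i u
    set Se := LinearMap.equivOfDetNeZero S hS0 with hSe
    have hSeu : ∀ w, Se w = S w := fun w => rfl
    set z : E e := LinearMap.adjoint (Se.symm : E e →ₗ[ℝ] E e) (v i) with hz
    have hzi : ∀ w, inner ℝ z (S w) = inner ℝ (v i) w := by
      intro w
      rw [hz, LinearMap.adjoint_inner_left]
      congr 1
      change Se.symm (S w) = w
      rw [← hSeu, LinearEquiv.symm_apply_apply]
    have h1 : ∫ u, |inner ℝ z (S u)| ^ p ∂(lewMu μ ε) ≤ (2 * r i) ^ p := by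
      simp only [hzi]
      rw [(lewMu_int hε.le (lp_int (by linarith) hμ (v i))).2]
      have h2 : ∑ k : Fin e, ε * |inner ℝ (v i) (EuclideanSpace.single k (1 : ℝ))| ^ p =
          ε * ∑ k : Fin e, |v i k| ^ p := by
        rw [Finset.mul_sum]
        refine Finset.sum_congr rfl fun k _ => ?_
        rw [EuclideanSpace.inner_single_right]
        simp
      rw [h2]
      have h3 : (2 * r i) ^ p = 2 ^ p * r i ^ p := Real.mul_rpow (by norm_num) (hr i).le
      have h4 : (2 : ℝ) ≤ 2 ^ p := by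
        have := Real.rpow_le_rpow_of_exponent_le (by norm_num : (1 : ℝ) ≤ 2) (by linarith : 1 ≤ p)
        rwa [Real.rpow_one] at this
      have h5 : 0 < r i ^ p := Real.rpow_pos_of_pos (hr i) _
      rw [h3]
      have h6 := h i
      have h7 := hεi i
      nlinarith
    have h2 := hS2 z (2 * r i) (by have := hr i; linarith) h1
    have h3 : ‖z‖ ≤ Real.sqrt (30 * 4 ^ (p - 2) * e) * (2 * r i) := by
      have hri := hr i
      have h4 : (0 : ℝ) ≤ 30 * 4 ^ (p - 2) * e := by positivity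
      rw [← Real.sqrt_sq (by linarith : 0 ≤ 2 * r i), ← Real.sqrt_mul h4]
      exact Real.le_sqrt_of_sq_le h2
    rw [← hzi]
    refine (abs_real_inner_le_norm _ _).trans ?_
    exact mul_le_mul_of_nonneg_right h3 (norm_nonneg _)

end Pool.Agent.StB
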