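import Pool.Agent.StB.TailP
import Pool.Agent.StB.Lew2

/-!
# `p > 2`: the bound for comparable radii
-/

set_option autoImplicit false

open scoped BigOperators
open MeasureTheory

namespace Pool.Agent.StB

private theorem cp_const {p : ℝ} (hp : 2 < p) {K1 K2 x1 x2 : ℝ} (hK1 : 0 < K1) (hK2 : 0 < K2)
    (hx1 : 0 ≤ x1) (hx2 : 0 ≤ x2) : ∃ K : ℕ, 1 ≤ K ∧ p ≤ K ∧ K1 * (x1 / K) ^ p ≤ 2 ^ p / 4 ∧
      K2 * (x2 / K) ^ p ≤ 2 ^ p / 4 := by
  have hp0 : 0 < p := by linarith
  set K : ℕ := ⌈p + 4 * K1 * x1 ^ p + 4 * K2 * x2 ^ p⌉₊ with hK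
  have h1 : p + 4 * K1 * x1 ^ p + 4 * K2 * x2 ^ p ≤ K := Nat.le_ceil _
  have h2 : 0 ≤ 4 * K1 * x1 ^ p := by positivity
  have h3 : 0 ≤ 4 * K2 * x2 ^ p := by positivity
  have hKp : p ≤ K := by linarith
  have hK1' : (1 : ℝ) ≤ K := by linarith
  have hK0 : (0 : ℝ) < K := by linarith
  have h2p : (1 : ℝ) ≤ 2 ^ p := Real.one_le_rpow (by norm_num) hp0.le
  have hKK : (K : ℝ) ≤ (K : ℝ) ^ p := by
    have := Real.rpow_le_rpow_of_exponent_le hK1' (by linarith : 1 ≤ p)
    rwa [Real.rpow_one] at this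
  have key : ∀ k x : ℝ, 0 < k → 0 ≤ x → 4 * k * x ^ p ≤ K → k * (x / K) ^ p ≤ 2 ^ p / 4 := by
    intro k x hk hx h
    have hxp : 0 ≤ x ^ p := Real.rpow_nonneg hx _
    rw [Real.div_rpow hx hK0.le, mul_div_assoc', div_le_div_iff₀ (Real.rpow_pos_of_pos hK0 _)
      (by norm_num)]
    nlinarith
  refine ⟨K, by exact_mod_cast hK1', hKp, key K1 x1 hK1 hx1 (by linarith),
    key K2 x2 hK2 hx2 (by linarith)⟩

/-- Comparable radii, `p > 2`. -/
theorem class_P {p : ℝ} (hp : 2 < p) {R : ℝ} (hR : 1 ≤ R) : ∃ K : ℕ, 1 ≤ K ∧ ∀ (e : ℕ)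
    (ι : Type) [Fintype ι] (y : ι → E e) (c : ι → ℝ) (μ : Measure (E e)) (c0 : ℝ) (Q k : ℕ),
    Integrable (fun u => ‖u‖ ^ p) μ → 0 < c0 → (∀ i, c0 ≤ c i) → (∀ i, c i ≤ R * c0) →
    (∀ i j, i ≠ j → ∫ u, |inner ℝ (y i - y j) u| ^ p ∂μ = (c i + c j) ^ p) →
    Q = K * (Nat.sqrt e + 1) → k + 1 = 2 * Q →
    Fintype.card ι ≤ 2 * (Nat.choose (e + k) k + 2 * K) := by
  have hp0 : 0 < p := by linarith
  obtain ⟨K1, hK1, hexp⟩ := tail_exp hp
  obtain ⟨K2, hK2, hcos⟩ := tail_cos hp
  set a : ℝ := Real.sqrt (30 * 4 ^ (p - 2)) with ha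
  have ha0 : 0 ≤ a := Real.sqrt_nonneg _
  obtain ⟨K, hKone, hKp, hc1, hc2⟩ := cp_const hp hK1 hK2 (by linarith : 0 ≤ R)
    (by positivity : 0 ≤ 4 * a * R)
  refine ⟨K, hKone, ?_⟩
  intro e ι _ y c μ c0 Q k hμ hc0 hcl hcu h hQ hk
  classical
  rcases isEmpty_or_nonempty ι with hemp | hne
  · simp
  obtain ⟨i0⟩ := hne
  have hK0 : (0 : ℝ) < K := by
    have : (1 : ℝ) ≤ K := by exact_mod_cast hKone
    linarith
  have hcp : ∀ i, 0 < c i := fun i => lt_of_lt_of_le hc0 (hcl i)
  -- the moment map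
  obtain ⟨A, hA, hA'⟩ := card_multi_le e k
  set y' : ι → E e := fun i => y i - y i0 with hy'
  have hyy : ∀ i j, y' i - y' j = y i - y j := by
    intro i j
    simp only [hy']
    abel
  let L : EuclideanSpace ℝ ι →ₗ[ℝ] ((A → ℝ) × (Fin (2 * K) → ℝ)) :=
    { toFun := fun w => (fun α => ∑ i, w i * ∏ l, y' i l ^ (α : Fin e →₀ ℕ) l,
        fun a => ∑ i, w i * c i ^ (a : ℕ))
      map_add' := by
        intro w w'
        ext
        · simp [add_mul, Finset.sum_add_distrib]
        · simp [add_mul, Finset.sum_add_distrib]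
      map_smul' := by
        intro r w
        ext
        · simp [Finset.mul_sum, mul_assoc]
        · simp [Finset.mul_sum, mul_assoc] }
  set V := LinearMap.ker L with hV
  set D := Module.finrank ℝ V with hD
  have hdim : Fintype.card ι ≤ A.card + 2 * K + D := by
    have h1 : Module.finrank ℝ (LinearMap.range L) + D =
        Module.finrank ℝ (EuclideanSpace ℝ ι) := LinearMap.finrank_range_add_finrank_ker L
    have h2 := Submodule.finrank_le (LinearMap.range L)
    rw [Module.finrank_prod, Module.finrank_fintype_fun_eq_card,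
      Module.finrank_fintype_fun_eq_card, Fintype.card_coe, Fintype.card_fin] at h2
    rw [finrank_euclideanSpace] at h1
    omega
  let b := stdOrthonormalBasis ℝ V
  let W : Fin D → EuclideanSpace ℝ ι := fun l => (b l : EuclideanSpace ℝ ι)
  have hW : Orthonormal ℝ W := b.orthonormal.comp_linearIsometry V.subtypeₗᵢ
  have hWL : ∀ l, L (W l) = 0 := fun l => LinearMap.mem_ker.1 (b l).2
  have hW1 : ∀ l, ∑ i, (W l i) ^ 2 = 1 := by
    intro l
    have h4 := hW.1 l
    have h5 := EuclideanSpace.norm_sq_eq (W l)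
    rw [h4] at h5
    simp only [Real.norm_eq_abs, sq_abs] at h5
    linarith
  have hwA : ∀ l, ∀ α : Fin e →₀ ℕ, ∑ l, α l ≤ k → ∑ i, W l i * ∏ l, y' i l ^ α l = 0 := by
    intro l α hα
    have := congrFun (congrArg Prod.fst (hWL l)) ⟨α, hA' α hα⟩
    simpa [L] using this
  have hwc : ∀ l, ∀ a < 2 * K, ∑ i, W l i * c i ^ a = 0 := by
    intro l a ha
    have := congrFun (congrArg Prod.snd (hWL l)) ⟨a, ha⟩
    simpa [L] using this
  have hwy : ∀ l, ∀ (u : E e), ∀ a < 2 * Q, ∑ i, W l i * (inner ℝ (y' i) u) ^ a = 0 := by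
    intro l u a ha
    obtain ⟨S, r, hS, hr⟩ := inner_pow_expand u a
    have h3 : ∀ i, W l i * (inner ℝ (y' i) u) ^ a =
        ∑ α ∈ S, r α * (W l i * ∏ l, y' i l ^ α l) := by
      intro i
      rw [hr, Finset.mul_sum]
      exact Finset.sum_congr rfl fun α _ => by ring
    rw [Finset.sum_congr rfl fun i _ => h3 i, Finset.sum_comm]
    refine Finset.sum_eq_zero fun α hα => ?_
    rw [← Finset.mul_sum, hwA l α ((hS α hα).trans (by omega)), mul_zero]
  -- numbers
  set n : ℝ := (Fintype.card ι : ℝ) with hn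
  have hn0 : 0 ≤ n := Nat.cast_nonneg _
  have hKQ : (K : ℝ) * Real.sqrt e ≤ Q := by
    rw [hQ]
    push_cast
    refine mul_le_mul_of_nonneg_left ?_ hK0.le
    exact Real.real_sqrt_le_nat_sqrt_succ
  have hQ1 : 1 ≤ Q := by
    rw [hQ]
    exact Nat.mul_pos hKone (Nat.succ_pos _)
  have hQ0 : (0 : ℝ) < Q := by exact_mod_cast hQ1
  have hKQ' : (K : ℝ) ≤ Q := by
    have : K ≤ Q := by
      rw [hQ]
      exact Nat.le_mul_of_pos_right _ (Nat.succ_pos _)
    exact_mod_cast this
  have hc0p : 0 < c0 ^ p := Real.rpow_pos_of_pos hc0 _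
  -- the radii part
  have hRpart : |∑ l, ∑ i, ∑ j, W l i * W l j * (c i + c j) ^ p| ≤ n * (2 ^ p / 4 * c0 ^ p) := by
    have h1 := hexp ι D W c (R * c0) K hW (by positivity) (fun i => (hcp i).le) hcu
      (by linarith) hwc
    refine h1.trans ?_
    have h2 : (R * c0 / K) ^ p = (R / K) ^ p * c0 ^ p := by
      rw [← Real.mul_rpow (by positivity) hc0.le]
      congr 1
      ring
    rw [h2]
    calc K1 * n * ((R / K) ^ p * c0 ^ p) = n * ((K1 * (R / K) ^ p) * c0 ^ p) := by ring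
      _ ≤ _ := mul_le_mul_of_nonneg_left (mul_le_mul_of_nonneg_right hc1 hc0p.le) hn0
  -- the points part
  obtain ⟨ρ, hρ0, hρi, hρ1, hρ⟩ := lew_pts hp.le μ hμ y' (fun i => c i + c i0)
    (fun i => add_pos (hcp i) (hcp i0)) (fun i => by
      by_cases hi : i = i0
      · subst hi
        have h1 : ∀ u, |inner ℝ (y' i) u| ^ p = 0 := by
          intro u
          simp [hy', Real.zero_rpow hp0.ne']
        simp only [h1, integral_zero]
        have := hcp i
        positivity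
      · exact (h i i0 hi).le)
  have hint : ∀ z : E e, Integrable (fun u => |inner ℝ z u| ^ p) μ := lp_int (by linarith) hμ
  have hPpart : |∑ l, ∑ i, ∑ j, W l i * W l j * ∫ u, |inner ℝ (y i - y j) u| ^ p ∂μ| ≤
      n * (2 ^ p / 4 * c0 ^ p) := by
    have e1 : ∑ l, ∑ i, ∑ j, W l i * W l j * ∫ u, |inner ℝ (y i - y j) u| ^ p ∂μ =
        ∫ u, ∑ l, ∑ i, ∑ j, W l i * W l j * |inner ℝ (y i - y j) u| ^ p ∂μ := by
      rw [integral_finsetSum _ fun l _ => integrable_finsetSum _ fun i _ =>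
        integrable_finsetSum _ fun j _ => (hint _).const_mul _]
      refine Finset.sum_congr rfl fun l _ => ?_
      rw [integral_finsetSum _ fun i _ => integrable_finsetSum _ fun j _ =>
        (hint _).const_mul _]
      refine Finset.sum_congr rfl fun i _ => ?_
      rw [integral_finsetSum _ fun j _ => (hint _).const_mul _]
      refine Finset.sum_congr rfl fun j _ => ?_
      rw [integral_const_mul]
    rw [e1]
    set B : ℝ := a * Real.sqrt e * (4 * R * c0) with hB
    have hB0 : 0 ≤ B := by positivity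
    have hbd : ∀ u, ‖∑ l, ∑ i, ∑ j, W l i * W l j * |inner ℝ (y i - y j) u| ^ p‖ ≤
        K2 * n * (B / Q) ^ p * ρ u ^ p := by
      intro u
      rw [Real.norm_eq_abs]
      have h1 := hcos ι D W (fun i => inner ℝ (y' i) u) (B * ρ u) Q hW
        (mul_nonneg hB0 (hρ0 u)) (fun i => by
          refine (hρ i u).trans (mul_le_mul_of_nonneg_right ?_ (hρ0 u))
          have h3 : Real.sqrt (30 * 4 ^ (p - 2) * e) = a * Real.sqrt e := by
            rw [ha, Real.sqrt_mul (by positivity)]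
          rw [h3, hB]
          refine mul_le_mul_of_nonneg_left ?_ (by positivity)
          have := hcu i
          have := hcu i0
          linarith) (by linarith) (fun l => hwy l u)
      have h2 : ∀ i j, inner ℝ (y' i) u - inner ℝ (y' j) u = inner ℝ (y i - y j) u := by
        intro i j
        rw [← inner_sub_left, hyy]
      simp only [h2] at h1
      refine h1.trans (le_of_eq ?_)
      have h3 : (B * ρ u / Q) ^ p = (B / Q) ^ p * ρ u ^ p := by
        rw [← Real.mul_rpow (by positivity) (hρ0 u)]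
        congr 1
        ring
      rw [h3]
      ring
    have h2 := norm_integral_le_of_norm_le (hρi.const_mul (K2 * n * (B / Q) ^ p))
      (Filter.Eventually.of_forall hbd)
    rw [Real.norm_eq_abs, integral_const_mul] at h2
    refine h2.trans ?_
    have h3 : K2 * n * (B / Q) ^ p * ∫ u, ρ u ^ p ∂μ ≤ K2 * n * (B / Q) ^ p * 1 :=
      mul_le_mul_of_nonneg_left hρ1 (by positivity)
    refine h3.trans ?_
    have h4 : B / Q ≤ (4 * a * R / K) * c0 := by
      rw [div_le_iff₀ hQ0]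
      calc B = (4 * a * R / K * c0) * (K * Real.sqrt e) := by
            rw [hB]; field_simp
        _ ≤ _ := mul_le_mul_of_nonneg_left hKQ (by positivity)
    have h5 : (B / Q) ^ p ≤ (4 * a * R / K) ^ p * c0 ^ p := by
      rw [← Real.mul_rpow (by positivity) hc0.le]
      exact Real.rpow_le_rpow (by positivity) h4 hp0.le
    calc K2 * n * (B / Q) ^ p * 1 = n * (K2 * (B / Q) ^ p) := by ring
      _ ≤ n * (K2 * ((4 * a * R / K) ^ p * c0 ^ p)) :=
        mul_le_mul_of_nonneg_left (mul_le_mul_of_nonneg_left h5 hK2.le) hn0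
      _ = n * ((K2 * (4 * a * R / K) ^ p) * c0 ^ p) := by ring
      _ ≤ _ := mul_le_mul_of_nonneg_left (mul_le_mul_of_nonneg_right hc2 hc0p.le) hn0
  -- the diagonal
  have hS3 : ∀ l, ∑ i, ∑ j, W l i * W l j * ∫ u, |inner ℝ (y i - y j) u| ^ p ∂μ =
      ∑ i, ∑ j, W l i * W l j * (c i + c j) ^ p - ∑ i, W l i ^ 2 * (c i + c i) ^ p := by
    intro l
    rw [← Finset.sum_sub_distrib]
    refine Finset.sum_congr rfl fun i _ => ?_
    have h4 : ∀ j, W l i * W l j * ∫ u, |inner ℝ (y i - y j) u| ^ p ∂μ =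
        W l i * W l j * (c i + c j) ^ p -
        (if i = j then W l i ^ 2 * (c i + c i) ^ p else 0) := by
      intro j
      by_cases hij : i = j
      · subst hij
        rw [if_pos rfl, sub_self]
        simp only [inner_zero_left, abs_zero, Real.zero_rpow hp0.ne', integral_zero,
          mul_zero]
        ring
      · rw [if_neg hij, h i j hij, sub_zero]
    rw [Finset.sum_congr rfl fun j _ => h4 j, Finset.sum_sub_distrib, Finset.sum_ite_eq]
    simp
  have hdiag : (2 * c0) ^ p * D ≤ ∑ l, ∑ i, W l i ^ 2 * (c i + c i) ^ p := by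
    have h1 : ∀ l, (2 * c0) ^ p ≤ ∑ i, W l i ^ 2 * (c i + c i) ^ p := by
      intro l
      calc (2 * c0) ^ p = ∑ i, W l i ^ 2 * (2 * c0) ^ p := by
            rw [← Finset.sum_mul, hW1, one_mul]
        _ ≤ _ := by
            refine Finset.sum_le_sum fun i _ => ?_
            refine mul_le_mul_of_nonneg_left ?_ (sq_nonneg _)
            exact Real.rpow_le_rpow (by linarith) (by have := hcl i; linarith) hp0.le
    have h2 := Finset.card_nsmul_le_sum Finset.univ
      (fun l => ∑ i, W l i ^ 2 * (c i + c i) ^ p) _ (fun l _ => h1 l)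
    rw [Finset.card_univ, Fintype.card_fin, nsmul_eq_mul] at h2
    linarith
  have htot : ∑ l, ∑ i, W l i ^ 2 * (c i + c i) ^ p =
      ∑ l, ∑ i, ∑ j, W l i * W l j * (c i + c j) ^ p -
      ∑ l, ∑ i, ∑ j, W l i * W l j * ∫ u, |inner ℝ (y i - y j) u| ^ p ∂μ := by
    rw [← Finset.sum_sub_distrib]
    refine Finset.sum_congr rfl fun l _ => ?_
    rw [hS3]
    ring
  have hfin : (2 * c0) ^ p * D ≤ (2 * c0) ^ p * (n / 2) := by
    rw [htot] at hdiag
    have h1 := (abs_le.1 hRpart).2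
    have h2 := (abs_le.1 hPpart).1
    have h3 : (2 * c0) ^ p * (n / 2) = n * (2 ^ p / 4 * c0 ^ p) + n * (2 ^ p / 4 * c0 ^ p) := by
      rw [Real.mul_rpow (by norm_num) hc0.le]
      ring
    rw [h3]
    linarith
  have hDn : (D : ℝ) ≤ n / 2 :=
    le_of_mul_le_mul_left hfin (Real.rpow_pos_of_pos (by linarith) _)
  have hDn' : 2 * D ≤ Fintype.card ι := by
    have h9 : ((2 * D : ℕ) : ℝ) ≤ ((Fintype.card ι : ℕ) : ℝ) := by
      push_cast
      linarith
    exact_mod_cast h9
  omega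

end Pool.Agent.StB
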