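import Pool.Agent.StB.Lin

set_option autoImplicit false

open scoped BigOperators

namespace Pool.Agent.StB

/-- The equations (T) of the text. -/
def SimSys {m : ℕ} {ι : Type} (a : ι → Fin m → ℝ) (c : ι → ℝ) : Prop :=
  (∀ i, ∑ k, a i k = - c i) ∧ ∀ i j, i ≠ j → ∑ k, max (a i k) (a j k) = 0

/-- Module sb1. -/
theorem sim_pos {m : ℕ} {ι : Type} {a : ι → Fin m → ℝ} {c : ι → ℝ} (h : SimSys a c) {i j : ι}
    (hij : i ≠ j) : ∑ k, max (a j k - a i k) 0 = c i := by
  have h1 : ∀ k, max (a j k - a i k) 0 = max (a i k) (a j k) - a i k := by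
    intro k
    have := max_sub_sub_right (a j k) (a i k) (a i k)
    rw [sub_self] at this
    rw [this, max_comm]
  rw [Finset.sum_congr rfl fun k _ => h1 k, Finset.sum_sub_distrib, h.2 i j hij, h.1 i]
  ring

/-- Module sb1. -/
theorem sim_diff {m : ℕ} {ι : Type} {a : ι → Fin m → ℝ} {c : ι → ℝ} (h : SimSys a c) {i j : ι}
    (hij : i ≠ j) (k : Fin m) : a j k - a i k ≤ c i := by
  rw [← sim_pos h hij]
  refine (le_max_left _ 0).trans ?_
  exact Finset.single_le_sum (f := fun k => max (a j k - a i k) 0)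
    (fun k _ => le_max_right _ _) (Finset.mem_univ k)

/-- Module sb2 (text 4.1): `i ↦ k i` is injective on the large indices. -/
theorem sim_big {m : ℕ} {ι : Type} [Fintype ι] [DecidableEq ι] {a : ι → Fin m → ℝ} {c : ι → ℝ}
    (hc : ∀ i, 0 < c i) (h : SimSys a c) (i0 : ι) (h0 : ∀ i, c i0 ≤ c i) :
    (Finset.univ.filter (fun i => i ≠ i0 ∧ m * c i0 < c i)).card ≤ m := by
  classical
  have hex : ∀ i : {i : ι // i ∈ Finset.univ.filter (fun i => i ≠ i0 ∧ m * c i0 < c i)},
      ∃ k : Fin m, c i0 < a i0 k - a i k := by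
    intro i
    have hi := (Finset.mem_filter.1 i.2).2
    by_contra hne
    push Not at hne
    have h1 := sim_pos h hi.1
    have h2 : ∑ k, max (a i0 k - a i k) 0 ≤ ∑ _k : Fin m, c i0 :=
      Finset.sum_le_sum fun k _ => max_le (hne k) (hc i0).le
    rw [Finset.sum_const, Finset.card_univ, Fintype.card_fin, nsmul_eq_mul] at h2
    linarith [hi.2]
  choose f hf using hex
  have hinj : Function.Injective f := by
    intro i j hij
    by_contra hne
    have hne' : (i : ι) ≠ j := fun h => hne (Subtype.ext h)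
    have hi := (Finset.mem_filter.1 i.2).2
    have hj := (Finset.mem_filter.1 j.2).2
    set g : Fin m → ℝ := fun k => a i0 k + max (a i k - a i0 k) 0 + max (a j k - a i0 k) 0
      - max (a i k) (a j k) with hg
    have hsum : ∑ k, g k = c i0 := by
      rw [hg]
      simp only [Finset.sum_sub_distrib, Finset.sum_add_distrib]
      rw [h.1 i0, sim_pos h hi.1.symm, sim_pos h hj.1.symm, h.2 i j hne']
      ring
    have hnn : ∀ k, 0 ≤ g k := by
      intro k
      simp only [hg]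
      rcases max_cases (a i k) (a j k) with h1 | h1 <;>
      rcases max_cases (a i k - a i0 k) 0 with h2 | h2 <;>
      rcases max_cases (a j k - a i0 k) 0 with h3 | h3 <;> linarith
    have hk : c i0 < g (f i) := by
      have h1 := hf i
      have h2 := hf j
      rw [← hij] at h2
      simp only [hg]
      have h3 : max (a i (f i) - a i0 (f i)) 0 ≥ 0 := le_max_right _ _
      have h4 : max (a j (f i) - a i0 (f i)) 0 ≥ 0 := le_max_right _ _
      rcases max_cases (a i (f i)) (a j (f i)) with h5 | h5 <;> linarith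
    have := Finset.single_le_sum (fun k _ => hnn k) (Finset.mem_univ (f i))
    linarith
  have := Fintype.card_le_of_injective f hinj
  rwa [Fintype.card_coe, Fintype.card_fin] at this

private theorem sb3_one {q : ℕ} (hq : 1 ≤ q) {ι : Type} [Fintype ι] [Nonempty ι] (a : ι → ℝ)
    {γ : ℝ} (hγ : 0 < γ) (ha : ∀ i j, a i - a j ≤ 2 * γ) :
    ∃ (g : ι → Fin (q + 1)) (ψ : Fin (q + 1) → Fin (q + 1) → ℝ),
      (∀ i, ψ (g i) (g i) ≤ a i / γ) ∧ ∀ i j, |ψ (g i) (g j) - max (a i) (a j) / γ| ≤ 2 / q := by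
  classical
  have hq0 : (0 : ℝ) < q := by exact_mod_cast hq
  obtain ⟨p, hp⟩ := Finite.exists_min a
  have hx0 : ∀ i, 0 ≤ q * (a i - a p) / (2 * γ) := by
    intro i
    have := hp i
    have : 0 ≤ a i - a p := by linarith
    positivity
  have hxq : ∀ i, q * (a i - a p) / (2 * γ) ≤ q := by
    intro i
    rw [div_le_iff₀ (by positivity)]
    exact mul_le_mul_of_nonneg_left (ha i p) hq0.le
  refine ⟨fun i => ⟨⌊q * (a i - a p) / (2 * γ)⌋₊, Nat.lt_succ_of_le ?_⟩,
    fun u v => (a p + (2 * γ / q) * max ((u : ℕ) : ℝ) ((v : ℕ) : ℝ)) / γ, ?_, ?_⟩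
  · exact Nat.floor_le_of_le (hxq i)
  · intro i
    have h1 := Nat.floor_le (hx0 i)
    simp only [max_self]
    refine div_le_div_of_nonneg_right ?_ hγ.le
    have h2 : (2 * γ / q) * (⌊q * (a i - a p) / (2 * γ)⌋₊ : ℝ) ≤
        (2 * γ / q) * (q * (a i - a p) / (2 * γ)) := by gcongr
    have h3 : (2 * γ / q) * (q * (a i - a p) / (2 * γ)) = a i - a p := by field_simp
    linarith
  · intro i j
    have hA : ∀ i, a i = a p + (2 * γ / q) * (q * (a i - a p) / (2 * γ)) := by
      intro i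
      have h3 : (2 * γ / q) * (q * (a i - a p) / (2 * γ)) = a i - a p := by field_simp
      linarith
    have hpos : 0 ≤ 2 * γ / q := by positivity
    have hmax : max (a i) (a j) = a p + (2 * γ / q) *
        max (q * (a i - a p) / (2 * γ)) (q * (a j - a p) / (2 * γ)) := by
      rw [mul_max_of_nonneg _ _ hpos, ← max_add_add_left, ← hA i, ← hA j]
    have h1 := Nat.floor_le (hx0 i)
    have h2 := Nat.floor_le (hx0 j)
    have h3 := Nat.lt_floor_add_one (q * (a i - a p) / (2 * γ))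
    have h4 := Nat.lt_floor_add_one (q * (a j - a p) / (2 * γ))
    have h5 : |max (⌊q * (a i - a p) / (2 * γ)⌋₊ : ℝ) (⌊q * (a j - a p) / (2 * γ)⌋₊ : ℝ) -
        max (q * (a i - a p) / (2 * γ)) (q * (a j - a p) / (2 * γ))| ≤ 1 := by
      rw [abs_le]
      rcases max_cases (⌊q * (a i - a p) / (2 * γ)⌋₊ : ℝ) (⌊q * (a j - a p) / (2 * γ)⌋₊ : ℝ)
        with h6 | h6 <;>
      rcases max_cases (q * (a i - a p) / (2 * γ)) (q * (a j - a p) / (2 * γ)) with h7 | h7 <;>
      constructor <;> linarith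
    have h6 : (a p + (2 * γ / q) * max (⌊q * (a i - a p) / (2 * γ)⌋₊ : ℝ)
        (⌊q * (a j - a p) / (2 * γ)⌋₊ : ℝ)) / γ - max (a i) (a j) / γ =
        (2 / q) * (max (⌊q * (a i - a p) / (2 * γ)⌋₊ : ℝ) (⌊q * (a j - a p) / (2 * γ)⌋₊ : ℝ) -
        max (q * (a i - a p) / (2 * γ)) (q * (a j - a p) / (2 * γ))) := by
      rw [hmax]
      field_simp
      ring
    show |(a p + (2 * γ / q) * max (⌊q * (a i - a p) / (2 * γ)⌋₊ : ℝ)
        (⌊q * (a j - a p) / (2 * γ)⌋₊ : ℝ)) / γ - max (a i) (a j) / γ| ≤ 2 / q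
    rw [h6, abs_mul, abs_of_nonneg (by positivity : (0 : ℝ) ≤ 2 / q)]
    calc (2 / q : ℝ) * |_| ≤ (2 / q) * 1 := by gcongr
      _ = 2 / q := mul_one _

/-- Module sb3 (text 4.2, rounding). -/
theorem sim_approx {m q : ℕ} (hq : 1 ≤ q) {ι : Type} [Fintype ι] [Nonempty ι]
    {a : ι → Fin m → ℝ} {c : ι → ℝ} (h : SimSys a c) {γ : ℝ} (hγ : 0 < γ)
    (hc : ∀ i, γ ≤ c i ∧ c i ≤ 2 * γ) :
    ∃ (g : Fin m → ι → Fin (q + 1)) (ψ : Fin m → Fin (q + 1) → Fin (q + 1) → ℝ),
      (∀ i, ∑ k, ψ k (g k i) (g k i) ≤ -1) ∧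
      ∀ i j, i ≠ j → |∑ k, ψ k (g k i) (g k j)| ≤ 2 * m / q := by
  classical
  have h1 : ∀ k : Fin m, ∃ (g : ι → Fin (q + 1)) (ψ : Fin (q + 1) → Fin (q + 1) → ℝ),
      (∀ i, ψ (g i) (g i) ≤ a i k / γ) ∧
      ∀ i j, |ψ (g i) (g j) - max (a i k) (a j k) / γ| ≤ 2 / q := by
    intro k
    refine sb3_one hq (fun i => a i k) hγ ?_
    intro i j
    by_cases hij : i = j
    · subst hij; simp only [sub_self]; linarith
    · exact (sim_diff h (Ne.symm hij) k).trans (hc j).2
  choose g ψ h2 h3 using h1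
  refine ⟨g, ψ, ?_, ?_⟩
  · intro i
    calc ∑ k, ψ k (g k i) (g k i) ≤ ∑ k, a i k / γ := Finset.sum_le_sum fun k _ => h2 k i
      _ = - c i / γ := by rw [← Finset.sum_div, h.1 i]
      _ ≤ -1 := by
          rw [div_le_iff₀ hγ]
          have := (hc i).1
          linarith
  · intro i j hij
    have h4 : ∑ k, ψ k (g k i) (g k j) =
        ∑ k, (ψ k (g k i) (g k j) - max (a i k) (a j k) / γ) := by
      rw [Finset.sum_sub_distrib, ← Finset.sum_div, h.2 i j hij]
      simp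
    rw [h4]
    calc |∑ k, (ψ k (g k i) (g k j) - max (a i k) (a j k) / γ)|
        ≤ ∑ k, |ψ k (g k i) (g k j) - max (a i k) (a j k) / γ| := Finset.abs_sum_le_sum_abs _ _
      _ ≤ ∑ _k : Fin m, (2 / q : ℝ) := Finset.sum_le_sum fun k _ => h3 k i j
      _ = 2 * m / q := by
          rw [Finset.sum_const, Finset.card_univ, Fintype.card_fin, nsmul_eq_mul]; ring

/-- Module sb4 (text 4.2). -/
theorem sim_small {m q : ℕ} (hq : 1 ≤ q) {ι : Type} [Fintype ι] [DecidableEq ι]
    {a : ι → Fin m → ℝ} {c : ι → ℝ} (h : SimSys a c) {γ : ℝ} (hγ : 0 < γ)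
    (hc : ∀ i, γ ≤ c i ∧ c i ≤ 2 * γ) (hM : 8 * m ^ 2 * Fintype.card ι ≤ q ^ 2) :
    Fintype.card ι ≤ 2 * (m * (q + 1) + 1) := by
  classical
  rcases isEmpty_or_nonempty ι with he | he
  · simp
  obtain ⟨g, ψ, h1, h2⟩ := sim_approx hq h hγ hc
  have hq0 : (0 : ℝ) < q := by exact_mod_cast hq
  have h3 := rank_principle g ψ 0 (η := 2 * m / q) (by positivity)
    (fun i => by rw [add_zero]; exact h1 i) (fun i j hij => by rw [add_zero]; exact h2 i j hij)
  have hM' : 8 * (m : ℝ) ^ 2 * Fintype.card ι ≤ (q : ℝ) ^ 2 := by exact_mod_cast hM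
  set M : ℝ := (Fintype.card ι : ℝ) with hMdef
  have hM0 : 0 ≤ M := by positivity
  have h4 : (2 * (m : ℝ) / q) ^ 2 * M ^ 2 ≤ M / 2 := by
    have : (2 * (m : ℝ) / q) ^ 2 * M ^ 2 = (8 * (m : ℝ) ^ 2 * M) * (M / (2 * q ^ 2)) := by
      field_simp
      ring
    rw [this]
    calc (8 * (m : ℝ) ^ 2 * M) * (M / (2 * q ^ 2)) ≤ (q : ℝ) ^ 2 * (M / (2 * q ^ 2)) := by gcongr
      _ = M / 2 := by field_simp
  have h5 : M ≤ 2 * (m * (q + 1) + 1) := by linarith
  rw [hMdef] at h5
  exact_mod_cast h5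

/-- Module sb4 (text 4.3), `q = 20 m³`: subset with `2 (m (q + 1) + 1) + 1` elements. -/
theorem sim_card {m : ℕ} (hm : 2 ≤ m) {ι : Type} [Fintype ι] [DecidableEq ι]
    {a : ι → Fin m → ℝ} {c : ι → ℝ} (h : SimSys a c) {γ : ℝ} (hγ : 0 < γ)
    (hc : ∀ i, γ ≤ c i ∧ c i ≤ 2 * γ) :
    Fintype.card ι ≤ 2 * (m * (20 * m ^ 3 + 1) + 1) := by
  classical
  by_contra hlt
  push Not at hlt
  obtain ⟨S, -, hS⟩ := Finset.exists_subset_card_eq (s := (Finset.univ : Finset ι))
    (n := 2 * (m * (20 * m ^ 3 + 1) + 1) + 1) (by rw [Finset.card_univ]; omega)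
  have hq1 : 1 ≤ 20 * m ^ 3 := Nat.mul_pos (by norm_num) (Nat.pow_pos (by omega))
  have h1 := sim_small (ι := {i : ι // i ∈ S}) (a := fun i => a i) (c := fun i => c i) hq1
    ⟨fun i => h.1 i, fun i j hij => h.2 i j (fun h => hij (Subtype.ext h))⟩ hγ
    (fun i => hc i) ?_
  · rw [Fintype.card_coe, hS] at h1
    omega
  · rw [Fintype.card_coe, hS]
    obtain ⟨t, rfl⟩ := Nat.exists_eq_add_of_le hm
    ring_nf
    have e : ∀ k, t ^ k ≤ t ^ k := fun k => le_rfl
    nlinarith [Nat.zero_le t, Nat.zero_le (t ^ 2), Nat.zero_le (t ^ 3), Nat.zero_le (t ^ 4),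
      Nat.zero_le (t ^ 5), Nat.zero_le (t ^ 6)]

/-- Module sb5 (text 4.3, dyadic classes). -/
theorem core_B {m : ℕ} (hm : 2 ≤ m) {ι : Type} [Fintype ι] {a : ι → Fin m → ℝ} {c : ι → ℝ}
    (hc : ∀ i, 0 < c i) (h : SimSys a c) :
    Fintype.card ι ≤ 50 * m ^ 4 * (Nat.clog 2 m + 1) := by
  classical
  rcases isEmpty_or_nonempty ι with he | he
  · simp
  obtain ⟨i0, h0⟩ := Finite.exists_min c
  have hC : 1 ≤ Nat.clog 2 m := Nat.clog_pos (by norm_num) hm
  set C := Nat.clog 2 m with hCdef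
  set L := Finset.univ.filter (fun i => i ≠ i0 ∧ m * c i0 < c i) with hLdef
  have hL : L.card ≤ m := sim_big hc h i0 h0
  have hR : ∀ i, ∃ s : ℕ, i ∉ L → s < C ∧ c i0 * 2 ^ s ≤ c i ∧ c i ≤ 2 * (c i0 * 2 ^ s) := by
    intro i
    by_cases hi : i ∈ L
    · exact ⟨0, fun h => absurd hi h⟩
    · have hm' : (2 : ℝ) ≤ m := by exact_mod_cast hm
      have h2 : c i ≤ m * c i0 := by
        by_cases hii : i = i0
        · subst hii
          nlinarith [hc i]
        · by_contra h3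
          push Not at h3
          exact hi (by simp [hLdef, hii, h3])
      have h3 : (m : ℝ) ≤ 2 ^ C := by exact_mod_cast Nat.le_pow_clog (by norm_num) m
      have hex : ∃ s : ℕ, c i ≤ c i0 * 2 ^ (s + 1) := by
        refine ⟨C - 1, ?_⟩
        rw [Nat.sub_add_cancel hC]
        calc c i ≤ m * c i0 := h2
          _ ≤ 2 ^ C * c i0 := mul_le_mul_of_nonneg_right h3 (hc i0).le
          _ = _ := mul_comm _ _
      refine ⟨Nat.find hex, fun _ => ⟨?_, ?_, ?_⟩⟩
      · have h4 : Nat.find hex ≤ C - 1 := by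
          refine Nat.find_min' hex ?_
          rw [Nat.sub_add_cancel hC]
          calc c i ≤ m * c i0 := h2
            _ ≤ 2 ^ C * c i0 := mul_le_mul_of_nonneg_right h3 (hc i0).le
            _ = _ := mul_comm _ _
        omega
      · rcases Nat.eq_zero_or_pos (Nat.find hex) with h4 | h4
        · rw [h4, pow_zero, mul_one]; exact h0 i
        · have h5 := Nat.find_min hex (m := Nat.find hex - 1) (by omega)
          rw [Nat.sub_add_cancel h4] at h5
          exact (not_le.1 h5).le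
      · have h4 := Nat.find_spec hex
        rw [pow_succ] at h4
        linarith
  choose f hf using hR
  have hfib : ∀ s ∈ Finset.range C,
      ((Finset.univ \ L).filter (fun i => f i = s)).card ≤ 2 * (m * (20 * m ^ 3 + 1) + 1) := by
    intro s _
    set F := (Finset.univ \ L).filter (fun i => f i = s) with hF
    have h1 := sim_card hm (ι := {i : ι // i ∈ F}) (a := fun i => a i) (c := fun i => c i)
      ⟨fun i => h.1 i, fun i j hij => h.2 i j (fun h => hij (Subtype.ext h))⟩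
      (γ := c i0 * 2 ^ s) (by have := hc i0; positivity) ?_
    · rwa [Fintype.card_coe] at h1
    · intro i
      have hi := Finset.mem_filter.1 i.2
      have := hf i (Finset.mem_sdiff.1 hi.1).2
      rw [hi.2] at this
      exact this.2
  have hcardR : (Finset.univ \ L).card ≤
      2 * (m * (20 * m ^ 3 + 1) + 1) * (Finset.range C).card :=
    Finset.card_le_mul_card_image_of_maps_to (f := f) (fun i hi => by
      rw [Finset.mem_sdiff] at hi
      exact Finset.mem_range.2 (hf i hi.2).1) _ hfib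
  have hcard : Fintype.card ι ≤ m + 2 * (m * (20 * m ^ 3 + 1) + 1) * C := by
    have h1 : Fintype.card ι = (Finset.univ \ L).card + L.card := by
      rw [Finset.card_sdiff_add_card_eq_card (Finset.subset_univ _), Finset.card_univ]
    rw [Finset.card_range] at hcardR
    omega
  refine hcard.trans ?_
  have e1 : m ≤ m ^ 4 := by
    calc m = m ^ 1 := by ring
      _ ≤ m ^ 4 := Nat.pow_le_pow_right (by omega) (by norm_num)
  have e3 : 2 * (m * (20 * m ^ 3 + 1) + 1) ≤ 50 * m ^ 4 := by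
    have : 2 * (m * (20 * m ^ 3 + 1) + 1) = 40 * m ^ 4 + 2 * m + 2 := by ring
    rw [this]
    omega
  have e4 : 2 * (m * (20 * m ^ 3 + 1) + 1) * C ≤ 50 * m ^ 4 * C := Nat.mul_le_mul_right _ e3
  have e5 : 50 * m ^ 4 * (C + 1) = 50 * m ^ 4 * C + 50 * m ^ 4 := by ring
  rw [e5]
  omega

end Pool.Agent.StB
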