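import Mathlib

/-!
# Structured bodies: definitions (MP_c1e66d_co, pairwise tangent positive homothets)
-/

set_option autoImplicit false

open scoped BigOperators

namespace Pool.Agent.StB

/-- Euclidean space of dimension `d`. -/
abbrev E (d : ℕ) := EuclideanSpace ℝ (Fin d)

/-- The sets `x i + c i • K` (`i < N`) are positive homothets of `K`, and any two different ones of
them are tangent: they meet, and their interiors are disjoint. -/
def Tangent {d : ℕ} (K : Set (E d)) {N : ℕ} (c : Fin N → ℝ) (x : Fin N → E d) : Prop :=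
  (∀ i, 0 < c i) ∧ ∀ i j, i ≠ j →
    ((fun y => x i + c i • y) '' K ∩ (fun y => x j + c j • y) '' K).Nonempty ∧
    interior ((fun y => x i + c i • y) '' K) ∩ interior ((fun y => x j + c j • y) '' K) = ∅

/-- `φ` is even, convex, vanishes at `0` and has growth exponent at most `P`. -/
structure Gr (P : ℕ) (φ : ℝ → ℝ) : Prop where
  even : ∀ t, φ (-t) = φ t
  conv : ConvexOn ℝ Set.univ φ
  zero : φ 0 = 0
  grow : ∀ L t : ℝ, 1 ≤ L → 0 ≤ t → φ (L * t) ≤ L ^ P * φ t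

/-- The body `{|f l x| ≤ 1 for all l, ∑ k, φ k (a k x) ≤ 1}`. -/
def sumBody {d s n : ℕ} (f : Fin s → E d →ₗ[ℝ] ℝ) (a : Fin n → E d →ₗ[ℝ] ℝ)
    (φ : Fin n → ℝ → ℝ) : Set (E d) :=
  {x | (∀ l, |f l x| ≤ 1) ∧ ∑ k, φ k (a k x) ≤ 1}

/-- The body `{|f l x| ≤ 1 for all l, q b (A b x) ≤ 1 for all b}`. -/
def polyBody {d s B : ℕ} (f : Fin s → E d →ₗ[ℝ] ℝ) (e : Fin B → ℕ)
    (A : (b : Fin B) → E d →ₗ[ℝ] (Fin (e b) → ℝ))
    (q : (b : Fin B) → MvPolynomial (Fin (e b)) ℝ) : Set (E d) :=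
  {x | (∀ l, |f l x| ≤ 1) ∧ ∀ b, MvPolynomial.eval (A b x) (q b) ≤ 1}

/-- The equations of a family all of whose pairs are tangent through the sum part. -/
def EqSys {n : ℕ} (φ : Fin n → ℝ → ℝ) {ι : Type} (y : ι → Fin n → ℝ) (c : ι → ℝ) : Prop :=
  ∀ i j, i ≠ j → ∑ k, φ k ((y i k - y j k) / (c i + c j)) = 1

/-- The kernel `κ` is a sum of `R` products. -/
def Sep {ι : Type} (R : ℕ) (κ : ι → ι → ℝ) : Prop :=
  ∃ u v : Fin R → ι → ℝ, ∀ i j, κ i j = ∑ t, u t i * v t j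

end Pool.Agent.StB
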