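import Pool.Agent.StB.ClsP

/-!
# `p ≥ 2`: at most two large radii, and the theorem for `p > 2`
-/

set_option autoImplicit false

open scoped BigOperators
open MeasureTheory

namespace Pool.Agent.StB

/-- Clarkson's inequality. -/
private theorem clark {p : ℝ} (hp : 2 ≤ p) (a b : ℝ) :
    |a + b| ^ p + |a - b| ^ p ≤ 2 ^ (p - 1) * (|a| ^ p + |b| ^ p) := by
  have hsq : ∀ w : ℝ, |w| ^ p = (w ^ 2) ^ (p / 2) := by
    intro w
    rw [← sq_abs, ← Real.rpow_natCast, ← Real.rpow_mul (abs_nonneg _)]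
    congr 1
    push_cast
    ring
  have hq : 1 ≤ p / 2 := by linarith
  rw [hsq, hsq, hsq, hsq]
  have h1 := Real.add_rpow_le_rpow_add (sq_nonneg (a + b)) (sq_nonneg (a - b)) hq
  refine h1.trans ?_
  have h2 : (a + b) ^ 2 + (a - b) ^ 2 = 2 * (a ^ 2 + b ^ 2) := by ring
  rw [h2, Real.mul_rpow (by norm_num) (by positivity)]
  have h3 := NNReal.rpow_add_le_mul_rpow_add_rpow ⟨a ^ 2, sq_nonneg _⟩ ⟨b ^ 2, sq_nonneg _⟩ hq
  have h4 : (a ^ 2 + b ^ 2) ^ (p / 2) ≤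
      2 ^ (p / 2 - 1) * ((a ^ 2) ^ (p / 2) + (b ^ 2) ^ (p / 2)) := by exact_mod_cast h3
  have h5 : (2 : ℝ) ^ (p - 1) = 2 ^ (p / 2) * 2 ^ (p / 2 - 1) := by
    rw [← Real.rpow_add (by norm_num)]
    congr 1
    ring
  rw [h5, mul_assoc]
  exact mul_le_mul_of_nonneg_left h4 (by positivity)

/-- Minkowski's inequality in the form needed. -/
private theorem tri_p {e : ℕ} (μ : Measure (E e)) {p : ℝ}
    (hcv : ConvexOn ℝ Set.univ (fun y : E e => ∫ u, |inner ℝ y u| ^ p ∂μ))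
    {a b : E e} {α β : ℝ} (hα : 0 < α) (hβ : 0 < β) (ha : ∫ u, |inner ℝ a u| ^ p ∂μ ≤ α ^ p)
    (hb : ∫ u, |inner ℝ b u| ^ p ∂μ ≤ β ^ p) :
    ∫ u, |inner ℝ (a + b) u| ^ p ∂μ ≤ (α + β) ^ p := by
  have hs : 0 < α + β := by linarith
  have e1 : a + b = (α + β) • ((α / (α + β)) • (α⁻¹ • a) + (β / (α + β)) • (β⁻¹ • b)) := by
    rw [smul_add, smul_smul, smul_smul, smul_smul, smul_smul]
    have h3 : (α + β) * (α / (α + β)) * α⁻¹ = 1 := by field_simp
    have h4 : (α + β) * (β / (α + β)) * β⁻¹ = 1 := by field_simp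
    rw [h3, h4, one_smul, one_smul]
  have h3 := hcv.2 (Set.mem_univ (α⁻¹ • a)) (Set.mem_univ (β⁻¹ • b))
    (by positivity : 0 ≤ α / (α + β)) (by positivity : 0 ≤ β / (α + β))
    (by field_simp)
  simp only [smul_eq_mul] at h3
  have h4 : ∫ u, |inner ℝ (α⁻¹ • a) u| ^ p ∂μ ≤ 1 := by
    rw [lp_smul μ (inv_pos.2 hα).le, Real.inv_rpow hα.le, inv_mul_le_iff₀ (Real.rpow_pos_of_pos hα _),
      mul_one]
    exact ha
  have h5 : ∫ u, |inner ℝ (β⁻¹ • b) u| ^ p ∂μ ≤ 1 := by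
    rw [lp_smul μ (inv_pos.2 hβ).le, Real.inv_rpow hβ.le, inv_mul_le_iff₀ (Real.rpow_pos_of_pos hβ _),
      mul_one]
    exact hb
  rw [e1, lp_smul μ hs.le]
  have h6 : α / (α + β) * ∫ u, |inner ℝ (α⁻¹ • a) u| ^ p ∂μ +
      β / (α + β) * ∫ u, |inner ℝ (β⁻¹ • b) u| ^ p ∂μ ≤ 1 := by
    calc _ ≤ α / (α + β) * 1 + β / (α + β) * 1 := add_le_add
          (mul_le_mul_of_nonneg_left h4 (by positivity))
          (mul_le_mul_of_nonneg_left h5 (by positivity))
      _ = 1 := by field_simp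
  have h7 : 0 ≤ (α + β) ^ p := Real.rpow_nonneg hs.le _
  calc _ ≤ (α + β) ^ p * 1 := mul_le_mul_of_nonneg_left (h3.trans h6) h7
    _ = _ := mul_one _

/-- Unit vectors in the directions of large tangent homothets are almost opposite. -/
private theorem far_unit {e : ℕ} (μ : Measure (E e)) {p : ℝ} (h1 : 1 ≤ p)
    (hcv : ConvexOn ℝ Set.univ (fun y : E e => ∫ u, |inner ℝ y u| ^ p ∂μ)) {v v' : E e}
    {r r' c0 : ℝ} (hr : 0 < r) (hrr : r ≤ r')
    (hv' : ∫ u, |inner ℝ v' u| ^ p ∂μ = r' ^ p)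
    (hvv : ∫ u, |inner ℝ (v - v') u| ^ p ∂μ = (r + r' - 2 * c0) ^ p) (hcr : c0 ≤ r) :
    (2 - 2 * c0 / r) ^ p ≤ ∫ u, |inner ℝ ((r⁻¹ : ℝ) • v - (r'⁻¹ : ℝ) • v') u| ^ p ∂μ := by
  have hp0 : 0 < p := by linarith
  have hr' : 0 < r' := by linarith
  by_contra hcon
  push Not at hcon
  set h := ∫ u, |inner ℝ ((r⁻¹ : ℝ) • v - (r'⁻¹ : ℝ) • v') u| ^ p ∂μ with hh
  have hh0 : 0 ≤ h := integral_nonneg fun u => Real.rpow_nonneg (abs_nonneg _) _
  have hb0 : 0 ≤ 2 - 2 * c0 / r := by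
    have : 2 * c0 / r ≤ 2 := by rw [div_le_iff₀ hr]; linarith
    linarith
  obtain ⟨β, hβ⟩ : ∃ β, β = h ^ (1 / p) := ⟨_, rfl⟩
  have hβ0 : 0 ≤ β := by rw [hβ]; exact Real.rpow_nonneg hh0 _
  have hβp : β ^ p = h := by
    rw [hβ, ← Real.rpow_mul hh0, one_div, inv_mul_cancel₀ hp0.ne', Real.rpow_one]
  have hβ1 : β < 2 - 2 * c0 / r := by
    rw [← hβp] at hcon
    exact (Real.rpow_lt_rpow_iff hβ0 hb0 hp0).1 hcon
  have hβ2 : r * β < 2 * r - 2 * c0 := by
    have h3 := mul_lt_mul_of_pos_left hβ1 hr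
    have h4 : r * (2 - 2 * c0 / r) = 2 * r - 2 * c0 := by field_simp
    linarith
  obtain ⟨δ, hδ, hδ2⟩ : ∃ δ : ℝ, 0 < δ ∧ r * β + 2 * δ < 2 * r - 2 * c0 :=
    ⟨(2 * r - 2 * c0 - r * β) / 4, by linarith, by linarith⟩
  -- the two summands
  have ha : ∫ u, |inner ℝ (r • ((r⁻¹ : ℝ) • v - (r'⁻¹ : ℝ) • v')) u| ^ p ∂μ ≤ (r * β + δ) ^ p := by
    rw [lp_smul μ hr.le, ← hh, ← hβp, ← Real.mul_rpow hr.le hβ0]
    exact Real.rpow_le_rpow (mul_nonneg hr.le hβ0) (by linarith) hp0.le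
  have hb : ∫ u, |inner ℝ (-((r' - r) • ((r'⁻¹ : ℝ) • v'))) u| ^ p ∂μ ≤ (r' - r + δ) ^ p := by
    simp only [inner_neg_left, abs_neg]
    rw [lp_smul μ (by linarith), lp_smul μ (inv_pos.2 hr').le, hv', Real.inv_rpow hr'.le,
      inv_mul_cancel₀ (Real.rpow_pos_of_pos hr' _).ne', mul_one]
    exact Real.rpow_le_rpow (by linarith) (by linarith) hp0.le
  have hab := tri_p μ hcv (by nlinarith [mul_nonneg hr.le hβ0] : 0 < r * β + δ)
    (by linarith : 0 < r' - r + δ) ha hb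
  have e1 : r • ((r⁻¹ : ℝ) • v - (r'⁻¹ : ℝ) • v') + -((r' - r) • ((r'⁻¹ : ℝ) • v')) = v - v' := by
    rw [smul_sub, smul_smul, smul_smul, smul_smul, mul_inv_cancel₀ hr.ne', one_smul]
    have h3 : r' * r'⁻¹ = 1 := mul_inv_cancel₀ hr'.ne'
    have h4 : v - (r * r'⁻¹) • v' + -(((r' - r) * r'⁻¹) • v') = v - (r' * r'⁻¹) • v' := by
      rw [sub_mul, sub_smul]
      abel
    rw [h4, h3, one_smul]
  rw [e1, hvv] at hab
  have h5 : (r * β + δ + (r' - r + δ)) ^ p < (r + r' - 2 * c0) ^ p :=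
    Real.rpow_lt_rpow (by nlinarith [mul_nonneg hr.le hβ0]) (by linarith) hp0
  linarith

/-- Three large radii are impossible. -/
theorem far_P {e : ℕ} (μ : Measure (E e)) {p : ℝ} (hp : 2 ≤ p)
    (hint : ∀ z : E e, Integrable (fun u => |inner ℝ z u| ^ p) μ)
    (hcv : ConvexOn ℝ Set.univ (fun y : E e => ∫ u, |inner ℝ y u| ^ p ∂μ))
    (y : Fin 3 → E e) (y0 : E e) (c : Fin 3 → ℝ) {c0 R : ℝ} (hc0 : 0 < c0)
    (hR : p * 3 ^ p < R) (hcR : ∀ i, R * c0 ≤ c i)
    (h0 : ∀ i, ∫ u, |inner ℝ (y i - y0) u| ^ p ∂μ = (c i + c0) ^ p)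
    (h : ∀ i j, i ≠ j → ∫ u, |inner ℝ (y i - y j) u| ^ p ∂μ = (c i + c j) ^ p) : False := by
  have hp0 : 0 < p := by linarith
  have h3p : 0 < (3 : ℝ) ^ p := Real.rpow_pos_of_pos (by norm_num) _
  have h2p : 0 < (2 : ℝ) ^ p := Real.rpow_pos_of_pos (by norm_num) _
  have h31 : (1 : ℝ) ≤ 3 ^ p := Real.one_le_rpow (by norm_num) hp0.le
  have hpR : p < R := by nlinarith
  have hR0 : 0 < R := by linarith
  have hcp : ∀ i, 0 < c i := fun i => lt_of_lt_of_le (mul_pos hR0 hc0) (hcR i)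
  set r : Fin 3 → ℝ := fun i => c i + c0 with hr
  have hrp : ∀ i, 0 < r i := fun i => add_pos (hcp i) hc0
  set z : Fin 3 → E e := fun i => ((r i)⁻¹ : ℝ) • (y i - y0) with hz
  have hnorm : ∀ i, ∫ u, |inner ℝ (z i) u| ^ p ∂μ = 1 := by
    intro i
    rw [hz]
    simp only
    rw [lp_smul μ (inv_pos.2 (hrp i)).le, h0 i, Real.inv_rpow (hrp i).le]
    exact inv_mul_cancel₀ (Real.rpow_pos_of_pos (hrp i) _).ne'
  have hc0r : ∀ i, 2 * c0 / r i ≤ 2 / R := by
    intro i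
    rw [div_le_div_iff₀ (hrp i) hR0]
    have h3 := hcR i
    have h4 : r i = c i + c0 := rfl
    rw [h4]
    nlinarith
  have hIl' : ∀ i j, i ≠ j → r i ≤ r j →
      (2 - 2 / R) ^ p ≤ ∫ u, |inner ℝ (z i - z j) u| ^ p ∂μ := by
    intro i j hij hrr
    have h3 := far_unit μ (by linarith : 1 ≤ p) hcv (v := y i - y0) (v' := y j - y0) (hrp i) hrr
      (h0 j)
      (by
        have h4 : y i - y0 - (y j - y0) = y i - y j := by abel
        have h5 : r i + r j - 2 * c0 = c i + c j := by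
          have : r i = c i + c0 := rfl
          have : r j = c j + c0 := rfl
          linarith
        rw [h4, h5]
        exact h i j hij)
      (by
        have h4 : r i = c i + c0 := rfl
        have := hcp i
        linarith)
    refine le_trans (Real.rpow_le_rpow ?_ ?_ hp0.le) h3
    · have : 2 / R ≤ 2 := by rw [div_le_iff₀ hR0]; linarith
      linarith
    · have := hc0r i
      linarith
  have hIs : ∀ i j, ∫ u, |inner ℝ (z i - z j) u| ^ p ∂μ =
      ∫ u, |inner ℝ (z j - z i) u| ^ p ∂μ := by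
    intro i j
    congr 1
    funext u
    rw [← neg_sub (z j) (z i), inner_neg_left, abs_neg]
  have hsum : ∀ i j, i ≠ j → ∫ u, |inner ℝ (z i + z j) u| ^ p ∂μ ≤ 2 ^ p * (p / R) := by
    intro i j hij
    have h3 : (2 - 2 / R) ^ p ≤ ∫ u, |inner ℝ (z i - z j) u| ^ p ∂μ := by
      rcases le_total (r i) (r j) with h4 | h4
      · exact hIl' i j hij h4
      · rw [hIs]
        exact hIl' j i hij.symm h4
    have h4 : ∫ u, (|inner ℝ (z i + z j) u| ^ p + |inner ℝ (z i - z j) u| ^ p) ∂μ ≤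
        ∫ u, 2 ^ (p - 1) * (|inner ℝ (z i) u| ^ p + |inner ℝ (z j) u| ^ p) ∂μ := by
      refine integral_mono ((hint _).add (hint _)) (((hint _).add (hint _)).const_mul _)
        fun u => ?_
      simp only [inner_add_left, inner_sub_left]
      exact clark hp _ _
    rw [integral_add (hint _) (hint _), integral_const_mul, integral_add (hint _) (hint _),
      hnorm, hnorm] at h4
    have h5 : (2 : ℝ) ^ (p - 1) * (1 + 1) = 2 ^ p := by
      rw [Real.rpow_sub_one (by norm_num)]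
      ring
    rw [h5] at h4
    have h6 : 2 ^ p * (1 - p / R) ≤ (2 - 2 / R) ^ p := by
      have h1R : 1 / R ≤ 1 := by rw [div_le_iff₀ hR0]; linarith
      have h7 : (2 : ℝ) - 2 / R = 2 * (1 + -(1 / R)) := by ring
      rw [h7, Real.mul_rpow (by norm_num) (by linarith)]
      refine mul_le_mul_of_nonneg_left ?_ h2p.le
      have h8 := one_add_mul_self_le_rpow_one_add (by linarith : (-1 : ℝ) ≤ -(1 / R))
        (by linarith : 1 ≤ p)
      refine le_trans (le_of_eq ?_) h8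
      ring
    have h7 : 2 ^ p * (1 - p / R) = 2 ^ p - 2 ^ p * (p / R) := by ring
    linarith
  -- three vectors
  have hfin : ∫ u, |inner ℝ ((2 : ℝ) • z 0) u| ^ p ∂μ ≤ 3 ^ (p - 1) *
      (∫ u, |inner ℝ (z 0 + z 1) u| ^ p ∂μ + ∫ u, |inner ℝ (z 1 + z 2) u| ^ p ∂μ +
        ∫ u, |inner ℝ (z 0 + z 2) u| ^ p ∂μ) := by
    have h3 : ∫ u, |inner ℝ ((2 : ℝ) • z 0) u| ^ p ∂μ ≤ ∫ u, 3 ^ (p - 1) *
        (|inner ℝ (z 0 + z 1) u| ^ p + |inner ℝ (z 1 + z 2) u| ^ p +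
          |inner ℝ (z 0 + z 2) u| ^ p) ∂μ := by
      refine integral_mono (hint _) ((((hint _).add (hint _)).add (hint _)).const_mul _)
        fun u => ?_
      simp only [inner_add_left, inner_smul_left, conj_trivial]
      set a := inner ℝ (z 0) u
      set b := inner ℝ (z 1) u
      set d := inner ℝ (z 2) u
      have h4 := Real.rpow_sum_le_const_mul_sum_rpow (Finset.univ : Finset (Fin 3))
        ![a + b, b + d, a + d] (by linarith : 1 ≤ p)
      simp only [Fin.sum_univ_three, Finset.card_univ, Fintype.card_fin,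
        Matrix.cons_val_zero, Matrix.cons_val_one, Matrix.cons_val] at h4
      have h5 : |2 * a| ≤ |a + b| + |b + d| + |a + d| := by
        have h6 : 2 * a = (a + b) - (b + d) + (a + d) := by ring
        rw [h6]
        exact (abs_add_le _ _).trans (add_le_add (abs_sub _ _) le_rfl)
      refine (Real.rpow_le_rpow (abs_nonneg _) h5 hp0.le).trans ?_
      exact_mod_cast h4
    have i12 : Integrable (fun u => |inner ℝ (z 0 + z 1) u| ^ p +
        |inner ℝ (z 1 + z 2) u| ^ p) μ := (hint _).add (hint _)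
    rw [integral_const_mul, integral_add i12 (hint _), integral_add (hint _) (hint _)] at h3
    exact h3
  rw [lp_smul μ (by norm_num), hnorm, mul_one] at hfin
  have h1 := hsum 0 1 (by decide)
  have h2 := hsum 1 2 (by decide)
  have h3 := hsum 0 2 (by decide)
  have h4 : (0 : ℝ) < 3 ^ (p - 1) := Real.rpow_pos_of_pos (by norm_num) _
  have h5 : (2 : ℝ) ^ p ≤ 3 ^ (p - 1) * (3 * (2 ^ p * (p / R))) :=
    hfin.trans (mul_le_mul_of_nonneg_left (by linarith) h4.le)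
  have h6 : (3 : ℝ) ^ (p - 1) * (3 * (2 ^ p * (p / R))) = 2 ^ p * (p * 3 ^ p / R) := by
    rw [Real.rpow_sub_one (by norm_num)]
    ring
  rw [h6] at h5
  have h7 : p * 3 ^ p / R < 1 := by rw [div_lt_one hR0]; exact hR
  nlinarith

/-- The class bound for `p > 2`. -/
theorem class_P2 {p : ℝ} (hp : 2 < p) : ∃ K : ℕ, 1 ≤ K ∧ ∀ (e : ℕ)
    (ι : Type) [Fintype ι] (y : ι → E e) (c : ι → ℝ) (μ : Measure (E e)) (Q k : ℕ),
    Integrable (fun u => ‖u‖ ^ p) μ → (∀ i, 0 < c i) →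
    (∀ i j, i ≠ j → ∫ u, |inner ℝ (y i - y j) u| ^ p ∂μ = (c i + c j) ^ p) →
    Q = K * (Nat.sqrt e + 1) → k + 1 = 2 * Q →
    Fintype.card ι ≤ 2 * (Nat.choose (e + k) k + 2 * K) + 2 := by
  have hp0 : 0 < p := by linarith
  have h3p : 0 < (3 : ℝ) ^ p := Real.rpow_pos_of_pos (by norm_num) _
  set R : ℝ := p * 3 ^ p + 1 with hR
  have hR1 : 1 ≤ R := by
    have : 0 ≤ p * 3 ^ p := by positivity
    linarith
  obtain ⟨K, hK, hcl⟩ := class_P hp hR1
  refine ⟨K, hK, ?_⟩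
  intro e ι _ y c μ Q k hμ hc h hQ hk
  classical
  rcases isEmpty_or_nonempty ι with hemp | hne
  · simp
  obtain ⟨i0, h0⟩ := Finite.exists_min c
  have hc0 := hc i0
  have hint := fun z => lp_int (by linarith : 1 ≤ p) hμ z
  have hcv := lp_convex (by linarith : 1 ≤ p) hμ
  have hnear : (Finset.univ.filter (fun i => c i ≤ R * c i0)).card ≤
      2 * (Nat.choose (e + k) k + 2 * K) := by
    have h3 := hcl e {i : ι // i ∈ Finset.univ.filter (fun i => c i ≤ R * c i0)}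
      (fun i => y i) (fun i => c i) μ (c i0) Q k hμ hc0 (fun i => h0 i)
      (fun i => (Finset.mem_filter.1 i.2).2)
      (fun i j hij => h i j (fun h => hij (Subtype.ext h))) hQ hk
    rwa [Fintype.card_coe] at h3
  have hfar : (Finset.univ.filter (fun i => ¬ c i ≤ R * c i0)).card ≤ 2 := by
    by_contra hcon
    have hcon' : 3 ≤ (Finset.univ.filter (fun i => ¬ c i ≤ R * c i0)).card := by omega
    obtain ⟨F, hF, hFc⟩ := Finset.exists_subset_card_eq hcon'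
    have eq := (F.equivFinOfCardEq hFc).symm
    have hmem : ∀ i : Fin 3, R * c i0 ≤ c (eq i) := fun i =>
      (not_le.1 (Finset.mem_filter.1 (hF (eq i).2)).2).le
    have hne : ∀ i : Fin 3, ((eq i : ι)) ≠ i0 := by
      intro i hi
      have h1 := (Finset.mem_filter.1 (hF (eq i).2)).2
      rw [hi] at h1
      apply h1
      nlinarith
    exact far_P μ hp.le hint hcv (fun i => y (eq i)) (y i0) (fun i => c (eq i)) hc0
      (by rw [hR]; linarith) hmem (fun i => h (eq i) i0 (hne i))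
      (fun i j hij => h (eq i) (eq j) (fun h => hij (eq.injective (Subtype.ext h))))
  have h4 := Finset.card_filter_add_card_filter_not (s := (Finset.univ : Finset ι))
    (fun i => c i ≤ R * c i0)
  rw [Finset.card_univ] at h4
  omega

/-- THEOREM P: subspaces of `L_p`, `p > 2`. -/
theorem main_P {p : ℝ} (hp : 2 < p) : ∃ K : ℕ, 1 ≤ K ∧ ∀ (d s e N k : ℕ)
    (f : Fin s → E d →ₗ[ℝ] ℝ) (A : E d →ₗ[ℝ] E e) (μ : Measure (E e)) (c : Fin N → ℝ)
    (x : Fin N → E d), Integrable (fun u => ‖u‖ ^ p) μ → k + 1 = 2 * (K * (Nat.sqrt e + 1)) →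
    Tangent (lpBody f A p μ) c x → N ≤ 2 ^ s * (2 * (Nat.choose (e + k) k + 2 * K) + 2) := by
  obtain ⟨K, hK, hcl⟩ := class_P2 hp
  refine ⟨K, hK, ?_⟩
  intro d s e N k f A μ c x hμ hk hT
  exact main_gen (by linarith : 1 ≤ p) f A μ hμ (fun ι _ y c hc h =>
    hcl e ι y c μ _ k hμ hc (fun i j hij => h i j hij) rfl hk) c x hT

/-- A binomial coefficient. -/
theorem choose_le_succ_pow (e k : ℕ) : Nat.choose (e + k) k ≤ (e + 1) ^ k := by
  induction k with
  | zero => simp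
  | succ k ih =>
    have h1 := Nat.add_one_mul_choose_eq (e + k) k
    have h2 : Nat.choose (e + (k + 1)) (k + 1) * (k + 1) ≤ (e + 1) ^ (k + 1) * (k + 1) := by
      rw [← add_assoc, ← h1, pow_succ]
      calc (e + k + 1) * Nat.choose (e + k) k ≤ ((e + 1) * (k + 1)) * (e + 1) ^ k := by
            refine Nat.mul_le_mul ?_ ih
            nlinarith
        _ = _ := by ring
    exact Nat.le_of_mul_le_mul_right h2 (Nat.succ_pos k)

/-- The bound of Theorem P is at most `2 ^ e` for large `e`. -/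
theorem p_le (K : ℕ) (hK : 1 ≤ K) : ∃ e0 : ℕ, ∀ e k : ℕ, e0 ≤ e →
    k + 1 = 2 * (K * (Nat.sqrt e + 1)) → 2 * (Nat.choose (e + k) k + 2 * K) + 2 ≤ 2 ^ e := by
  have h1 := tendsto_pow_const_div_const_pow_of_one_lt (16 * K) (by norm_num : (1 : ℝ) < 2)
  have h2 := (h1.eventually (gt_mem_nhds (by norm_num : (0 : ℝ) < 1)))
  obtain ⟨T0, hT0⟩ := Filter.eventually_atTop.1 h2
  refine ⟨(T0 + 4 * K + 4) ^ 2, ?_⟩
  intro e k he hk
  set r := Nat.sqrt e with hr
  have hr1 : T0 + 4 * K + 4 ≤ r := by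
    rw [hr]
    exact Nat.le_sqrt'.2 he
  set t := r + 1 with ht
  have ht1 : T0 ≤ t := by omega
  have hlt : t ^ (16 * K) ≤ 2 ^ t := by
    have h3 := hT0 t ht1
    rw [div_lt_one (by positivity)] at h3
    exact_mod_cast h3.le
  have hre : r * r ≤ e := Nat.sqrt_le e
  have het : e + 1 ≤ t ^ 2 := by
    have := Nat.lt_succ_sqrt e
    rw [sq]
    exact this
  set X := t ^ (4 * K * t) with hX
  have ht4 : 4 * K + 4 ≤ t := by omega
  have hXt : t ≤ X := by
    rw [hX]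
    refine Nat.le_self_pow ?_ t
    have : 0 < K * t := Nat.mul_pos hK (by omega)
    nlinarith
  have hC : Nat.choose (e + k) k ≤ X := by
    refine (choose_le_succ_pow e k).trans ?_
    refine (Nat.pow_le_pow_left het k).trans ?_
    rw [← pow_mul, hX]
    refine Nat.pow_le_pow_right (by omega) ?_
    have : 2 * (K * t) = 2 * K * t := by ring
    have h5 : 4 * K * t = 2 * (2 * K * t) := by ring
    rw [h5]
    omega
  have hX8 : X ^ 8 ≤ (2 ^ e) ^ 4 := by
    have h3 : X ^ 8 = (t ^ (16 * K)) ^ (2 * t) := by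
      rw [hX, ← pow_mul, ← pow_mul]
      congr 1
      ring
    rw [h3]
    refine (Nat.pow_le_pow_left hlt _).trans ?_
    rw [← pow_mul, ← pow_mul]
    refine Nat.pow_le_pow_right (by norm_num) ?_
    have h4 : t * (2 * t) = 2 * (r + 1) ^ 2 := by rw [ht]; ring
    rw [h4]
    nlinarith
  have hX2 : X ^ 2 ≤ 2 ^ e := by
    have h3 : (X ^ 2) ^ 4 ≤ (2 ^ e) ^ 4 := by rw [← pow_mul]; exact hX8
    exact (Nat.pow_le_pow_iff_left (by norm_num)).1 h3
  have h5 : 2 * (X + 2 * K) + 2 ≤ X ^ 2 := by nlinarith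
  omega

end Pool.Agent.StB
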