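import Pool.Agent.StB.Defs

set_option autoImplicit false

open scoped BigOperators

namespace Pool.Agent.StB

namespace Gr

variable {P : ℕ} {φ : ℝ → ℝ}

/-- Module gr1. -/
theorem nonneg (h : Gr P φ) (t : ℝ) : 0 ≤ φ t := by

  have h1 := h.conv.2 (Set.mem_univ t) (Set.mem_univ (-t)) (show (0 : ℝ) ≤ 1 / 2 by norm_num)
    (show (0 : ℝ) ≤ 1 / 2 by norm_num) (by norm_num)
  rw [h.even] at h1
  simp only [smul_eq_mul] at h1
  have h2 : (1 / 2 : ℝ) * t + 1 / 2 * -t = 0 := by ring
  rw [h2, h.zero] at h1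
  linarith

/-- Module gr1. -/
theorem abs (h : Gr P φ) (t : ℝ) : φ |t| = φ t := by

  rcases abs_choice t with h1 | h1
  · rw [h1]
  · rw [h1, h.even]

/-- Module gr1. -/
theorem smul (h : Gr P φ) {θ t : ℝ} (h0 : 0 ≤ θ) (h1 : θ ≤ 1) : φ (θ * t) ≤ θ * φ t := by

  have h2 := h.conv.2 (Set.mem_univ t) (Set.mem_univ 0) h0 (sub_nonneg.2 h1) (by ring)
  simp only [smul_eq_mul, h.zero, mul_zero, add_zero] at h2
  exact h2

/-- Module gr1. -/
theorem mono (h : Gr P φ) {s t : ℝ} (h0 : 0 ≤ s) (h1 : s ≤ t) : φ s ≤ φ t := by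

  rcases eq_or_lt_of_le (h0.trans h1) with h2 | h2
  · have h3 : s = t := by linarith
    rw [h3]
  · have h3 := h.smul (θ := s / t) (t := t) (by positivity) ((div_le_one h2).2 h1)
    rw [div_mul_cancel₀ s h2.ne'] at h3
    have h4 := h.nonneg t
    have h5 : s / t * φ t ≤ 1 * φ t := mul_le_mul_of_nonneg_right ((div_le_one h2).2 h1) h4
    linarith

/-- Module gr1 (convexity and evenness). -/
theorem comb (h : Gr P φ) {α β s t : ℝ} (hα : 0 ≤ α) (hβ : 0 ≤ β) (hs : α + β = 1) :
    φ (α * s - β * t) ≤ α * φ s + β * φ t := by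

  have h1 := h.conv.2 (Set.mem_univ s) (Set.mem_univ (-t)) hα hβ hs
  rw [h.even] at h1
  simp only [smul_eq_mul] at h1
  have h2 : α * s + β * -t = α * s - β * t := by ring
  rw [h2] at h1
  exact h1

/-- Module gr2. For `0 < u ≤ v ≤ R`: `φ v ≤ (v / u) ^ P φ u`, so
`φ u ≥ (u / v) ^ P φ v ≥ (1 - P (1 - u / v)) φ v` (Bernoulli), and `φ v / v ≤ φ R / R`. -/
theorem lip (h : Gr P φ) (hP : 1 ≤ P) {R : ℝ} (hR : 0 < R) (h2 : φ R ≤ 2) {a b : ℝ}
    (ha : |a| ≤ R) (hb : |b| ≤ R) : |φ a - φ b| ≤ 2 * P / R * |a - b| := by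

  have key : ∀ u v : ℝ, 0 ≤ u → u ≤ v → v ≤ R → φ v - φ u ≤ 2 * P / R * (v - u) := by
    intro u v hu huv hv
    have hP' : (1 : ℝ) ≤ P := by exact_mod_cast hP
    have hv0 : 0 ≤ v := hu.trans huv
    have hvR : φ v ≤ v / R * φ R := by
      have h3 := h.smul (θ := v / R) (t := R) (by positivity) ((div_le_one hR).2 hv)
      rwa [div_mul_cancel₀ v hR.ne'] at h3
    have hvR2 : φ v ≤ v / R * 2 := hvR.trans (mul_le_mul_of_nonneg_left h2 (by positivity))
    rcases eq_or_lt_of_le hu with h0 | h0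
    · rw [← h0, h.zero, sub_zero, sub_zero]
      refine hvR2.trans ?_
      rw [div_mul_eq_mul_div, div_mul_eq_mul_div]
      refine div_le_div_of_nonneg_right ?_ hR.le
      nlinarith
    · have hv1 : 0 < v := h0.trans_le huv
      have h3 := h.grow (v / u) u ((one_le_div h0).2 huv) hu
      rw [div_mul_cancel₀ v h0.ne'] at h3
      have h4 : (u / v) ^ P * φ v ≤ φ u := by
        have h5 : (u / v) ^ P * φ v ≤ (u / v) ^ P * ((v / u) ^ P * φ u) :=
          mul_le_mul_of_nonneg_left h3 (by positivity)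
        have h6 : (u / v) ^ P * ((v / u) ^ P * φ u) = φ u := by
          rw [← mul_assoc, ← mul_pow, div_mul_div_cancel₀ hv1.ne', div_self h0.ne', one_pow,
            one_mul]
        linarith
      have h7 : 1 + (P : ℝ) * (u / v - 1) ≤ (1 + (u / v - 1)) ^ P := by
        refine one_add_mul_le_pow ?_ P
        have : 0 ≤ u / v := by positivity
        linarith
      have h8 : 1 + (u / v - 1) = u / v := by ring
      rw [h8] at h7
      have h9 : (1 + (P : ℝ) * (u / v - 1)) * φ v ≤ φ u :=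
        (mul_le_mul_of_nonneg_right h7 (h.nonneg v)).trans h4
      have h10 : φ v - φ u ≤ P * (1 - u / v) * φ v := by nlinarith
      have h11 : 0 ≤ (P : ℝ) * (1 - u / v) := by
        have : u / v ≤ 1 := (div_le_one hv1).2 huv
        have : 0 ≤ 1 - u / v := by linarith
        positivity
      refine h10.trans ((mul_le_mul_of_nonneg_left hvR2 h11).trans (le_of_eq ?_))
      field_simp
  have h1 : ∀ u v : ℝ, 0 ≤ u → 0 ≤ v → u ≤ R → v ≤ R →
      |φ u - φ v| ≤ 2 * P / R * |u - v| := by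
    intro u v hu hv huR hvR
    rcases le_total u v with h3 | h3
    · have h4 := key u v hu h3 hvR
      have h5 := h.mono hu h3
      rw [abs_of_nonpos (by linarith), abs_of_nonpos (by linarith : u - v ≤ 0)]
      linarith
    · have h4 := key v u hv h3 huR
      have h5 := h.mono hv h3
      rw [abs_of_nonneg (by linarith), abs_of_nonneg (by linarith : 0 ≤ u - v)]
      linarith
  have h6 := h1 |a| |b| (abs_nonneg a) (abs_nonneg b) ha hb
  rw [h.abs, h.abs] at h6
  exact h6.trans (mul_le_mul_of_nonneg_left (abs_abs_sub_abs_le_abs_sub a b) (by positivity))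

end Gr

end Pool.Agent.StB
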