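import Pool.Agent.StB.LpM

/-!
# Change of density (Lewis): a good position for a subspace of `L_p`, `p ≥ 2`
-/

set_option autoImplicit false

open scoped BigOperators
open MeasureTheory

namespace Pool.Agent.StB

/-- The elementary inequality `(a + b) ^ q ≤ a ^ q + q b (a + b) ^ (q - 1)`. -/
theorem lew_bern {a b q : ℝ} (ha : 0 ≤ a) (_hb : 0 ≤ b) (hab : 0 < a + b) (hq : 1 ≤ q) :
    (a + b) ^ q ≤ a ^ q + q * b * (a + b) ^ (q - 1) := by
  have h1 := one_add_mul_self_le_rpow_one_add (s := -(b / (a + b)))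
    (by
      have : b / (a + b) ≤ 1 := by rw [div_le_one hab]; linarith
      linarith) hq
  have h2 : 1 + -(b / (a + b)) = a / (a + b) := by field_simp; ring
  rw [h2, Real.div_rpow ha hab.le] at h1
  have h3 : 0 < (a + b) ^ q := Real.rpow_pos_of_pos hab _
  have h4 : (a + b) ^ q = (a + b) * (a + b) ^ (q - 1) := by
    rw [Real.rpow_sub_one hab.ne']
    field_simp
  rw [le_div_iff₀ h3] at h1
  have h5 : (1 + q * -(b / (a + b))) * (a + b) ^ q =
      (a + b) ^ q - q * b * (a + b) ^ (q - 1) := by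
    have h6 : q * (b / (a + b)) * (a + b) ^ q = q * b * (a + b) ^ (q - 1) := by
      rw [h4]
      field_simp
    linear_combination -h6
  rw [h5] at h1
  linarith

/-- Young's inequality in the form needed. -/
theorem lew_young {x s r p : ℝ} (hx : 0 ≤ x) (hs : 0 ≤ s) (hr : 0 < r) (hp : 2 ≤ p) :
    x ^ (p - 2) * s ^ (2 : ℝ) ≤ r ^ (2 : ℝ) * x ^ p + r ^ (2 - p) * s ^ p := by
  have hp0 : 0 < p := by linarith
  rcases eq_or_lt_of_le hx with h0 | h0
  · subst h0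
    rcases eq_or_lt_of_le hp with h1 | h1
    · subst h1
      simp
    · rw [Real.zero_rpow (by linarith : p - 2 ≠ 0), zero_mul]
      positivity
  rcases le_total s (r * x) with h1 | h1
  · -- `x ^ (p - 2) s ^ 2 ≤ r ^ 2 x ^ p`
    have h2 : s ^ (2 : ℝ) ≤ r ^ (2 : ℝ) * x ^ (2 : ℝ) := by
      rw [← Real.mul_rpow hr.le hx]
      exact Real.rpow_le_rpow hs h1 (by norm_num)
    have h3 : x ^ (p - 2) * s ^ (2 : ℝ) ≤ r ^ (2 : ℝ) * x ^ p := by
      calc x ^ (p - 2) * s ^ (2 : ℝ) ≤ x ^ (p - 2) * (r ^ (2 : ℝ) * x ^ (2 : ℝ)) :=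
            mul_le_mul_of_nonneg_left h2 (Real.rpow_nonneg hx _)
        _ = r ^ (2 : ℝ) * (x ^ (p - 2) * x ^ (2 : ℝ)) := by ring
        _ = _ := by rw [← Real.rpow_add h0]; norm_num
    have h4 : 0 ≤ r ^ (2 - p) * s ^ p := by positivity
    linarith
  · have hs0 : 0 < s := lt_of_lt_of_le (mul_pos hr h0) h1
    have h2 : x ^ (p - 2) ≤ r ^ (2 - p) * s ^ (p - 2) := by
      have h3 : (r * x) ^ (p - 2) ≤ s ^ (p - 2) :=
        Real.rpow_le_rpow (mul_pos hr h0).le h1 (by linarith)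
      rw [Real.mul_rpow hr.le hx] at h3
      have h4 : r ^ (2 - p) * r ^ (p - 2) = 1 := by
        rw [← Real.rpow_add hr]
        norm_num
      calc x ^ (p - 2) = r ^ (2 - p) * (r ^ (p - 2) * x ^ (p - 2)) := by
            rw [← mul_assoc, h4, one_mul]
        _ ≤ _ := mul_le_mul_of_nonneg_left h3 (Real.rpow_nonneg hr.le _)
    have h3 : x ^ (p - 2) * s ^ (2 : ℝ) ≤ r ^ (2 - p) * s ^ p := by
      calc x ^ (p - 2) * s ^ (2 : ℝ) ≤ (r ^ (2 - p) * s ^ (p - 2)) * s ^ (2 : ℝ) :=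
            mul_le_mul_of_nonneg_right h2 (Real.rpow_nonneg hs _)
        _ = r ^ (2 - p) * (s ^ (p - 2) * s ^ (2 : ℝ)) := by ring
        _ = _ := by rw [← Real.rpow_add hs0]; norm_num
    have h4 : 0 ≤ r ^ (2 : ℝ) * x ^ p := by positivity
    linarith

/-- The rank one update. -/
theorem lew_upd {e : ℕ} {p : ℝ} (hp : 2 ≤ p) {z : E e} (hz : z ≠ 0) (v : E e) {r : ℝ}
    (hr : 0 < r) :
    ‖v + (3 / ‖z‖ ^ 2 * inner ℝ z v) • z‖ ^ p ≤ ‖v‖ ^ p +
      p / 2 * (15 / ‖z‖ ^ 2) * 4 ^ (p - 2) *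
      (r ^ (2 : ℝ) * ‖v‖ ^ p + r ^ (2 - p) * |inner ℝ z v| ^ p) := by
  have hz0 : 0 < ‖z‖ ^ 2 := by positivity
  have hp0 : 0 < p := by linarith
  set s := inner ℝ z v with hs
  set a := ‖v‖ ^ 2 with ha
  set b := 15 / ‖z‖ ^ 2 * s ^ 2 with hb
  have ha0 : 0 ≤ a := by positivity
  have hb0 : 0 ≤ b := by positivity
  have h1 : ‖v + (3 / ‖z‖ ^ 2 * s) • z‖ ^ 2 = a + b := by
    rw [norm_add_sq_real, inner_smul_right, norm_smul, real_inner_comm, ← hs, mul_pow,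
      Real.norm_eq_abs, sq_abs]
    field_simp
    rw [hb, ha]
    field_simp
    ring
  have h2 : b ≤ 15 * a := by
    have h3 : s ^ 2 ≤ ‖z‖ ^ 2 * ‖v‖ ^ 2 := by
      rw [← mul_pow, ← sq_abs]
      exact pow_le_pow_left₀ (abs_nonneg _) (abs_real_inner_le_norm z v) 2
    rw [hb, div_mul_eq_mul_div, div_le_iff₀ hz0, ha]
    nlinarith
  have hsq : ∀ w : ℝ, 0 ≤ w → w ^ p = (w ^ 2) ^ (p / 2) := by
    intro w hw
    rw [← Real.rpow_natCast, ← Real.rpow_mul hw]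
    congr 1
    push_cast
    ring
  rcases eq_or_lt_of_le ha0 with h0 | h0
  · have hv : v = 0 := by
      have : ‖v‖ = 0 := by
        rw [ha] at h0
        exact pow_eq_zero_iff (two_ne_zero) |>.1 h0.symm
      exact norm_eq_zero.1 this
    have hs0 : s = 0 := by rw [hs, hv, inner_zero_right]
    rw [hs0, hv]
    simp [Real.zero_rpow hp0.ne']
  have hv0 : 0 ≤ ‖v‖ := norm_nonneg v
  rw [hsq _ (norm_nonneg _), h1, hsq ‖v‖ hv0, ← ha]
  refine (lew_bern ha0 hb0 (by linarith) (by linarith : 1 ≤ p / 2)).trans ?_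
  refine add_le_add le_rfl ?_
  have h4 : (a + b) ^ (p / 2 - 1) ≤ 4 ^ (p - 2) * ‖v‖ ^ (p - 2) := by
    have h5 : (a + b) ^ (p / 2 - 1) ≤ (16 * a) ^ (p / 2 - 1) :=
      Real.rpow_le_rpow (by linarith) (by linarith) (by linarith)
    refine h5.trans (le_of_eq ?_)
    rw [Real.mul_rpow (by norm_num) ha0, ha]
    have h6 : (16 : ℝ) = 4 ^ (2 : ℝ) := by norm_num
    rw [h6, ← Real.rpow_mul (by norm_num), ← Real.rpow_natCast ‖v‖ 2, ← Real.rpow_mul hv0]
    congr 2 <;> push_cast <;> ring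
  have h5 := lew_young hv0 (abs_nonneg s) hr hp
  have h6 : |s| ^ (2 : ℝ) = s ^ 2 := by
    rw [show (2 : ℝ) = ((2 : ℕ) : ℝ) by norm_num, Real.rpow_natCast, sq_abs]
  rw [h6] at h5
  have h7 : 0 ≤ p / 2 * b := by positivity
  calc p / 2 * b * (a + b) ^ (p / 2 - 1) ≤ p / 2 * b * (4 ^ (p - 2) * ‖v‖ ^ (p - 2)) :=
        mul_le_mul_of_nonneg_left h4 h7
    _ = p / 2 * (15 / ‖z‖ ^ 2) * 4 ^ (p - 2) * (‖v‖ ^ (p - 2) * s ^ 2) := by
        rw [hb]; ring
    _ ≤ _ := by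
        rw [← hsq ‖v‖ hv0]
        exact mul_le_mul_of_nonneg_left h5 (by positivity)

theorem lew_int {e : ℕ} {p : ℝ} (hp : 1 ≤ p) {ν : Measure (E e)}
    (hν : Integrable (fun u => ‖u‖ ^ p) ν) (T : E e →ₗ[ℝ] E e) :
    Integrable (fun u => ‖T u‖ ^ p) ν := by
  have hp0 : 0 ≤ p := by linarith
  have hc : Continuous T := LinearMap.continuous_of_finiteDimensional T
  refine Integrable.mono' (hν.const_mul (‖LinearMap.toContinuousLinearMap T‖ ^ p)) ?_ ?_
  · exact (hc.norm.rpow_const fun _ => Or.inr hp0).aestronglyMeasurable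
  · refine Filter.Eventually.of_forall fun u => ?_
    rw [Real.norm_eq_abs, abs_of_nonneg (Real.rpow_nonneg (norm_nonneg _) _),
      ← Real.mul_rpow (norm_nonneg _) (norm_nonneg _)]
    exact Real.rpow_le_rpow (norm_nonneg _)
      ((LinearMap.toContinuousLinearMap T).le_opNorm u) hp0

theorem lew_smul {e : ℕ} {p : ℝ} (ν : Measure (E e)) {a : ℝ} (ha : 0 ≤ a)
    (T : E e →ₗ[ℝ] E e) : ∫ u, ‖(a • T) u‖ ^ p ∂ν = a ^ p * ∫ u, ‖T u‖ ^ p ∂ν := by
  rw [← integral_const_mul]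
  congr 1
  funext u
  rw [LinearMap.smul_apply, norm_smul, Real.norm_eq_abs, abs_of_nonneg ha,
    Real.mul_rpow ha (norm_nonneg _)]

/-- Determinants of the maps `S` with `∫ ‖S u‖ ^ p ≤ 1` are bounded. -/
theorem lew_bdd {e : ℕ} {p : ℝ} (hp : 1 ≤ p) (ν : Measure (E e)) {ε : ℝ} (hε : 0 < ε)
    (hnd : ∀ (k : Fin e) (T : E e →ₗ[ℝ] E e),
      ε * ‖T (EuclideanSpace.single k (1 : ℝ))‖ ^ p ≤ ∫ u, ‖T u‖ ^ p ∂ν)
    (S : E e →ₗ[ℝ] E e) (hS : ∫ u, ‖S u‖ ^ p ∂ν ≤ 1) :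
    |LinearMap.det S| ≤ (e.factorial : ℝ) * ((1 / ε) ^ (1 / p)) ^ e := by
  have hp0 : 0 < p := by linarith
  set b := (EuclideanSpace.basisFun (Fin e) ℝ).toBasis with hb
  have hent : ∀ i j, |LinearMap.toMatrix b b S i j| ≤ (1 / ε) ^ (1 / p) := by
    intro i j
    have h1 : LinearMap.toMatrix b b S i j = (S (EuclideanSpace.single j (1 : ℝ))) i := by
      rw [LinearMap.toMatrix_apply, hb]
      simp [EuclideanSpace.basisFun_repr]
    have h2 : ‖S (EuclideanSpace.single j (1 : ℝ))‖ ^ p ≤ 1 / ε := by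
      rw [le_div_iff₀ hε, mul_comm]
      exact (hnd j S).trans hS
    have h3 : ‖S (EuclideanSpace.single j (1 : ℝ))‖ ≤ (1 / ε) ^ (1 / p) := by
      have h4 := Real.rpow_le_rpow (Real.rpow_nonneg (norm_nonneg _) _) h2
        (one_div_pos.2 hp0).le
      rwa [← Real.rpow_mul (norm_nonneg _), mul_one_div, div_self hp0.ne', Real.rpow_one] at h4
    rw [h1]
    refine le_trans ?_ h3
    have h4 := PiLp.norm_apply_le (S (EuclideanSpace.single j (1 : ℝ))) i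
    rwa [Real.norm_eq_abs] at h4
  have h1 := Matrix.det_le (A := LinearMap.toMatrix b b S) (abv := AbsoluteValue.abs) hent
  rw [LinearMap.det_toMatrix] at h1
  simpa [Fintype.card_fin, nsmul_eq_mul] using h1

/-- Near-maximisers of the determinant. -/
theorem lew_max {e : ℕ} {p : ℝ} (hp : 1 ≤ p) (ν : Measure (E e)) {ε : ℝ} (hε : 0 < ε)
    (hnd : ∀ (k : Fin e) (T : E e →ₗ[ℝ] E e),
      ε * ‖T (EuclideanSpace.single k (1 : ℝ))‖ ^ p ≤ ∫ u, ‖T u‖ ^ p ∂ν) :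
    ∃ S : E e →ₗ[ℝ] E e, LinearMap.det S ≠ 0 ∧ ∫ u, ‖S u‖ ^ p ∂ν ≤ 1 ∧
      ∀ S' : E e →ₗ[ℝ] E e, ∫ u, ‖S' u‖ ^ p ∂ν ≤ 1 →
        |LinearMap.det S'| ≤ 2 * |LinearMap.det S| := by
  have hp0 : 0 < p := by linarith
  set A : Set ℝ := {x | ∃ S : E e →ₗ[ℝ] E e, ∫ u, ‖S u‖ ^ p ∂ν ≤ 1 ∧ x = |LinearMap.det S|}
    with hA
  have hbdd : BddAbove A := ⟨(e.factorial : ℝ) * ((1 / ε) ^ (1 / p)) ^ e, by
    rintro x ⟨S, hS, rfl⟩
    exact lew_bdd hp ν hε hnd S hS⟩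
  set I := ∫ u, ‖(LinearMap.id : E e →ₗ[ℝ] E e) u‖ ^ p ∂ν with hI
  have hI0 : 0 ≤ I := integral_nonneg fun u => Real.rpow_nonneg (norm_nonneg _) _
  set a : ℝ := 1 / (1 + I) with ha
  have ha0 : 0 < a := by positivity
  have ha1 : a ≤ 1 := by
    rw [ha, div_le_one (by positivity)]
    linarith
  have hmem : a ^ e ∈ A := by
    refine ⟨a • LinearMap.id, ?_, ?_⟩
    · rw [lew_smul ν ha0.le, ← hI]
      have h1 : a ^ p ≤ a := by
        have := Real.rpow_le_rpow_of_exponent_ge ha0 ha1 hp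
        rwa [Real.rpow_one] at this
      calc a ^ p * I ≤ a * I := mul_le_mul_of_nonneg_right h1 hI0
        _ ≤ 1 := by
            rw [ha, one_div, inv_mul_le_iff₀ (by positivity)]
            linarith
    · rw [LinearMap.det_smul, finrank_euclideanSpace_fin, LinearMap.det_id, mul_one,
        abs_of_pos (pow_pos ha0 _)]
  have hsup : 0 < sSup A := lt_of_lt_of_le (pow_pos ha0 e) (le_csSup hbdd hmem)
  obtain ⟨x, ⟨S, hS, rfl⟩, hx⟩ := exists_lt_of_lt_csSup ⟨_, hmem⟩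
    (by linarith : sSup A / 2 < sSup A)
  refine ⟨S, ?_, hS, ?_⟩
  · intro h0
    rw [h0, abs_zero] at hx
    linarith
  · intro S' hS'
    have := le_csSup hbdd (⟨S', hS', rfl⟩ : |LinearMap.det S'| ∈ A)
    linarith

/-- Lewis' position. -/
theorem lewis {e : ℕ} {p : ℝ} (hp : 2 ≤ p) (ν : Measure (E e))
    (hν : Integrable (fun u => ‖u‖ ^ p) ν) {ε : ℝ} (hε : 0 < ε)
    (hnd : ∀ (k : Fin e) (T : E e →ₗ[ℝ] E e),
      ε * ‖T (EuclideanSpace.single k (1 : ℝ))‖ ^ p ≤ ∫ u, ‖T u‖ ^ p ∂ν) :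
    ∃ S : E e →ₗ[ℝ] E e, LinearMap.det S ≠ 0 ∧ ∫ u, ‖S u‖ ^ p ∂ν ≤ 1 ∧
      ∀ (z : E e) (r : ℝ), 0 < r → ∫ u, |inner ℝ z (S u)| ^ p ∂ν ≤ r ^ p →
        ‖z‖ ^ 2 ≤ 30 * 4 ^ (p - 2) * e * r ^ 2 := by
  have hp0 : 0 < p := by linarith
  obtain ⟨S, hS0, hS1, hmax⟩ := lew_max (by linarith : 1 ≤ p) ν hε hnd
  refine ⟨S, hS0, hS1, ?_⟩
  intro z r hr hzr
  by_contra hcon
  push Not at hcon
  have h4p : 0 < (4 : ℝ) ^ (p - 2) := Real.rpow_pos_of_pos (by norm_num) _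
  have hz : z ≠ 0 := by
    rintro rfl
    rw [norm_zero] at hcon
    have : 0 ≤ 30 * (4 : ℝ) ^ (p - 2) * e * r ^ 2 := by positivity
    norm_num at hcon
    linarith
  have hz0 : 0 < ‖z‖ ^ 2 := by positivity
  have he : 0 < e := by
    rcases Nat.eq_zero_or_pos e with h0 | h0
    · subst h0
      exact absurd (Subsingleton.elim z 0) hz
    · exact h0
  have he0 : (0 : ℝ) < e := by exact_mod_cast he
  set f : Module.Dual ℝ (E e) := (3 / ‖z‖ ^ 2) • (innerₛₗ ℝ z) with hf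
  have hfz : f z = 3 := by
    rw [hf, LinearMap.smul_apply, innerₛₗ_apply_apply, real_inner_self_eq_norm_sq, smul_eq_mul]
    field_simp
  set St : E e →ₗ[ℝ] E e := (LinearMap.transvection f z) ∘ₗ S with hSt
  have hdet : LinearMap.det St = 4 * LinearMap.det S := by
    rw [hSt, LinearMap.det_comp, LinearMap.transvection.det, hfz]
    norm_num
  have hStu : ∀ u, St u = S u + (3 / ‖z‖ ^ 2 * inner ℝ z (S u)) • z := by
    intro u
    rw [hSt, LinearMap.comp_apply, LinearMap.transvection.apply, hf, LinearMap.smul_apply,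
      innerₛₗ_apply_apply, smul_eq_mul]
  set g := ∫ u, ‖St u‖ ^ p ∂ν with hg
  have hSi := lew_int (by linarith : 1 ≤ p) hν S
  have hzi : Integrable (fun u => |inner ℝ z (S u)| ^ p) ν := by
    have hc : Continuous S := LinearMap.continuous_of_finiteDimensional S
    refine Integrable.mono' (hSi.const_mul (‖z‖ ^ p)) ?_ ?_
    · exact ((continuous_const.inner hc).abs.rpow_const fun _ => Or.inr hp0.le).aestronglyMeasurable
    · refine Filter.Eventually.of_forall fun u => ?_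
      rw [Real.norm_eq_abs, abs_of_nonneg (Real.rpow_nonneg (abs_nonneg _) _),
        ← Real.mul_rpow (norm_nonneg _) (norm_nonneg _)]
      exact Real.rpow_le_rpow (abs_nonneg _) (abs_real_inner_le_norm _ _) hp0.le
  set C' : ℝ := p / 2 * (15 / ‖z‖ ^ 2) * 4 ^ (p - 2) with hC'
  have hC0 : 0 ≤ C' := by positivity
  have hg1 : g ≤ 1 + 2 * C' * r ^ (2 : ℝ) := by
    have i2 : Integrable (fun u => r ^ (2 : ℝ) * ‖S u‖ ^ p +
        r ^ (2 - p) * |inner ℝ z (S u)| ^ p) ν := (hSi.const_mul _).add (hzi.const_mul _)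
    have i3 : Integrable (fun u => C' * (r ^ (2 : ℝ) * ‖S u‖ ^ p +
        r ^ (2 - p) * |inner ℝ z (S u)| ^ p)) ν := i2.const_mul _
    have h1 : g ≤ ∫ u, (‖S u‖ ^ p + C' * (r ^ (2 : ℝ) * ‖S u‖ ^ p +
        r ^ (2 - p) * |inner ℝ z (S u)| ^ p)) ∂ν := by
      refine integral_mono (lew_int (by linarith) hν St) (hSi.add i3) fun u => ?_
      simp only
      rw [hStu]
      exact lew_upd hp hz (S u) hr
    rw [integral_add hSi i3, integral_const_mul, integral_add (hSi.const_mul _) (hzi.const_mul _),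
      integral_const_mul, integral_const_mul] at h1
    have h2 : r ^ (2 - p) * ∫ u, |inner ℝ z (S u)| ^ p ∂ν ≤ r ^ (2 : ℝ) := by
      calc _ ≤ r ^ (2 - p) * r ^ p := mul_le_mul_of_nonneg_left hzr (Real.rpow_nonneg hr.le _)
        _ = _ := by rw [← Real.rpow_add hr]; norm_num
    have h3 : r ^ (2 : ℝ) * ∫ u, ‖S u‖ ^ p ∂ν ≤ r ^ (2 : ℝ) * 1 :=
      mul_le_mul_of_nonneg_left hS1 (Real.rpow_nonneg hr.le _)
    have h4 := mul_le_mul_of_nonneg_left (add_le_add h3 h2) hC0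
    linarith
  have hg2 : g ≤ 1 + p / (2 * e) := by
    refine hg1.trans ?_
    have h1 : r ^ (2 : ℝ) = r ^ 2 := by
      rw [show (2 : ℝ) = ((2 : ℕ) : ℝ) by norm_num, Real.rpow_natCast]
    rw [h1, hC']
    have h2 : 2 * (p / 2 * (15 / ‖z‖ ^ 2) * 4 ^ (p - 2)) * r ^ 2 =
        (p * (15 * 4 ^ (p - 2) * r ^ 2)) / ‖z‖ ^ 2 := by
      field_simp
    rw [h2]
    refine add_le_add le_rfl ?_
    rw [div_le_div_iff₀ hz0 (by positivity)]
    have h3 : p * (15 * 4 ^ (p - 2) * r ^ 2) * (2 * e) = p * (30 * 4 ^ (p - 2) * e * r ^ 2) := by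
      ring
    rw [h3]
    exact mul_le_mul_of_nonneg_left hcon.le hp0.le
  have hg0 : 0 < g := by
    have h1 := hnd ⟨0, he⟩ St
    have h2 : St (EuclideanSpace.single ⟨0, he⟩ (1 : ℝ)) ≠ 0 := by
      intro h3
      have h4 : LinearMap.det St ≠ 0 := by
        rw [hdet]
        exact mul_ne_zero (by norm_num) hS0
      have h5 : Function.Injective St :=
        (LinearMap.equivOfDetNeZero St h4).injective
      have h6 : EuclideanSpace.single (⟨0, he⟩ : Fin e) (1 : ℝ) = 0 :=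
        h5 (by rw [h3, map_zero])
      have h7 := congrArg (fun v : E e => v ⟨0, he⟩) h6
      simp at h7
    exact lt_of_lt_of_le (by positivity) h1
  -- rescale
  set a : ℝ := g ^ (-(1 / p)) with ha
  have ha0 : 0 < a := Real.rpow_pos_of_pos hg0 _
  have hap : a ^ p = g⁻¹ := by
    rw [ha, ← Real.rpow_mul hg0.le, neg_mul, one_div, inv_mul_cancel₀ hp0.ne',
      Real.rpow_neg_one]
  have h1 := hmax (a • St) (by
    rw [lew_smul ν ha0.le, hap, ← hg, inv_mul_cancel₀ hg0.ne'])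
  rw [LinearMap.det_smul, finrank_euclideanSpace_fin, hdet, abs_mul, abs_mul,
    abs_of_pos (pow_pos ha0 _), abs_of_pos (by norm_num : (0 : ℝ) < 4)] at h1
  have hdS : 0 < |LinearMap.det S| := abs_pos.2 hS0
  have h2 : a ^ e ≤ 1 / 2 := by
    have h3 : a ^ e * 4 * |LinearMap.det S| ≤ 2 * |LinearMap.det S| := by
      rw [mul_assoc]; exact h1
    have h4 := le_of_mul_le_mul_right h3 hdS
    linarith
  have h3 : Real.exp (-(1 / 2)) ≤ a ^ e := by
    have h4 : Real.log g ≤ p / (2 * e) := by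
      have := Real.log_le_sub_one_of_pos hg0
      linarith
    have h5 : a ^ e = Real.exp (-(1 / p) * Real.log g * e) := by
      rw [ha, Real.rpow_def_of_pos hg0, ← Real.exp_nat_mul]
      congr 1
      ring
    rw [h5]
    refine Real.exp_le_exp.2 ?_
    have h6 : (1 / p) * e * Real.log g ≤ (1 / p) * e * (p / (2 * e)) :=
      mul_le_mul_of_nonneg_left h4 (by positivity)
    have h7 : (1 / p) * e * (p / (2 * e)) = 1 / 2 := by field_simp
    rw [h7] at h6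
    linarith
  have h4 : (1 / 2 : ℝ) < Real.exp (-(1 / 2)) := by
    have h5 := Real.add_one_lt_exp (x := -(1 / 2 : ℝ)) (by norm_num)
    linarith
  linarith

end Pool.Agent.StB
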