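import Pool.Agent.StB.MainT

/-!
# The trace method with dyadic cells: `O(n log n)` bounds
-/

set_option autoImplicit false

open scoped BigOperators

namespace Pool.Agent.StB

/-- The break points of the dyadic cells (in units of `γ`). -/
private noncomputable def brk (L : ℕ) (γ : ℝ) (v : ℕ) : ℝ :=
  if v ≤ L then -(γ / 2 ^ v) else if v = L + 1 then 0 else γ * 2 ^ (v - (L + 2)) / 2 ^ L

private theorem brk_zero (L : ℕ) (γ : ℝ) : brk L γ 0 = -γ := by
  simp [brk]

private theorem brk_last (L : ℕ) (γ : ℝ) : brk L γ (2 * L + 2) = γ := by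
  rw [brk, if_neg (by omega), if_neg (by omega)]
  have : 2 * L + 2 - (L + 2) = L := by omega
  rw [this, mul_div_assoc, div_self (by positivity), mul_one]

private theorem brk_gap (L : ℕ) {γ : ℝ} (hγ : 0 < γ) (v : ℕ) (_hv : v < 2 * L + 2) {ξ : ℝ}
    (h1 : brk L γ v ≤ ξ) (h2 : ξ ≤ brk L γ (v + 1)) :
    brk L γ (v + 1) - brk L γ v ≤ γ / 2 ^ L + |ξ| := by
  rcases lt_or_ge v L with h3 | h3
  · rw [brk, if_pos (by omega)] at h2 ⊢
    rw [brk, if_pos (by omega)]
    have e1 : γ / 2 ^ v = 2 * (γ / 2 ^ (v + 1)) := by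
      rw [pow_succ]; field_simp
    have h4 : 0 ≤ γ / 2 ^ L := by positivity
    have h5 : γ / 2 ^ (v + 1) ≤ |ξ| := by
      have := neg_abs_le ξ
      linarith [neg_le_neg h2, abs_nonneg ξ, neg_abs_le ξ, neg_le_abs ξ]
    rw [e1]
    linarith
  · rcases eq_or_lt_of_le h3 with h4 | h4
    · subst h4
      rw [brk, if_neg (by omega), if_pos rfl, brk, if_pos le_rfl]
      have := abs_nonneg ξ
      linarith
    · rcases eq_or_lt_of_le (Nat.succ_le_of_lt h4) with h5 | h5
      · have h6 : v = L + 1 := by omega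
        subst h6
        rw [brk, if_neg (by omega), if_neg (by omega), brk, if_neg (by omega), if_pos rfl]
        have h7 : L + 1 + 1 - (L + 2) = 0 := by omega
        rw [h7, pow_zero, mul_one]
        have := abs_nonneg ξ
        linarith
      · have h6 : L + 2 ≤ v := by omega
        rw [brk, if_neg (by omega), if_neg (by omega)] at h1
        rw [brk, if_neg (by omega), if_neg (by omega), brk, if_neg (by omega), if_neg (by omega)]
        obtain ⟨t, rfl⟩ : ∃ t, v = L + 2 + t := ⟨v - (L + 2), by omega⟩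
        have e1 : L + 2 + t - (L + 2) = t := by omega
        have e2 : L + 2 + t + 1 - (L + 2) = t + 1 := by omega
        rw [e1] at h1 ⊢
        rw [e2, pow_succ]
        have h7 : γ * (2 ^ t * 2) / 2 ^ L = 2 * (γ * 2 ^ t / 2 ^ L) := by ring
        rw [h7]
        have h8 : 0 ≤ γ / 2 ^ L := by positivity
        have h9 := le_abs_self ξ
        linarith

private theorem brk_mono (L : ℕ) {γ : ℝ} (hγ : 0 < γ) : Monotone (brk L γ) := by
  refine monotone_nat_of_le_succ fun v => ?_
  rcases lt_or_ge v L with h3 | h3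
  · rw [brk, if_pos (by omega), brk, if_pos (by omega)]
    have e1 : γ / 2 ^ v = 2 * (γ / 2 ^ (v + 1)) := by
      rw [pow_succ]; field_simp
    have : 0 < γ / 2 ^ (v + 1) := by positivity
    rw [e1]
    linarith
  · rcases eq_or_lt_of_le h3 with h4 | h4
    · subst h4
      rw [brk, if_pos le_rfl, brk, if_neg (by omega), if_pos rfl]
      have : 0 < γ / 2 ^ L := by positivity
      linarith
    · rcases eq_or_lt_of_le (Nat.succ_le_of_lt h4) with h5 | h5
      · have h6 : v = L + 1 := by omega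
        subst h6
        rw [brk, if_neg (by omega), if_pos rfl, brk, if_neg (by omega), if_neg (by omega)]
        positivity
      · have h6 : L + 2 ≤ v := by omega
        rw [brk, if_neg (by omega), if_neg (by omega), brk, if_neg (by omega), if_neg (by omega)]
        obtain ⟨t, rfl⟩ : ∃ t, v = L + 2 + t := ⟨v - (L + 2), by omega⟩
        have e1 : L + 2 + t - (L + 2) = t := by omega
        have e2 : L + 2 + t + 1 - (L + 2) = t + 1 := by omega
        rw [e1, e2, pow_succ]
        have h7 : γ * (2 ^ t * 2) / 2 ^ L = 2 * (γ * 2 ^ t / 2 ^ L) := by ring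
        rw [h7]
        have : 0 < γ * 2 ^ t / 2 ^ L := by positivity
        linarith

/-- The cell of a number. -/
private theorem brk_cell (L : ℕ) {γ : ℝ} (hγ : 0 < γ) :
    ∃ cell : ℝ → Fin (2 * L + 1 + 1), (∀ ξ, |ξ| ≤ γ → brk L γ (cell ξ) ≤ ξ ∧
      ξ ≤ brk L γ ((cell ξ : ℕ) + 1)) ∧
      ∀ ξ ξ', |ξ| ≤ γ → |ξ'| ≤ γ → cell ξ < cell ξ' → ξ ≤ ξ' := by
  classical
  have hex : ∀ ξ : ℝ, |ξ| ≤ γ → ∃ v : ℕ, ξ ≤ brk L γ (v + 1) := fun ξ hξ =>
    ⟨2 * L + 1, by rw [brk_last]; exact (le_abs_self ξ).trans hξ⟩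
  have hcell : ∀ ξ : ℝ, ∃ v : Fin (2 * L + 1 + 1), |ξ| ≤ γ →
      (ξ ≤ brk L γ ((v : ℕ) + 1) ∧ ∀ u : ℕ, u < v → brk L γ (u + 1) < ξ) := by
    intro ξ
    by_cases hξ : |ξ| ≤ γ
    · have h1 := Nat.find_spec (hex ξ hξ)
      have h2 : Nat.find (hex ξ hξ) ≤ 2 * L + 1 :=
        Nat.find_min' _ (by rw [brk_last]; exact (le_abs_self ξ).trans hξ)
      refine ⟨⟨Nat.find (hex ξ hξ), by omega⟩, fun _ => ⟨h1, fun u hu => ?_⟩⟩
      exact not_le.1 (Nat.find_min (hex ξ hξ) hu)
    · exact ⟨0, fun h => absurd h hξ⟩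
  choose cell hc using hcell
  refine ⟨cell, fun ξ hξ => ⟨?_, (hc ξ hξ).1⟩, fun ξ ξ' hξ hξ' hlt => ?_⟩
  · rcases Nat.eq_zero_or_pos (cell ξ : ℕ) with h1 | h1
    · rw [h1, brk_zero]
      exact (abs_le.1 hξ).1
    · have h2 := (hc ξ hξ).2 ((cell ξ : ℕ) - 1) (by omega)
      rw [Nat.sub_add_cancel h1] at h2
      exact h2.le
  · have h1 := (hc ξ hξ).1
    have h2 := (hc ξ' hξ').2 (cell ξ : ℕ) hlt
    linarith

/-- The trace inequality with dyadic cells. -/
theorem trl_core {ι : Type} [Fintype ι] {n : ℕ} (hn : 1 ≤ n) (x : Fin n → ι → ℝ) (c : ι → ℝ)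
    {γ : ℝ} (hγ : 0 < γ) (hc : ∀ i, γ ≤ c i) (x0 : Fin n → ℝ)
    (hx : ∀ k i, |x k i - x0 k| ≤ γ) (hs : ∀ i, ∑ k, |x k i - x0 k| ≤ 2 * c i)
    (H : ∀ w : ι → ℝ, ∑ i, w i = 0 →
      ∑ k, (-(∑ i, ∑ j, w i * w j * |x k i - x k j|) / 2) = ∑ i, c i * w i ^ 2) :
    Fintype.card ι ≤ 4 * (n * (2 * Nat.clog 2 n + 1) + 1) := by
  set L := Nat.clog 2 n with hL
  obtain ⟨cell, hcell, hcm⟩ := brk_cell L hγ
  have hn2 : (n : ℝ) ≤ 2 ^ L := by
    have : n ≤ 2 ^ L := Nat.le_pow_clog (by norm_num) n
    exact_mod_cast this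
  have hc0 : ∀ i, 0 < c i := fun i => lt_of_lt_of_le hγ (hc i)
  have h1 := trw_core (q := 2 * L + 1) x c hc0 (fun k i => cell (x k i - x0 k))
    (fun k v => x0 k + brk L γ v) (fun _ v => brk L γ ((v : ℕ) + 1) - brk L γ v) ?_ ?_ H
  · have h2 : (∑ i, (∑ k, (brk L γ ((cell (x k i - x0 k) : ℕ) + 1) -
        brk L γ (cell (x k i - x0 k)))) / c i) ≤ 3 * (Fintype.card ι : ℝ) := by
      have h3 : ∀ i, (∑ k, (brk L γ ((cell (x k i - x0 k) : ℕ) + 1) -
        brk L γ (cell (x k i - x0 k)))) / c i ≤ 3 := by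
        intro i
        rw [div_le_iff₀ (hc0 i)]
        have h4 : ∑ k, (brk L γ ((cell (x k i - x0 k) : ℕ) + 1) -
            brk L γ (cell (x k i - x0 k))) ≤ ∑ k : Fin n, (γ / 2 ^ L + |x k i - x0 k|) :=
          Finset.sum_le_sum fun k _ => brk_gap L hγ _ (cell (x k i - x0 k)).2
            (hcell _ (hx k i)).1 (hcell _ (hx k i)).2
        rw [Finset.sum_add_distrib, Finset.sum_const, Finset.card_univ, Fintype.card_fin,
          nsmul_eq_mul] at h4
        have h5 : (n : ℝ) * (γ / 2 ^ L) ≤ γ := by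
          rw [mul_div_assoc', div_le_iff₀ (by positivity), mul_comm]
          exact mul_le_mul_of_nonneg_left hn2 hγ.le
        have h6 := hs i
        have h7 := hc i
        linarith
      calc _ ≤ ∑ _i : ι, (3 : ℝ) := Finset.sum_le_sum fun i _ => h3 i
        _ = _ := by rw [Finset.sum_const, Finset.card_univ, nsmul_eq_mul]; ring
    have h8 : (Fintype.card ι : ℝ) ≤ 4 * (n * ((2 * L + 1 : ℕ) : ℝ) + 1) := by linarith
    have h9 : (Fintype.card ι : ℝ) ≤ ((4 * (n * (2 * L + 1) + 1) : ℕ) : ℝ) := by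
      push_cast at h8 ⊢
      linarith
    exact_mod_cast h9
  · intro k i
    have h2 := hcell _ (hx k i)
    constructor <;> linarith [h2.1, h2.2]
  · intro k i j hij
    have := hcm _ _ (hx k i) (hx k j) hij
    linarith

/-- The far points of an `ℓ_1` system. -/
private theorem far_T1 {n : ℕ} {ι : Type} [Fintype ι] (y : ι → Fin n → ℝ) (c : ι → ℝ)
    (hc : ∀ i, 0 < c i) (h : ∀ i j, i ≠ j → ∑ k, |y i k - y j k| = c i + c j) (i0 : ι) :
    ∃ L : Finset ι, L.card ≤ 2 * n ∧ ∀ i, i ∉ L → ∀ k, |y i k - y i0 k| ≤ c i0 := by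
  classical
  set L := Finset.univ.filter (fun i => ∃ k, c i0 < |y i k - y i0 k|) with hLdef
  have hex : ∀ i : {i : ι // i ∈ L}, ∃ k : Fin n, c i0 < |y i k - y i0 k| := fun i =>
    (Finset.mem_filter.1 i.2).2
  choose f hf using hex
  have hne0 : ∀ i : {i : ι // i ∈ L}, (i : ι) ≠ i0 := by
    intro i hi
    have := hf i
    rw [hi, sub_self, abs_zero] at this
    exact absurd this (not_lt.2 (hc i0).le)
  have hinj : Function.Injective (fun i : {i : ι // i ∈ L} =>
      (f i, decide (0 ≤ y i (f i) - y i0 (f i)))) := by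
    intro i j hij
    by_contra hne
    have hne' : (i : ι) ≠ j := fun h => hne (Subtype.ext h)
    simp only [Prod.mk.injEq, decide_eq_decide] at hij
    obtain ⟨hk, hs⟩ := hij
    have h1 := hf i
    have h2 := hf j
    rw [← hk] at h2 hs
    set k := f i with hkdef
    have e1 := h i i0 (hne0 i)
    have e2 := h j i0 (hne0 j)
    have e3 := h i j hne'
    have hlt : ∑ l, |y i l - y j l| <
        ∑ l, (|y i l - y i0 l| + |y j l - y i0 l| - (if l = k then 2 * c i0 else 0)) := by
      refine Finset.sum_lt_sum (fun l _ => ?_) ⟨k, Finset.mem_univ k, ?_⟩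
      · by_cases hl : l = k
        · rw [if_pos hl, hl]
          rcases le_or_gt 0 (y i k - y i0 k) with h3 | h3
          · have h4 := hs.1 h3
            rw [abs_of_nonneg h3] at h1 ⊢
            rw [abs_of_nonneg h4] at h2 ⊢
            rcases abs_cases (y i k - y j k) with h5 | h5 <;> linarith
          · have h4 : y j k - y i0 k < 0 := by
              by_contra h5
              exact absurd (hs.2 (not_lt.1 h5)) (not_le.2 h3)
            rw [abs_of_neg h3] at h1 ⊢
            rw [abs_of_neg h4] at h2 ⊢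
            rcases abs_cases (y i k - y j k) with h5 | h5 <;> linarith
        · rw [if_neg hl, sub_zero]
          have : y i l - y j l = (y i l - y i0 l) - (y j l - y i0 l) := by ring
          rw [this]
          exact abs_sub _ _
      · rw [if_pos rfl]
        rcases le_or_gt 0 (y i k - y i0 k) with h3 | h3
        · have h4 := hs.1 h3
          rw [abs_of_nonneg h3] at h1 ⊢
          rw [abs_of_nonneg h4] at h2 ⊢
          rcases abs_cases (y i k - y j k) with h5 | h5 <;> linarith
        · have h4 : y j k - y i0 k < 0 := by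
            by_contra h5
            exact absurd (hs.2 (not_lt.1 h5)) (not_le.2 h3)
          rw [abs_of_neg h3] at h1 ⊢
          rw [abs_of_neg h4] at h2 ⊢
          rcases abs_cases (y i k - y j k) with h5 | h5 <;> linarith
    rw [e3, Finset.sum_sub_distrib, Finset.sum_add_distrib, e1, e2, Finset.sum_ite_eq'] at hlt
    simp only [Finset.mem_univ, if_true] at hlt
    linarith
  refine ⟨L, ?_, fun i hi k => ?_⟩
  · have := Fintype.card_le_of_injective _ hinj
    rw [Fintype.card_coe, Fintype.card_prod, Fintype.card_fin, Fintype.card_bool] at this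
    omega
  · by_contra h2
    exact hi (Finset.mem_filter.2 ⟨Finset.mem_univ _, k, not_le.1 h2⟩)

/-- The `ℓ_1` bound with a logarithm for a system of equations. -/
theorem core_T1l {n : ℕ} (hn : 1 ≤ n) {ι : Type} [Fintype ι] (y : ι → Fin n → ℝ) (c : ι → ℝ)
    (hc : ∀ i, 0 < c i) (h : ∀ i j, i ≠ j → ∑ k, |y i k - y j k| = c i + c j) :
    Fintype.card ι ≤ 8 * n * Nat.clog 2 n + 6 * n + 4 := by
  classical
  rcases isEmpty_or_nonempty ι with he | he
  · simp
  obtain ⟨i0, h0⟩ := Finite.exists_min c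
  obtain ⟨L, hL, hnear⟩ := far_T1 y c hc h i0
  have hR := trl_core (ι := {i : ι // i ∈ Finset.univ \ L}) hn (fun k i => y i k) (fun i => c i)
    (hc i0) (fun i => h0 i) (fun k => y i0 k)
    (fun k i => hnear i (Finset.mem_sdiff.1 i.2).2 k) ?_ ?_
  · rw [Fintype.card_coe] at hR
    have h1 : Fintype.card ι = (Finset.univ \ L).card + L.card := by
      rw [Finset.card_sdiff_add_card_eq_card (Finset.subset_univ _), Finset.card_univ]
    have h2 : 4 * (n * (2 * Nat.clog 2 n + 1) + 1) = 8 * n * Nat.clog 2 n + 4 * n + 4 := by ring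
    omega
  · intro i
    by_cases hi : (i : ι) = i0
    · simp only [hi, sub_self, abs_zero, Finset.sum_const_zero]
      have := hc i0
      linarith
    · rw [h i i0 hi]
      have := h0 i
      linarith
  · exact id_T1 (ι := {i : ι // i ∈ Finset.univ \ L}) (fun i k => y i k) (fun i => c i)
      (fun i j hij => h i j (fun h => hij (Subtype.ext h)))

/-- THEOREM T1 with a logarithm: `K = {|f l x| ≤ 1 for all l, ∑ k, |a k x| ≤ 1}`. -/
theorem main_T1l {d s n : ℕ} (hn : 1 ≤ n) (f : Fin s → E d →ₗ[ℝ] ℝ)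
    (a : Fin n → E d →ₗ[ℝ] ℝ) {N : ℕ} (c : Fin N → ℝ) (x : Fin N → E d)
    (hT : Tangent (sumBody f a (fun _ t => |t|)) c x) :
    N ≤ 2 ^ s * (8 * n * Nat.clog 2 n + 6 * n + 4) := by
  classical
  have hφ : ∀ _k : Fin n, Gr 1 (fun t : ℝ => |t|) := fun _ =>
    ⟨fun t => abs_neg t, ⟨convex_univ, fun u _ v _ α β hα hβ _ => by
        simp only [smul_eq_mul]
        refine (abs_add_le _ _).trans (le_of_eq ?_)
        rw [abs_mul, abs_mul, abs_of_nonneg hα, abs_of_nonneg hβ]⟩,
      abs_zero, fun L t hL ht => by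
        rw [abs_mul, abs_of_nonneg (by linarith : 0 ≤ L), pow_one]⟩
  have hsl : ∀ l : Fin s, ∃ col : Fin N → Bool,
      ∀ i j, col i = col j → |f l (x i) - f l (x j)| < c i + c j := by
    intro l
    refine slab_col c (fun i => f l (x i)) hT.1 ?_
    intro i j
    by_cases hij : i = j
    · subst hij
      have := hT.1 i
      simp only [sub_self, abs_zero]
      linarith
    · exact (pair_A f a _ hφ hT hij).1 l
  choose col hcol using hsl
  refine col_split (fun i l => col l i) ?_
  intro v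
  have h := core_T1l hn
    (fun (i : {i : Fin N // i ∈ Finset.univ.filter (fun i => (fun l => col l i) = v)}) k =>
      a k (x i)) (fun i => c i) (fun i => hT.1 i) ?_
  · rwa [Fintype.card_coe] at h
  · intro i j hij
    have hij' : (i : Fin N) ≠ j := fun h => hij (Subtype.ext h)
    have hi := (Finset.mem_filter.1 i.2).2
    have hj := (Finset.mem_filter.1 j.2).2
    rcases (pair_A f a _ hφ hT hij').2 with ⟨l, hl⟩ | hb
    · exfalso
      have := hcol l i j (congrFun (hi.trans hj.symm) l)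
      linarith
    · have hpos : 0 < c i + c j := add_pos (hT.1 i) (hT.1 j)
      have h1 : ∀ k, |(a k (x i) - a k (x j)) / (c i + c j)| =
          |a k (x i) - a k (x j)| / (c i + c j) := by
        intro k
        rw [abs_div, abs_of_pos hpos]
      simp only [h1] at hb
      rw [← Finset.sum_div, div_eq_one_iff_eq hpos.ne'] at hb
      exact hb

/-- The far points of a simplex system. -/
private theorem far_T3 {m : ℕ} {ι : Type} [Fintype ι] {a : ι → Fin m → ℝ} {c : ι → ℝ}
    (hc : ∀ i, 0 < c i) (h : SimSys a c) (i0 : ι) :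
    ∃ L : Finset ι, L.card ≤ m ∧ ∀ i, i ∉ L → ∀ k, |a i k - a i0 k| ≤ c i0 := by
  classical
  set L := Finset.univ.filter (fun i => ∃ k, c i0 < a i0 k - a i k) with hLdef
  have hex : ∀ i : {i : ι // i ∈ L}, ∃ k : Fin m, c i0 < a i0 k - a i k := fun i =>
    (Finset.mem_filter.1 i.2).2
  choose f hf using hex
  have hne0 : ∀ i : {i : ι // i ∈ L}, (i : ι) ≠ i0 := by
    intro i hi
    have := hf i
    rw [hi, sub_self] at this
    exact absurd this (not_lt.2 (hc i0).le)
  have hinj : Function.Injective f := by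
    intro i j hij
    by_contra hne
    have hne' : (i : ι) ≠ j := fun h => hne (Subtype.ext h)
    set g : Fin m → ℝ := fun k => a i0 k + max (a i k - a i0 k) 0 + max (a j k - a i0 k) 0
      - max (a i k) (a j k) with hg
    have hsum : ∑ k, g k = c i0 := by
      rw [hg]
      simp only [Finset.sum_sub_distrib, Finset.sum_add_distrib]
      rw [h.1 i0, sim_pos h (hne0 i).symm, sim_pos h (hne0 j).symm, h.2 i j hne']
      ring
    have hnn : ∀ k, 0 ≤ g k := by
      intro k
      simp only [hg]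
      rcases max_cases (a i k) (a j k) with h1 | h1 <;>
      rcases max_cases (a i k - a i0 k) 0 with h2 | h2 <;>
      rcases max_cases (a j k - a i0 k) 0 with h3 | h3 <;> linarith
    have hk : c i0 < g (f i) := by
      have h1 := hf i
      have h2 := hf j
      rw [← hij] at h2
      simp only [hg]
      have h3 : max (a i (f i) - a i0 (f i)) 0 ≥ 0 := le_max_right _ _
      have h4 : max (a j (f i) - a i0 (f i)) 0 ≥ 0 := le_max_right _ _
      rcases max_cases (a i (f i)) (a j (f i)) with h5 | h5 <;> linarith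
    have := Finset.single_le_sum (fun k _ => hnn k) (Finset.mem_univ (f i))
    linarith
  refine ⟨L, ?_, fun i hi k => ?_⟩
  · have := Fintype.card_le_of_injective _ hinj
    rwa [Fintype.card_coe, Fintype.card_fin] at this
  · have h1 : a i0 k - a i k ≤ c i0 := by
      by_contra h2
      exact hi (Finset.mem_filter.2 ⟨Finset.mem_univ _, k, not_le.1 h2⟩)
    have h2 : a i k - a i0 k ≤ c i0 := by
      by_cases hii : i = i0
      · rw [hii, sub_self]; exact (hc i0).le
      · exact sim_diff h (Ne.symm hii) k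
    exact abs_le.2 ⟨by linarith, h2⟩

/-- The bound with a logarithm for a system (T). -/
theorem core_T3l {m : ℕ} (hm : 1 ≤ m) {ι : Type} [Fintype ι] {a : ι → Fin m → ℝ} {c : ι → ℝ}
    (hc : ∀ i, 0 < c i) (h : SimSys a c) :
    Fintype.card ι ≤ 8 * m * Nat.clog 2 m + 5 * m + 4 := by
  classical
  rcases isEmpty_or_nonempty ι with he | he
  · simp
  obtain ⟨i0, h0⟩ := Finite.exists_min c
  obtain ⟨L, hL, hnear⟩ := far_T3 hc h i0
  have hR := trl_core (ι := {i : ι // i ∈ Finset.univ \ L}) hm (fun k i => a i k) (fun i => c i)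
    (hc i0) (fun i => h0 i) (fun k => a i0 k)
    (fun k i => hnear i (Finset.mem_sdiff.1 i.2).2 k) ?_ ?_
  · rw [Fintype.card_coe] at hR
    have h1 : Fintype.card ι = (Finset.univ \ L).card + L.card := by
      rw [Finset.card_sdiff_add_card_eq_card (Finset.subset_univ _), Finset.card_univ]
    have h2 : 4 * (m * (2 * Nat.clog 2 m + 1) + 1) = 8 * m * Nat.clog 2 m + 4 * m + 4 := by ring
    omega
  · intro i
    by_cases hi : (i : ι) = i0
    · simp only [hi, sub_self, abs_zero, Finset.sum_const_zero]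
      have := hc i0
      linarith
    · have h3 : ∀ k, |a i k - a i0 k| = 2 * max (a i k - a i0 k) 0 - (a i k - a i0 k) := by
        intro k
        rcases max_cases (a i k - a i0 k) 0 with h4 | h4
        · rw [h4.1, abs_of_nonneg h4.2]; ring
        · rw [h4.1, abs_of_neg h4.2]; ring
      have h4 : ∑ k, |a i k - a i0 k| = c i + c i0 := by
        rw [Finset.sum_congr rfl fun k _ => h3 k, Finset.sum_sub_distrib, ← Finset.mul_sum,
          sim_pos h (Ne.symm hi), Finset.sum_sub_distrib, h.1 i, h.1 i0]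
        ring
      rw [h4]
      have := h0 i
      linarith
  · exact id_T3 (ι := {i : ι // i ∈ Finset.univ \ L}) (a := fun i => a i) (c := fun i => c i)
      ⟨fun i => h.1 i, fun i j hij => h.2 i j (fun h => hij (Subtype.ext h))⟩

/-- THEOREM T3 with a logarithm: simplices. -/
theorem main_T3l {d : ℕ} (p : Fin (d + 1) → E d) (hp : AffineIndependent ℝ p) {N : ℕ}
    (c : Fin N → ℝ) (x : Fin N → E d) (hT : Tangent (convexHull ℝ (Set.range p)) c x) :
    N ≤ 8 * (d + 1) * Nat.clog 2 (d + 1) + 5 * (d + 1) + 4 := by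
  obtain ⟨a, ha⟩ := simplex_sys p hp c x hT
  have h1 := core_T3l (by omega : 1 ≤ d + 1) hT.1 ha
  rwa [Fintype.card_fin] at h1

end Pool.Agent.StB
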