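import Pool.Agent.StB.LpK
import Pool.Agent.StB.Defs

set_option autoImplicit false

open scoped BigOperators

namespace Pool.Agent.StB

/-- Multi-indices of degree at most `k` in `e` variables. -/
theorem card_multi_le (e k : ℕ) :
    ∃ A : Finset (Fin e →₀ ℕ), A.card ≤ Nat.choose (e + k) k ∧
      ∀ α : Fin e →₀ ℕ, ∑ i, α i ≤ k → α ∈ A := by
  classical
  set F : Sym (Fin (e + 1)) k → (Fin e →₀ ℕ) := fun s =>
    Finsupp.equivFunOnFinite.symm (fun i => Multiset.count i.succ (s : Multiset (Fin (e + 1))))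
    with hF
  have hsur : ∀ α : Fin e →₀ ℕ, ∑ i, α i ≤ k → ∃ s, F s = α := by
    intro α hα
    refine ⟨⟨Multiset.replicate (k - ∑ i, α i) 0 +
      ∑ i : Fin e, Multiset.replicate (α i) i.succ, ?_⟩, ?_⟩
    · rw [Multiset.card_add, Multiset.card_replicate, Multiset.card_sum]
      simp only [Multiset.card_replicate]
      omega
    · ext j
      simp only [hF, Finsupp.equivFunOnFinite_symm_apply_apply, Sym.coe_mk, Multiset.count_add,
        Multiset.count_sum', Multiset.count_replicate]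
      have h1 : (if (0 : Fin (e + 1)) = j.succ then k - ∑ i, α i else 0) = 0 := by
        rw [if_neg]
        exact (Fin.succ_ne_zero j).symm
      rw [h1, zero_add]
      simp [Fin.succ_inj]
  refine ⟨Finset.univ.image F, ?_, ?_⟩
  · refine Finset.card_image_le.trans ?_
    rw [Finset.card_univ, Sym.card_sym_eq_choose, Fintype.card_fin]
    refine le_of_eq ?_
    congr 1
    omega
  · intro α h1
    obtain ⟨s, hs⟩ := hsur α h1
    exact Finset.mem_image.2 ⟨s, Finset.mem_univ _, hs⟩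

/-- A power of a linear form is a combination of monomials. -/
theorem inner_pow_expand {e : ℕ} (u : E e) (a : ℕ) :
    ∃ (S : Finset (Fin e →₀ ℕ)) (r : (Fin e →₀ ℕ) → ℝ), (∀ α ∈ S, ∑ i, α i ≤ a) ∧
      ∀ y : E e, (inner ℝ y u) ^ a = ∑ α ∈ S, r α * ∏ i, y i ^ α i := by
  classical
  set q : MvPolynomial (Fin e) ℝ := ∑ i, MvPolynomial.C (u i) * MvPolynomial.X i with hq
  refine ⟨(q ^ a).support, fun α => MvPolynomial.coeff α (q ^ a), ?_, ?_⟩
  · intro α hα
    have h1 := MvPolynomial.le_totalDegree hα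
    have h2 : (q ^ a).totalDegree ≤ a := by
      refine (MvPolynomial.totalDegree_pow _ _).trans ?_
      have h3 : q.totalDegree ≤ 1 := by
        refine MvPolynomial.totalDegree_finsetSum_le fun i _ => ?_
        refine (MvPolynomial.totalDegree_mul _ _).trans ?_
        rw [MvPolynomial.totalDegree_C, zero_add]
        exact (MvPolynomial.totalDegree_X (R := ℝ) i).le
      nlinarith
    have h3 : (α.sum fun _ n => n) = ∑ i, α i := by
      rw [Finsupp.sum_fintype]; simp
    omega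
  · intro y
    have h1 : MvPolynomial.eval (fun i => y i) q = inner ℝ y u := by
      rw [hq, map_sum, PiLp.inner_apply]
      refine Finset.sum_congr rfl fun i _ => ?_
      simp [mul_comm]
    rw [← h1, ← map_pow, MvPolynomial.eval_eq']

/-- The class bound, abstract form. -/
theorem class_gen {e ky kc : ℕ} {p : ℝ} (hp0 : 0 < p)
    (Hy : ∀ (ι : Type) [Fintype ι] (w t : ι → ℝ), (∀ a ≤ ky, ∑ i, w i * t i ^ a = 0) →
      0 ≤ ∑ i, ∑ j, w i * w j * |t i - t j| ^ p)
    (Hc : ∀ (ι : Type) [Fintype ι] (w c : ι → ℝ), (∀ i, 0 ≤ c i) →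
      (∀ a ≤ kc, ∑ i, w i * c i ^ a = 0) → ∑ i, ∑ j, w i * w j * (c i + c j) ^ p ≤ 0)
    (μ : MeasureTheory.Measure (E e))
    (hint : ∀ y : E e, MeasureTheory.Integrable (fun u => |inner ℝ y u| ^ p) μ) {ι : Type}
    [Fintype ι] (y : ι → E e) (c : ι → ℝ) (hc : ∀ i, 0 < c i)
    (h : ∀ i j, i ≠ j → ∫ u, |inner ℝ (y i - y j) u| ^ p ∂μ = (c i + c j) ^ p) :
    Fintype.card ι ≤ Nat.choose (e + ky) ky + kc := by
  classical
  by_contra hlt
  push Not at hlt
  obtain ⟨A, hA, hA'⟩ := card_multi_le e ky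
  -- the moment map
  let L : (ι → ℝ) →ₗ[ℝ] ((A → ℝ) × (Fin kc → ℝ)) :=
    { toFun := fun w => (fun α => ∑ i, w i * ∏ l, y i l ^ (α : Fin e →₀ ℕ) l,
        fun a => ∑ i, w i * c i ^ ((a : ℕ) + 1))
      map_add' := by
        intro w w'
        ext
        · simp [add_mul, Finset.sum_add_distrib]
        · simp [add_mul, Finset.sum_add_distrib]
      map_smul' := by
        intro r w
        ext
        · simp [Finset.mul_sum, mul_assoc]
        · simp [Finset.mul_sum, mul_assoc] }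
  have hfin : Module.finrank ℝ ((A → ℝ) × (Fin kc → ℝ)) < Module.finrank ℝ (ι → ℝ) := by
    rw [Module.finrank_prod, Module.finrank_fintype_fun_eq_card, Module.finrank_fintype_fun_eq_card,
      Module.finrank_fintype_fun_eq_card, Fintype.card_coe, Fintype.card_fin]
    omega
  obtain ⟨w, hw, hw0⟩ := (Submodule.ne_bot_iff _).1
    (LinearMap.ker_ne_bot_of_finrank_lt (f := L) hfin)
  have hw' := LinearMap.mem_ker.1 hw
  have hwA : ∀ α : Fin e →₀ ℕ, ∑ l, α l ≤ ky → ∑ i, w i * ∏ l, y i l ^ α l = 0 := by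
    intro α hα
    have := congrFun (congrArg Prod.fst hw') ⟨α, hA' α hα⟩
    simpa [L] using this
  have hwc : ∀ a ≤ kc, ∑ i, w i * c i ^ a = 0 := by
    intro a ha
    rcases Nat.eq_zero_or_pos a with h0 | h0
    · subst h0
      have := hwA 0 (by simp)
      simpa using this
    · have := congrFun (congrArg Prod.snd hw') ⟨a - 1, by omega⟩
      simp only [L, LinearMap.coe_mk, AddHom.coe_mk, Prod.snd_zero, Pi.zero_apply,
        Nat.sub_add_cancel h0] at this
      exact this
  have hwy : ∀ (u : E e), ∀ a ≤ ky, ∑ i, w i * (inner ℝ (y i) u) ^ a = 0 := by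
    intro u a ha
    obtain ⟨S, r, hS, hr⟩ := inner_pow_expand u a
    have h3 : ∀ i, w i * (inner ℝ (y i) u) ^ a =
        ∑ α ∈ S, r α * (w i * ∏ l, y i l ^ α l) := by
      intro i
      rw [hr, Finset.mul_sum]
      exact Finset.sum_congr rfl fun α _ => by ring
    rw [Finset.sum_congr rfl fun i _ => h3 i, Finset.sum_comm]
    refine Finset.sum_eq_zero fun α hα => ?_
    rw [← Finset.mul_sum, hwA α ((hS α hα).trans ha), mul_zero]
  -- the two sums
  have hS1 : 0 ≤ ∑ i, ∑ j, w i * w j * ∫ u, |inner ℝ (y i - y j) u| ^ p ∂μ := by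
    have h3 : ∑ i, ∑ j, w i * w j * ∫ u, |inner ℝ (y i - y j) u| ^ p ∂μ =
        ∫ u, ∑ i, ∑ j, w i * w j * |inner ℝ (y i - y j) u| ^ p ∂μ := by
      rw [MeasureTheory.integral_finsetSum]
      · refine Finset.sum_congr rfl fun i _ => ?_
        rw [MeasureTheory.integral_finsetSum]
        · refine Finset.sum_congr rfl fun j _ => ?_
          rw [MeasureTheory.integral_const_mul]
        · intro j _
          exact (hint _).const_mul _
      · intro i _
        refine MeasureTheory.integrable_finsetSum _ fun j _ => ?_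
        exact (hint _).const_mul _
    rw [h3]
    refine MeasureTheory.integral_nonneg fun u => ?_
    have := Hy ι w (fun i => inner ℝ (y i) u) (hwy u)
    simpa [inner_sub_left] using this
  have hS2 := Hc ι w c (fun i => (hc i).le) hwc
  have hS3 : ∑ i, ∑ j, w i * w j * ∫ u, |inner ℝ (y i - y j) u| ^ p ∂μ =
      ∑ i, ∑ j, w i * w j * (c i + c j) ^ p - ∑ i, w i ^ 2 * (c i + c i) ^ p := by
    rw [← Finset.sum_sub_distrib]
    refine Finset.sum_congr rfl fun i _ => ?_
    have h4 : ∀ j, w i * w j * ∫ u, |inner ℝ (y i - y j) u| ^ p ∂μ =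
        w i * w j * (c i + c j) ^ p - (if i = j then w i ^ 2 * (c i + c i) ^ p else 0) := by
      intro j
      by_cases hij : i = j
      · subst hij
        rw [if_pos rfl, sub_self]
        simp only [inner_zero_left, abs_zero, Real.zero_rpow hp0.ne', MeasureTheory.integral_zero,
          mul_zero]
        ring
      · rw [if_neg hij, h i j hij, sub_zero]
    rw [Finset.sum_congr rfl fun j _ => h4 j, Finset.sum_sub_distrib, Finset.sum_ite_eq]
    simp
  obtain ⟨i0, hi0⟩ := Function.ne_iff.1 hw0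
  have hi0' : w i0 ≠ 0 := hi0
  have hS4 : 0 < ∑ i, w i ^ 2 * (c i + c i) ^ p := by
    refine Finset.sum_pos' (fun i _ => ?_) ⟨i0, Finset.mem_univ _, ?_⟩
    · have := hc i
      positivity
    · have := hc i0
      positivity
  linarith

/-- The class bound for `2 k ≤ p ≤ 2 k + 1`, `k` odd. -/
theorem class_L {e k : ℕ} (hk : Odd k) {p : ℝ} (h1 : 2 * (k : ℝ) ≤ p) (h2 : p ≤ 2 * k + 1)
    (μ : MeasureTheory.Measure (E e))
    (hint : ∀ y : E e, MeasureTheory.Integrable (fun u => |inner ℝ y u| ^ p) μ) {ι : Type}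
    [Fintype ι] (y : ι → E e) (c : ι → ℝ) (hc : ∀ i, 0 < c i)
    (h : ∀ i j, i ≠ j → ∫ u, |inner ℝ (y i - y j) u| ^ p ∂μ = (c i + c j) ^ p) :
    Fintype.card ι ≤ Nat.choose (e + k) k + k := by
  have hk1 : (1 : ℝ) ≤ k := by exact_mod_cast hk.pos
  have hp0 : 0 < p := by linarith
  exact class_gen hp0 (fun ι _ w t hm => sgn_cos w t hk hm h1 (by linarith))
    (fun ι _ w c hc hm => sgn_exp w c hc hm hp0 h1 h2) μ hint y c hc h

/-- The top moment. -/
theorem mom_top {ι : Type} [Fintype ι] (w t : ι → ℝ) {k : ℕ} (hk : Even k)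
    (hu : ∀ a < k, ∑ i, w i * t i ^ a = 0) :
    0 ≤ ∑ i, ∑ j, w i * w j * (t i - t j) ^ (2 * k) := by
  have h1 : ∀ i j, w i * w j * (t i - t j) ^ (2 * k) = ∑ m ∈ Finset.range (2 * k + 1),
      ((2 * k).choose m : ℝ) * ((w i * t i ^ m) * (w j * (-t j) ^ (2 * k - m))) := by
    intro i j
    rw [sub_eq_add_neg, add_pow, Finset.mul_sum]
    exact Finset.sum_congr rfl fun m _ => by ring
  have hneg : ∀ a : ℕ, ∑ i, w i * (-t i) ^ a = (-1) ^ a * ∑ i, w i * t i ^ a := by
    intro a
    rw [Finset.mul_sum]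
    refine Finset.sum_congr rfl fun i _ => ?_
    rw [neg_pow]; ring
  simp only [h1]
  rw [Finset.sum_congr rfl fun i _ => Finset.sum_comm, Finset.sum_comm]
  refine Finset.sum_nonneg fun m _ => ?_
  have h2 : ∑ i, ∑ j, ((2 * k).choose m : ℝ) * ((w i * t i ^ m) * (w j * (-t j) ^ (2 * k - m))) =
      ((2 * k).choose m : ℝ) * ((∑ i, w i * t i ^ m) * ∑ j, w j * (-t j) ^ (2 * k - m)) := by
    rw [Finset.sum_mul_sum, Finset.mul_sum]
    exact Finset.sum_congr rfl fun i _ => by rw [Finset.mul_sum]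
  rw [h2, hneg]
  rcases lt_trichotomy m k with h3 | h3 | h3
  · rw [hu m h3, zero_mul, mul_zero]
  · subst h3
    rw [show 2 * m - m = m by omega, hk.neg_one_pow, one_mul]
    exact mul_nonneg (Nat.cast_nonneg _) (mul_self_nonneg _)
  · rcases le_or_gt m (2 * k) with h4 | h4
    · rw [hu (2 * k - m) (by omega), mul_zero, mul_zero, mul_zero]
    · rw [Nat.choose_eq_zero_of_lt h4]; simp

/-- The class bound for `p = 2 k`, `k ≥ 2` even. -/
theorem class_Le {e k : ℕ} (hk : Even k) (hk2 : 2 ≤ k)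
    (μ : MeasureTheory.Measure (E e))
    (hint : ∀ y : E e, MeasureTheory.Integrable (fun u => |inner ℝ y u| ^ (2 * (k : ℝ))) μ)
    {ι : Type} [Fintype ι] (y : ι → E e) (c : ι → ℝ) (hc : ∀ i, 0 < c i)
    (h : ∀ i j, i ≠ j → ∫ u, |inner ℝ (y i - y j) u| ^ (2 * (k : ℝ)) ∂μ =
      (c i + c j) ^ (2 * (k : ℝ))) :
    Fintype.card ι ≤ Nat.choose (e + (k - 1)) (k - 1) + k := by
  have hk1 : (2 : ℝ) ≤ k := by exact_mod_cast hk2
  have hp0 : 0 < 2 * (k : ℝ) := by linarith
  have h5 : 2 * (k : ℝ) = ((2 * k : ℕ) : ℝ) := by push_cast; ring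
  refine class_gen hp0 (fun ι _ w t hm => ?_) (fun ι _ w c hc hm => ?_) μ hint y c hc h
  · have h4 : ∀ i j, w i * w j * |t i - t j| ^ (2 * (k : ℝ)) =
        w i * w j * (t i - t j) ^ (2 * k) := by
      intro i j
      rw [h5, Real.rpow_natCast, pow_mul, sq_abs, ← pow_mul]
    simp only [h4]
    exact mom_top w t hk fun a ha => hm a (by omega)
  · have h4 : ∀ i j, w i * w j * (c i + c j) ^ (2 * (k : ℝ)) =
        w i * w j * (c i + c j) ^ (2 * k) := by
      intro i j
      rw [h5, Real.rpow_natCast]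
    simp only [h4]
    rw [mom_gen w c c hm hm (by omega)]

end Pool.Agent.StB
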