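import Pool.Agent.StB.Tay

set_option autoImplicit false

open scoped BigOperators

namespace Pool.Agent.StB

theorem mom_gen {ι : Type} [Fintype ι] (w u v : ι → ℝ) {k : ℕ}
    (hu : ∀ a ≤ k, ∑ i, w i * u i ^ a = 0) (hv : ∀ a ≤ k, ∑ i, w i * v i ^ a = 0) {n : ℕ}
    (hn : n ≤ 2 * k + 1) : ∑ i, ∑ j, w i * w j * (u i + v j) ^ n = 0 := by
  have h1 : ∀ i j, w i * w j * (u i + v j) ^ n =
      ∑ m ∈ Finset.range (n + 1), (n.choose m : ℝ) * ((w i * u i ^ m) * (w j * v j ^ (n - m))) := by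
    intro i j
    rw [add_pow, Finset.mul_sum]
    exact Finset.sum_congr rfl fun m _ => by ring
  simp only [h1]
  rw [Finset.sum_congr rfl fun i _ => Finset.sum_comm, Finset.sum_comm]
  refine Finset.sum_eq_zero fun m _ => ?_
  have h2 : ∑ i, ∑ j, (n.choose m : ℝ) * ((w i * u i ^ m) * (w j * v j ^ (n - m))) =
      (n.choose m : ℝ) * ((∑ i, w i * u i ^ m) * ∑ j, w j * v j ^ (n - m)) := by
    rw [Finset.sum_mul_sum, Finset.mul_sum]
    exact Finset.sum_congr rfl fun i _ => by rw [Finset.mul_sum]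
  rw [h2]
  rcases le_or_gt m k with h3 | h3
  · rw [hu m h3, zero_mul, mul_zero]
  · rw [hv (n - m) (by omega), mul_zero, mul_zero]

theorem mom_sub {ι : Type} [Fintype ι] (w t : ι → ℝ) {k : ℕ}
    (hu : ∀ a ≤ k, ∑ i, w i * t i ^ a = 0) {n : ℕ}
    (hn : n ≤ 2 * k + 1) : ∑ i, ∑ j, w i * w j * (t i - t j) ^ n = 0 := by
  have h1 := mom_gen w t (fun i => - t i) hu (fun a ha => by
    have h2 : ∀ i, w i * (- t i) ^ a = (-1) ^ a * (w i * t i ^ a) := by
      intro i; rw [neg_pow]; ring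
    rw [Finset.sum_congr rfl fun i _ => h2 i, ← Finset.mul_sum, hu a ha, mul_zero]) hn
  simpa [sub_eq_add_neg] using h1

theorem mom_cosP {ι : Type} [Fintype ι] (w t : ι → ℝ) {k : ℕ}
    (hu : ∀ a ≤ k, ∑ i, w i * t i ^ a = 0) {m : ℕ} (hm : m ≤ k + 1) (s : ℝ) :
    ∑ i, ∑ j, w i * w j * cosP m (s * (t i - t j)) = 0 := by
  have h1 : ∀ i j, w i * w j * cosP m (s * (t i - t j)) = ∑ l ∈ Finset.range m,
      ((-1) ^ l * s ^ (2 * l) / ((2 * l).factorial : ℝ)) * (w i * w j * (t i - t j) ^ (2 * l)) := by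
    intro i j
    rw [cosP, Finset.mul_sum]
    refine Finset.sum_congr rfl fun l _ => ?_
    rw [mul_pow]; ring
  simp only [h1]
  rw [Finset.sum_congr rfl fun i _ => Finset.sum_comm, Finset.sum_comm]
  refine Finset.sum_eq_zero fun l hl => ?_
  have h2 : ∑ i, ∑ j, ((-1) ^ l * s ^ (2 * l) / ((2 * l).factorial : ℝ)) *
      (w i * w j * (t i - t j) ^ (2 * l)) = ((-1) ^ l * s ^ (2 * l) / ((2 * l).factorial : ℝ)) *
      ∑ i, ∑ j, w i * w j * (t i - t j) ^ (2 * l) := by
    rw [Finset.mul_sum]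
    exact Finset.sum_congr rfl fun i _ => by rw [Finset.mul_sum]
  rw [h2, mom_sub w t hu (by have := Finset.mem_range.1 hl; omega), mul_zero]

theorem mom_expP {ι : Type} [Fintype ι] (w t : ι → ℝ) {k : ℕ}
    (hu : ∀ a ≤ k, ∑ i, w i * t i ^ a = 0) {n : ℕ} (hn : n ≤ 2 * k + 2) (s : ℝ) :
    ∑ i, ∑ j, w i * w j * expP n (s * (t i + t j)) = 0 := by
  have h1 : ∀ i j, w i * w j * expP n (s * (t i + t j)) = ∑ l ∈ Finset.range n,
      ((-1) ^ l * s ^ l / (l.factorial : ℝ)) * (w i * w j * (t i + t j) ^ l) := by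
    intro i j
    rw [expP, Finset.mul_sum]
    refine Finset.sum_congr rfl fun l _ => ?_
    rw [neg_pow, mul_pow]; ring
  simp only [h1]
  rw [Finset.sum_congr rfl fun i _ => Finset.sum_comm, Finset.sum_comm]
  refine Finset.sum_eq_zero fun l hl => ?_
  have h2 : ∑ i, ∑ j, ((-1) ^ l * s ^ l / (l.factorial : ℝ)) * (w i * w j * (t i + t j) ^ l) =
      ((-1) ^ l * s ^ l / (l.factorial : ℝ)) * ∑ i, ∑ j, w i * w j * (t i + t j) ^ l := by
    rw [Finset.mul_sum]
    exact Finset.sum_congr rfl fun i _ => by rw [Finset.mul_sum]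
  rw [h2, mom_gen w t t hu hu (by have := Finset.mem_range.1 hl; omega), mul_zero]

/-- For odd `k` and `2 k ≤ p < 2 k + 2` the kernel `|t - t'| ^ p` is nonnegative on the `w` whose
moments of order at most `k` vanish. -/
theorem sgn_cos {ι : Type} [Fintype ι] (w t : ι → ℝ) {k : ℕ} (hk : Odd k)
    (hu : ∀ a ≤ k, ∑ i, w i * t i ^ a = 0) {p : ℝ} (h1 : 2 * (k : ℝ) ≤ p)
    (h2 : p < 2 * k + 2) : 0 ≤ ∑ i, ∑ j, w i * w j * |t i - t j| ^ p := by
  rcases eq_or_lt_of_le h1 with h3 | h3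
  · -- an even power
    have h4 : ∀ i j, w i * w j * |t i - t j| ^ p = w i * w j * (t i - t j) ^ (2 * k) := by
      intro i j
      have h5 : p = ((2 * k : ℕ) : ℝ) := by push_cast; exact h3.symm
      rw [h5, Real.rpow_natCast, pow_mul, sq_abs, ← pow_mul]
    simp only [h4]
    rw [mom_sub w t hu (by omega)]
  · have hk1 : 1 ≤ k := hk.pos
    have he : Even (k + 1) := by
      rw [Nat.even_add_one, Nat.not_even_iff_odd]; exact hk
    have hm1 : 2 * ((k + 1 : ℕ) : ℝ) - 2 < p := by push_cast; linarith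
    have hm2 : p < 2 * ((k + 1 : ℕ) : ℝ) := by push_cast; linarith
    have hpos := cos_const_pos (by omega : 2 ≤ k + 1) he hm1 hm2
    set I0 := ∫ s in Set.Ioi (0 : ℝ), (Real.cos s - cosP (k + 1) s) * s ^ (-p - 1) with hI0
    have hp0 : 0 < p := by
      have : (1 : ℝ) ≤ k := by exact_mod_cast hk1
      linarith
    have h4 : (∑ i, ∑ j, w i * w j * |t i - t j| ^ p) * I0 =
        ∫ s in Set.Ioi (0 : ℝ), ∑ i, ∑ j, w i * w j *
          ((Real.cos (s * (t i - t j)) - cosP (k + 1) (s * (t i - t j))) * s ^ (-p - 1)) := by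
      rw [MeasureTheory.integral_finsetSum]
      · rw [Finset.sum_mul]
        refine Finset.sum_congr rfl fun i _ => ?_
        rw [MeasureTheory.integral_finsetSum]
        · rw [Finset.sum_mul]
          refine Finset.sum_congr rfl fun j _ => ?_
          rw [MeasureTheory.integral_const_mul, cos_scale (by omega) hp0, mul_assoc]
        · intro j _
          exact (cos_int (by omega) hm1 hm2 _).const_mul _
      · intro i _
        refine MeasureTheory.integrable_finsetSum _ fun j _ => ?_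
        exact (cos_int (by omega) hm1 hm2 _).const_mul _
    have h5 : 0 ≤ (∑ i, ∑ j, w i * w j * |t i - t j| ^ p) * I0 := by
      rw [h4]
      refine MeasureTheory.setIntegral_nonneg measurableSet_Ioi fun s hs => ?_
      have h6 : ∑ i, ∑ j, w i * w j *
          ((Real.cos (s * (t i - t j)) - cosP (k + 1) (s * (t i - t j))) * s ^ (-p - 1)) =
          (∑ i, ∑ j, w i * w j * Real.cos (s * (t i - t j)) -
            ∑ i, ∑ j, w i * w j * cosP (k + 1) (s * (t i - t j))) * s ^ (-p - 1) := by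
        rw [← Finset.sum_sub_distrib, Finset.sum_mul]
        refine Finset.sum_congr rfl fun i _ => ?_
        rw [← Finset.sum_sub_distrib, Finset.sum_mul]
        exact Finset.sum_congr rfl fun j _ => by ring
      have h7 : ∑ i, ∑ j, w i * w j * Real.cos (s * (t i - t j)) =
          (∑ i, w i * Real.cos (s * t i)) ^ 2 + (∑ i, w i * Real.sin (s * t i)) ^ 2 := by
        rw [sq, sq, Finset.sum_mul_sum, Finset.sum_mul_sum, ← Finset.sum_add_distrib]
        refine Finset.sum_congr rfl fun i _ => ?_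
        rw [← Finset.sum_add_distrib]
        refine Finset.sum_congr rfl fun j _ => ?_
        rw [mul_sub, Real.cos_sub]; ring
      rw [h6, h7, mom_cosP w t hu le_rfl, sub_zero]
      have : 0 ≤ s ^ (-p - 1) := Real.rpow_nonneg (le_of_lt hs) _
      positivity
    exact nonneg_of_mul_nonneg_left h5 hpos

/-- For `2 k ≤ p ≤ 2 k + 1` the kernel `(c + c') ^ p` is nonpositive on the `w` whose
moments of order at most `k` vanish. -/
theorem sgn_exp {ι : Type} [Fintype ι] (w c : ι → ℝ) (hc : ∀ i, 0 ≤ c i) {k : ℕ}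
    (hu : ∀ a ≤ k, ∑ i, w i * c i ^ a = 0) {p : ℝ} (hp0 : 0 < p) (h1 : 2 * (k : ℝ) ≤ p)
    (h2 : p ≤ 2 * k + 1) : ∑ i, ∑ j, w i * w j * (c i + c j) ^ p ≤ 0 := by
  have hnat : ∀ n : ℕ, n ≤ 2 * k + 1 → p = n → ∑ i, ∑ j, w i * w j * (c i + c j) ^ p ≤ 0 := by
    intro n hn hpn
    have h4 : ∀ i j, w i * w j * (c i + c j) ^ p = w i * w j * (c i + c j) ^ n := by
      intro i j
      rw [hpn, Real.rpow_natCast]
    simp only [h4]
    rw [mom_gen w c c hu hu hn]
  rcases eq_or_lt_of_le h1 with h3 | h3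
  · exact hnat (2 * k) (by omega) (by push_cast; exact h3.symm)
  rcases eq_or_lt_of_le h2 with h3' | h3'
  · exact hnat (2 * k + 1) le_rfl (by push_cast; exact h3')
  have ho : Odd (2 * k + 1) := ⟨k, rfl⟩
  have hm1 : ((2 * k + 1 : ℕ) : ℝ) - 1 < p := by push_cast; linarith
  have hm2 : p < ((2 * k + 1 : ℕ) : ℝ) := by push_cast; linarith
  have hpos := exp_const_pos ho hm1 hm2
  set I0 := ∫ s in Set.Ioi (0 : ℝ), (expP (2 * k + 1) s - Real.exp (-s)) * s ^ (-p - 1) with hI0
  have h4 : (∑ i, ∑ j, w i * w j * (c i + c j) ^ p) * I0 =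
      ∫ s in Set.Ioi (0 : ℝ), ∑ i, ∑ j, w i * w j *
        ((expP (2 * k + 1) (s * (c i + c j)) - Real.exp (-(s * (c i + c j)))) * s ^ (-p - 1)) := by
    rw [MeasureTheory.integral_finsetSum]
    · rw [Finset.sum_mul]
      refine Finset.sum_congr rfl fun i _ => ?_
      rw [MeasureTheory.integral_finsetSum]
      · rw [Finset.sum_mul]
        refine Finset.sum_congr rfl fun j _ => ?_
        rw [MeasureTheory.integral_const_mul,
          exp_scale (by omega) hp0 (add_nonneg (hc i) (hc j)), mul_assoc]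
      · intro j _
        exact (exp_int (by omega) hm1 hm2 (add_nonneg (hc i) (hc j))).const_mul _
    · intro i _
      refine MeasureTheory.integrable_finsetSum _ fun j _ => ?_
      exact (exp_int (by omega) hm1 hm2 (add_nonneg (hc i) (hc j))).const_mul _
  have h5 : (∑ i, ∑ j, w i * w j * (c i + c j) ^ p) * I0 ≤ 0 := by
    rw [h4]
    refine MeasureTheory.setIntegral_nonpos measurableSet_Ioi fun s hs => ?_
    have h6 : ∑ i, ∑ j, w i * w j *
        ((expP (2 * k + 1) (s * (c i + c j)) - Real.exp (-(s * (c i + c j)))) * s ^ (-p - 1)) =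
        (∑ i, ∑ j, w i * w j * expP (2 * k + 1) (s * (c i + c j)) -
          ∑ i, ∑ j, w i * w j * Real.exp (-(s * (c i + c j)))) * s ^ (-p - 1) := by
      rw [← Finset.sum_sub_distrib, Finset.sum_mul]
      refine Finset.sum_congr rfl fun i _ => ?_
      rw [← Finset.sum_sub_distrib, Finset.sum_mul]
      exact Finset.sum_congr rfl fun j _ => by ring
    have h7 : ∑ i, ∑ j, w i * w j * Real.exp (-(s * (c i + c j))) =
        (∑ i, w i * Real.exp (-(s * c i))) ^ 2 := by
      rw [sq, Finset.sum_mul_sum]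
      refine Finset.sum_congr rfl fun i _ => ?_
      refine Finset.sum_congr rfl fun j _ => ?_
      rw [show -(s * (c i + c j)) = -(s * c i) + -(s * c j) by ring, Real.exp_add]; ring
    rw [h6, h7, mom_expP w c hu (by omega), zero_sub]
    have h8 : 0 ≤ s ^ (-p - 1) := Real.rpow_nonneg (le_of_lt hs) _
    have h9 := mul_nonneg (sq_nonneg (∑ i, w i * Real.exp (-(s * c i)))) h8
    linarith
  by_contra hne
  push Not at hne
  have := mul_pos hne hpos
  linarith

end Pool.Agent.StB
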