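import Pool.Agent.StB.Defs

set_option autoImplicit false

open scoped BigOperators

namespace Pool.Agent.StB

/-- Module rd1. `x_i + c_i u = x_j + c_j v` with `u, v ∈ K`. -/
theorem red_mem {d N : ℕ} {K : Set (E d)} (hK : Convex ℝ K) (hs : ∀ y ∈ K, -y ∈ K)
    {c : Fin N → ℝ} {x : Fin N → E d} (hT : Tangent K c x) {i j : Fin N} (hij : i ≠ j) :
    (c i + c j)⁻¹ • (x i - x j) ∈ K := by
  obtain ⟨p, ⟨u, hu, hup⟩, ⟨v, hv, hvp⟩⟩ := (hT.2 i j hij).1
  have hi := hT.1 i
  have hj := hT.1 j
  have hpos : 0 < c i + c j := add_pos hi hj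
  have h1 : x i + c i • u = x j + c j • v := hup.trans hvp.symm
  have h2 : (c i + c j)⁻¹ • (x i - x j) =
      (c j / (c i + c j)) • v + (c i / (c i + c j)) • (-u) := by
    have h3 : x i - x j = c j • v - c i • u := by
      rw [sub_eq_sub_iff_add_eq_add, h1, add_comm]
    rw [h3, smul_sub, smul_smul, smul_smul, smul_neg, ← sub_eq_add_neg, div_eq_inv_mul,
      div_eq_inv_mul]
  rw [h2]
  refine hK hv (hs u hu) (by positivity) (by positivity) ?_
  field_simp
  ring

/-- Module rd1. If `x_i - x_j = (c_i + c_j) w` with `w` interior then `x_i - c_i w = x_j + c_j w`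
is in both interiors. -/
theorem red_not {d N : ℕ} {K : Set (E d)} (hs : ∀ y ∈ K, -y ∈ K)
    {c : Fin N → ℝ} {x : Fin N → E d} (hT : Tangent K c x) {i j : Fin N} (hij : i ≠ j) :
    (c i + c j)⁻¹ • (x i - x j) ∉ interior K := by
  intro hw
  have hi := hT.1 i
  have hj := hT.1 j
  have hpos : 0 < c i + c j := add_pos hi hj
  set w := (c i + c j)⁻¹ • (x i - x j) with hwd
  have h1 : x i - x j = (c i + c j) • w := by
    rw [hwd, smul_smul, mul_inv_cancel₀ hpos.ne', one_smul]
  have hnw : -w ∈ interior K := by
    have hKK : -K = K := by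
      ext y
      constructor
      · intro hy
        have := hs _ hy
        simpa using this
      · intro hy
        exact hs y hy
    have h2 : -interior K = interior (-K) := by
      have := (Homeomorph.neg (E d)).image_interior K
      simpa using this
    rw [hKK] at h2
    rw [← h2]
    simpa using hw
  have key : ∀ (z : E d) (r : ℝ), 0 < r → ∀ u ∈ interior K,
      z + r • u ∈ interior ((fun y => z + r • y) '' K) := by
    intro z r hr u hu
    have h3 : IsOpenMap (fun y : E d => z + r • y) :=
      (isOpenMap_add_left z).comp (isOpenMap_smul₀ hr.ne')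
    exact h3.image_interior_subset K ⟨u, hu, rfl⟩
  have h4 := key (x i) (c i) hi (-w) hnw
  have h5 := key (x j) (c j) hj w hw
  have h6 : x i + c i • -w = x j + c j • w := by
    have : x i = x j + (c i + c j) • w := by rw [← h1]; abel
    rw [this, add_smul, smul_neg]
    abel
  rw [h6] at h4
  have := (hT.2 i j hij).2
  exact (Set.eq_empty_iff_forall_notMem.1 this) _ ⟨h4, h5⟩

/-- Module rd2. If all the constraints were strict, `z` would be an interior point. -/
theorem red_eq {d : ℕ} {τ : Type} [Finite τ] (g : τ → E d → ℝ) (hg : ∀ t, Continuous (g t))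
    {z : E d} (h1 : ∀ t, g t z ≤ 1) (h2 : z ∉ interior {x | ∀ t, g t x ≤ 1}) :
    ∃ t, g t z = 1 := by
  by_contra hne
  push Not at hne
  apply h2
  have hlt : ∀ t, g t z < 1 := fun t => lt_of_le_of_ne (h1 t) (hne t)
  rw [mem_interior]
  refine ⟨⋂ t, {x | g t x < 1}, ?_, ?_, ?_⟩
  · intro x hx t
    exact (Set.mem_iInter.1 hx t).le
  · exact isOpen_iInter_of_finite fun t => isOpen_lt (hg t) continuous_const
  · exact Set.mem_iInter.2 fun t => hlt t

/-- Module rd2. Slab lemma: `t = max (u i - c i)`, `col i = decide (u i + c i = t)`. -/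
theorem slab_col {N : ℕ} (c u : Fin N → ℝ) (hc : ∀ i, 0 < c i)
    (h : ∀ i j, |u i - u j| ≤ c i + c j) :
    ∃ col : Fin N → Bool, ∀ i j, col i = col j → |u i - u j| < c i + c j := by
  classical
  rcases isEmpty_or_nonempty (Fin N) with he | he
  · exact ⟨fun _ => false, fun i => (he.false i).elim⟩
  obtain ⟨m, hm⟩ := Finite.exists_max (fun i => u i - c i)
  refine ⟨fun i => decide (u i + c i = u m - c m), ?_⟩
  intro i j hij
  have hb : ∀ i, u m - c m ≤ u i + c i := by
    intro i
    have := (abs_le.1 (h m i)).2
    linarith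
  refine lt_of_le_of_ne (h i j) fun heq => ?_
  have key : ∀ i j, u i - u j = c i + c j →
      decide (u i + c i = u m - c m) = decide (u j + c j = u m - c m) → False := by
    intro i j hd hij
    have h1 : u j + c j = u m - c m := le_antisymm (by have := hm i; linarith) (hb j)
    have h2 : u i + c i ≠ u m - c m := by
      have := hc i
      intro h3
      have : u j + c j = u i - c i := by linarith
      linarith
    simp [h1, h2] at hij
  rcases abs_choice (u i - u j) with h1 | h1
  · rw [h1] at heq
    exact key i j heq hij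
  · rw [h1] at heq
    exact key j i (by linarith) hij.symm

/-- Module rd2. Counting by colours. -/
theorem col_split {N s M : ℕ} (col : Fin N → (Fin s → Bool))
    (h : ∀ v, (Finset.univ.filter (fun i => col i = v)).card ≤ M) : N ≤ 2 ^ s * M := by
  classical
  have h1 : (Finset.univ : Finset (Fin N)).card ≤ M * (Finset.univ : Finset (Fin s → Bool)).card :=
    Finset.card_le_mul_card_image_of_maps_to (f := col) (fun a _ => Finset.mem_univ _) M
      (fun v _ => h v)
  simpa [mul_comm] using h1

end Pool.Agent.StB
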