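import Pool.Agent.StB.LpC
import Pool.Agent.StB.Red

set_option autoImplicit false

open scoped BigOperators
open MeasureTheory

namespace Pool.Agent.StB

/-- The body `{x : |f l x| ≤ 1 for all l, ∫ |⟨A x, u⟩|^p dμ(u) ≤ 1}`. -/
def lpBody {d s e : ℕ} (f : Fin s → E d →ₗ[ℝ] ℝ) (A : E d →ₗ[ℝ] E e) (p : ℝ)
    (μ : Measure (E e)) : Set (E d) :=
  {x | (∀ l, |f l x| ≤ 1) ∧ ∫ u, |inner ℝ (A x) u| ^ p ∂μ ≤ 1}

theorem lp_int {e : ℕ} {p : ℝ} (hp : 1 ≤ p) {μ : Measure (E e)}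
    (hμ : Integrable (fun u => ‖u‖ ^ p) μ) (y : E e) :
    Integrable (fun u => |inner ℝ y u| ^ p) μ := by
  have hp0 : 0 ≤ p := by linarith
  refine Integrable.mono' (hμ.const_mul (‖y‖ ^ p)) ?_ ?_
  · refine Continuous.aestronglyMeasurable ?_
    refine Continuous.rpow_const ?_ (fun _ => Or.inr hp0)
    exact (continuous_const.inner continuous_id).abs
  · refine Filter.Eventually.of_forall fun u => ?_
    rw [Real.norm_eq_abs, abs_of_nonneg (Real.rpow_nonneg (abs_nonneg _) _),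
      ← Real.mul_rpow (norm_nonneg _) (norm_nonneg _)]
    exact Real.rpow_le_rpow (abs_nonneg _) (abs_real_inner_le_norm _ _) hp0

theorem lp_convex {e : ℕ} {p : ℝ} (hp : 1 ≤ p) {μ : Measure (E e)}
    (hμ : Integrable (fun u => ‖u‖ ^ p) μ) :
    ConvexOn ℝ Set.univ (fun y : E e => ∫ u, |inner ℝ y u| ^ p ∂μ) := by
  refine ⟨convex_univ, ?_⟩
  intro y _ z _ α β hα hβ hab
  have hp0 : 0 ≤ p := by linarith
  have h1 : α • (∫ u, |inner ℝ y u| ^ p ∂μ) + β • (∫ u, |inner ℝ z u| ^ p ∂μ) =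
      ∫ u, (α * |inner ℝ y u| ^ p + β * |inner ℝ z u| ^ p) ∂μ := by
    rw [integral_add ((lp_int hp hμ y).const_mul _) ((lp_int hp hμ z).const_mul _),
      integral_const_mul, integral_const_mul]
    rfl
  rw [h1]
  refine integral_mono (lp_int hp hμ _)
    (((lp_int hp hμ y).const_mul _).add ((lp_int hp hμ z).const_mul _)) fun u => ?_
  have h2 : |inner ℝ (α • y + β • z) u| ≤ α * |inner ℝ y u| + β * |inner ℝ z u| := by
    rw [inner_add_left, inner_smul_left, inner_smul_left]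
    refine (abs_add_le _ _).trans (le_of_eq ?_)
    simp [abs_mul, abs_of_nonneg hα, abs_of_nonneg hβ]
  have h3 := (convexOn_rpow hp).2 (Set.mem_Ici.2 (abs_nonneg (inner ℝ y u)))
    (Set.mem_Ici.2 (abs_nonneg (inner ℝ z u))) hα hβ hab
  simp only [smul_eq_mul] at h3
  exact (Real.rpow_le_rpow (abs_nonneg _) h2 hp0).trans h3

theorem lp_continuous {e : ℕ} {p : ℝ} (hp : 1 ≤ p) {μ : Measure (E e)}
    (hμ : Integrable (fun u => ‖u‖ ^ p) μ) :
    Continuous (fun y : E e => ∫ u, |inner ℝ y u| ^ p ∂μ) :=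
  continuousOn_univ.1 ((lp_convex hp hμ).continuousOn isOpen_univ)

theorem lp_smul {e : ℕ} {p : ℝ} (μ : Measure (E e)) {r : ℝ} (hr : 0 ≤ r) (y : E e) :
    ∫ u, |inner ℝ (r • y) u| ^ p ∂μ = r ^ p * ∫ u, |inner ℝ y u| ^ p ∂μ := by
  rw [← integral_const_mul]
  congr 1
  funext u
  rw [inner_smul_left]
  simp only [conj_trivial]
  rw [abs_mul, abs_of_nonneg hr, Real.mul_rpow hr (abs_nonneg _)]

theorem lpBody_convex {d s e : ℕ} (f : Fin s → E d →ₗ[ℝ] ℝ) (A : E d →ₗ[ℝ] E e) {p : ℝ}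
    (hp : 1 ≤ p) {μ : Measure (E e)} (hμ : Integrable (fun u => ‖u‖ ^ p) μ) :
    Convex ℝ (lpBody f A p μ) := by
  intro y hy z hz α β hα hβ hab
  refine ⟨fun l => ?_, ?_⟩
  · have h1 := hy.1 l
    have h2 := hz.1 l
    rw [map_add, map_smul, map_smul, smul_eq_mul, smul_eq_mul]
    calc |α * f l y + β * f l z| ≤ |α * f l y| + |β * f l z| := abs_add_le _ _
      _ = α * |f l y| + β * |f l z| := by rw [abs_mul, abs_mul, abs_of_nonneg hα, abs_of_nonneg hβ]
      _ ≤ α * 1 + β * 1 := by gcongr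
      _ = 1 := by rw [mul_one, mul_one, hab]
  · have h1 := (lp_convex hp hμ).2 (Set.mem_univ (A y)) (Set.mem_univ (A z)) hα hβ hab
    rw [← map_smul, ← map_smul, ← map_add] at h1
    refine h1.trans ?_
    have h2 := hy.2
    have h3 := hz.2
    simp only [smul_eq_mul]
    calc α * _ + β * _ ≤ α * 1 + β * 1 := by gcongr
      _ = 1 := by rw [mul_one, mul_one, hab]

theorem lpBody_neg {d s e : ℕ} (f : Fin s → E d →ₗ[ℝ] ℝ) (A : E d →ₗ[ℝ] E e) (p : ℝ)
    (μ : Measure (E e)) : ∀ y ∈ lpBody f A p μ, -y ∈ lpBody f A p μ := by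
  rintro y ⟨h1, h2⟩
  refine ⟨fun l => by simpa using h1 l, ?_⟩
  simpa [inner_neg_left] using h2

theorem pair_L {d s e N : ℕ} (f : Fin s → E d →ₗ[ℝ] ℝ) (A : E d →ₗ[ℝ] E e) {p : ℝ}
    (hp : 1 ≤ p) {μ : Measure (E e)} (hμ : Integrable (fun u => ‖u‖ ^ p) μ)
    {c : Fin N → ℝ} {x : Fin N → E d} (hT : Tangent (lpBody f A p μ) c x) {i j : Fin N}
    (hij : i ≠ j) :
    (∀ l, |f l (x i) - f l (x j)| ≤ c i + c j) ∧
    ((∃ l, |f l (x i) - f l (x j)| = c i + c j) ∨
      ∫ u, |inner ℝ (A (x i) - A (x j)) u| ^ p ∂μ = (c i + c j) ^ p) := by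
  classical
  have hs := lpBody_neg f A p μ
  have hpos : 0 < c i + c j := add_pos (hT.1 i) (hT.1 j)
  set w := (c i + c j)⁻¹ • (x i - x j) with hw
  have hmem : w ∈ lpBody f A p μ := red_mem (lpBody_convex f A hp hμ) hs hT hij
  have hnot : w ∉ interior (lpBody f A p μ) := red_not hs hT hij
  have hfw : ∀ l, f l w = (c i + c j)⁻¹ * (f l (x i) - f l (x j)) := by
    intro l; simp [hw, map_sub]
  have haw : ∫ u, |inner ℝ (A w) u| ^ p ∂μ =
      ((c i + c j)⁻¹) ^ p * ∫ u, |inner ℝ (A (x i) - A (x j)) u| ^ p ∂μ := by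
    rw [← lp_smul μ (inv_pos.2 hpos).le, hw, map_smul, map_sub]
  have hset : lpBody f A p μ = {z | ∀ t : Option (Fin s),
      (t.elim (fun (z : E d) => ∫ u, |inner ℝ (A z) u| ^ p ∂μ)
        (fun l (z : E d) => |f l z|)) z ≤ 1} := by
    ext z
    simp only [lpBody, Set.mem_ofPred_eq]
    constructor
    · rintro ⟨h1, h2⟩ (_ | l)
      · exact h2
      · exact h1 l
    · intro h
      exact ⟨fun l => h (some l), h none⟩
  have hcont : ∀ t : Option (Fin s), Continuous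
      (t.elim (fun (z : E d) => ∫ u, |inner ℝ (A z) u| ^ p ∂μ)
        (fun l (z : E d) => |f l z|)) := by
    rintro (_ | l)
    · exact (lp_continuous hp hμ).comp (LinearMap.continuous_of_finiteDimensional A)
    · exact (LinearMap.continuous_of_finiteDimensional (f l)).abs
  refine ⟨fun l => ?_, ?_⟩
  · have h1 := hmem.1 l
    rw [hfw, abs_mul, abs_of_pos (inv_pos.2 hpos), inv_mul_le_iff₀ hpos, mul_one] at h1
    exact h1
  · rw [hset] at hmem hnot
    obtain ⟨t, ht⟩ := red_eq _ hcont hmem hnot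
    rcases t with _ | l
    · right
      have h1 : ∫ u, |inner ℝ (A w) u| ^ p ∂μ = 1 := ht
      rw [haw, Real.inv_rpow hpos.le, inv_mul_eq_iff_eq_mul₀ (Real.rpow_pos_of_pos hpos _).ne',
        mul_one] at h1
      exact h1
    · left
      refine ⟨l, ?_⟩
      have h1 : |f l w| = 1 := ht
      rw [hfw, abs_mul, abs_of_pos (inv_pos.2 hpos), inv_mul_eq_iff_eq_mul₀ hpos.ne', mul_one] at h1
      exact h1

/-- From a bound for the classes to a bound for all tangent families. -/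
theorem main_gen {d s e N M : ℕ} {p : ℝ} (hp : 1 ≤ p) (f : Fin s → E d →ₗ[ℝ] ℝ)
    (A : E d →ₗ[ℝ] E e) (μ : Measure (E e)) (hμ : Integrable (fun u => ‖u‖ ^ p) μ)
    (hM : ∀ (ι : Type) [Fintype ι] (y : ι → E e) (c : ι → ℝ), (∀ i, 0 < c i) →
      (∀ i j, i ≠ j → ∫ u, |inner ℝ (y i - y j) u| ^ p ∂μ = (c i + c j) ^ p) →
      Fintype.card ι ≤ M)
    (c : Fin N → ℝ) (x : Fin N → E d) (hT : Tangent (lpBody f A p μ) c x) : N ≤ 2 ^ s * M := by
  classical
  have hsl : ∀ l : Fin s, ∃ col : Fin N → Bool,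
      ∀ i j, col i = col j → |f l (x i) - f l (x j)| < c i + c j := by
    intro l
    refine slab_col c (fun i => f l (x i)) hT.1 ?_
    intro i j
    by_cases hij : i = j
    · subst hij
      have := hT.1 i
      simp only [sub_self, abs_zero]
      linarith
    · exact (pair_L f A hp hμ hT hij).1 l
  choose col hcol using hsl
  refine col_split (fun i l => col l i) ?_
  intro v
  have h := hM {i : Fin N // i ∈ Finset.univ.filter (fun i => (fun l => col l i) = v)}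
    (fun i => A (x i)) (fun i => c i) (fun i => hT.1 i) ?_
  · rwa [Fintype.card_coe] at h
  · intro i j hij
    have hij' : (i : Fin N) ≠ j := fun h => hij (Subtype.ext h)
    have hi := (Finset.mem_filter.1 i.2).2
    have hj := (Finset.mem_filter.1 j.2).2
    rcases (pair_L f A hp hμ hT hij').2 with ⟨l, hl⟩ | hb
    · exfalso
      have := hcol l i j (congrFun (hi.trans hj.symm) l)
      linarith
    · exact hb

/-- THEOREM L. -/
theorem main_L {d s e k N : ℕ} (hk : Odd k) {p : ℝ} (h1 : 2 * (k : ℝ) ≤ p) (h2 : p ≤ 2 * k + 1)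
    (f : Fin s → E d →ₗ[ℝ] ℝ) (A : E d →ₗ[ℝ] E e) (μ : Measure (E e))
    (hμ : Integrable (fun u => ‖u‖ ^ p) μ) (c : Fin N → ℝ) (x : Fin N → E d)
    (hT : Tangent (lpBody f A p μ) c x) :
    N ≤ 2 ^ s * (Nat.choose (e + k) k + k) := by
  have hk1 : (1 : ℝ) ≤ k := by exact_mod_cast hk.pos
  have hp : 1 ≤ p := by linarith
  exact main_gen hp f A μ hμ (fun ι _ y c hc h => class_L hk h1 h2 μ (lp_int hp hμ) y c hc h) c x hT

/-- THEOREM L, even powers divisible by four. -/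
theorem main_Le {d s e k N : ℕ} (hk : Even k) (hk2 : 2 ≤ k)
    (f : Fin s → E d →ₗ[ℝ] ℝ) (A : E d →ₗ[ℝ] E e) (μ : Measure (E e))
    (hμ : Integrable (fun u => ‖u‖ ^ (2 * (k : ℝ))) μ) (c : Fin N → ℝ) (x : Fin N → E d)
    (hT : Tangent (lpBody f A (2 * (k : ℝ)) μ) c x) :
    N ≤ 2 ^ s * (Nat.choose (e + (k - 1)) (k - 1) + k) := by
  have hk1 : (2 : ℝ) ≤ k := by exact_mod_cast hk2
  have hp : 1 ≤ 2 * (k : ℝ) := by linarith
  exact main_gen hp f A μ hμ (fun ι _ y c hc h => class_Le hk hk2 μ (lp_int hp hμ) y c hc h) c x hT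

end Pool.Agent.StB
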