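import Pool.Agent.StB.Trc
import Pool.Agent.StB.MainA
import Pool.Agent.StB.MainB

set_option autoImplicit false

open scoped BigOperators

namespace Pool.Agent.StB

theorem id_T1 {n : ℕ} {ι : Type} [Fintype ι] (y : ι → Fin n → ℝ) (c : ι → ℝ)
    (h : ∀ i j, i ≠ j → ∑ k, |y i k - y j k| = c i + c j) (w : ι → ℝ) (hw : ∑ i, w i = 0) :
    ∑ k, (-(∑ i, ∑ j, w i * w j * |y i k - y j k|) / 2) = ∑ i, c i * w i ^ 2 := by
  classical
  have h1 : ∑ k, (-(∑ i, ∑ j, w i * w j * |y i k - y j k|) / 2) =
      -(∑ i, ∑ j, w i * w j * ∑ k, |y i k - y j k|) / 2 := by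
    rw [← Finset.sum_div, Finset.sum_neg_distrib, Finset.sum_comm]
    congr 2
    refine Finset.sum_congr rfl fun i _ => ?_
    rw [Finset.sum_comm]
    exact Finset.sum_congr rfl fun j _ => by rw [Finset.mul_sum]
  have h2 : ∀ i j, w i * w j * ∑ k, |y i k - y j k| =
      (w i * c i) * w j + w i * (w j * c j) - (if i = j then 2 * (c i * w i ^ 2) else 0) := by
    intro i j
    by_cases hij : i = j
    · subst hij
      simp only [sub_self, abs_zero, Finset.sum_const_zero, mul_zero, if_true]
      ring
    · rw [if_neg hij, h i j hij]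
      ring
  have h3 : ∑ i, ∑ j, w i * w j * ∑ k, |y i k - y j k| = - (2 * ∑ i, c i * w i ^ 2) := by
    simp only [h2]
    rw [Finset.sum_congr rfl fun i _ => Finset.sum_sub_distrib _ _, Finset.sum_sub_distrib,
      Finset.sum_congr rfl fun i _ => Finset.sum_add_distrib, Finset.sum_add_distrib]
    rw [← Finset.sum_mul_sum, ← Finset.sum_mul_sum, hw, mul_zero, zero_mul]
    simp only [Finset.sum_ite_eq, Finset.mem_univ, if_true]
    rw [← Finset.mul_sum]
    ring
  rw [h1, h3]
  ring

/-- The `ℓ_1` bound for a system of equations. -/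
theorem core_T1 {n : ℕ} (hn : 1 ≤ n) {ι : Type} [Fintype ι] (y : ι → Fin n → ℝ) (c : ι → ℝ)
    (hc : ∀ i, 0 < c i) (h : ∀ i j, i ≠ j → ∑ k, |y i k - y j k| = c i + c j) :
    Fintype.card ι ≤ 2 * n ^ 2 + 2 := by
  classical
  rcases isEmpty_or_nonempty ι with he | he
  · simp
  obtain ⟨i0, h0⟩ := Finite.exists_min c
  set L := Finset.univ.filter (fun i => ∃ k, c i0 < |y i k - y i0 k|) with hLdef
  have hex : ∀ i : {i : ι // i ∈ L}, ∃ k : Fin n, c i0 < |y i k - y i0 k| := fun i =>
    (Finset.mem_filter.1 i.2).2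
  choose f hf using hex
  have hne0 : ∀ i : {i : ι // i ∈ L}, (i : ι) ≠ i0 := by
    intro i hi
    have := hf i
    rw [hi, sub_self, abs_zero] at this
    exact absurd this (not_lt.2 (hc i0).le)
  have hinj : Function.Injective (fun i : {i : ι // i ∈ L} =>
      (f i, decide (0 ≤ y i (f i) - y i0 (f i)))) := by
    intro i j hij
    by_contra hne
    have hne' : (i : ι) ≠ j := fun h => hne (Subtype.ext h)
    simp only [Prod.mk.injEq, decide_eq_decide] at hij
    obtain ⟨hk, hs⟩ := hij
    have h1 := hf i
    have h2 := hf j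
    rw [← hk] at h2 hs
    set k := f i with hkdef
    have e1 := h i i0 (hne0 i)
    have e2 := h j i0 (hne0 j)
    have e3 := h i j hne'
    have hlt : ∑ l, |y i l - y j l| <
        ∑ l, (|y i l - y i0 l| + |y j l - y i0 l| - (if l = k then 2 * c i0 else 0)) := by
      refine Finset.sum_lt_sum (fun l _ => ?_) ⟨k, Finset.mem_univ k, ?_⟩
      · by_cases hl : l = k
        · rw [if_pos hl, hl]
          rcases le_or_gt 0 (y i k - y i0 k) with h3 | h3
          · have h4 := hs.1 h3
            rw [abs_of_nonneg h3] at h1 ⊢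
            rw [abs_of_nonneg h4] at h2 ⊢
            rcases abs_cases (y i k - y j k) with h5 | h5 <;> linarith
          · have h4 : y j k - y i0 k < 0 := by
              by_contra h5
              exact absurd (hs.2 (not_lt.1 h5)) (not_le.2 h3)
            rw [abs_of_neg h3] at h1 ⊢
            rw [abs_of_neg h4] at h2 ⊢
            rcases abs_cases (y i k - y j k) with h5 | h5 <;> linarith
        · rw [if_neg hl, sub_zero]
          have : y i l - y j l = (y i l - y i0 l) - (y j l - y i0 l) := by ring
          rw [this]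
          exact abs_sub _ _
      · rw [if_pos rfl]
        rcases le_or_gt 0 (y i k - y i0 k) with h3 | h3
        · have h4 := hs.1 h3
          rw [abs_of_nonneg h3] at h1 ⊢
          rw [abs_of_nonneg h4] at h2 ⊢
          rcases abs_cases (y i k - y j k) with h5 | h5 <;> linarith
        · have h4 : y j k - y i0 k < 0 := by
            by_contra h5
            exact absurd (hs.2 (not_lt.1 h5)) (not_le.2 h3)
          rw [abs_of_neg h3] at h1 ⊢
          rw [abs_of_neg h4] at h2 ⊢
          rcases abs_cases (y i k - y j k) with h5 | h5 <;> linarith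
    rw [e3, Finset.sum_sub_distrib, Finset.sum_add_distrib, e1, e2, Finset.sum_ite_eq'] at hlt
    simp only [Finset.mem_univ, if_true] at hlt
    linarith
  have hL : L.card ≤ 2 * n := by
    have := Fintype.card_le_of_injective _ hinj
    rw [Fintype.card_coe, Fintype.card_prod, Fintype.card_fin, Fintype.card_bool] at this
    omega
  -- the others
  have hR := tr_core (ι := {i : ι // i ∈ Finset.univ \ L}) hn (fun k i => y i k) (fun i => c i)
    (hc i0) (fun i => h0 i) (fun k => y i0 k - c i0) ?_ ?_
  · rw [Fintype.card_coe] at hR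
    have h1 : Fintype.card ι = (Finset.univ \ L).card + L.card := by
      rw [Finset.card_sdiff_add_card_eq_card (Finset.subset_univ _), Finset.card_univ]
    omega
  · intro k i
    have hi := (Finset.mem_sdiff.1 i.2).2
    have h1 : |y i k - y i0 k| ≤ c i0 := by
      by_contra h2
      exact hi (Finset.mem_filter.2 ⟨Finset.mem_univ _, k, not_le.1 h2⟩)
    have h2 := abs_le.1 h1
    constructor <;> linarith [h2.1, h2.2]
  · exact id_T1 (ι := {i : ι // i ∈ Finset.univ \ L}) (fun i k => y i k) (fun i => c i)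
      (fun i j hij => h i j (fun h => hij (Subtype.ext h)))

/-- THEOREM T1: `K = {|f l x| ≤ 1 for all l, ∑ k, |a k x| ≤ 1}`. -/
theorem main_T1 {d s n : ℕ} (hn : 1 ≤ n) (f : Fin s → E d →ₗ[ℝ] ℝ)
    (a : Fin n → E d →ₗ[ℝ] ℝ) {N : ℕ} (c : Fin N → ℝ) (x : Fin N → E d)
    (hT : Tangent (sumBody f a (fun _ t => |t|)) c x) : N ≤ 2 ^ s * (2 * n ^ 2 + 2) := by
  classical
  have hφ : ∀ _k : Fin n, Gr 1 (fun t : ℝ => |t|) := fun _ =>
    ⟨fun t => abs_neg t, ⟨convex_univ, fun u _ v _ α β hα hβ _ => by
        simp only [smul_eq_mul]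
        refine (abs_add_le _ _).trans (le_of_eq ?_)
        rw [abs_mul, abs_mul, abs_of_nonneg hα, abs_of_nonneg hβ]⟩,
      abs_zero, fun L t hL ht => by
        rw [abs_mul, abs_of_nonneg (by linarith : 0 ≤ L), pow_one]⟩
  have hsl : ∀ l : Fin s, ∃ col : Fin N → Bool,
      ∀ i j, col i = col j → |f l (x i) - f l (x j)| < c i + c j := by
    intro l
    refine slab_col c (fun i => f l (x i)) hT.1 ?_
    intro i j
    by_cases hij : i = j
    · subst hij
      have := hT.1 i
      simp only [sub_self, abs_zero]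
      linarith
    · exact (pair_A f a _ hφ hT hij).1 l
  choose col hcol using hsl
  refine col_split (fun i l => col l i) ?_
  intro v
  have h := core_T1 hn
    (fun (i : {i : Fin N // i ∈ Finset.univ.filter (fun i => (fun l => col l i) = v)}) k =>
      a k (x i)) (fun i => c i) (fun i => hT.1 i) ?_
  · rwa [Fintype.card_coe] at h
  · intro i j hij
    have hij' : (i : Fin N) ≠ j := fun h => hij (Subtype.ext h)
    have hi := (Finset.mem_filter.1 i.2).2
    have hj := (Finset.mem_filter.1 j.2).2
    rcases (pair_A f a _ hφ hT hij').2 with ⟨l, hl⟩ | hb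
    · exfalso
      have := hcol l i j (congrFun (hi.trans hj.symm) l)
      linarith
    · have hpos : 0 < c i + c j := add_pos (hT.1 i) (hT.1 j)
      have h1 : ∀ k, |(a k (x i) - a k (x j)) / (c i + c j)| =
          |a k (x i) - a k (x j)| / (c i + c j) := by
        intro k
        rw [abs_div, abs_of_pos hpos]
      simp only [h1] at hb
      rw [← Finset.sum_div, div_eq_one_iff_eq hpos.ne'] at hb
      exact hb

theorem id_T3 {m : ℕ} {ι : Type} [Fintype ι] {a : ι → Fin m → ℝ} {c : ι → ℝ} (h : SimSys a c)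
    (w : ι → ℝ) (hw : ∑ i, w i = 0) :
    ∑ k, (-(∑ i, ∑ j, w i * w j * |a i k - a j k|) / 2) = ∑ i, c i * w i ^ 2 := by
  classical
  have h1 : ∀ k, -(∑ i, ∑ j, w i * w j * |a i k - a j k|) / 2 =
      -(∑ i, ∑ j, w i * w j * max (a i k) (a j k)) := by
    intro k
    have h2 : ∀ i j, w i * w j * |a i k - a j k| =
        2 * (w i * w j * max (a i k) (a j k)) - (w i * a i k) * w j - w i * (w j * a j k) := by
      intro i j
      rcases max_cases (a i k) (a j k) with h3 | h3
      · rw [h3.1, abs_of_nonneg (by linarith)]; ring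
      · rw [h3.1, abs_of_nonpos (by linarith)]; ring
    simp only [h2]
    rw [Finset.sum_congr rfl fun i _ => Finset.sum_sub_distrib _ _, Finset.sum_sub_distrib,
      Finset.sum_congr rfl fun i _ => Finset.sum_sub_distrib _ _, Finset.sum_sub_distrib]
    rw [← Finset.sum_mul_sum, ← Finset.sum_mul_sum, hw, mul_zero, zero_mul]
    simp only [← Finset.mul_sum]
    ring
  rw [Finset.sum_congr rfl fun k _ => h1 k, Finset.sum_neg_distrib, Finset.sum_comm]
  have h4 : ∀ i, ∑ k, ∑ j, w i * w j * max (a i k) (a j k) = - (c i * w i ^ 2) := by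
    intro i
    rw [Finset.sum_comm]
    have h5 : ∀ j, ∑ k, w i * w j * max (a i k) (a j k) =
        if i = j then - (c i * w i ^ 2) else 0 := by
      intro j
      rw [← Finset.mul_sum]
      by_cases hij : i = j
      · subst hij
        simp only [max_self, if_true]
        rw [h.1 i]; ring
      · rw [if_neg hij, h.2 i j hij, mul_zero]
    rw [Finset.sum_congr rfl fun j _ => h5 j, Finset.sum_ite_eq]
    simp
  rw [Finset.sum_congr rfl fun i _ => h4 i, Finset.sum_neg_distrib, neg_neg]

/-- The bound for a system (T). -/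
theorem core_T3 {m : ℕ} (hm : 1 ≤ m) {ι : Type} [Fintype ι] {a : ι → Fin m → ℝ} {c : ι → ℝ}
    (hc : ∀ i, 0 < c i) (h : SimSys a c) : Fintype.card ι + m ≤ 2 * m ^ 2 + 2 := by
  classical
  rcases isEmpty_or_nonempty ι with he | he
  · simp
    nlinarith
  obtain ⟨i0, h0⟩ := Finite.exists_min c
  set L := Finset.univ.filter (fun i => ∃ k, c i0 < a i0 k - a i k) with hLdef
  have hex : ∀ i : {i : ι // i ∈ L}, ∃ k : Fin m, c i0 < a i0 k - a i k := fun i =>
    (Finset.mem_filter.1 i.2).2
  choose f hf using hex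
  have hne0 : ∀ i : {i : ι // i ∈ L}, (i : ι) ≠ i0 := by
    intro i hi
    have := hf i
    rw [hi, sub_self] at this
    exact absurd this (not_lt.2 (hc i0).le)
  have hinj : Function.Injective f := by
    intro i j hij
    by_contra hne
    have hne' : (i : ι) ≠ j := fun h => hne (Subtype.ext h)
    set g : Fin m → ℝ := fun k => a i0 k + max (a i k - a i0 k) 0 + max (a j k - a i0 k) 0
      - max (a i k) (a j k) with hg
    have hsum : ∑ k, g k = c i0 := by
      rw [hg]
      simp only [Finset.sum_sub_distrib, Finset.sum_add_distrib]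
      rw [h.1 i0, sim_pos h (hne0 i).symm, sim_pos h (hne0 j).symm, h.2 i j hne']
      ring
    have hnn : ∀ k, 0 ≤ g k := by
      intro k
      simp only [hg]
      rcases max_cases (a i k) (a j k) with h1 | h1 <;>
      rcases max_cases (a i k - a i0 k) 0 with h2 | h2 <;>
      rcases max_cases (a j k - a i0 k) 0 with h3 | h3 <;> linarith
    have hk : c i0 < g (f i) := by
      have h1 := hf i
      have h2 := hf j
      rw [← hij] at h2
      simp only [hg]
      have h3 : max (a i (f i) - a i0 (f i)) 0 ≥ 0 := le_max_right _ _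
      have h4 : max (a j (f i) - a i0 (f i)) 0 ≥ 0 := le_max_right _ _
      rcases max_cases (a i (f i)) (a j (f i)) with h5 | h5 <;> linarith
    have := Finset.single_le_sum (fun k _ => hnn k) (Finset.mem_univ (f i))
    linarith
  have hL : L.card ≤ m := by
    have := Fintype.card_le_of_injective _ hinj
    rwa [Fintype.card_coe, Fintype.card_fin] at this
  have hR := tr_core (ι := {i : ι // i ∈ Finset.univ \ L}) hm (fun k i => a i k) (fun i => c i)
    (hc i0) (fun i => h0 i) (fun k => a i0 k - c i0) ?_ ?_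
  · rw [Fintype.card_coe] at hR
    have h1 : Fintype.card ι = (Finset.univ \ L).card + L.card := by
      rw [Finset.card_sdiff_add_card_eq_card (Finset.subset_univ _), Finset.card_univ]
    omega
  · intro k i
    have hi := (Finset.mem_sdiff.1 i.2).2
    have h1 : a i0 k - a i k ≤ c i0 := by
      by_contra h2
      exact hi (Finset.mem_filter.2 ⟨Finset.mem_univ _, k, not_le.1 h2⟩)
    have h2 : a i k - a i0 k ≤ c i0 := by
      by_cases hii : (i : ι) = i0
      · rw [hii, sub_self]; exact (hc i0).le
      · exact sim_diff h (Ne.symm hii) k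
    constructor <;> linarith
  · exact id_T3 (ι := {i : ι // i ∈ Finset.univ \ L}) (a := fun i => a i) (c := fun i => c i)
      ⟨fun i => h.1 i, fun i j hij => h.2 i j (fun h => hij (Subtype.ext h))⟩

/-- THEOREM T3: simplices. -/
theorem main_T3 {d : ℕ} (p : Fin (d + 1) → E d) (hp : AffineIndependent ℝ p) {N : ℕ}
    (c : Fin N → ℝ) (x : Fin N → E d) (hT : Tangent (convexHull ℝ (Set.range p)) c x) :
    N ≤ 2 * d ^ 2 + 3 * d + 3 := by
  obtain ⟨a, ha⟩ := simplex_sys p hp c x hT
  have h1 := core_T3 (by omega : 1 ≤ d + 1) hT.1 ha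
  rw [Fintype.card_fin] at h1
  have h2 : 2 * (d + 1) ^ 2 = 2 * d ^ 2 + 4 * d + 2 := by ring
  omega

end Pool.Agent.StB
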