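import Pool.Agent.StB.LpM

set_option autoImplicit false

open scoped BigOperators
open MeasureTheory

namespace Pool.Agent.StB

/-- The remainder `exp (-u) - expP n u`. -/
noncomputable def rem (n : ℕ) (u : ℝ) : ℝ := Real.exp (-u) - expP n u

theorem expP_three (u : ℝ) : expP 3 u = 1 - u + u ^ 2 / 2 := by
  simp [expP, Finset.sum_range_succ, Nat.factorial]
  ring

theorem expP_four (u : ℝ) : expP 4 u = 1 - u + u ^ 2 / 2 - u ^ 3 / 6 := by
  simp [expP, Finset.sum_range_succ, Nat.factorial]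
  ring

theorem rem4_deriv (u : ℝ) : HasDerivAt (rem 4) (-rem 3 u) u := exp_rem_hasDeriv 3 u

theorem rem4_pos {u : ℝ} (hu : 0 < u) : 0 < rem 4 u :=
  sub_pos.2 (exp_rem_pos' (by decide) hu)

theorem rem4_zero : rem 4 0 = 0 := by
  simp [rem, expP_four]

theorem rem4_le {u : ℝ} (hu : 0 ≤ u) : |rem 4 u| ≤ u ^ 4 := by
  refine (exp_rem_le 4 hu).trans ?_
  have : 0 ≤ u ^ 4 := by positivity
  simp only [Nat.factorial]
  norm_num
  linarith

theorem rem4_le' {u : ℝ} (hu : 1 ≤ u) : |rem 4 u| ≤ 2 * u ^ 3 := by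
  rw [abs_of_pos (rem4_pos (by linarith)), rem, expP_four]
  have h1 : Real.exp (-u) ≤ 1 := Real.exp_le_one_iff.2 (by linarith)
  have h2 : u ≤ u ^ 3 := by nlinarith [mul_nonneg (by linarith : (0:ℝ) ≤ u - 1) (by linarith : (0:ℝ) ≤ u)]
  nlinarith [sq_nonneg u]

/-- `J = ∫ rem 4 s * s^(-p-1)` is positive. -/
theorem J_pos {p : ℝ} (h1 : 3 < p) (h2 : p < 4) :
    0 < ∫ s in Set.Ioi (0 : ℝ), rem 4 s * s ^ (-p - 1) :=
  exp_const_pos' (n := 4) (by norm_num) (by decide) (by norm_num; linarith) (by norm_num; linarith)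

theorem int4 {p : ℝ} (h1 : 3 < p) (h2 : p < 4) {t : ℝ} (ht : 0 ≤ t) :
    IntegrableOn (fun s : ℝ => rem 4 (s * t) * s ^ (-p - 1)) (Set.Ioi 0) := by
  have h3 := (exp_int (n := 4) (by norm_num) (p := p) (by norm_num; linarith)
    (by norm_num; linarith) ht).neg
  refine h3.congr_fun (fun s _ => ?_) measurableSet_Ioi
  simp only [rem, Pi.neg_apply]
  ring

theorem int3 {p : ℝ} (h1 : 3 < p) (h2 : p < 4) {t : ℝ} (ht : 0 ≤ t) :
    IntegrableOn (fun s : ℝ => rem 3 (s * t) * s ^ (-p)) (Set.Ioi 0) := by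
  have h3 := (exp_int (n := 3) (by norm_num) (p := p - 1) (by norm_num; linarith)
    (by norm_num; linarith) ht).neg
  refine h3.congr_fun (fun s _ => ?_) measurableSet_Ioi
  simp only [rem, Pi.neg_apply]
  rw [show -(p - 1) - 1 = -p by ring]
  ring

theorem scale4 {p : ℝ} (h1 : 3 < p) {t : ℝ} (ht : 0 ≤ t) :
    ∫ s in Set.Ioi (0 : ℝ), rem 4 (s * t) * s ^ (-p - 1) =
      t ^ p * ∫ s in Set.Ioi (0 : ℝ), rem 4 s * s ^ (-p - 1) := by
  have h3 := exp_scale (n := 4) (by norm_num) (p := p) (by linarith) ht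
  have h4 : ∀ t : ℝ, ∫ s in Set.Ioi (0 : ℝ), rem 4 (s * t) * s ^ (-p - 1) =
      - ∫ s in Set.Ioi (0 : ℝ), (expP 4 (s * t) - Real.exp (-(s * t))) * s ^ (-p - 1) := by
    intro t
    rw [← integral_neg]
    refine setIntegral_congr_fun measurableSet_Ioi fun s _ => ?_
    simp only [rem]
    ring
  have h5 := h4 1
  simp only [mul_one] at h5
  rw [h4 t, h3, h5]
  ring

theorem scale3 {p : ℝ} (h1 : 3 < p) {t : ℝ} (ht : 0 ≤ t) :
    ∫ s in Set.Ioi (0 : ℝ), rem 3 (s * t) * s ^ (-p) =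
      t ^ (p - 1) * ∫ s in Set.Ioi (0 : ℝ), rem 3 s * s ^ (-p) := by
  have h3 := exp_scale (n := 3) (by norm_num) (p := p - 1) (by linarith) ht
  rw [show -(p - 1) - 1 = -p by ring] at h3
  have h4 : ∀ t : ℝ, ∫ s in Set.Ioi (0 : ℝ), rem 3 (s * t) * s ^ (-p) =
      - ∫ s in Set.Ioi (0 : ℝ), (expP 3 (s * t) - Real.exp (-(s * t))) * s ^ (-p) := by
    intro t
    rw [← integral_neg]
    refine setIntegral_congr_fun measurableSet_Ioi fun s _ => ?_
    simp only [rem]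
    ring
  have h5 := h4 1
  simp only [mul_one] at h5
  rw [h4 t, h3, h5]
  ring

/-- integration by parts -/
theorem J3_eq {p : ℝ} (h1 : 3 < p) (h2 : p < 4) :
    ∫ s in Set.Ioi (0 : ℝ), rem 3 s * s ^ (-p) =
      -p * ∫ s in Set.Ioi (0 : ℝ), rem 4 s * s ^ (-p - 1) := by
  have i4 : IntegrableOn (fun s : ℝ => rem 4 s * s ^ (-p - 1)) (Set.Ioi 0) := by
    simpa using int4 h1 h2 (zero_le_one)
  have i3 : IntegrableOn (fun s : ℝ => rem 3 s * s ^ (-p)) (Set.Ioi 0) := by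
    simpa using int3 h1 h2 (zero_le_one)
  have hder : ∀ s ∈ Set.Ioi (0 : ℝ), HasDerivAt (fun s : ℝ => rem 4 s * s ^ (-p))
      (-(rem 3 s * s ^ (-p)) + (-p) * (rem 4 s * s ^ (-p - 1))) s := by
    intro s hs
    refine ((rem4_deriv s).mul (Real.hasDerivAt_rpow_const (p := -p)
      (Or.inl (ne_of_gt hs)))).congr_deriv ?_
    ring
  have hint : IntegrableOn (fun s : ℝ => -(rem 3 s * s ^ (-p)) +
      (-p) * (rem 4 s * s ^ (-p - 1))) (Set.Ioi 0) := i3.neg.add (i4.const_mul _)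
  have hlim : Filter.Tendsto (fun s : ℝ => rem 4 s * s ^ (-p)) Filter.atTop (nhds 0) := by
    have h3 : Filter.Tendsto (fun s : ℝ => 2 * s ^ (-(p - 3))) Filter.atTop (nhds 0) := by
      simpa using (tendsto_rpow_neg_atTop (by linarith : 0 < p - 3)).const_mul 2
    refine squeeze_zero_norm' ?_ h3
    filter_upwards [Filter.eventually_ge_atTop 1] with s hs
    have hs0 : 0 < s := by linarith
    rw [norm_mul, Real.norm_eq_abs, Real.norm_eq_abs, abs_of_pos (Real.rpow_pos_of_pos hs0 _)]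
    calc |rem 4 s| * s ^ (-p) ≤ (2 * s ^ 3) * s ^ (-p) :=
          mul_le_mul_of_nonneg_right (rem4_le' hs) (Real.rpow_nonneg hs0.le _)
      _ = 2 * s ^ (-(p - 3)) := by
          rw [mul_assoc, ← Real.rpow_natCast, ← Real.rpow_add hs0]
          congr 2
          push_cast
          ring
  have hcont : ContinuousWithinAt (fun s : ℝ => rem 4 s * s ^ (-p)) (Set.Ici 0) 0 := by
    rw [ContinuousWithinAt, rem4_zero, zero_mul]
    have h3 : Filter.Tendsto (fun s : ℝ => s ^ (4 - p)) (nhdsWithin 0 (Set.Ici 0)) (nhds 0) := by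
      have h4 : ContinuousAt (fun s : ℝ => s ^ (4 - p)) 0 :=
        Real.continuousAt_rpow_const _ _ (Or.inr (by linarith))
      have h5 := h4.tendsto
      rw [Real.zero_rpow (by linarith)] at h5
      exact h5.mono_left nhdsWithin_le_nhds
    refine squeeze_zero_norm' ?_ h3
    filter_upwards [self_mem_nhdsWithin] with s hs
    have hs0 : 0 ≤ s := hs
    rcases eq_or_lt_of_le hs0 with h4 | h4
    · rw [← h4, rem4_zero, zero_mul, norm_zero]
      exact Real.rpow_nonneg le_rfl _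
    · rw [norm_mul, Real.norm_eq_abs, Real.norm_eq_abs, abs_of_pos (Real.rpow_pos_of_pos h4 _)]
      calc |rem 4 s| * s ^ (-p) ≤ s ^ 4 * s ^ (-p) :=
            mul_le_mul_of_nonneg_right (rem4_le hs0) (Real.rpow_nonneg hs0 _)
        _ = s ^ (4 - p) := by
            rw [← Real.rpow_natCast, ← Real.rpow_add h4]
            congr 1
  have key := integral_Ioi_of_hasDerivAt_of_tendsto hcont hder hint hlim
  have e1 : IntegrableOn (fun s : ℝ => -(rem 3 s * s ^ (-p))) (Set.Ioi 0) := i3.neg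
  have e2 : IntegrableOn (fun s : ℝ => (-p) * (rem 4 s * s ^ (-p - 1))) (Set.Ioi 0) :=
    i4.const_mul _
  rw [integral_add e1 e2, integral_neg, integral_const_mul, rem4_zero,
    zero_mul, sub_zero] at key
  linarith

/-- The kernel of the ratios. -/
noncomputable def Kp (p t t' : ℝ) : ℝ :=
  (t + t') ^ p - t ^ p - t' ^ p - p * (t ^ (p - 1) * t' + t * t' ^ (p - 1))

/-- The integral formula for the kernel. -/
theorem Kp_int {p : ℝ} (h1 : 3 < p) (h2 : p < 4) {t t' : ℝ} (ht : 0 ≤ t) (ht' : 0 ≤ t') :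
    IntegrableOn (fun s : ℝ => ((Real.exp (-(s * t)) - 1 + s * t) *
      (Real.exp (-(s * t')) - 1 + s * t')) * s ^ (-p - 1)) (Set.Ioi 0) ∧
    ∫ s in Set.Ioi (0 : ℝ), ((Real.exp (-(s * t)) - 1 + s * t) *
      (Real.exp (-(s * t')) - 1 + s * t')) * s ^ (-p - 1) =
      Kp p t t' * ∫ s in Set.Ioi (0 : ℝ), rem 4 s * s ^ (-p - 1) := by
  have hpt : ∀ s ∈ Set.Ioi (0 : ℝ),
      rem 4 (s * (t + t')) * s ^ (-p - 1) - rem 4 (s * t) * s ^ (-p - 1) -
        rem 4 (s * t') * s ^ (-p - 1) + (t' * (rem 3 (s * t) * s ^ (-p)) +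
        t * (rem 3 (s * t') * s ^ (-p))) =
      ((Real.exp (-(s * t)) - 1 + s * t) *
      (Real.exp (-(s * t')) - 1 + s * t')) * s ^ (-p - 1) := by
    intro s hs
    have hs0 : 0 < s := hs
    have h3 : s ^ (-p) = s * s ^ (-p - 1) := by
      rw [← Real.rpow_one_add' hs0.le (by linarith)]
      congr 1
      ring
    have h4 : Real.exp (-(s * (t + t'))) = Real.exp (-(s * t)) * Real.exp (-(s * t')) := by
      rw [← Real.exp_add]; congr 1; ring
    rw [h3]
    simp only [rem, expP_four, expP_three, h4]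
    ring
  have hi : IntegrableOn (fun s : ℝ => rem 4 (s * (t + t')) * s ^ (-p - 1) -
      rem 4 (s * t) * s ^ (-p - 1) -
        rem 4 (s * t') * s ^ (-p - 1) + (t' * (rem 3 (s * t) * s ^ (-p)) +
        t * (rem 3 (s * t') * s ^ (-p)))) (Set.Ioi 0) :=
    ((((int4 h1 h2 (add_nonneg ht ht')).sub (int4 h1 h2 ht)).sub (int4 h1 h2 ht'))).add
      (((int3 h1 h2 ht).const_mul t').add ((int3 h1 h2 ht').const_mul t))
  refine ⟨hi.congr_fun hpt measurableSet_Ioi, ?_⟩
  rw [← setIntegral_congr_fun measurableSet_Ioi hpt]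
  have a1 := int4 h1 h2 (add_nonneg ht ht')
  have a2 := int4 h1 h2 ht
  have a3 := int4 h1 h2 ht'
  have b1 : IntegrableOn (fun s : ℝ => t' * (rem 3 (s * t) * s ^ (-p))) (Set.Ioi 0) :=
    (int3 h1 h2 ht).const_mul t'
  have b2 : IntegrableOn (fun s : ℝ => t * (rem 3 (s * t') * s ^ (-p))) (Set.Ioi 0) :=
    (int3 h1 h2 ht').const_mul t
  have c1 : IntegrableOn (fun s : ℝ => rem 4 (s * (t + t')) * s ^ (-p - 1) -
      rem 4 (s * t) * s ^ (-p - 1)) (Set.Ioi 0) := a1.sub a2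
  have c2 : IntegrableOn (fun s : ℝ => rem 4 (s * (t + t')) * s ^ (-p - 1) -
      rem 4 (s * t) * s ^ (-p - 1) - rem 4 (s * t') * s ^ (-p - 1)) (Set.Ioi 0) := c1.sub a3
  have c3 : IntegrableOn (fun s : ℝ => t' * (rem 3 (s * t) * s ^ (-p)) +
      t * (rem 3 (s * t') * s ^ (-p))) (Set.Ioi 0) := b1.add b2
  rw [integral_add c2 c3, integral_sub c1 a3, integral_sub a1 a2, integral_add b1 b2,
    integral_const_mul, integral_const_mul, scale4 h1 (add_nonneg ht ht'), scale4 h1 ht,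
    scale4 h1 ht', scale3 h1 ht, scale3 h1 ht', J3_eq h1 h2, Kp]
  ring

end Pool.Agent.StB
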