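import Pool.Agent.StB.P34

set_option autoImplicit false

open scoped BigOperators
open MeasureTheory

namespace Pool.Agent.StB

theorem sum_split {e : ℕ} {p : ℝ} (hp0 : 0 < p) (μ : Measure (E e)) {ι : Type} [Fintype ι]
    (y : ι → E e) (c : ι → ℝ)
    (h : ∀ i j, i ≠ j → ∫ u, |inner ℝ (y i - y j) u| ^ p ∂μ = (c i + c j) ^ p) (w : ι → ℝ) :
    ∑ i, ∑ j, w i * w j * ∫ u, |inner ℝ (y i - y j) u| ^ p ∂μ =
      ∑ i, ∑ j, w i * w j * (c i + c j) ^ p - ∑ i, w i ^ 2 * (c i + c i) ^ p := by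
  classical
  rw [← Finset.sum_sub_distrib]
  refine Finset.sum_congr rfl fun i _ => ?_
  have h4 : ∀ j, w i * w j * ∫ u, |inner ℝ (y i - y j) u| ^ p ∂μ =
      w i * w j * (c i + c j) ^ p - (if i = j then w i ^ 2 * (c i + c i) ^ p else 0) := by
    intro j
    by_cases hij : i = j
    · subst hij
      rw [if_pos rfl, sub_self]
      simp only [inner_zero_left, abs_zero, Real.zero_rpow hp0.ne', MeasureTheory.integral_zero,
        mul_zero]
      ring
    · rw [if_neg hij, h i j hij, sub_zero]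
  rw [Finset.sum_congr rfl fun j _ => h4 j, Finset.sum_sub_distrib, Finset.sum_ite_eq]
  simp

theorem sum_nonneg_mom {e k : ℕ} (hk : Odd k) {p : ℝ} (h1 : 2 * (k : ℝ) ≤ p)
    (h2 : p < 2 * k + 2) (μ : Measure (E e))
    (hint : ∀ y : E e, Integrable (fun u => |inner ℝ y u| ^ p) μ) {ι : Type} [Fintype ι]
    (y : ι → E e) (w : ι → ℝ) (hwy : ∀ (u : E e), ∀ a ≤ k, ∑ i, w i * (inner ℝ (y i) u) ^ a = 0) :
    0 ≤ ∑ i, ∑ j, w i * w j * ∫ u, |inner ℝ (y i - y j) u| ^ p ∂μ := by
  have h3 : ∑ i, ∑ j, w i * w j * ∫ u, |inner ℝ (y i - y j) u| ^ p ∂μ =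
      ∫ u, ∑ i, ∑ j, w i * w j * |inner ℝ (y i - y j) u| ^ p ∂μ := by
    rw [integral_finsetSum]
    · refine Finset.sum_congr rfl fun i _ => ?_
      rw [integral_finsetSum]
      · refine Finset.sum_congr rfl fun j _ => ?_
        rw [integral_const_mul]
      · intro j _
        exact (hint _).const_mul _
    · intro i _
      refine integrable_finsetSum _ fun j _ => ?_
      exact (hint _).const_mul _
  rw [h3]
  refine integral_nonneg fun u => ?_
  have := sgn_cos w (fun i => inner ℝ (y i) u) hk (hwy u) h1 h2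
  simpa [inner_sub_left] using this

/-- The class bound for `3 < p < 4`. -/
theorem class_34 {e : ℕ} {p : ℝ} (h1 : 3 < p) (h2 : p < 4) (μ : Measure (E e))
    (hint : ∀ y : E e, Integrable (fun u => |inner ℝ y u| ^ p) μ) {ι : Type}
    [Fintype ι] (y : ι → E e) (c : ι → ℝ) (hc : ∀ i, 0 < c i)
    (h : ∀ i j, i ≠ j → ∫ u, |inner ℝ (y i - y j) u| ^ p ∂μ = (c i + c j) ^ p) :
    (Fintype.card ι : ℝ) * (p + 1) ≤ 2 ^ (p - 1) * (e + 2) := by
  classical
  have hp0 : 0 < p := by linarith
  have hJ := J_pos h1 h2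
  set J := ∫ s in Set.Ioi (0 : ℝ), rem 4 s * s ^ (-p - 1) with hJd
  set a : ι → ℝ := fun i => (c i + c i) ^ (-(p / 2)) with ha
  have hcc : ∀ i, 0 < c i + c i := fun i => add_pos (hc i) (hc i)
  have ha0 : ∀ i, 0 < a i := fun i => Real.rpow_pos_of_pos (hcc i) _
  have ha2 : ∀ i, a i ^ 2 * (c i + c i) ^ p = 1 := by
    intro i
    rw [ha, ← Real.rpow_natCast, ← Real.rpow_mul (hcc i).le, ← Real.rpow_add (hcc i)]
    norm_num
  -- the moment map
  let L : EuclideanSpace ℝ ι →ₗ[ℝ] ((Fin e → ℝ) × (Fin 2 → ℝ)) :=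
    { toFun := fun v => (fun l => ∑ i, a i * v i * y i l,
        fun r => ∑ i, a i * v i * c i ^ (r : ℕ))
      map_add' := by
        intro v v'
        ext
        · simp [add_mul, mul_add, Finset.sum_add_distrib]
        · simp [add_mul, mul_add, Finset.sum_add_distrib]
      map_smul' := by
        intro r v
        ext
        · simp only [PiLp.smul_apply, smul_eq_mul, RingHom.id_apply, Prod.smul_fst, Pi.smul_apply,
            Finset.mul_sum]
          exact Finset.sum_congr rfl fun i _ => by ring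
        · simp only [PiLp.smul_apply, smul_eq_mul, RingHom.id_apply, Prod.smul_snd, Pi.smul_apply,
            Finset.mul_sum]
          exact Finset.sum_congr rfl fun i _ => by ring }
  set V := LinearMap.ker L with hV
  have hfin : Fintype.card ι ≤ Module.finrank ℝ V + (e + 2) := by
    have h3 := LinearMap.finrank_range_add_finrank_ker L
    have h4 : Module.finrank ℝ (LinearMap.range L) ≤ e + 2 := by
      refine (Submodule.finrank_le _).trans ?_
      rw [Module.finrank_prod, Module.finrank_fintype_fun_eq_card,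
        Module.finrank_fintype_fun_eq_card, Fintype.card_fin, Fintype.card_fin]
    rw [finrank_euclideanSpace, ← hV] at h3
    omega
  -- moments of the vectors of `V`
  have hmom : ∀ v ∈ V, (∀ r ≤ 1, ∑ i, (a i * v i) * c i ^ r = 0) ∧
      ∀ (u : E e), ∀ r ≤ 1, ∑ i, (a i * v i) * (inner ℝ (y i) u) ^ r = 0 := by
    intro v hv
    have hv' : L v = 0 := LinearMap.mem_ker.1 hv
    have e1 : ∀ l : Fin e, ∑ i, a i * v i * y i l = 0 := fun l =>
      congrFun (congrArg Prod.fst hv') l
    have e2 : ∀ r : Fin 2, ∑ i, a i * v i * c i ^ (r : ℕ) = 0 := fun r =>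
      congrFun (congrArg Prod.snd hv') r
    have e3 : ∀ r ≤ 1, ∑ i, (a i * v i) * c i ^ r = 0 := by
      intro r hr
      exact e2 ⟨r, by omega⟩
    refine ⟨e3, fun u r hr => ?_⟩
    rcases Nat.eq_zero_or_pos r with h0 | h0
    · subst h0
      simpa using e3 0 (by norm_num)
    · have hr1 : r = 1 := by omega
      subst hr1
      simp only [pow_one]
      have h3 : ∀ i, (a i * v i) * inner ℝ (y i) u = ∑ l, u l * (a i * v i * y i l) := by
        intro i
        rw [PiLp.inner_apply, Finset.mul_sum]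
        refine Finset.sum_congr rfl fun l _ => ?_
        simp
        ring
      rw [Finset.sum_congr rfl fun i _ => h3 i, Finset.sum_comm]
      refine Finset.sum_eq_zero fun l _ => ?_
      rw [← Finset.mul_sum, e1, mul_zero]
  -- the kernel
  set G : ι → ℝ → ℝ := fun i s => Real.exp (-(s * c i)) - 1 + s * c i with hG
  have hKint : ∀ i j, IntegrableOn (fun s : ℝ => (G i s * G j s) * s ^ (-p - 1)) (Set.Ioi 0) :=
    fun i j => (Kp_int h1 h2 (hc i).le (hc j).le).1
  have hKeq : ∀ i j, ∫ s in Set.Ioi (0 : ℝ), (G i s * G j s) * s ^ (-p - 1) =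
      Kp p (c i) (c j) * J := fun i j => (Kp_int h1 h2 (hc i).le (hc j).le).2
  have hquad_int : ∀ w : ι → ℝ, IntegrableOn (fun s : ℝ => (∑ i, w i * G i s) ^ 2 * s ^ (-p - 1))
      (Set.Ioi 0) := by
    intro w
    have h3 : IntegrableOn (fun s : ℝ => ∑ i, ∑ j, w i * w j * ((G i s * G j s) * s ^ (-p - 1)))
        (Set.Ioi 0) := by
      refine integrable_finsetSum _ fun i _ => integrable_finsetSum _ fun j _ => ?_
      exact (hKint i j).const_mul _
    refine h3.congr_fun (fun s _ => ?_) measurableSet_Ioi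
    simp only
    rw [sq, Finset.sum_mul_sum, Finset.sum_mul]
    refine Finset.sum_congr rfl fun i _ => ?_
    rw [Finset.sum_mul]
    exact Finset.sum_congr rfl fun j _ => by ring
  have hquad : ∀ w : ι → ℝ, (∑ i, ∑ j, w i * w j * Kp p (c i) (c j)) * J =
      ∫ s in Set.Ioi (0 : ℝ), (∑ i, w i * G i s) ^ 2 * s ^ (-p - 1) := by
    intro w
    have h3 : ∫ s in Set.Ioi (0 : ℝ), (∑ i, w i * G i s) ^ 2 * s ^ (-p - 1) =
        ∫ s in Set.Ioi (0 : ℝ), ∑ i, ∑ j, w i * w j * ((G i s * G j s) * s ^ (-p - 1)) := by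
      refine setIntegral_congr_fun measurableSet_Ioi fun s _ => ?_
      rw [sq, Finset.sum_mul_sum, Finset.sum_mul]
      refine Finset.sum_congr rfl fun i _ => ?_
      rw [Finset.sum_mul]
      exact Finset.sum_congr rfl fun j _ => by ring
    rw [h3, integral_finsetSum]
    · rw [Finset.sum_mul]
      refine Finset.sum_congr rfl fun i _ => ?_
      rw [integral_finsetSum]
      · rw [Finset.sum_mul]
        refine Finset.sum_congr rfl fun j _ => ?_
        rw [integral_const_mul, hKeq, mul_assoc]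
      · intro j _
        exact (hKint i j).const_mul _
    · intro i _
      exact integrable_finsetSum _ fun j _ => (hKint i j).const_mul _
  -- the inequality on `V`
  have hV1 : ∀ v ∈ V, ∑ i, v i ^ 2 ≤ ∑ i, ∑ j, (a i * v i) * (a j * v j) * Kp p (c i) (c j) := by
    intro v hv
    obtain ⟨hmc, hmy⟩ := hmom v hv
    have h3 := sum_nonneg_mom (k := 1) (by decide) (by norm_num; linarith) (by norm_num; linarith)
      μ hint y (fun i => a i * v i) hmy
    rw [sum_split hp0 μ y c h] at h3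
    have h4 : ∑ i, (a i * v i) ^ 2 * (c i + c i) ^ p = ∑ i, v i ^ 2 := by
      refine Finset.sum_congr rfl fun i _ => ?_
      rw [mul_pow, mul_right_comm, ha2, one_mul]
    have h5 : ∑ i, ∑ j, (a i * v i) * (a j * v j) * (c i + c j) ^ p =
        ∑ i, ∑ j, (a i * v i) * (a j * v j) * Kp p (c i) (c j) := by
      have h6 : ∀ i j, (a i * v i) * (a j * v j) * (c i + c j) ^ p =
          (a i * v i) * (a j * v j) * Kp p (c i) (c j) +
          (((a i * v i) * c i ^ p) * (a j * v j) + (a i * v i) * ((a j * v j) * c j ^ p) +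
          (p * ((a i * v i) * c i ^ (p - 1))) * ((a j * v j) * c j) +
          ((a i * v i) * c i) * (p * ((a j * v j) * c j ^ (p - 1)))) := by
        intro i j
        rw [Kp]; ring
      simp only [h6]
      have m0 : ∑ i, a i * v i = 0 := by simpa using hmc 0 (by norm_num)
      have m1 : ∑ i, (a i * v i) * c i = 0 := by simpa using hmc 1 le_rfl
      rw [Finset.sum_congr rfl fun i _ => Finset.sum_add_distrib, Finset.sum_add_distrib]
      simp only [Finset.sum_add_distrib, ← Finset.mul_sum, m0, m1, mul_zero, zero_add, add_zero]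
      rw [← Finset.sum_mul, ← Finset.sum_mul, m0, m1]
      ring
    rw [h4, h5] at h3
    linarith
  -- an orthonormal basis
  set D := Module.finrank ℝ V with hD
  let b := stdOrthonormalBasis ℝ V
  have hon : Orthonormal ℝ (fun l => ((b l : V) : EuclideanSpace ℝ ι)) :=
    b.orthonormal.comp_linearIsometry V.subtypeₗᵢ
  have hnorm : ∀ l, ∑ i, ((b l : V) : EuclideanSpace ℝ ι) i ^ 2 = 1 := by
    intro l
    have h3 := hon.1 l
    have h4 := EuclideanSpace.norm_sq_eq ((b l : V) : EuclideanSpace ℝ ι)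
    rw [h3] at h4
    simp only [Real.norm_eq_abs, sq_abs] at h4
    rw [← h4]; norm_num
  have hsum : (D : ℝ) * J ≤ ∑ i, a i ^ 2 * Kp p (c i) (c i) * J := by
    have h3 : (D : ℝ) * J ≤ ∑ l, ∫ s in Set.Ioi (0 : ℝ),
        (∑ i, (a i * ((b l : V) : EuclideanSpace ℝ ι) i) * G i s) ^ 2 * s ^ (-p - 1) := by
      have h4 : (D : ℝ) * J = ∑ _l : Fin D, J := by
        rw [Finset.sum_const, Finset.card_univ, Fintype.card_fin, nsmul_eq_mul]
      rw [h4]
      refine Finset.sum_le_sum fun l _ => ?_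
      rw [← hquad]
      have h5 := hV1 _ (b l).2
      rw [hnorm l] at h5
      nlinarith
    have h4 : ∑ l, ∫ s in Set.Ioi (0 : ℝ),
        (∑ i, (a i * ((b l : V) : EuclideanSpace ℝ ι) i) * G i s) ^ 2 * s ^ (-p - 1) ≤
        ∫ s in Set.Ioi (0 : ℝ), ∑ i, a i ^ 2 * ((G i s * G i s) * s ^ (-p - 1)) := by
      rw [← integral_finsetSum _ fun l _ =>
        hquad_int (fun i => a i * ((b l : V) : EuclideanSpace ℝ ι) i)]
      refine setIntegral_mono_on ?_ ?_ measurableSet_Ioi fun s hs => ?_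
      · exact integrable_finsetSum _ fun l _ =>
          hquad_int (fun i => a i * ((b l : V) : EuclideanSpace ℝ ι) i)
      · exact integrable_finsetSum _ fun i _ => (hKint i i).const_mul _
      · have hs0 : 0 ≤ s ^ (-p - 1) := Real.rpow_nonneg (le_of_lt hs) _
        have h5 := hon.sum_inner_products_le
          (x := (WithLp.toLp 2 (fun i => a i * G i s) : EuclideanSpace ℝ ι)) (s := Finset.univ)
        have h6 : ∀ l, inner ℝ ((b l : V) : EuclideanSpace ℝ ι)
            (WithLp.toLp 2 (fun i => a i * G i s) : EuclideanSpace ℝ ι) =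
            ∑ i, (a i * ((b l : V) : EuclideanSpace ℝ ι) i) * G i s := by
          intro l
          rw [PiLp.inner_apply]
          refine Finset.sum_congr rfl fun i _ => ?_
          simp
          ring
        rw [EuclideanSpace.norm_sq_eq] at h5
        simp only [h6, Real.norm_eq_abs, sq_abs] at h5
        rw [← Finset.sum_mul]
        have h7 : ∑ i, a i ^ 2 * ((G i s * G i s) * s ^ (-p - 1)) =
            (∑ i, (a i * G i s) ^ 2) * s ^ (-p - 1) := by
          rw [Finset.sum_mul]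
          exact Finset.sum_congr rfl fun i _ => by ring
        rw [h7]
        exact mul_le_mul_of_nonneg_right h5 hs0
    have h5 : ∫ s in Set.Ioi (0 : ℝ), ∑ i, a i ^ 2 * ((G i s * G i s) * s ^ (-p - 1)) =
        ∑ i, a i ^ 2 * Kp p (c i) (c i) * J := by
      rw [integral_finsetSum _ fun i _ => (hKint i i).const_mul _]
      refine Finset.sum_congr rfl fun i _ => ?_
      rw [integral_const_mul, hKeq, mul_assoc]
    exact (h3.trans h4).trans_eq h5
  have hdiag : ∀ i, a i ^ 2 * Kp p (c i) (c i) = 1 - 2 ^ (1 - p) * (1 + p) := by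
    intro i
    have h3 : c i ^ (p - 1) * c i = c i ^ p := by
      rw [← Real.rpow_add_one (hc i).ne']
      congr 1
      ring
    have h4 : (c i + c i) ^ p = 2 ^ p * c i ^ p := by
      rw [← two_mul, Real.mul_rpow (by norm_num) (hc i).le]
    have h5 : Kp p (c i) (c i) = (c i + c i) ^ p - 2 ^ (1 - p) * (1 + p) * (c i + c i) ^ p := by
      rw [Kp, h4, mul_comm (c i) (c i ^ (p - 1)), h3]
      have h6 : (2 : ℝ) ^ (1 - p) * 2 ^ p = 2 := by
        rw [← Real.rpow_add (by norm_num)]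
        norm_num
      have h7 : 2 ^ (1 - p) * (1 + p) * (2 ^ p * c i ^ p) = (2 ^ (1 - p) * 2 ^ p) * ((1 + p) * c i ^ p) := by
        ring
      rw [h7, h6]
      ring
    rw [h5, mul_sub, ha2, mul_comm (2 ^ (1 - p) * (1 + p)), ← mul_assoc, ha2, one_mul]
  have hDN : (D : ℝ) ≤ Fintype.card ι * (1 - 2 ^ (1 - p) * (1 + p)) := by
    have h3 : ∑ i, a i ^ 2 * Kp p (c i) (c i) * J =
        (Fintype.card ι * (1 - 2 ^ (1 - p) * (1 + p))) * J := by
      rw [Finset.sum_congr rfl fun i _ => by rw [hdiag i], Finset.sum_const, Finset.card_univ,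
        nsmul_eq_mul, mul_assoc]
    rw [h3] at hsum
    exact le_of_mul_le_mul_right hsum hJ
  have hfin' : (Fintype.card ι : ℝ) ≤ D + (e + 2) := by exact_mod_cast hfin
  have h8 : (Fintype.card ι : ℝ) * (2 ^ (1 - p) * (1 + p)) ≤ e + 2 := by linarith
  have h9 : (2 : ℝ) ^ (p - 1) * 2 ^ (1 - p) = 1 := by
    rw [← Real.rpow_add (by norm_num)]
    norm_num
  have h10 : (0 : ℝ) < 2 ^ (p - 1) := Real.rpow_pos_of_pos (by norm_num) _
  calc (Fintype.card ι : ℝ) * (p + 1) =
        2 ^ (p - 1) * ((Fintype.card ι : ℝ) * (2 ^ (1 - p) * (1 + p))) := by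
        have : 2 ^ (p - 1) * ((Fintype.card ι : ℝ) * (2 ^ (1 - p) * (1 + p))) =
          (2 ^ (p - 1) * 2 ^ (1 - p)) * ((Fintype.card ι : ℝ) * (p + 1)) := by ring
        rw [this, h9, one_mul]
    _ ≤ 2 ^ (p - 1) * (e + 2) := mul_le_mul_of_nonneg_left h8 h10.le

/-- THEOREM L for `3 < p < 4`. -/
theorem main_34 {d s e N : ℕ} {p : ℝ} (h1 : 3 < p) (h2 : p < 4)
    (f : Fin s → E d →ₗ[ℝ] ℝ) (A : E d →ₗ[ℝ] E e) (μ : Measure (E e))
    (hμ : Integrable (fun u => ‖u‖ ^ p) μ) (c : Fin N → ℝ) (x : Fin N → E d)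
    (hT : Tangent (lpBody f A p μ) c x) :
    (N : ℝ) * (p + 1) ≤ 2 ^ s * (2 ^ (p - 1) * (e + 2)) := by
  have hp : 1 ≤ p := by linarith
  have hp1 : 0 < p + 1 := by linarith
  have h3 := main_gen (M := ⌊2 ^ (p - 1) * ((e : ℝ) + 2) / (p + 1)⌋₊) hp f A μ hμ
    (fun ι _ y c hc h => Nat.le_floor (by
      rw [le_div_iff₀ hp1]
      exact class_34 h1 h2 μ (lp_int hp hμ) y c hc h)) c x hT
  have h4 : (N : ℝ) ≤ 2 ^ s * (2 ^ (p - 1) * ((e : ℝ) + 2) / (p + 1)) := by
    have h5 : (N : ℝ) ≤ 2 ^ s * (⌊2 ^ (p - 1) * ((e : ℝ) + 2) / (p + 1)⌋₊ : ℝ) := by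
      exact_mod_cast h3
    refine h5.trans (mul_le_mul_of_nonneg_left (Nat.floor_le ?_) (by positivity))
    positivity
  rw [← mul_div_assoc, le_div_iff₀ hp1] at h4
  exact h4

end Pool.Agent.StB
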