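import Pool.Agent.StB.LpC

/-!
# Tails: traces of `|t - t'| ^ p` and `(c + c') ^ p` over functions orthogonal to polynomials
-/

set_option autoImplicit false

open scoped BigOperators
open MeasureTheory

namespace Pool.Agent.StB

/-- The first `m` terms of the power series of `sin`. -/
noncomputable def sinP (m : ℕ) (u : ℝ) : ℝ :=
  ∑ i ∈ Finset.range m, (-1) ^ i * u ^ (2 * i + 1) / ((2 * i + 1).factorial : ℝ)

private theorem tp_nonneg {f f' : ℝ → ℝ} (hf : ∀ x, HasDerivAt f (f' x) x)
    (h0 : 0 ≤ f 0) (hp : ∀ x, 0 ≤ x → 0 ≤ f' x) : ∀ x, 0 ≤ x → 0 ≤ f x := by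
  intro x hx
  have hm : MonotoneOn f (Set.Ici 0) := by
    apply monotoneOn_of_deriv_nonneg (convex_Ici 0)
    · exact fun y _ => (hf y).continuousAt.continuousWithinAt
    · exact fun y _ => (hf y).differentiableAt.differentiableWithinAt
    · intro y hy
      rw [interior_Ici] at hy
      rw [(hf y).deriv]
      exact hp y (Set.mem_Ioi.1 hy).le
  have := hm (Set.mem_Ici.2 le_rfl) (Set.mem_Ici.2 hx) hx
  linarith

private theorem tp_sinP_deriv (m : ℕ) (x : ℝ) : HasDerivAt (sinP m) (cosP m x) x := by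
  unfold sinP cosP
  apply HasDerivAt.fun_sum
  intro i _
  have h := ((hasDerivAt_pow (2 * i + 1) x).const_mul ((-1 : ℝ) ^ i)).div_const
    ((2 * i + 1).factorial : ℝ)
  refine h.congr_deriv ?_
  have h1 : ((2 * i).factorial : ℝ) ≠ 0 := by positivity
  have h2 : ((2 * i + 1 : ℕ) : ℝ) ≠ 0 := by positivity
  rw [Nat.factorial_succ, Nat.cast_mul]
  rw [Nat.add_sub_cancel]
  field_simp

private theorem tp_sinP_zero (m : ℕ) : sinP m 0 = 0 := by
  simp [sinP]

private theorem tp_sin_le (m : ℕ) (u : ℝ) (hu : 0 ≤ u) : |Real.sin u - sinP m u| ≤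
    u ^ (2 * m + 1) / ((2 * m + 1).factorial : ℝ) := by
  have d1 : ∀ x : ℝ, HasDerivAt (fun u : ℝ => u ^ (2 * m + 1) / ((2 * m + 1).factorial : ℝ))
      (x ^ (2 * m) / ((2 * m).factorial : ℝ)) x := by
    intro x
    have h := (hasDerivAt_pow (2 * m + 1) x).div_const ((2 * m + 1).factorial : ℝ)
    refine h.congr_deriv ?_
    have h1 : ((2 * m).factorial : ℝ) ≠ 0 := by positivity
    have h2 : ((2 * m + 1 : ℕ) : ℝ) ≠ 0 := by positivity
    rw [Nat.factorial_succ, Nat.cast_mul, Nat.add_sub_cancel]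
    field_simp
  have d2 : ∀ x : ℝ, HasDerivAt (fun u => Real.sin u - sinP m u) (Real.cos x - cosP m x) x :=
    fun x => (Real.hasDerivAt_sin x).sub (tp_sinP_deriv m x)
  have hc : ∀ x, 0 ≤ x → |Real.cos x - cosP m x| ≤ x ^ (2 * m) / ((2 * m).factorial : ℝ) := by
    intro x hx
    have := cos_rem_le m x
    rwa [abs_of_nonneg hx] at this
  rw [abs_le]
  constructor
  · have := tp_nonneg (fun x => (d1 x).add (d2 x)) (by simp [tp_sinP_zero])
      (fun x hx => by have := (abs_le.1 (hc x hx)).1; linarith) u hu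
    simp only [Pi.add_apply] at this
    linarith
  · have := tp_nonneg (fun x => (d1 x).sub (d2 x)) (by simp [tp_sinP_zero])
      (fun x hx => by have := (abs_le.1 (hc x hx)).2; linarith) u hu
    simp only [Pi.sub_apply] at this
    linarith

theorem sin_rem_le (m : ℕ) (u : ℝ) :
    |Real.sin u - sinP m u| ≤ |u| ^ (2 * m + 1) / ((2 * m + 1).factorial : ℝ) := by
  rcases le_total 0 u with h | h
  · rw [abs_of_nonneg h]
    exact tp_sin_le m u h
  · have h1 := tp_sin_le m (-u) (by linarith)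
    have h2 : sinP m (-u) = - sinP m u := by
      unfold sinP
      rw [← Finset.sum_neg_distrib]
      refine Finset.sum_congr rfl fun i _ => ?_
      rw [Odd.neg_pow ⟨i, rfl⟩]
      ring
    rw [Real.sin_neg, h2] at h1
    have h3 : -Real.sin u - -sinP m u = -(Real.sin u - sinP m u) := by ring
    rw [h3, abs_neg] at h1
    rwa [abs_of_nonpos h]

/-- Bessel's inequality. -/
theorem bes {ι : Type} [Fintype ι] {D : ℕ} (W : Fin D → EuclideanSpace ℝ ι)
    (hW : Orthonormal ℝ W) (f P : ι → ℝ) (hP : ∀ l, ∑ i, W l i * P i = 0) :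
    ∑ l, (∑ i, W l i * f i) ^ 2 ≤ ∑ i, (f i - P i) ^ 2 := by
  have h1 := hW.sum_inner_products_le (WithLp.toLp 2 (fun i => f i - P i) : EuclideanSpace ℝ ι)
    (s := Finset.univ)
  have h2 : ∀ l, ‖inner ℝ (W l) (WithLp.toLp 2 (fun i => f i - P i) : EuclideanSpace ℝ ι)‖ ^ 2 =
      (∑ i, W l i * f i) ^ 2 := by
    intro l
    have h3 : inner ℝ (W l) (WithLp.toLp 2 (fun i => f i - P i) : EuclideanSpace ℝ ι) =
        ∑ i, W l i * f i := by
      rw [PiLp.inner_apply]
      have h4 : ∀ i, inner ℝ (W l i) ((WithLp.toLp 2 (fun i => f i - P i) : EuclideanSpace ℝ ι) i) =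
          W l i * f i - W l i * P i := by
        intro i
        simp only [RCLike.inner_apply, conj_trivial]
        ring
      rw [Finset.sum_congr rfl fun i _ => h4 i, Finset.sum_sub_distrib, hP, sub_zero]
    rw [h3, Real.norm_eq_abs, sq_abs]
  rw [Finset.sum_congr rfl fun l _ => h2 l] at h1
  refine h1.trans (le_of_eq ?_)
  rw [EuclideanSpace.norm_sq_eq]
  refine Finset.sum_congr rfl fun i _ => ?_
  rw [Real.norm_eq_abs, sq_abs]

/-- The tail integral. -/
theorem tail_int {p s0 n : ℝ} (hp : 0 < p) (hs0 : 0 < s0) {G : ℝ → ℝ}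
    (hI : IntegrableOn (fun s => G s * s ^ (-p - 1)) (Set.Ioi 0))
    (h1 : ∀ s, 0 < s → s ≤ s0 → G s ≤ 2 * n * (s / s0) ^ (2 * p))
    (h2 : ∀ s, s0 < s → G s ≤ n) :
    ∫ s in Set.Ioi (0 : ℝ), G s * s ^ (-p - 1) ≤ 3 * n / p * s0 ^ (-p) := by
  have hun : Set.Ioc 0 s0 ∪ Set.Ioi s0 = Set.Ioi (0 : ℝ) := Set.Ioc_union_Ioi_eq_Ioi hs0.le
  have hI1 : IntegrableOn (fun s => G s * s ^ (-p - 1)) (Set.Ioc 0 s0) :=
    hI.mono_set (by rw [← hun]; exact Set.subset_union_left)
  have hI2 : IntegrableOn (fun s => G s * s ^ (-p - 1)) (Set.Ioi s0) :=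
    hI.mono_set (by rw [← hun]; exact Set.subset_union_right)
  rw [← hun, setIntegral_union (Set.Ioc_disjoint_Ioi le_rfl) measurableSet_Ioi hI1 hI2]
  have e1 : ∫ s in Set.Ioc 0 s0, G s * s ^ (-p - 1) ≤ 2 * n / p * s0 ^ (-p) := by
    have hb : IntegrableOn (fun s : ℝ => 2 * n * s0 ^ (-(2 * p)) * s ^ (p - 1)) (Set.Ioc 0 s0) := by
      have := (intervalIntegral.intervalIntegrable_rpow' (a := 0) (b := s0)
        (r := p - 1) (by linarith)).const_mul (2 * n * s0 ^ (-(2 * p)))
      rwa [intervalIntegrable_iff_integrableOn_Ioc_of_le hs0.le] at this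
    have h3 : ∫ s in Set.Ioc 0 s0, G s * s ^ (-p - 1) ≤
        ∫ s in Set.Ioc 0 s0, 2 * n * s0 ^ (-(2 * p)) * s ^ (p - 1) := by
      refine setIntegral_mono_on hI1 hb measurableSet_Ioc fun s hs => ?_
      have hs1 := hs.1
      have h4 := mul_le_mul_of_nonneg_right (h1 s hs.1 hs.2)
        (Real.rpow_nonneg hs1.le (-p - 1))
      refine h4.trans (le_of_eq ?_)
      rw [Real.div_rpow hs1.le hs0.le, Real.rpow_neg hs0.le, mul_assoc, div_mul_eq_mul_div,
        ← Real.rpow_add hs1]
      have h5 : 2 * p + (-p - 1) = p - 1 := by ring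
      rw [h5]
      ring
    refine h3.trans (le_of_eq ?_)
    rw [integral_const_mul, ← intervalIntegral.integral_of_le hs0.le,
      integral_rpow (Or.inl (by linarith))]
    have h4 : p - 1 + 1 = p := by ring
    have h6 : s0 ^ (2 * p) = s0 ^ p * s0 ^ p := by rw [two_mul p, Real.rpow_add hs0]
    rw [h4, Real.zero_rpow hp.ne', sub_zero, Real.rpow_neg hs0.le, Real.rpow_neg hs0.le, h6]
    have h5 : s0 ^ p ≠ 0 := (Real.rpow_pos_of_pos hs0 p).ne'
    field_simp
  have e2 : ∫ s in Set.Ioi s0, G s * s ^ (-p - 1) ≤ n / p * s0 ^ (-p) := by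
    have hb : IntegrableOn (fun s : ℝ => n * s ^ (-p - 1)) (Set.Ioi s0) :=
      (integrableOn_Ioi_rpow_of_lt (by linarith) hs0).const_mul n
    have h3 : ∫ s in Set.Ioi s0, G s * s ^ (-p - 1) ≤ ∫ s in Set.Ioi s0, n * s ^ (-p - 1) := by
      refine setIntegral_mono_on hI2 hb measurableSet_Ioi fun s hs => ?_
      have hs1 : 0 < s := lt_trans hs0 hs
      exact mul_le_mul_of_nonneg_right (h2 s hs) (Real.rpow_nonneg hs1.le _)
    refine h3.trans (le_of_eq ?_)
    rw [integral_const_mul, integral_Ioi_rpow_of_lt (by linarith) hs0]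
    have h4 : -p - 1 + 1 = -p := by ring
    rw [h4]
    field_simp
  have e3 : 3 * n / p * s0 ^ (-p) = 2 * n / p * s0 ^ (-p) + n / p * s0 ^ (-p) := by ring
  rw [e3]
  exact add_le_add e1 e2

/-- `(M / 3) ^ M ≤ M !`. -/
theorem third_pow_le (M : ℕ) : ((M : ℝ) / 3) ^ M ≤ (M.factorial : ℝ) := by
  have h1 := Real.pow_div_factorial_le_exp (M : ℝ) (Nat.cast_nonneg M) M
  have h2 : Real.exp (M : ℝ) ≤ 3 ^ M := by
    have h3 : Real.exp (M : ℝ) = Real.exp 1 ^ M := by
      rw [← Real.exp_nat_mul, mul_one]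
    rw [h3]
    exact pow_le_pow_left₀ (Real.exp_pos 1).le (by linarith [Real.exp_one_lt_d9]) M
  have h3 : (0 : ℝ) < M.factorial := by exact_mod_cast Nat.factorial_pos M
  rw [div_pow, div_le_iff₀ (by positivity)]
  rw [div_le_iff₀ h3] at h1
  calc (M : ℝ) ^ M ≤ Real.exp M * M.factorial := h1
    _ ≤ 3 ^ M * M.factorial := mul_le_mul_of_nonneg_right h2 h3.le
    _ = _ := mul_comm _ _

/-- The Taylor remainder in the small range. -/
theorem small_rem {M : ℕ} (hM : 1 ≤ M) {p : ℝ} (hp : 0 < p) (hpM : p ≤ M) {x X : ℝ}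
    (hx : 0 ≤ x) (hxX : x ≤ X) (hX : X = (M : ℝ) / 3) {m : ℕ} (hm1 : M ≤ m) (hm2 : m ≤ M + 1) :
    (x ^ m / (m.factorial : ℝ)) ^ 2 ≤ (x / X) ^ (2 * p) := by
  have hM0 : (0 : ℝ) < M := by exact_mod_cast hM
  have hX0 : 0 < X := by rw [hX]; positivity
  have hr0 : 0 ≤ x / X := div_nonneg hx hX0.le
  have hr1 : x / X ≤ 1 := by rw [div_le_one hX0]; exact hxX
  have h1 : x ^ M / (M.factorial : ℝ) ≤ (x / X) ^ M := by
    have h2 : (0 : ℝ) < M.factorial := by exact_mod_cast Nat.factorial_pos M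
    rw [div_pow, div_le_div_iff₀ h2 (pow_pos hX0 _)]
    refine mul_le_mul_of_nonneg_left ?_ (pow_nonneg hx _)
    rw [hX]
    exact third_pow_le M
  have h2 : x ^ m / (m.factorial : ℝ) ≤ (x / X) ^ M := by
    rcases eq_or_lt_of_le hm1 with h3 | h3
    · rw [← h3]; exact h1
    · have h4 : m = M + 1 := by omega
      rw [h4, pow_succ, Nat.factorial_succ]
      push_cast
      have h5 : x ^ M * x / ((M + 1) * (M.factorial : ℝ)) =
          (x ^ M / (M.factorial : ℝ)) * (x / (M + 1)) := by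
        rw [mul_comm ((M : ℝ) + 1), mul_div_mul_comm]
      rw [h5]
      have h6 : x / ((M : ℝ) + 1) ≤ 1 := by
        rw [div_le_one (by positivity)]
        rw [hX] at hxX
        linarith
      calc _ ≤ (x / X) ^ M * 1 := by
            refine mul_le_mul h1 h6 (by positivity) (pow_nonneg hr0 _)
        _ = _ := mul_one _
  have h3 : (x ^ m / (m.factorial : ℝ)) ^ 2 ≤ ((x / X) ^ M) ^ 2 :=
    pow_le_pow_left₀ (by positivity) h2 2
  refine h3.trans ?_
  rw [← pow_mul]
  rcases eq_or_lt_of_le hr0 with h4 | h4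
  · rw [← h4, zero_pow (by omega), Real.zero_rpow (by linarith)]
  · rw [← Real.rpow_natCast]
    refine Real.rpow_le_rpow_of_exponent_ge h4 hr1 ?_
    push_cast
    linarith

/-- Orthogonality to the powers gives orthogonality to the polynomials. -/
theorem mom_cosP1 {ι : Type} [Fintype ι] (w t : ι → ℝ) {M : ℕ}
    (hu : ∀ a < M, ∑ i, w i * t i ^ a = 0) {m : ℕ} (hm : 2 * m ≤ M + 1) (s : ℝ) :
    ∑ i, w i * cosP m (s * t i) = 0 := by
  have h1 : ∀ i, w i * cosP m (s * t i) = ∑ l ∈ Finset.range m,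
      ((-1) ^ l * s ^ (2 * l) / ((2 * l).factorial : ℝ)) * (w i * t i ^ (2 * l)) := by
    intro i
    rw [cosP, Finset.mul_sum]
    refine Finset.sum_congr rfl fun l _ => ?_
    rw [mul_pow]; ring
  simp only [h1]
  rw [Finset.sum_comm]
  refine Finset.sum_eq_zero fun l hl => ?_
  rw [← Finset.mul_sum, hu _ (by have := Finset.mem_range.1 hl; omega), mul_zero]

theorem mom_sinP1 {ι : Type} [Fintype ι] (w t : ι → ℝ) {M : ℕ}
    (hu : ∀ a < M, ∑ i, w i * t i ^ a = 0) {m : ℕ} (hm : 2 * m ≤ M) (s : ℝ) :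
    ∑ i, w i * sinP m (s * t i) = 0 := by
  have h1 : ∀ i, w i * sinP m (s * t i) = ∑ l ∈ Finset.range m,
      ((-1) ^ l * s ^ (2 * l + 1) / ((2 * l + 1).factorial : ℝ)) * (w i * t i ^ (2 * l + 1)) := by
    intro i
    rw [sinP, Finset.mul_sum]
    refine Finset.sum_congr rfl fun l _ => ?_
    rw [mul_pow]; ring
  simp only [h1]
  rw [Finset.sum_comm]
  refine Finset.sum_eq_zero fun l hl => ?_
  rw [← Finset.mul_sum, hu _ (by have := Finset.mem_range.1 hl; omega), mul_zero]

theorem mom_expP1 {ι : Type} [Fintype ι] (w t : ι → ℝ) {M : ℕ}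
    (hu : ∀ a < M, ∑ i, w i * t i ^ a = 0) {m : ℕ} (hm : m ≤ M) (s : ℝ) :
    ∑ i, w i * expP m (s * t i) = 0 := by
  have h1 : ∀ i, w i * expP m (s * t i) = ∑ l ∈ Finset.range m,
      ((-1) ^ l * s ^ l / (l.factorial : ℝ)) * (w i * t i ^ l) := by
    intro i
    rw [expP, Finset.mul_sum]
    refine Finset.sum_congr rfl fun l _ => ?_
    rw [neg_pow, mul_pow]; ring
  simp only [h1]
  rw [Finset.sum_comm]
  refine Finset.sum_eq_zero fun l hl => ?_
  rw [← Finset.mul_sum, hu _ (by have := Finset.mem_range.1 hl; omega), mul_zero]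

private theorem tp_cosP_deriv (m : ℕ) (x : ℝ) :
    HasDerivAt (cosP (m + 1)) (-(sinP m x)) x := by
  have he : cosP (m + 1) = fun u => (∑ i ∈ Finset.range m,
      (-1) ^ (i + 1) * u ^ (2 * (i + 1)) / ((2 * (i + 1)).factorial : ℝ)) + 1 := by
    funext u
    unfold cosP
    rw [Finset.sum_range_succ']
    simp
  rw [he]
  unfold sinP
  rw [← Finset.sum_neg_distrib]
  apply HasDerivAt.add_const
  apply HasDerivAt.fun_sum
  intro i _
  have h := ((hasDerivAt_pow (2 * (i + 1)) x).const_mul ((-1 : ℝ) ^ (i + 1))).div_const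
    ((2 * (i + 1)).factorial : ℝ)
  refine h.congr_deriv ?_
  have e1 : 2 * (i + 1) - 1 = 2 * i + 1 := by omega
  have e2 : ((2 * (i + 1)).factorial : ℝ) = (2 * (i + 1) : ℝ) * ((2 * i + 1).factorial : ℝ) := by
    rw [show 2 * (i + 1) = (2 * i + 1) + 1 by ring, Nat.factorial_succ, Nat.cast_mul]
    push_cast
    ring
  have h1 : ((2 * i + 1).factorial : ℝ) ≠ 0 := by positivity
  have h2 : (2 * (i + 1) : ℝ) ≠ 0 := by positivity
  have h3 : ((2 * (i + 1) : ℕ) : ℝ) = (2 * (i + 1) : ℝ) := by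
    push_cast; ring
  rw [e1, e2, h3]
  field_simp
  ring

private theorem tp_pos {f f' : ℝ → ℝ} (hf : ∀ x, HasDerivAt f (f' x) x)
    (h0 : 0 ≤ f 0) (hp : ∀ x, 0 < x → 0 < f' x) : ∀ x, 0 < x → 0 < f x := by
  intro x hx
  have hm : StrictMonoOn f (Set.Ici 0) := by
    apply strictMonoOn_of_deriv_pos (convex_Ici 0)
    · exact fun y _ => (hf y).continuousAt.continuousWithinAt
    · intro y hy
      rw [interior_Ici] at hy
      rw [(hf y).deriv]
      exact hp y hy
  have := hm (Set.mem_Ici.2 le_rfl) (Set.mem_Ici.2 hx.le) hx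
  linarith

/-- The sign of the cosine remainder of odd order. -/
theorem cos_rem_neg {m : ℕ} (hm : 3 ≤ m) (ho : Odd m) {u : ℝ} (hu : 0 < u) :
    Real.cos u < cosP m u := by
  obtain ⟨k, rfl⟩ : ∃ k, m = k + 1 := ⟨m - 1, by omega⟩
  have he : Even k := by
    rcases Nat.even_or_odd k with h | h
    · exact h
    · exact absurd ho (by rw [Nat.not_odd_iff_even]; exact h.add_one)
  have h1 : ∀ x : ℝ, 0 < x → 0 < Real.sin x - sinP k x :=
    tp_pos (f' := fun x => Real.cos x - cosP k x)
      (fun x => (Real.hasDerivAt_sin x).sub (tp_sinP_deriv k x)) (by simp [tp_sinP_zero])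
      (fun x hx => by
        have := cos_rem_pos (by omega : 2 ≤ k) he hx.ne'
        linarith)
  have h2 : ∀ x : ℝ, 0 < x → 0 < cosP (k + 1) x - Real.cos x := by
    refine tp_pos (f' := fun x => Real.sin x - sinP k x) (fun x => ?_) ?_ h1
    · refine ((tp_cosP_deriv k x).sub (Real.hasDerivAt_cos x)).congr_deriv ?_
      ring
    · have : cosP (k + 1) 0 = 1 := by
        unfold cosP
        rw [Finset.sum_range_succ']
        simp
      rw [this, Real.cos_zero, sub_self]
  have := h2 u hu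
  linarith

/-- The constant of the kernel `|t| ^ p` does not vanish. -/
theorem cos_const_ne {m : ℕ} (hm : 2 ≤ m) {p : ℝ} (h1 : 2 * (m : ℝ) - 2 < p)
    (h2 : p < 2 * m) :
    ∫ s in Set.Ioi (0 : ℝ), (Real.cos s - cosP m s) * s ^ (-p - 1) ≠ 0 := by
  rcases Nat.even_or_odd m with he | ho
  · exact (cos_const_pos hm he h1 h2).ne'
  · have hm3 : 3 ≤ m := by
      rcases eq_or_lt_of_le hm with h | h
      · rw [← h] at ho
        exact absurd ho (by decide)
      · omega
    have hI : IntegrableOn (fun s : ℝ => (cosP m s - Real.cos s) * s ^ (-p - 1)) (Set.Ioi 0) := by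
      have := (cos_int (by omega) h1 h2 1).neg
      refine this.congr_fun (fun s _ => ?_) measurableSet_Ioi
      simp only [mul_one, Pi.neg_apply]
      ring
    have hpos : 0 < ∫ s in Set.Ioi (0 : ℝ), (cosP m s - Real.cos s) * s ^ (-p - 1) := by
      have hp : ∀ s : ℝ, 0 < s → 0 < (cosP m s - Real.cos s) * s ^ (-p - 1) :=
        fun s hs => mul_pos (by have := cos_rem_neg hm3 ho hs; linarith)
          (Real.rpow_pos_of_pos hs _)
      rw [setIntegral_pos_iff_support_of_nonneg_ae _ hI]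
      · have : Function.support (fun s : ℝ => (cosP m s - Real.cos s) * s ^ (-p - 1)) ∩
            Set.Ioi 0 = Set.Ioi 0 := by
          apply Set.inter_eq_right.2
          intro s hs
          exact (hp s hs).ne'
        rw [this]
        simp
      · rw [Filter.EventuallyLE, ae_restrict_iff' measurableSet_Ioi]
        exact Filter.Eventually.of_forall fun s hs => (hp s hs).le
    intro h0
    have h3 : ∫ s in Set.Ioi (0 : ℝ), (cosP m s - Real.cos s) * s ^ (-p - 1) =
        - ∫ s in Set.Ioi (0 : ℝ), (Real.cos s - cosP m s) * s ^ (-p - 1) := by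
      rw [← integral_neg]
      refine setIntegral_congr_fun measurableSet_Ioi fun s _ => ?_
      ring
    rw [h3, h0, neg_zero] at hpos
    exact lt_irrefl _ hpos

/-- The integral representation of `|t - t'| ^ p`. -/
theorem ker_cos {ι : Type} [Fintype ι] (w t : ι → ℝ) {q : ℕ} (hq : 1 ≤ q) {p : ℝ} (hp : 0 < p)
    (h1 : 2 * (q : ℝ) - 2 < p) (h2 : p < 2 * q) (hu : ∀ a ≤ q - 1, ∑ i, w i * t i ^ a = 0) :
    IntegrableOn (fun s : ℝ => ((∑ i, w i * Real.cos (s * t i)) ^ 2 +
      (∑ i, w i * Real.sin (s * t i)) ^ 2) * s ^ (-p - 1)) (Set.Ioi 0) ∧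
    (∑ i, ∑ j, w i * w j * |t i - t j| ^ p) *
      (∫ s in Set.Ioi (0 : ℝ), (Real.cos s - cosP q s) * s ^ (-p - 1)) =
    ∫ s in Set.Ioi (0 : ℝ), ((∑ i, w i * Real.cos (s * t i)) ^ 2 +
      (∑ i, w i * Real.sin (s * t i)) ^ 2) * s ^ (-p - 1) := by
  have hpt : ∀ s : ℝ, ∑ i, ∑ j, w i * w j *
      ((Real.cos (s * (t i - t j)) - cosP q (s * (t i - t j))) * s ^ (-p - 1)) =
      ((∑ i, w i * Real.cos (s * t i)) ^ 2 +
      (∑ i, w i * Real.sin (s * t i)) ^ 2) * s ^ (-p - 1) := by
    intro s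
    have h6 : ∑ i, ∑ j, w i * w j *
        ((Real.cos (s * (t i - t j)) - cosP q (s * (t i - t j))) * s ^ (-p - 1)) =
        (∑ i, ∑ j, w i * w j * Real.cos (s * (t i - t j)) -
          ∑ i, ∑ j, w i * w j * cosP q (s * (t i - t j))) * s ^ (-p - 1) := by
      rw [← Finset.sum_sub_distrib, Finset.sum_mul]
      refine Finset.sum_congr rfl fun i _ => ?_
      rw [← Finset.sum_sub_distrib, Finset.sum_mul]
      exact Finset.sum_congr rfl fun j _ => by ring
    have h7 : ∑ i, ∑ j, w i * w j * Real.cos (s * (t i - t j)) =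
        (∑ i, w i * Real.cos (s * t i)) ^ 2 + (∑ i, w i * Real.sin (s * t i)) ^ 2 := by
      rw [sq, sq, Finset.sum_mul_sum, Finset.sum_mul_sum, ← Finset.sum_add_distrib]
      refine Finset.sum_congr rfl fun i _ => ?_
      rw [← Finset.sum_add_distrib]
      refine Finset.sum_congr rfl fun j _ => ?_
      rw [mul_sub, Real.cos_sub]; ring
    rw [h6, h7, mom_cosP w t hu (by omega), sub_zero]
  have hint : ∀ i j, IntegrableOn (fun s : ℝ => w i * w j *
      ((Real.cos (s * (t i - t j)) - cosP q (s * (t i - t j))) * s ^ (-p - 1))) (Set.Ioi 0) :=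
    fun i j => (cos_int hq h1 h2 _).const_mul _
  constructor
  · have h3 : IntegrableOn (fun s : ℝ => ∑ i, ∑ j, w i * w j *
      ((Real.cos (s * (t i - t j)) - cosP q (s * (t i - t j))) * s ^ (-p - 1))) (Set.Ioi 0) :=
      integrable_finsetSum _ fun i _ => integrable_finsetSum _ fun j _ => hint i j
    exact h3.congr_fun (fun s _ => hpt s) measurableSet_Ioi
  · rw [← setIntegral_congr_fun measurableSet_Ioi fun s _ => hpt s]
    rw [integral_finsetSum]
    · rw [Finset.sum_mul]
      refine Finset.sum_congr rfl fun i _ => ?_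
      rw [integral_finsetSum]
      · rw [Finset.sum_mul]
        refine Finset.sum_congr rfl fun j _ => ?_
        rw [integral_const_mul, cos_scale hq hp, mul_assoc]
      · intro j _
        exact hint i j
    · intro i _
      exact integrable_finsetSum _ fun j _ => hint i j

/-- The integral representation of `(c + c') ^ p`. -/
theorem ker_exp {ι : Type} [Fintype ι] (w c : ι → ℝ) (hc : ∀ i, 0 ≤ c i) {n k : ℕ} (hn : 1 ≤ n)
    {p : ℝ} (hp : 0 < p) (h1 : (n : ℝ) - 1 < p) (h2 : p < n) (hu : ∀ a ≤ k, ∑ i, w i * c i ^ a = 0)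
    (hnk : n ≤ 2 * k + 2) :
    IntegrableOn (fun s : ℝ => (∑ i, w i * Real.exp (-(s * c i))) ^ 2 * s ^ (-p - 1))
      (Set.Ioi 0) ∧
    (∑ i, ∑ j, w i * w j * (c i + c j) ^ p) *
      (∫ s in Set.Ioi (0 : ℝ), (expP n s - Real.exp (-s)) * s ^ (-p - 1)) =
    - ∫ s in Set.Ioi (0 : ℝ), (∑ i, w i * Real.exp (-(s * c i))) ^ 2 * s ^ (-p - 1) := by
  have hpt : ∀ s : ℝ, ∑ i, ∑ j, w i * w j *
      ((expP n (s * (c i + c j)) - Real.exp (-(s * (c i + c j)))) * s ^ (-p - 1)) =
      -((∑ i, w i * Real.exp (-(s * c i))) ^ 2 * s ^ (-p - 1)) := by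
    intro s
    have h6 : ∑ i, ∑ j, w i * w j *
        ((expP n (s * (c i + c j)) - Real.exp (-(s * (c i + c j)))) * s ^ (-p - 1)) =
        (∑ i, ∑ j, w i * w j * expP n (s * (c i + c j)) -
          ∑ i, ∑ j, w i * w j * Real.exp (-(s * (c i + c j)))) * s ^ (-p - 1) := by
      rw [← Finset.sum_sub_distrib, Finset.sum_mul]
      refine Finset.sum_congr rfl fun i _ => ?_
      rw [← Finset.sum_sub_distrib, Finset.sum_mul]
      exact Finset.sum_congr rfl fun j _ => by ring
    have h7 : ∑ i, ∑ j, w i * w j * Real.exp (-(s * (c i + c j))) =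
        (∑ i, w i * Real.exp (-(s * c i))) ^ 2 := by
      rw [sq, Finset.sum_mul_sum]
      refine Finset.sum_congr rfl fun i _ => ?_
      refine Finset.sum_congr rfl fun j _ => ?_
      rw [show -(s * (c i + c j)) = -(s * c i) + -(s * c j) by ring, Real.exp_add]; ring
    rw [h6, h7, mom_expP w c hu hnk, zero_sub]
    ring
  have hint : ∀ i j, IntegrableOn (fun s : ℝ => w i * w j *
      ((expP n (s * (c i + c j)) - Real.exp (-(s * (c i + c j)))) * s ^ (-p - 1))) (Set.Ioi 0) :=
    fun i j => (exp_int hn h1 h2 (add_nonneg (hc i) (hc j))).const_mul _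
  constructor
  · have h3 : IntegrableOn (fun s : ℝ => -∑ i, ∑ j, w i * w j *
      ((expP n (s * (c i + c j)) - Real.exp (-(s * (c i + c j)))) * s ^ (-p - 1))) (Set.Ioi 0) :=
      (integrable_finsetSum _ fun i _ => integrable_finsetSum _ fun j _ => hint i j).neg
    refine h3.congr_fun (fun s _ => ?_) measurableSet_Ioi
    simp only
    rw [hpt s, neg_neg]
  · rw [← integral_neg, ← setIntegral_congr_fun measurableSet_Ioi fun s _ => hpt s]
    rw [integral_finsetSum]
    · rw [Finset.sum_mul]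
      refine Finset.sum_congr rfl fun i _ => ?_
      rw [integral_finsetSum]
      · rw [Finset.sum_mul]
        refine Finset.sum_congr rfl fun j _ => ?_
        rw [integral_const_mul, exp_scale hn hp (add_nonneg (hc i) (hc j)), mul_assoc]
      · intro j _
        exact hint i j
    · intro i _
      exact integrable_finsetSum _ fun j _ => hint i j

private theorem tp_sq {a b : ℝ} (h : |a| ≤ b) : a ^ 2 ≤ b ^ 2 := by
  rw [← sq_abs]
  exact pow_le_pow_left₀ (abs_nonneg _) h 2

/-- The trace of the kernel `|t - t'| ^ p` over functions orthogonal to the polynomials of degree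
less than `2 Q`. -/
theorem tail_cos {p : ℝ} (hp : 2 < p) : ∃ K : ℝ, 0 < K ∧ ∀ (ι : Type) [Fintype ι] (D : ℕ)
    (W : Fin D → EuclideanSpace ℝ ι) (t : ι → ℝ) (T : ℝ) (Q : ℕ), Orthonormal ℝ W → 0 ≤ T →
    (∀ i, |t i| ≤ T) → p ≤ 2 * Q → (∀ l, ∀ a < 2 * Q, ∑ i, W l i * t i ^ a = 0) →
    |∑ l, ∑ i, ∑ j, W l i * W l j * |t i - t j| ^ p| ≤ K * Fintype.card ι * (T / Q) ^ p := by
  have hp0 : 0 < p := by linarith
  set q := ⌊p / 2⌋₊ + 1 with hq
  have hq1 : 2 * (q : ℝ) - 2 ≤ p := by
    have := Nat.floor_le (by linarith : 0 ≤ p / 2)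
    rw [hq]
    push_cast
    linarith
  have hq2 : p < 2 * (q : ℝ) := by
    have := Nat.lt_floor_add_one (p / 2)
    rw [hq]
    push_cast
    linarith
  rcases eq_or_lt_of_le hq1 with hev | hnev
  · -- an even integer
    refine ⟨1, one_pos, ?_⟩
    intro ι _ D W t T Q hW hT0 hT hpQ hmom
    have hqQ : q ≤ Q + 1 := by
      have : 2 * (q : ℝ) - 2 ≤ 2 * Q := by linarith
      have h3 : (q : ℝ) ≤ Q + 1 := by linarith
      exact_mod_cast h3
    have hq2' : 2 ≤ q := by
      by_contra h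
      have : (q : ℝ) ≤ 1 := by
        have : q ≤ 1 := by omega
        exact_mod_cast this
      linarith
    have h3 : ∀ l, ∑ i, ∑ j, W l i * W l j * |t i - t j| ^ p = 0 := by
      intro l
      have h4 : ∀ i j, W l i * W l j * |t i - t j| ^ p =
          W l i * W l j * (t i - t j) ^ (2 * (q - 1)) := by
        intro i j
        have h5 : p = ((2 * (q - 1) : ℕ) : ℝ) := by
          rw [Nat.cast_mul, Nat.cast_sub (by omega)]
          push_cast
          linarith
        rw [h5, Real.rpow_natCast, pow_mul, sq_abs, ← pow_mul]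
      simp only [h4]
      exact mom_sub (W l) t (k := 2 * Q - 1) (fun a ha => hmom l a (by omega)) (by omega)
    simp only [h3, Finset.sum_const_zero, abs_zero]
    positivity
  · have hq2' : 2 ≤ q := by
      by_contra h
      have : (q : ℝ) ≤ 1 := by
        have : q ≤ 1 := by omega
        exact_mod_cast this
      linarith
    have hI0 := cos_const_ne hq2' hnev hq2
    set I0 := ∫ s in Set.Ioi (0 : ℝ), (Real.cos s - cosP q s) * s ^ (-p - 1) with hI0d
    have hI1 : 0 < |I0| := abs_pos.2 hI0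
    refine ⟨3 / p * (3 / 2) ^ p / |I0|, by positivity, ?_⟩
    intro ι _ D W t T Q hW hT0 hT hpQ hmom
    have hQ1 : (1 : ℝ) < Q := by linarith
    have hQ0 : 1 ≤ Q := by
      have : (1 : ℝ) ≤ Q := hQ1.le
      exact_mod_cast this
    have hqQ : q ≤ Q := by
      have h3 : 2 * (q : ℝ) - 2 < 2 * Q := by linarith
      have h4 : (q : ℝ) < ((Q + 1 : ℕ) : ℝ) := by push_cast; linarith
      have h5 : q < Q + 1 := by exact_mod_cast h4
      omega
    rcases eq_or_lt_of_le hT0 with hT00 | hTp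
    · have h3 : ∀ i, t i = 0 := by
        intro i
        have := hT i
        rw [← hT00] at this
        exact abs_eq_zero.1 (le_antisymm this (abs_nonneg _))
      simp only [h3, sub_self, abs_zero, Real.zero_rpow hp0.ne', mul_zero, Finset.sum_const_zero]
      positivity
    set n : ℝ := (Fintype.card ι : ℝ) with hn
    set G : ℝ → ℝ := fun s => ∑ l, ((∑ i, W l i * Real.cos (s * t i)) ^ 2 +
      (∑ i, W l i * Real.sin (s * t i)) ^ 2) with hG
    have hk := fun l => ker_cos (W l) t (by omega : 1 ≤ q) hp0 hnev hq2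
      (fun a ha => hmom l a (by omega))
    have hGI : IntegrableOn (fun s => G s * s ^ (-p - 1)) (Set.Ioi 0) := by
      have h3 : IntegrableOn (fun s : ℝ => ∑ l, ((∑ i, W l i * Real.cos (s * t i)) ^ 2 +
        (∑ i, W l i * Real.sin (s * t i)) ^ 2) * s ^ (-p - 1)) (Set.Ioi 0) :=
        integrable_finsetSum _ fun l _ => (hk l).1
      refine h3.congr_fun (fun s _ => ?_) measurableSet_Ioi
      simp only [hG, Finset.sum_mul]
    have hsum : (∑ l, ∑ i, ∑ j, W l i * W l j * |t i - t j| ^ p) * I0 =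
        ∫ s in Set.Ioi (0 : ℝ), G s * s ^ (-p - 1) := by
      rw [Finset.sum_mul, Finset.sum_congr rfl fun l _ => (hk l).2, ← integral_finsetSum _
        fun l _ => (hk l).1]
      refine setIntegral_congr_fun measurableSet_Ioi fun s _ => ?_
      simp only [hG, Finset.sum_mul]
    have hG0 : 0 ≤ ∫ s in Set.Ioi (0 : ℝ), G s * s ^ (-p - 1) := by
      refine setIntegral_nonneg measurableSet_Ioi fun s hs => ?_
      have h3 : 0 ≤ G s := Finset.sum_nonneg fun l _ => by positivity
      exact mul_nonneg h3 (Real.rpow_nonneg (le_of_lt hs) _)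
    set s0 : ℝ := 2 * Q / 3 / T with hs0
    have hs0p : 0 < s0 := by positivity
    have hcard : ∀ f : ι → ℝ, ∀ b : ℝ, (∀ i, f i ≤ b) → ∑ i, f i ≤ n * b := by
      intro f b hb
      have := Finset.sum_le_card_nsmul Finset.univ f b (fun i _ => hb i)
      rwa [Finset.card_univ, nsmul_eq_mul] at this
    have hmain := tail_int (n := n) hp0 hs0p hGI (fun s hs hs1 => ?_) (fun s hs => ?_)
    · rw [← hsum] at hmain hG0
      have h3 : |∑ l, ∑ i, ∑ j, W l i * W l j * |t i - t j| ^ p| * |I0| ≤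
          3 * n / p * s0 ^ (-p) := by
        rw [← abs_mul, abs_of_nonneg hG0]
        exact hmain
      rw [← le_div_iff₀ hI1] at h3
      refine h3.trans (le_of_eq ?_)
      have h4 : s0 ^ (-p) = (3 / 2) ^ p * (T / Q) ^ p := by
        rw [Real.rpow_neg hs0p.le, ← Real.inv_rpow hs0p.le, ← Real.mul_rpow (by norm_num)
          (by positivity)]
        congr 1
        rw [hs0]
        field_simp
      rw [h4]
      ring
    · -- small `s`
      have hXT : s * T ≤ ((2 * Q : ℕ) : ℝ) / 3 := by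
        rw [hs0, le_div_iff₀ hTp] at hs1
        push_cast
        exact hs1
      have hsT : 0 ≤ s * T := by positivity
      have e1 : s * T / (((2 * Q : ℕ) : ℝ) / 3) = s / s0 := by
        rw [hs0]
        push_cast
        field_simp
      have hb : ∀ i, ∀ m : ℕ, 2 * Q ≤ m → m ≤ 2 * Q + 1 →
          (|s * t i| ^ m / (m.factorial : ℝ)) ^ 2 ≤ (s / s0) ^ (2 * p) := by
        intro i m hm1 hm2
        have h3 : |s * t i| ≤ s * T := by
          rw [abs_mul, abs_of_pos hs]
          exact mul_le_mul_of_nonneg_left (hT i) hs.le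
        have h4 := small_rem (M := 2 * Q) (by omega) hp0 (by push_cast; exact hpQ)
          (abs_nonneg (s * t i)) (h3.trans hXT) rfl hm1 hm2
        refine h4.trans ?_
        rw [← e1]
        refine Real.rpow_le_rpow (by positivity) ?_ (by linarith)
        exact div_le_div_of_nonneg_right h3 (by positivity)
      have h3 := bes W hW (fun i => Real.cos (s * t i)) (fun i => cosP Q (s * t i))
        (fun l => mom_cosP1 (W l) t (hmom l) (by omega) s)
      have h4 := bes W hW (fun i => Real.sin (s * t i)) (fun i => sinP Q (s * t i))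
        (fun l => mom_sinP1 (W l) t (hmom l) le_rfl s)
      have h5 : ∑ i, (Real.cos (s * t i) - cosP Q (s * t i)) ^ 2 ≤ n * (s / s0) ^ (2 * p) :=
        hcard _ _ fun i => (tp_sq (cos_rem_le Q (s * t i))).trans
          (hb i (2 * Q) le_rfl (by omega))
      have h6 : ∑ i, (Real.sin (s * t i) - sinP Q (s * t i)) ^ 2 ≤ n * (s / s0) ^ (2 * p) :=
        hcard _ _ fun i => (tp_sq (sin_rem_le Q (s * t i))).trans
          (hb i (2 * Q + 1) (by omega) le_rfl)
      have h7 : G s = ∑ l, (∑ i, W l i * Real.cos (s * t i)) ^ 2 +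
          ∑ l, (∑ i, W l i * Real.sin (s * t i)) ^ 2 := Finset.sum_add_distrib
      rw [h7]
      linarith
    · -- large `s`
      have h3 := bes W hW (fun i => Real.cos (s * t i)) (fun _ => 0) (fun l => by simp)
      have h4 := bes W hW (fun i => Real.sin (s * t i)) (fun _ => 0) (fun l => by simp)
      have h7 : G s = ∑ l, (∑ i, W l i * Real.cos (s * t i)) ^ 2 +
          ∑ l, (∑ i, W l i * Real.sin (s * t i)) ^ 2 := Finset.sum_add_distrib
      rw [h7]
      refine (add_le_add h3 h4).trans ?_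
      rw [← Finset.sum_add_distrib]
      refine (hcard _ 1 fun i => ?_).trans (by rw [mul_one])
      simp only [sub_zero]
      rw [Real.cos_sq_add_sin_sq]

/-- The trace of the kernel `(c + c') ^ p` over functions orthogonal to the powers of `c` below
`2 Q`. -/
theorem tail_exp {p : ℝ} (hp : 2 < p) : ∃ K : ℝ, 0 < K ∧ ∀ (ι : Type) [Fintype ι] (D : ℕ)
    (W : Fin D → EuclideanSpace ℝ ι) (t : ι → ℝ) (T : ℝ) (Q : ℕ), Orthonormal ℝ W → 0 < T →
    (∀ i, 0 ≤ t i) → (∀ i, t i ≤ T) → p ≤ 2 * Q → (∀ l, ∀ a < 2 * Q, ∑ i, W l i * t i ^ a = 0) →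
    |∑ l, ∑ i, ∑ j, W l i * W l j * (t i + t j) ^ p| ≤ K * Fintype.card ι * (T / Q) ^ p := by
  have hp0 : 0 < p := by linarith
  set q := ⌊p⌋₊ + 1 with hq
  have hq1 : (q : ℝ) - 1 ≤ p := by
    have := Nat.floor_le hp0.le
    rw [hq]
    push_cast
    linarith
  have hq2 : p < (q : ℝ) := by
    have := Nat.lt_floor_add_one p
    rw [hq]
    push_cast
    linarith
  rcases eq_or_lt_of_le hq1 with hev | hnev
  · -- an integer
    refine ⟨1, one_pos, ?_⟩
    intro ι _ D W t T Q hW hTp ht0 hT hpQ hmom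
    have hqQ : q ≤ 2 * Q + 1 := by
      have h3 : (q : ℝ) ≤ 2 * Q + 1 := by linarith
      exact_mod_cast h3
    have hq2' : 2 ≤ q := by
      by_contra h
      have : (q : ℝ) ≤ 1 := by
        have : q ≤ 1 := by omega
        exact_mod_cast this
      linarith
    have h3 : ∀ l, ∑ i, ∑ j, W l i * W l j * (t i + t j) ^ p = 0 := by
      intro l
      have h4 : ∀ i j, W l i * W l j * (t i + t j) ^ p =
          W l i * W l j * (t i + t j) ^ (q - 1) := by
        intro i j
        have h5 : p = ((q - 1 : ℕ) : ℝ) := by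
          rw [Nat.cast_sub (by omega)]
          push_cast
          linarith
        rw [h5, Real.rpow_natCast]
      simp only [h4]
      exact mom_gen (W l) t t (k := 2 * Q - 1) (fun a ha => hmom l a (by omega))
        (fun a ha => hmom l a (by omega)) (by omega)
    simp only [h3, Finset.sum_const_zero, abs_zero]
    positivity
  · have hq2' : 1 ≤ q := by omega
    have hI0 : ∫ s in Set.Ioi (0 : ℝ), (expP q s - Real.exp (-s)) * s ^ (-p - 1) ≠ 0 := by
      rcases Nat.even_or_odd q with he | ho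
      · have h3 := exp_const_pos' hq2' he hnev hq2
        have h4 : ∫ s in Set.Ioi (0 : ℝ), (Real.exp (-s) - expP q s) * s ^ (-p - 1) =
            - ∫ s in Set.Ioi (0 : ℝ), (expP q s - Real.exp (-s)) * s ^ (-p - 1) := by
          rw [← integral_neg]
          refine setIntegral_congr_fun measurableSet_Ioi fun s _ => ?_
          ring
        rw [h4] at h3
        intro h5
        rw [h5, neg_zero] at h3
        exact lt_irrefl _ h3
      · exact (exp_const_pos ho hnev hq2).ne'
    set I0 := ∫ s in Set.Ioi (0 : ℝ), (expP q s - Real.exp (-s)) * s ^ (-p - 1) with hI0d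
    have hI1 : 0 < |I0| := abs_pos.2 hI0
    refine ⟨3 / p * (3 / 2) ^ p / |I0|, by positivity, ?_⟩
    intro ι _ D W t T Q hW hTp ht0 hT hpQ hmom
    have hQ1 : (1 : ℝ) < Q := by linarith
    have hQ0 : 1 ≤ Q := by
      have : (1 : ℝ) ≤ Q := hQ1.le
      exact_mod_cast this
    have hqQ : q ≤ 2 * Q := by
      have h4 : (q : ℝ) < ((2 * Q + 1 : ℕ) : ℝ) := by push_cast; linarith
      have h5 : q < 2 * Q + 1 := by exact_mod_cast h4
      omega
    set n : ℝ := (Fintype.card ι : ℝ) with hn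
    set G : ℝ → ℝ := fun s => ∑ l, (∑ i, W l i * Real.exp (-(s * t i))) ^ 2 with hG
    have hk := fun l => ker_exp (W l) t ht0 hq2' hp0 hnev hq2 (k := 2 * Q - 1)
      (fun a ha => hmom l a (by omega)) (by omega)
    have hGI : IntegrableOn (fun s => G s * s ^ (-p - 1)) (Set.Ioi 0) := by
      have h3 : IntegrableOn (fun s : ℝ => ∑ l, (∑ i, W l i * Real.exp (-(s * t i))) ^ 2 *
        s ^ (-p - 1)) (Set.Ioi 0) :=
        integrable_finsetSum _ fun l _ => (hk l).1
      refine h3.congr_fun (fun s _ => ?_) measurableSet_Ioi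
      simp only [hG, Finset.sum_mul]
    have hsum : (∑ l, ∑ i, ∑ j, W l i * W l j * (t i + t j) ^ p) * I0 =
        -∫ s in Set.Ioi (0 : ℝ), G s * s ^ (-p - 1) := by
      rw [Finset.sum_mul, Finset.sum_congr rfl fun l _ => (hk l).2, Finset.sum_neg_distrib,
        ← integral_finsetSum _ fun l _ => (hk l).1]
      congr 1
      refine setIntegral_congr_fun measurableSet_Ioi fun s _ => ?_
      simp only [hG, Finset.sum_mul]
    have hG0 : 0 ≤ ∫ s in Set.Ioi (0 : ℝ), G s * s ^ (-p - 1) := by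
      refine setIntegral_nonneg measurableSet_Ioi fun s hs => ?_
      have h3 : 0 ≤ G s := Finset.sum_nonneg fun l _ => by positivity
      exact mul_nonneg h3 (Real.rpow_nonneg (le_of_lt hs) _)
    set s0 : ℝ := 2 * Q / 3 / T with hs0
    have hs0p : 0 < s0 := by positivity
    have hn0 : 0 ≤ n := Nat.cast_nonneg _
    have hcard : ∀ f : ι → ℝ, ∀ b : ℝ, (∀ i, f i ≤ b) → ∑ i, f i ≤ n * b := by
      intro f b hb
      have := Finset.sum_le_card_nsmul Finset.univ f b (fun i _ => hb i)
      rwa [Finset.card_univ, nsmul_eq_mul] at this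
    have hmain := tail_int (n := n) hp0 hs0p hGI (fun s hs hs1 => ?_) (fun s hs => ?_)
    · have h3 : |∑ l, ∑ i, ∑ j, W l i * W l j * (t i + t j) ^ p| * |I0| ≤
          3 * n / p * s0 ^ (-p) := by
        rw [← abs_mul, hsum, abs_neg, abs_of_nonneg hG0]
        exact hmain
      rw [← le_div_iff₀ hI1] at h3
      refine h3.trans (le_of_eq ?_)
      have h4 : s0 ^ (-p) = (3 / 2) ^ p * (T / Q) ^ p := by
        rw [Real.rpow_neg hs0p.le, ← Real.inv_rpow hs0p.le, ← Real.mul_rpow (by norm_num)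
          (by positivity)]
        congr 1
        rw [hs0]
        field_simp
      rw [h4]
      ring
    · -- small `s`
      have hXT : s * T ≤ ((2 * Q : ℕ) : ℝ) / 3 := by
        rw [hs0, le_div_iff₀ hTp] at hs1
        push_cast
        exact hs1
      have e1 : s * T / (((2 * Q : ℕ) : ℝ) / 3) = s / s0 := by
        rw [hs0]
        push_cast
        field_simp
      have hb : ∀ i, ((s * t i) ^ (2 * Q) / ((2 * Q).factorial : ℝ)) ^ 2 ≤
          (s / s0) ^ (2 * p) := by
        intro i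
        have h3 : s * t i ≤ s * T := mul_le_mul_of_nonneg_left (hT i) hs.le
        have h30 : 0 ≤ s * t i := mul_nonneg hs.le (ht0 i)
        have h4 := small_rem (M := 2 * Q) (by omega) hp0 (by push_cast; exact hpQ)
          h30 (h3.trans hXT) rfl (le_refl (2 * Q)) (by omega)
        refine h4.trans ?_
        rw [← e1]
        refine Real.rpow_le_rpow (by positivity) ?_ (by linarith)
        exact div_le_div_of_nonneg_right h3 (by positivity)
      have h3 := bes W hW (fun i => Real.exp (-(s * t i))) (fun i => expP (2 * Q) (s * t i))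
        (fun l => mom_expP1 (W l) t (hmom l) le_rfl s)
      have h5 : ∑ i, (Real.exp (-(s * t i)) - expP (2 * Q) (s * t i)) ^ 2 ≤
          n * (s / s0) ^ (2 * p) :=
        hcard _ _ fun i => (tp_sq (exp_rem_le (2 * Q) (mul_nonneg hs.le (ht0 i)))).trans (hb i)
      have h6 : 0 ≤ n * (s / s0) ^ (2 * p) := by positivity
      have h7 : G s ≤ n * (s / s0) ^ (2 * p) := h3.trans h5
      linarith
    · -- large `s`
      have h3 := bes W hW (fun i => Real.exp (-(s * t i))) (fun _ => 0) (fun l => by simp)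
      refine h3.trans ?_
      have hs1 : 0 < s := lt_trans hs0p hs
      refine (hcard _ 1 fun i => ?_).trans (by rw [mul_one])
      simp only [sub_zero]
      have h4 : Real.exp (-(s * t i)) ≤ 1 :=
        Real.exp_le_one_iff.2 (by have := mul_nonneg hs1.le (ht0 i); linarith)
      have h5 := Real.exp_pos (-(s * t i))
      nlinarith

end Pool.Agent.StB
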