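import Mathlib

set_option autoImplicit false

open scoped BigOperators

namespace Pool.Agent.StB

/-- The first `m` terms of the power series of `cos`. -/
noncomputable def cosP (m : ℕ) (u : ℝ) : ℝ :=
  ∑ i ∈ Finset.range m, (-1) ^ i * u ^ (2 * i) / ((2 * i).factorial : ℝ)

/-- The first `n` terms of the power series of `exp (-u)`. -/
noncomputable def expP (n : ℕ) (u : ℝ) : ℝ :=
  ∑ i ∈ Finset.range n, (-u) ^ i / (i.factorial : ℝ)

private noncomputable def ta_sinP (m : ℕ) (u : ℝ) : ℝ :=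
  ∑ i ∈ Finset.range m, (-1) ^ i * u ^ (2 * i + 1) / ((2 * i + 1).factorial : ℝ)

private theorem ta_pos_of_deriv {f f' : ℝ → ℝ} (hf : ∀ x, HasDerivAt f (f' x) x)
    (h0 : 0 ≤ f 0) (hp : ∀ x, 0 < x → 0 < f' x) : ∀ x, 0 < x → 0 < f x := by
  intro x hx
  have hm : StrictMonoOn f (Set.Ici 0) := by
    apply strictMonoOn_of_deriv_pos (convex_Ici 0)
    · exact fun y _ => (hf y).continuousAt.continuousWithinAt
    · intro y hy
      rw [interior_Ici] at hy
      rw [(hf y).deriv]
      exact hp y hy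
  have := hm (Set.mem_Ici.2 le_rfl) (Set.mem_Ici.2 hx.le) hx
  linarith

private theorem ta_nonneg_of_deriv {f f' : ℝ → ℝ} (hf : ∀ x, HasDerivAt f (f' x) x)
    (h0 : 0 ≤ f 0) (hp : ∀ x, 0 ≤ x → 0 ≤ f' x) : ∀ x, 0 ≤ x → 0 ≤ f x := by
  intro x hx
  have hm : MonotoneOn f (Set.Ici 0) := by
    apply monotoneOn_of_deriv_nonneg (convex_Ici 0)
    · exact fun y _ => (hf y).continuousAt.continuousWithinAt
    · exact fun y _ => (hf y).differentiableAt.differentiableWithinAt
    · intro y hy
      rw [interior_Ici] at hy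
      rw [(hf y).deriv]
      exact hp y (Set.mem_Ioi.1 hy).le
  have := hm (Set.mem_Ici.2 le_rfl) (Set.mem_Ici.2 hx) hx
  linarith

private theorem ta_sinP_deriv (m : ℕ) (x : ℝ) : HasDerivAt (ta_sinP m) (cosP m x) x := by
  unfold ta_sinP cosP
  apply HasDerivAt.fun_sum
  intro i _
  have h := ((hasDerivAt_pow (2 * i + 1) x).const_mul ((-1 : ℝ) ^ i)).div_const
    ((2 * i + 1).factorial : ℝ)
  refine h.congr_deriv ?_
  have h1 : ((2 * i).factorial : ℝ) ≠ 0 := by positivity
  have h2 : ((2 * i + 1 : ℕ) : ℝ) ≠ 0 := by positivity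
  rw [Nat.factorial_succ, Nat.cast_mul]
  rw [Nat.add_sub_cancel]
  field_simp

private theorem ta_cosP_deriv (m : ℕ) (x : ℝ) :
    HasDerivAt (cosP (m + 1)) (-(ta_sinP m x)) x := by
  have he : cosP (m + 1) = fun u => (∑ i ∈ Finset.range m,
      (-1) ^ (i + 1) * u ^ (2 * (i + 1)) / ((2 * (i + 1)).factorial : ℝ)) + 1 := by
    funext u
    unfold cosP
    rw [Finset.sum_range_succ']
    simp
  rw [he]
  unfold ta_sinP
  rw [← Finset.sum_neg_distrib]
  apply HasDerivAt.add_const
  apply HasDerivAt.fun_sum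
  intro i _
  have h := ((hasDerivAt_pow (2 * (i + 1)) x).const_mul ((-1 : ℝ) ^ (i + 1))).div_const
    ((2 * (i + 1)).factorial : ℝ)
  refine h.congr_deriv ?_
  have e1 : 2 * (i + 1) - 1 = 2 * i + 1 := by omega
  have e2 : ((2 * (i + 1)).factorial : ℝ) = (2 * (i + 1) : ℝ) * ((2 * i + 1).factorial : ℝ) := by
    rw [show 2 * (i + 1) = (2 * i + 1) + 1 by ring, Nat.factorial_succ, Nat.cast_mul]
    push_cast
    ring
  have h1 : ((2 * i + 1).factorial : ℝ) ≠ 0 := by positivity
  have h2 : (2 * (i + 1) : ℝ) ≠ 0 := by positivity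
  have h3 : ((2 * (i + 1) : ℕ) : ℝ) = (2 * (i + 1) : ℝ) := by
    push_cast; ring
  rw [e1, e2, h3]
  field_simp
  ring

private theorem ta_expP_deriv (m : ℕ) (x : ℝ) :
    HasDerivAt (expP (m + 1)) (-(expP m x)) x := by
  have he : expP (m + 1) = fun u => (∑ i ∈ Finset.range m,
      (-u) ^ (i + 1) / ((i + 1).factorial : ℝ)) + 1 := by
    funext u
    unfold expP
    rw [Finset.sum_range_succ']
    simp
  rw [he]
  unfold expP
  rw [← Finset.sum_neg_distrib]
  apply HasDerivAt.add_const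
  apply HasDerivAt.fun_sum
  intro i _
  have h := (((hasDerivAt_id x).neg).pow (i + 1)).div_const ((i + 1).factorial : ℝ)
  refine h.congr_deriv ?_
  have h1 : ((i).factorial : ℝ) ≠ 0 := by positivity
  have h2 : ((i + 1 : ℕ) : ℝ) ≠ 0 := by positivity
  rw [Nat.factorial_succ, Nat.cast_mul, Nat.add_sub_cancel]
  simp only [id, Pi.neg_apply]
  field_simp

private theorem ta_cosP_zero (m : ℕ) : cosP (m + 1) 0 = 1 := by
  unfold cosP
  rw [Finset.sum_range_succ']
  simp

private theorem ta_sinP_zero (m : ℕ) : ta_sinP m 0 = 0 := by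
  unfold ta_sinP
  simp

private theorem ta_expP_zero (m : ℕ) : expP (m + 1) 0 = 1 := by
  unfold expP
  rw [Finset.sum_range_succ']
  simp

private theorem ta_cosP_even (m : ℕ) (u : ℝ) : cosP m |u| = cosP m u := by
  unfold cosP
  refine Finset.sum_congr rfl fun i _ => ?_
  rw [pow_mul, pow_mul, sq_abs]

/-- derivative of the signed sine remainder -/
private theorem ta_s_deriv (m : ℕ) (x : ℝ) :
    HasDerivAt (fun u => (-1 : ℝ) ^ m * (Real.sin u - ta_sinP m u))
      ((-1 : ℝ) ^ m * (Real.cos x - cosP m x)) x :=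
  ((Real.hasDerivAt_sin x).sub (ta_sinP_deriv m x)).const_mul _

private theorem ta_c_deriv (m : ℕ) (x : ℝ) :
    HasDerivAt (fun u => (-1 : ℝ) ^ (m + 1) * (Real.cos u - cosP (m + 1) u))
      ((-1 : ℝ) ^ m * (Real.sin x - ta_sinP m x)) x := by
  have h := ((Real.hasDerivAt_cos x).sub (ta_cosP_deriv m x)).const_mul ((-1 : ℝ) ^ (m + 1))
  refine h.congr_deriv ?_
  ring

private theorem ta_e_deriv (m : ℕ) (x : ℝ) :
    HasDerivAt (fun u => (-1 : ℝ) ^ (m + 1) * (Real.exp (-u) - expP (m + 1) u))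
      ((-1 : ℝ) ^ m * (Real.exp (-x) - expP m x)) x := by
  have h0 : HasDerivAt (fun u : ℝ => Real.exp (-u)) (-(Real.exp (-x))) x := by
    have := (Real.hasDerivAt_exp (-x)).comp x ((hasDerivAt_id x).neg)
    refine this.congr_deriv ?_
    ring
  have h := (h0.sub (ta_expP_deriv m x)).const_mul ((-1 : ℝ) ^ (m + 1))
  refine h.congr_deriv ?_
  ring

private theorem ta_cos_pos (m : ℕ) : ∀ u : ℝ, 0 < u →
    0 < (-1 : ℝ) ^ (m + 2) * (Real.cos u - cosP (m + 2) u) := by
  induction m with
  | zero =>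
    intro u hu
    have h := Real.one_sub_sq_div_two_lt_cos hu.ne'
    unfold cosP
    simp only [zero_add, even_two, Even.neg_pow, one_pow, one_mul, Finset.sum_range_succ,
      Finset.sum_range_zero, pow_zero, mul_zero, Nat.factorial, Nat.cast_one, div_one, pow_one,
      mul_one]
    norm_num
    linarith
  | succ m ih =>
    have h1 : ∀ u : ℝ, 0 < u → 0 < (-1 : ℝ) ^ (m + 2) * (Real.sin u - ta_sinP (m + 2) u) := by
      apply ta_pos_of_deriv (ta_s_deriv (m + 2))
      · simp [ta_sinP_zero]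
      · exact ih
    apply ta_pos_of_deriv (ta_c_deriv (m + 2))
    · simp [ta_cosP_zero]
    · exact h1

/-- Module ta1. With `c_m = (-1)^m (cos - cosP m)` and `s_m = (-1)^m (sin - sinP m)` one has
`s_m' = c_m`, `c_{m+1}' = s_m`, all vanish at `0` except `c_0`; start with
`Real.one_sub_sq_div_two_lt_cos` (`c_2 > 0`). -/
theorem cos_rem_pos {m : ℕ} (hm : 2 ≤ m) (he : Even m) {u : ℝ} (hu : u ≠ 0) :
    cosP m u < Real.cos u := by
  obtain ⟨k, rfl⟩ := Nat.exists_eq_add_of_le' hm
  have h := ta_cos_pos k |u| (abs_pos.2 hu)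
  rw [he.neg_one_pow, one_mul, Real.cos_abs, ta_cosP_even] at h
  linarith

private theorem ta_cos_le (m : ℕ) : ∀ u : ℝ, 0 ≤ u →
    |(-1 : ℝ) ^ m * (Real.cos u - cosP m u)| ≤ u ^ (2 * m) / ((2 * m).factorial : ℝ) := by
  induction m with
  | zero =>
    intro u hu
    simp [cosP, Real.abs_cos_le_one]
  | succ m ih =>
    have d1 : ∀ x : ℝ, HasDerivAt (fun u : ℝ => u ^ (2 * m + 1) / ((2 * m + 1).factorial : ℝ))
        (x ^ (2 * m) / ((2 * m).factorial : ℝ)) x := by
      intro x
      have h := (hasDerivAt_pow (2 * m + 1) x).div_const ((2 * m + 1).factorial : ℝ)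
      refine h.congr_deriv ?_
      have h1 : ((2 * m).factorial : ℝ) ≠ 0 := by positivity
      have h2 : ((2 * m + 1 : ℕ) : ℝ) ≠ 0 := by positivity
      rw [Nat.factorial_succ, Nat.cast_mul, Nat.add_sub_cancel]
      field_simp
    have d2 : ∀ x : ℝ, HasDerivAt
        (fun u : ℝ => u ^ (2 * (m + 1)) / ((2 * (m + 1)).factorial : ℝ))
        (x ^ (2 * m + 1) / ((2 * m + 1).factorial : ℝ)) x := by
      intro x
      have h := (hasDerivAt_pow (2 * (m + 1)) x).div_const ((2 * (m + 1)).factorial : ℝ)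
      refine h.congr_deriv ?_
      have e1 : 2 * (m + 1) - 1 = 2 * m + 1 := by omega
      have e2 : ((2 * (m + 1)).factorial : ℝ) = (2 * (m + 1) : ℝ) *
          ((2 * m + 1).factorial : ℝ) := by
        rw [show 2 * (m + 1) = (2 * m + 1) + 1 by ring, Nat.factorial_succ, Nat.cast_mul]
        push_cast
        ring
      have h1 : ((2 * m + 1).factorial : ℝ) ≠ 0 := by positivity
      have h2 : (2 * (m + 1) : ℝ) ≠ 0 := by positivity
      have h3 : ((2 * (m + 1) : ℕ) : ℝ) = (2 * (m + 1) : ℝ) := by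
        push_cast; ring
      rw [e1, e2, h3]
      field_simp
    have h1 : ∀ u : ℝ, 0 ≤ u → |(-1 : ℝ) ^ m * (Real.sin u - ta_sinP m u)| ≤
        u ^ (2 * m + 1) / ((2 * m + 1).factorial : ℝ) := by
      intro u hu
      rw [abs_le]
      constructor
      · have := ta_nonneg_of_deriv (fun x => (d1 x).add (ta_s_deriv m x))
          (by simp [ta_sinP_zero])
          (fun x hx => by have := (abs_le.1 (ih x hx)).1; linarith) u hu
        simp only [Pi.add_apply] at this
        linarith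
      · have := ta_nonneg_of_deriv (fun x => (d1 x).sub (ta_s_deriv m x))
          (by simp [ta_sinP_zero])
          (fun x hx => by have := (abs_le.1 (ih x hx)).2; linarith) u hu
        simp only [Pi.sub_apply] at this
        linarith
    intro u hu
    rw [abs_le]
    constructor
    · have := ta_nonneg_of_deriv (fun x => (d2 x).add (ta_c_deriv m x))
        (by simp [ta_cosP_zero])
        (fun x hx => by have := (abs_le.1 (h1 x hx)).1; linarith) u hu
      simp only [Pi.add_apply] at this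
      linarith
    · have := ta_nonneg_of_deriv (fun x => (d2 x).sub (ta_c_deriv m x))
        (by simp [ta_cosP_zero])
        (fun x hx => by have := (abs_le.1 (h1 x hx)).2; linarith) u hu
      simp only [Pi.sub_apply] at this
      linarith

/-- Module ta1. Same induction. -/
theorem cos_rem_le (m : ℕ) (u : ℝ) :
    |Real.cos u - cosP m u| ≤ |u| ^ (2 * m) / ((2 * m).factorial : ℝ) := by
  have h := ta_cos_le m |u| (abs_nonneg u)
  rw [abs_mul, abs_pow, abs_neg, abs_one, one_pow, one_mul, Real.cos_abs, ta_cosP_even] at h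
  exact h

private theorem ta_exp_pos (n : ℕ) : ∀ u : ℝ, 0 < u →
    0 < (-1 : ℝ) ^ n * (Real.exp (-u) - expP n u) := by
  induction n with
  | zero =>
    intro u _
    simp [expP, Real.exp_pos]
  | succ n ih =>
    apply ta_pos_of_deriv (ta_e_deriv n)
    · simp [ta_expP_zero]
    · exact ih

/-- Module ta2. `r_n = (-1)^n (exp (-u) - expP n u)`, `r_0 > 0`, `r_{n+1}' = r_n`,
`r_{n+1} 0 = 0`. -/
theorem exp_rem_pos {n : ℕ} (hn : Odd n) {u : ℝ} (hu : 0 < u) : Real.exp (-u) < expP n u := by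
  have h := ta_exp_pos n u hu
  rw [hn.neg_one_pow] at h
  linarith

private theorem ta_exp_le (m : ℕ) : ∀ u : ℝ, 0 ≤ u →
    |(-1 : ℝ) ^ m * (Real.exp (-u) - expP m u)| ≤ u ^ m / (m.factorial : ℝ) := by
  induction m with
  | zero =>
    intro u hu
    simp [expP, hu]
  | succ m ih =>
    have d1 : ∀ x : ℝ, HasDerivAt (fun u : ℝ => u ^ (m + 1) / ((m + 1).factorial : ℝ))
        (x ^ m / (m.factorial : ℝ)) x := by
      intro x
      have h := (hasDerivAt_pow (m + 1) x).div_const ((m + 1).factorial : ℝ)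
      refine h.congr_deriv ?_
      have h1 : (m.factorial : ℝ) ≠ 0 := by positivity
      have h2 : ((m + 1 : ℕ) : ℝ) ≠ 0 := by positivity
      rw [Nat.factorial_succ, Nat.cast_mul, Nat.add_sub_cancel]
      field_simp
    intro u hu
    rw [abs_le]
    constructor
    · have := ta_nonneg_of_deriv (fun x => (d1 x).add (ta_e_deriv m x))
        (by simp [ta_expP_zero])
        (fun x hx => by have := (abs_le.1 (ih x hx)).1; linarith) u hu
      simp only [Pi.add_apply] at this
      linarith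
    · have := ta_nonneg_of_deriv (fun x => (d1 x).sub (ta_e_deriv m x))
        (by simp [ta_expP_zero])
        (fun x hx => by have := (abs_le.1 (ih x hx)).2; linarith) u hu
      simp only [Pi.sub_apply] at this
      linarith

/-- Module ta2. Same induction. -/
theorem exp_rem_le (n : ℕ) {u : ℝ} (hu : 0 ≤ u) :
    |Real.exp (-u) - expP n u| ≤ u ^ n / (n.factorial : ℝ) := by
  have h := ta_exp_le n u hu
  rw [abs_mul, abs_pow, abs_neg, abs_one, one_pow, one_mul] at h
  exact h

private theorem ta_cosP_cont (m : ℕ) : Continuous (cosP m) := by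
  unfold cosP
  fun_prop

private theorem ta_expP_cont (m : ℕ) : Continuous (expP m) := by
  unfold expP
  fun_prop

private theorem ta_rpow_cont (q : ℝ) : ContinuousOn (fun s : ℝ => s ^ q) (Set.Ioi 0) :=
  fun x hx => (Real.continuousAt_rpow_const x q (Or.inl (ne_of_gt hx))).continuousWithinAt

/-- general integrability: `f` continuous, `|f s| ≤ A s^a` on `(0,1]`, `|f s| ≤ B s^b` on
`(1,∞)` -/
private theorem ta_integrable {f : ℝ → ℝ} (hf : Continuous f) {p a b A B : ℝ}
    (h1 : ∀ s, 0 < s → s ≤ 1 → |f s| ≤ A * s ^ a) (h2 : ∀ s, 1 < s → |f s| ≤ B * s ^ b)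
    (ha : p < a) (hb : b < p) :
    MeasureTheory.IntegrableOn (fun s : ℝ => f s * s ^ (-p - 1)) (Set.Ioi 0) := by
  have hc : ContinuousOn (fun s : ℝ => f s * s ^ (-p - 1)) (Set.Ioi 0) :=
    hf.continuousOn.mul (ta_rpow_cont _)
  have hu : Set.Ioi (0 : ℝ) = Set.Ioc 0 1 ∪ Set.Ioi 1 := by
    ext x
    simp only [Set.mem_Ioi, Set.mem_union, Set.mem_Ioc]
    constructor
    · intro h
      rcases le_or_gt x 1 with h' | h'
      · exact Or.inl ⟨h, h'⟩
      · exact Or.inr h'
    · rintro (h | h)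
      · exact h.1
      · linarith
  rw [hu]
  apply MeasureTheory.IntegrableOn.union
  · have hi : MeasureTheory.IntegrableOn (fun s : ℝ => A * s ^ (a - p - 1)) (Set.Ioc 0 1) := by
      apply MeasureTheory.Integrable.const_mul
      exact (intervalIntegrable_iff_integrableOn_Ioc_of_le zero_le_one).1
        (intervalIntegral.intervalIntegrable_rpow' (by linarith))
    refine MeasureTheory.Integrable.mono' hi ?_ ?_
    · exact (hc.mono (fun x hx => hx.1)).aestronglyMeasurable measurableSet_Ioc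
    · rw [MeasureTheory.ae_restrict_iff' measurableSet_Ioc]
      refine Filter.Eventually.of_forall fun s hs => ?_
      rw [Real.norm_eq_abs, abs_mul, abs_of_nonneg (Real.rpow_nonneg hs.1.le _)]
      have e : A * s ^ (a - p - 1) = A * s ^ a * s ^ (-p - 1) := by
        rw [mul_assoc, ← Real.rpow_add hs.1]
        congr 2
        ring
      rw [e]
      exact mul_le_mul_of_nonneg_right (h1 s hs.1 hs.2) (Real.rpow_nonneg hs.1.le _)
  · have hi : MeasureTheory.IntegrableOn (fun s : ℝ => B * s ^ (b - p - 1)) (Set.Ioi 1) := by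
      apply MeasureTheory.Integrable.const_mul
      exact integrableOn_Ioi_rpow_of_lt (by linarith) zero_lt_one
    refine MeasureTheory.Integrable.mono' hi ?_ ?_
    · exact (hc.mono (fun x (hx : x ∈ Set.Ioi (1 : ℝ)) =>
        (Set.mem_Ioi.2 (lt_trans zero_lt_one hx)))).aestronglyMeasurable measurableSet_Ioi
    · rw [MeasureTheory.ae_restrict_iff' measurableSet_Ioi]
      refine Filter.Eventually.of_forall fun s hs => ?_
      have hs0 : 0 < s := lt_trans zero_lt_one hs
      rw [Real.norm_eq_abs, abs_mul, abs_of_nonneg (Real.rpow_nonneg hs0.le _)]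
      have e : B * s ^ (b - p - 1) = B * s ^ b * s ^ (-p - 1) := by
        rw [mul_assoc, ← Real.rpow_add hs0]
        congr 2
        ring
      rw [e]
      exact mul_le_mul_of_nonneg_right (h2 s hs) (Real.rpow_nonneg hs0.le _)

/-- Module ta3. On `(0,1]` use `cos_rem_le`, on `(1,∞)` the bound
`1 + ∑_{i<m} (s |t|)^(2 i)/(2 i)! ≤ C s ^ (2 m - 2)`. -/
theorem cos_int {m : ℕ} (hm : 1 ≤ m) {p : ℝ} (h1 : 2 * (m : ℝ) - 2 < p) (h2 : p < 2 * m)
    (t : ℝ) : MeasureTheory.IntegrableOn
      (fun s : ℝ => (Real.cos (s * t) - cosP m (s * t)) * s ^ (-p - 1)) (Set.Ioi 0) := by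
  refine ta_integrable (f := fun s => Real.cos (s * t) - cosP m (s * t))
    (a := 2 * m) (b := 2 * m - 2) (A := |t| ^ (2 * m) / ((2 * m).factorial : ℝ))
    (B := 1 + ∑ i ∈ Finset.range m, |t| ^ (2 * i) / ((2 * i).factorial : ℝ)) ?_ ?_ ?_ ?_ ?_
  · exact (Real.continuous_cos.comp (by fun_prop)).sub ((ta_cosP_cont m).comp (by fun_prop))
  · intro s hs _
    refine (cos_rem_le m (s * t)).trans (le_of_eq ?_)
    have e : s ^ (2 * (m : ℝ)) = s ^ (2 * m) := by
      rw [← Real.rpow_natCast]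
      push_cast
      rfl
    rw [abs_mul, abs_of_pos hs, mul_pow, e]
    ring
  · intro s hs
    have hs0 : 0 < s := lt_trans zero_lt_one hs
    have e : s ^ (2 * (m : ℝ) - 2) = s ^ (2 * m - 2) := by
      rw [← Real.rpow_natCast, Nat.cast_sub (by omega)]
      push_cast
      rfl
    rw [e]
    have hge : ∀ i, i ≤ 2 * m - 2 → s ^ i ≤ s ^ (2 * m - 2) :=
      fun i hi => pow_le_pow_right₀ hs.le hi
    calc |Real.cos (s * t) - cosP m (s * t)| ≤ |Real.cos (s * t)| + |cosP m (s * t)| :=
          abs_sub _ _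
      _ ≤ s ^ (2 * m - 2) + (∑ i ∈ Finset.range m, |t| ^ (2 * i) / ((2 * i).factorial : ℝ)) *
            s ^ (2 * m - 2) := by
          apply add_le_add
          · exact (Real.abs_cos_le_one _).trans (by simpa using hge 0 (Nat.zero_le _))
          · unfold cosP
            refine (Finset.abs_sum_le_sum_abs _ _).trans ?_
            rw [Finset.sum_mul]
            refine Finset.sum_le_sum fun i hi => ?_
            rw [abs_div, abs_mul, abs_pow, abs_neg, abs_one, one_pow, one_mul, abs_pow, abs_mul,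
              abs_of_pos hs0, mul_pow, abs_of_nonneg (Nat.cast_nonneg _ : (0 : ℝ) ≤ _)]
            rw [mul_comm (s ^ (2 * i)), div_mul_eq_mul_div]
            apply div_le_div_of_nonneg_right _ (Nat.cast_nonneg _)
            apply mul_le_mul_of_nonneg_left _ (by positivity)
            apply hge
            have := Finset.mem_range.1 hi
            omega
      _ = _ := by ring
  · exact h2
  · linarith

/-- Module ta4. The same with `exp_rem_le`. -/
theorem exp_int {n : ℕ} (hn : 1 ≤ n) {p : ℝ} (h1 : (n : ℝ) - 1 < p) (h2 : p < n) {t : ℝ}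
    (ht : 0 ≤ t) : MeasureTheory.IntegrableOn
      (fun s : ℝ => (expP n (s * t) - Real.exp (-(s * t))) * s ^ (-p - 1)) (Set.Ioi 0) := by
  refine ta_integrable (f := fun s => expP n (s * t) - Real.exp (-(s * t)))
    (a := n) (b := n - 1) (A := |t| ^ n / (n.factorial : ℝ))
    (B := 1 + ∑ i ∈ Finset.range n, |t| ^ i / (i.factorial : ℝ)) ?_ ?_ ?_ ?_ ?_
  · exact ((ta_expP_cont n).comp (by fun_prop)).sub (Real.continuous_exp.comp (by fun_prop))
  · intro s hs _
    rw [abs_sub_comm]
    refine (exp_rem_le n (mul_nonneg hs.le ht)).trans (le_of_eq ?_)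
    rw [abs_of_nonneg ht, mul_pow, Real.rpow_natCast]
    ring
  · intro s hs
    have hs0 : 0 < s := lt_trans zero_lt_one hs
    have e : s ^ ((n : ℝ) - 1) = s ^ (n - 1) := by
      rw [← Real.rpow_natCast, Nat.cast_sub hn]
      push_cast
      rfl
    rw [e, abs_sub_comm]
    have hge : ∀ i, i ≤ n - 1 → s ^ i ≤ s ^ (n - 1) :=
      fun i hi => pow_le_pow_right₀ hs.le hi
    calc |Real.exp (-(s * t)) - expP n (s * t)| ≤ |Real.exp (-(s * t))| + |expP n (s * t)| :=
          abs_sub _ _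
      _ ≤ s ^ (n - 1) + (∑ i ∈ Finset.range n, |t| ^ i / (i.factorial : ℝ)) *
            s ^ (n - 1) := by
          apply add_le_add
          · rw [abs_of_pos (Real.exp_pos _)]
            exact (Real.exp_le_one_iff.2 (by nlinarith)).trans
              (by simpa using hge 0 (Nat.zero_le _))
          · unfold expP
            refine (Finset.abs_sum_le_sum_abs _ _).trans ?_
            rw [Finset.sum_mul]
            refine Finset.sum_le_sum fun i hi => ?_
            rw [abs_div, abs_pow, abs_neg, abs_mul,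
              abs_of_pos hs0, mul_pow, abs_of_nonneg (Nat.cast_nonneg _ : (0 : ℝ) ≤ _)]
            rw [mul_comm (s ^ i), div_mul_eq_mul_div]
            apply div_le_div_of_nonneg_right _ (Nat.cast_nonneg _)
            apply mul_le_mul_of_nonneg_left _ (by positivity)
            apply hge
            have := Finset.mem_range.1 hi
            omega
      _ = _ := by ring
  · exact h2
  · linarith

private theorem ta_scale (g : ℝ → ℝ) {p : ℝ} {t : ℝ} (ht : 0 < t) :
    ∫ s in Set.Ioi (0 : ℝ), g (s * t) * s ^ (-p - 1) =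
      t ^ p * ∫ s in Set.Ioi (0 : ℝ), g s * s ^ (-p - 1) := by
  have h := MeasureTheory.integral_comp_mul_right_Ioi (fun s => g s * s ^ (-p - 1)) 0 ht
  rw [zero_mul] at h
  have h2 : ∫ s in Set.Ioi (0 : ℝ), g (s * t) * s ^ (-p - 1) =
      t ^ (p + 1) * ∫ s in Set.Ioi (0 : ℝ), g (s * t) * (s * t) ^ (-p - 1) := by
    rw [← MeasureTheory.integral_const_mul]
    refine MeasureTheory.setIntegral_congr_fun measurableSet_Ioi fun s hs => ?_
    rw [Set.mem_Ioi] at hs
    show _ = t ^ (p + 1) * (g (s * t) * (s * t) ^ (-p - 1))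
    rw [Real.mul_rpow (le_of_lt hs) ht.le]
    have : t ^ (p + 1) * t ^ (-p - 1) = 1 := by
      rw [← Real.rpow_add ht]
      norm_num
    calc g (s * t) * s ^ (-p - 1)
        = (t ^ (p + 1) * t ^ (-p - 1)) * (g (s * t) * s ^ (-p - 1)) := by rw [this, one_mul]
      _ = _ := by ring
  rw [h2, h, smul_eq_mul, ← mul_assoc]
  congr 1
  rw [Real.rpow_add ht, Real.rpow_one]
  field_simp

/-- Module ta5. Scaling (`MeasureTheory.integral_comp_mul_left_Ioi`), evenness of `cos`, and
`t = 0` separately. -/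
theorem cos_scale {m : ℕ} (hm : 1 ≤ m) {p : ℝ} (hp : 0 < p) (t : ℝ) :
    ∫ s in Set.Ioi (0 : ℝ), (Real.cos (s * t) - cosP m (s * t)) * s ^ (-p - 1) =
      |t| ^ p * ∫ s in Set.Ioi (0 : ℝ), (Real.cos s - cosP m s) * s ^ (-p - 1) := by
  obtain ⟨k, rfl⟩ := Nat.exists_eq_add_of_le' hm
  rcases eq_or_ne t 0 with rfl | ht
  · rw [abs_zero, Real.zero_rpow hp.ne', zero_mul]
    simp [ta_cosP_zero]
  · rw [← ta_scale (fun s => Real.cos s - cosP (k + 1) s) (abs_pos.2 ht)]
    refine MeasureTheory.setIntegral_congr_fun measurableSet_Ioi fun s hs => ?_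
    rw [Set.mem_Ioi] at hs
    show _ = (Real.cos (s * |t|) - cosP (k + 1) (s * |t|)) * s ^ (-p - 1)
    have e : s * |t| = |s * t| := by
      rw [abs_mul, abs_of_pos hs]
    rw [e, Real.cos_abs, ta_cosP_even]

/-- Module ta5. -/
theorem exp_scale {n : ℕ} (hn : 1 ≤ n) {p : ℝ} (hp : 0 < p) {t : ℝ} (ht : 0 ≤ t) :
    ∫ s in Set.Ioi (0 : ℝ), (expP n (s * t) - Real.exp (-(s * t))) * s ^ (-p - 1) =
      t ^ p * ∫ s in Set.Ioi (0 : ℝ), (expP n s - Real.exp (-s)) * s ^ (-p - 1) := by
  obtain ⟨k, rfl⟩ := Nat.exists_eq_add_of_le' hn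
  rcases eq_or_lt_of_le ht with rfl | ht
  · rw [Real.zero_rpow hp.ne', zero_mul]
    simp [ta_expP_zero]
  · exact ta_scale (fun s => expP (k + 1) s - Real.exp (-s)) ht

private theorem ta_pos {f : ℝ → ℝ} {p : ℝ} (h : ∀ s, 0 < s → 0 < f s)
    (hi : MeasureTheory.IntegrableOn (fun s : ℝ => f s * s ^ (-p - 1)) (Set.Ioi 0)) :
    0 < ∫ s in Set.Ioi (0 : ℝ), f s * s ^ (-p - 1) := by
  have hpos : ∀ s : ℝ, 0 < s → 0 < f s * s ^ (-p - 1) :=
    fun s hs => mul_pos (h s hs) (Real.rpow_pos_of_pos hs _)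
  rw [MeasureTheory.setIntegral_pos_iff_support_of_nonneg_ae _ hi]
  · have : Function.support (fun s : ℝ => f s * s ^ (-p - 1)) ∩ Set.Ioi 0 = Set.Ioi 0 := by
      apply Set.inter_eq_right.2
      intro s hs
      exact (hpos s hs).ne'
    rw [this]
    simp
  · rw [Filter.EventuallyLE, MeasureTheory.ae_restrict_iff' measurableSet_Ioi]
    exact Filter.Eventually.of_forall fun s hs => (hpos s hs).le

/-- Module ta6 (`setIntegral_pos_iff_support_of_nonneg_ae`, `cos_rem_pos`, `cos_int` with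
`t = 1`). -/
theorem cos_const_pos {m : ℕ} (hm : 2 ≤ m) (he : Even m) {p : ℝ} (h1 : 2 * (m : ℝ) - 2 < p)
    (h2 : p < 2 * m) :
    0 < ∫ s in Set.Ioi (0 : ℝ), (Real.cos s - cosP m s) * s ^ (-p - 1) := by
  apply ta_pos (f := fun s => Real.cos s - cosP m s)
  · intro s hs
    have := cos_rem_pos hm he hs.ne'
    linarith
  · have := cos_int (by omega) h1 h2 1
    simpa using this

/-- Module ta6. -/
theorem exp_const_pos {n : ℕ} (hn : Odd n) {p : ℝ} (h1 : (n : ℝ) - 1 < p) (h2 : p < n) :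
    0 < ∫ s in Set.Ioi (0 : ℝ), (expP n s - Real.exp (-s)) * s ^ (-p - 1) := by
  apply ta_pos (f := fun s => expP n s - Real.exp (-s))
  · intro s hs
    have := exp_rem_pos hn hs
    linarith
  · have := exp_int (hn.pos) h1 h2 (zero_le_one)
    simpa using this

theorem exp_rem_pos' {n : ℕ} (hn : Even n) {u : ℝ} (hu : 0 < u) : expP n u < Real.exp (-u) := by
  have h := ta_exp_pos n u hu
  rw [hn.neg_one_pow] at h
  linarith

theorem exp_const_pos' {n : ℕ} (hn1 : 1 ≤ n) (hn : Even n) {p : ℝ} (h1 : (n : ℝ) - 1 < p)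
    (h2 : p < n) :
    0 < ∫ s in Set.Ioi (0 : ℝ), (Real.exp (-s) - expP n s) * s ^ (-p - 1) := by
  apply ta_pos (f := fun s => Real.exp (-s) - expP n s)
  · intro s hs
    have := exp_rem_pos' hn hs
    linarith
  · have := (exp_int hn1 h1 h2 (zero_le_one)).neg
    refine this.congr_fun (fun s _ => ?_) measurableSet_Ioi
    simp only [mul_one, Pi.neg_apply]
    ring

theorem exp_rem_hasDeriv (n : ℕ) (u : ℝ) :
    HasDerivAt (fun u => Real.exp (-u) - expP (n + 1) u) (-(Real.exp (-u) - expP n u)) u := by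
  have h1 : HasDerivAt (fun u : ℝ => Real.exp (-u)) (Real.exp (-u) * (-1)) u :=
    (Real.hasDerivAt_exp (-u)).comp u (hasDerivAt_neg u)
  refine (h1.sub (ta_expP_deriv n u)).congr_deriv ?_
  ring

theorem expP_zero' (n : ℕ) : expP (n + 1) 0 = 1 := ta_expP_zero n

end Pool.Agent.StB
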