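import Mathlib

set_option autoImplicit false

open scoped BigOperators

namespace Pool.Agent.StB

/-- The sign step function. -/
noncomputable def stp (s : ℝ) : ℝ := if 0 ≤ s then 1 else -1

private theorem tr1_piece (a b c : ℝ) (hab : a ≤ b) (f : ℝ → ℝ) (hf : ∀ t, a < t → t < b → f t = c) :
    IntervalIntegrable f MeasureTheory.volume a b ∧ ∫ t in a..b, f t = c * (b - a) := by
  have h0 : ∀ᵐ t : ℝ, t ≠ b := by
    rw [MeasureTheory.ae_iff]
    simp
  have h1 : ∀ᵐ t : ℝ, t ∈ Set.uIoc a b → f t = c := by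
    filter_upwards [h0] with t ht h2
    rw [Set.uIoc_of_le hab] at h2
    exact hf t h2.1 (lt_of_le_of_ne h2.2 ht)
  constructor
  · have h2 : IntervalIntegrable (fun _ : ℝ => c) MeasureTheory.volume a b := intervalIntegrable_const
    refine h2.congr_ae ?_
    rw [Filter.EventuallyEq, MeasureTheory.ae_restrict_iff' measurableSet_uIoc]
    filter_upwards [h1] with t ht h3
    exact (ht h3).symm
  · rw [intervalIntegral.integral_congr_ae h1, intervalIntegral.integral_const, smul_eq_mul]
    ring

private theorem tr1_le {h x y : ℝ} (hx : 0 ≤ x) (hxy : x ≤ y) (hy' : y ≤ h) :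
    IntervalIntegrable (fun t => stp (t - x) * stp (t - y)) MeasureTheory.volume 0 h ∧
    ∫ t in (0 : ℝ)..h, stp (t - x) * stp (t - y) = h - 2 * (y - x) := by
  have h1 := tr1_piece 0 x 1 hx (fun t => stp (t - x) * stp (t - y)) (fun t ht1 ht2 => by
    have e1 : stp (t - x) = -1 := if_neg (by linarith)
    have e2 : stp (t - y) = -1 := if_neg (by linarith)
    change stp (t - x) * stp (t - y) = 1
    rw [e1, e2]
    norm_num)
  have h2 := tr1_piece x y (-1) hxy (fun t => stp (t - x) * stp (t - y)) (fun t ht1 ht2 => by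
    have e1 : stp (t - x) = 1 := if_pos (by linarith)
    have e2 : stp (t - y) = -1 := if_neg (by linarith)
    change stp (t - x) * stp (t - y) = -1
    rw [e1, e2]
    norm_num)
  have h3 := tr1_piece y h 1 hy' (fun t => stp (t - x) * stp (t - y)) (fun t ht1 ht2 => by
    have e1 : stp (t - x) = 1 := if_pos (by linarith)
    have e2 : stp (t - y) = 1 := if_pos (by linarith)
    change stp (t - x) * stp (t - y) = 1
    rw [e1, e2]
    norm_num)
  refine ⟨(h1.1.trans h2.1).trans h3.1, ?_⟩
  rw [← intervalIntegral.integral_add_adjacent_intervals (h1.1.trans h2.1) h3.1,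
    ← intervalIntegral.integral_add_adjacent_intervals h1.1 h2.1, h1.2, h2.2, h3.2]
  ring

private theorem tr1_both {h x y : ℝ} (hx : 0 ≤ x) (hx' : x ≤ h) (hy : 0 ≤ y) (hy' : y ≤ h) :
    IntervalIntegrable (fun t => stp (t - x) * stp (t - y)) MeasureTheory.volume 0 h ∧
    ∫ t in (0 : ℝ)..h, stp (t - x) * stp (t - y) = h - 2 * |x - y| := by
  rcases le_total x y with h1 | h1
  · have h2 := tr1_le hx h1 hy'
    rw [abs_of_nonpos (by linarith)]
    refine ⟨h2.1, ?_⟩
    rw [h2.2]
    ring
  · have h2 := tr1_le hy h1 hx'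
    rw [abs_of_nonneg (by linarith)]
    have h3 : (fun t => stp (t - x) * stp (t - y)) = fun t => stp (t - y) * stp (t - x) := by
      funext t
      ring
    rw [h3]
    exact h2

/-- Module tr1. For `x ≤ y` the product is `-1` on `[x,y)` and `1` elsewhere. -/
theorem stp_int {h x y : ℝ} (hx : 0 ≤ x) (hx' : x ≤ h) (hy : 0 ≤ y) (hy' : y ≤ h) :
    ∫ t in (0 : ℝ)..h, stp (t - x) * stp (t - y) = h - 2 * |x - y| := by
  exact (tr1_both hx hx' hy hy').2

theorem stp_ii {h x y : ℝ} (hx : 0 ≤ x) (hx' : x ≤ h) (hy : 0 ≤ y) (hy' : y ≤ h) :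
    IntervalIntegrable (fun t => stp (t - x) * stp (t - y)) MeasureTheory.volume 0 h :=
  (tr1_both hx hx' hy hy').1

private theorem tr2_sum {κ : Type} [Fintype κ] {a b : ℝ} (f : κ → ℝ → ℝ)
    (hf : ∀ k, IntervalIntegrable (f k) MeasureTheory.volume a b) :
    IntervalIntegrable (fun t => ∑ k, f k t) MeasureTheory.volume a b := by
  have h1 := IntervalIntegrable.sum (Finset.univ : Finset κ) (fun k _ => hf k)
  rwa [Finset.sum_fn] at h1

private theorem tr2_sq (s : ℝ) : stp s * stp s = 1 := by
  unfold stp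
  by_cases h1 : 0 ≤ s
  · rw [if_pos h1]; norm_num
  · rw [if_neg h1]; norm_num

private theorem tr2_bessel {ι : Type} [Fintype ι] {D : ℕ} (e : Fin D → EuclideanSpace ℝ ι)
    (he : Orthonormal ℝ e) (g : ι → ℝ) : ∑ l, (∑ i, e l i * g i) ^ 2 ≤ ∑ i, g i ^ 2 := by
  have h1 := he.sum_inner_products_le (s := Finset.univ) (WithLp.toLp 2 g : EuclideanSpace ℝ ι)
  rw [EuclideanSpace.norm_sq_eq] at h1
  have h2 : ∀ l, ‖inner ℝ (e l) (WithLp.toLp 2 g : EuclideanSpace ℝ ι)‖ ^ 2 = (∑ i, e l i * g i) ^ 2 := by
    intro l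
    rw [Real.norm_eq_abs, sq_abs, PiLp.inner_apply]
    congr 1
    refine Finset.sum_congr rfl fun i _ => ?_
    simp [mul_comm]
  simp only [h2] at h1
  refine h1.trans (le_of_eq ?_)
  refine Finset.sum_congr rfl fun i _ => ?_
  simp

private theorem tr2_point {ι : Type} [Fintype ι] [DecidableEq ι] {D q : ℕ} (cell : ι → Fin q) (r : ι → ℝ)
    (hr : ∀ i, r i * r i = 1) (e : Fin D → EuclideanSpace ℝ ι) (he : Orthonormal ℝ e) :
    ∑ l, ∑ i, ∑ j, e l i * e l j * (if cell i = cell j then r i * r j else 0) ≤ Fintype.card ι := by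
  have h1 : ∀ l, ∑ i, ∑ j, e l i * e l j * (if cell i = cell j then r i * r j else 0) =
      ∑ v, (∑ i, e l i * (if cell i = v then r i else 0)) ^ 2 := by
    intro l
    have h2 : ∀ v, (∑ i, e l i * (if cell i = v then r i else 0)) ^ 2 =
        ∑ i, ∑ j, e l i * e l j * ((if cell i = v then r i else 0) * (if cell j = v then r j else 0)) := by
      intro v
      rw [sq, Finset.sum_mul_sum]
      refine Finset.sum_congr rfl fun i _ => Finset.sum_congr rfl fun j _ => ?_
      ring
    have h3 : ∑ v, ∑ i, ∑ j, e l i * e l j * ((if cell i = v then r i else 0) * (if cell j = v then r j else 0)) =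
        ∑ i, ∑ j, ∑ v, e l i * e l j * ((if cell i = v then r i else 0) * (if cell j = v then r j else 0)) := by
      rw [Finset.sum_comm]
      refine Finset.sum_congr rfl fun i _ => ?_
      rw [Finset.sum_comm]
    simp only [h2]
    rw [h3]
    refine Finset.sum_congr rfl fun i _ => Finset.sum_congr rfl fun j _ => ?_
    rw [← Finset.mul_sum]
    congr 1
    rw [Finset.sum_eq_single (cell i)]
    · rw [if_pos rfl]
      by_cases h3 : cell i = cell j
      · rw [if_pos h3, if_pos h3.symm]
      · rw [if_neg h3, if_neg (fun h => h3 h.symm), mul_zero]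
    · intro v _ hv
      rw [if_neg (fun h => hv h.symm), zero_mul]
    · intro h3
      exact absurd (Finset.mem_univ _) h3
  simp only [h1]
  rw [Finset.sum_comm]
  have h2 : ∀ v : Fin q, ∑ l, (∑ i, e l i * (if cell i = v then r i else 0)) ^ 2 ≤
      ∑ i, (if cell i = v then (1 : ℝ) else 0) := by
    intro v
    refine (tr2_bessel e he _).trans (le_of_eq ?_)
    refine Finset.sum_congr rfl fun i _ => ?_
    by_cases h3 : cell i = v
    · rw [if_pos h3, if_pos h3, sq, hr i]
    · rw [if_neg h3, if_neg h3]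
      norm_num
  refine (Finset.sum_le_sum fun v _ => h2 v).trans (le_of_eq ?_)
  rw [Finset.sum_comm]
  simp

/-- Module tr2. For every `t` and every cell `v` the vector `g i = if cell i = v then stp (t - o i)
else 0` has square norm `#{i : cell i = v}`; Bessel (`Orthonormal.sum_inner_products_le`) gives
`∑ l, (∑ i, e l i * g i) ^ 2 ≤ #{i : cell i = v}`; sum over `v`, integrate over `t ∈ [0,h]`,
divide by 4 and use `stp_int`. -/
theorem tr_block {ι : Type} [Fintype ι] [DecidableEq ι] {D q : ℕ} (cell : ι → Fin q) (o : ι → ℝ)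
    {h : ℝ} (hh : 0 ≤ h) (ho : ∀ i, 0 ≤ o i ∧ o i ≤ h) (e : Fin D → EuclideanSpace ℝ ι)
    (he : Orthonormal ℝ e) :
    ∑ l, ∑ i, ∑ j, e l i * e l j * (if cell i = cell j then h / 4 - |o i - o j| / 2 else 0) ≤
      h * Fintype.card ι / 4 := by
  have hint : ∀ l i j, IntervalIntegrable (fun t => e l i * e l j *
      (if cell i = cell j then stp (t - o i) * stp (t - o j) else 0)) MeasureTheory.volume 0 h := by
    intro l i j
    by_cases h1 : cell i = cell j
    · simp only [if_pos h1]
      exact (tr1_both (ho i).1 (ho i).2 (ho j).1 (ho j).2).1.const_mul _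
    · simp only [if_neg h1]
      exact intervalIntegrable_const
  have h1 : ∑ l, ∑ i, ∑ j, e l i * e l j * (if cell i = cell j then h / 4 - |o i - o j| / 2 else 0) =
      (∫ t in (0 : ℝ)..h, ∑ l, ∑ i, ∑ j, e l i * e l j *
        (if cell i = cell j then stp (t - o i) * stp (t - o j) else 0)) / 4 := by
    rw [intervalIntegral.integral_finsetSum fun l _ => tr2_sum _ fun i => tr2_sum _ fun j => hint l i j]
    rw [Finset.sum_div]
    refine Finset.sum_congr rfl fun l _ => ?_
    rw [intervalIntegral.integral_finsetSum fun i _ => tr2_sum _ fun j => hint l i j]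
    rw [Finset.sum_div]
    refine Finset.sum_congr rfl fun i _ => ?_
    rw [intervalIntegral.integral_finsetSum fun j _ => hint l i j]
    rw [Finset.sum_div]
    refine Finset.sum_congr rfl fun j _ => ?_
    rw [intervalIntegral.integral_const_mul]
    by_cases h2 : cell i = cell j
    · simp only [if_pos h2]
      rw [stp_int (ho i).1 (ho i).2 (ho j).1 (ho j).2]
      ring
    · simp only [if_neg h2]
      simp
  rw [h1]
  have h2 : ∫ t in (0 : ℝ)..h, ∑ l, ∑ i, ∑ j, e l i * e l j *
        (if cell i = cell j then stp (t - o i) * stp (t - o j) else 0) ≤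
      ∫ _t in (0 : ℝ)..h, (Fintype.card ι : ℝ) := by
    refine intervalIntegral.integral_mono_on hh ?_ intervalIntegrable_const ?_
    · exact tr2_sum _ fun l => tr2_sum _ fun i => tr2_sum _ fun j => hint l i j
    · intro t _
      exact tr2_point cell (fun i => stp (t - o i)) (fun i => tr2_sq _) e he
  rw [intervalIntegral.integral_const, smul_eq_mul, sub_zero] at h2
  linarith

private theorem tr3_zero {ι : Type} [Fintype ι] [DecidableEq ι] {q : ℕ} (cell : ι → Fin q) (w : ι → ℝ)
    (hw : ∀ v, ∑ i ∈ Finset.univ.filter (fun i => cell i = v), w i = 0) (θ : Fin q → ℝ) :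
    ∑ i, w i * θ (cell i) = 0 := by
  rw [← Finset.sum_fiberwise Finset.univ cell]
  refine Finset.sum_eq_zero fun v _ => ?_
  have h1 : ∑ i ∈ Finset.univ.filter (fun i => cell i = v), w i * θ (cell i) =
      (∑ i ∈ Finset.univ.filter (fun i => cell i = v), w i) * θ v := by
    rw [Finset.sum_mul]
    refine Finset.sum_congr rfl fun i hi => ?_
    rw [(Finset.mem_filter.mp hi).2]
  rw [h1, hw v, zero_mul]

/-- Module tr3. If all block sums of `w` vanish, `-|x i - x j| / 2` may be replaced by the kernel of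
`tr_block` (for fixed `j`, `∑ i, w i * θ (cell i) = 0` for every `θ`). -/
theorem tr_kernel {ι : Type} [Fintype ι] [DecidableEq ι] {q : ℕ} (cell : ι → Fin q) (x : ι → ℝ)
    (h : ℝ) (hmono : ∀ i j, cell i < cell j → x i ≤ x j) (w : ι → ℝ)
    (hw : ∀ v, ∑ i ∈ Finset.univ.filter (fun i => cell i = v), w i = 0) :
    -(∑ i, ∑ j, w i * w j * |x i - x j|) / 2 =
      ∑ i, ∑ j, w i * w j * (if cell i = cell j then h / 4 - |x i - x j| / 2 else 0) := by
  have hz := tr3_zero cell w hw
  have h1 : ∀ i j, w i * w j * (if cell i = cell j then h / 4 - |x i - x j| / 2 else 0) =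
      -(w i * w j * |x i - x j|) / 2 + (h / 4) * (w i * (w j * (if cell i = cell j then 1 else 0)))
      + (1 / 2) * ((w i * x i) * (w j * (if cell j < cell i then 1 else if cell i < cell j then -1 else 0)))
      + (1 / 2) * ((w j * x j) * (w i * (if cell i < cell j then 1 else if cell j < cell i then -1 else 0))) := by
    intro i j
    rcases lt_trichotomy (cell i) (cell j) with h2 | h2 | h2
    · rw [if_neg h2.ne, if_neg h2.ne, if_neg (not_lt.mpr h2.le), if_pos h2, if_pos h2,
        abs_of_nonpos (by linarith [hmono i j h2])]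
      ring
    · rw [if_pos h2, if_pos h2, if_neg (by rw [h2]; exact lt_irrefl _), if_neg (by rw [h2]; exact lt_irrefl _),
        if_neg (by rw [h2]; exact lt_irrefl _), if_neg (by rw [h2]; exact lt_irrefl _)]
      ring
    · rw [if_neg h2.ne', if_neg h2.ne', if_pos h2, if_neg (not_lt.mpr h2.le), if_pos h2,
        abs_of_nonneg (by linarith [hmono j i h2])]
      ring
  have h2 : ∑ i, ∑ j, (h / 4) * (w i * (w j * (if cell i = cell j then (1 : ℝ) else 0))) = 0 := by
    refine Finset.sum_eq_zero fun i _ => ?_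
    rw [← Finset.mul_sum, ← Finset.mul_sum, hz (fun v => if cell i = v then (1 : ℝ) else 0), mul_zero, mul_zero]
  have h3 : ∑ i, ∑ j, (1 / 2) * ((w i * x i) * (w j * (if cell j < cell i then (1 : ℝ)
      else if cell i < cell j then -1 else 0))) = 0 := by
    refine Finset.sum_eq_zero fun i _ => ?_
    rw [← Finset.mul_sum, ← Finset.mul_sum, hz (fun v => if v < cell i then (1 : ℝ)
      else if cell i < v then -1 else 0), mul_zero, mul_zero]
  have h4 : ∑ i, ∑ j, (1 / 2) * ((w j * x j) * (w i * (if cell i < cell j then (1 : ℝ)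
      else if cell j < cell i then -1 else 0))) = 0 := by
    rw [Finset.sum_comm]
    refine Finset.sum_eq_zero fun i _ => ?_
    rw [← Finset.mul_sum, ← Finset.mul_sum, hz (fun v => if v < cell i then (1 : ℝ)
      else if cell i < v then -1 else 0), mul_zero, mul_zero]
  simp only [h1, Finset.sum_add_distrib]
  rw [h2, h3, h4, add_zero, add_zero, add_zero]
  simp only [← Finset.sum_div, Finset.sum_neg_distrib]

/-- Module tr4. Only the equations `∑ w = 0` and, for each `k`, the block sums of the cells `/= 0`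
are needed. -/
theorem tr_space {ι : Type} [Fintype ι] [DecidableEq ι] {n q : ℕ} (cell : Fin n → ι → Fin (q + 1)) :
    ∃ W : Submodule ℝ (EuclideanSpace ℝ ι),
      (∀ w ∈ W, ∑ i, w i = 0 ∧
        ∀ k v, ∑ i ∈ Finset.univ.filter (fun i => cell k i = v), w i = 0) ∧
      Fintype.card ι ≤ Module.finrank ℝ W + (n * q + 1) := by
  let L : EuclideanSpace ℝ ι →ₗ[ℝ] (Option (Fin n × Fin q) → ℝ) :=
    { toFun := fun w o => match o with
        | none => ∑ i, w i
        | some p => ∑ i ∈ Finset.univ.filter (fun i => cell p.1 i = p.2.succ), w i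
      map_add' := by
        intro w w'
        funext o
        rcases o with _ | p
        · simp [Finset.sum_add_distrib]
        · simp [Finset.sum_add_distrib]
      map_smul' := by
        intro c w
        funext o
        rcases o with _ | p
        · simp [Finset.mul_sum]
        · simp [Finset.mul_sum] }
  refine ⟨LinearMap.ker L, ?_, ?_⟩
  · intro w hw
    have h1 : L w = 0 := LinearMap.mem_ker.mp hw
    have h2 : ∑ i, w i = 0 := congrFun h1 none
    have h3 : ∀ k (v : Fin q), ∑ i ∈ Finset.univ.filter (fun i => cell k i = v.succ), w i = 0 :=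
      fun k v => congrFun h1 (some (k, v))
    refine ⟨h2, fun k v => ?_⟩
    have h4 := Finset.sum_fiberwise Finset.univ (cell k) (fun i => w i)
    rw [h2, Fin.sum_univ_succ] at h4
    have h5 : ∑ v : Fin q, ∑ i ∈ Finset.univ.filter (fun i => cell k i = v.succ), w i = 0 :=
      Finset.sum_eq_zero fun v _ => h3 k v
    rw [h5, add_zero] at h4
    refine Fin.cases h4 (fun v => h3 k v) v
  · have h1 := LinearMap.finrank_range_add_finrank_ker L
    have h2 : Module.finrank ℝ (EuclideanSpace ℝ ι) = Fintype.card ι := finrank_euclideanSpace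
    have h3 : Module.finrank ℝ (LinearMap.range L) ≤ n * q + 1 := by
      refine (Submodule.finrank_le _).trans (le_of_eq ?_)
      rw [Module.finrank_fintype_fun_eq_card, Fintype.card_option, Fintype.card_prod, Fintype.card_fin,
        Fintype.card_fin]
    omega

/-- Module tr5. Cells `v = min (floor (n (x - lo) / (2 γ))) (n - 1)` of width `2 γ / n` (write
`n = q + 1`), `W` from `tr_space`, an orthonormal basis of `W`, `tr_kernel` and `tr_block` with
`h = 2 γ / n` give `γ * dim W ≤ n * (2 γ / n) * |ι| / 4 = γ |ι| / 2`. -/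
theorem tr_core {ι : Type} [Fintype ι] {n : ℕ} (hn : 1 ≤ n) (x : Fin n → ι → ℝ) (c : ι → ℝ) {γ : ℝ}
    (hγ : 0 < γ) (hc : ∀ i, γ ≤ c i) (lo : Fin n → ℝ)
    (hx : ∀ k i, lo k ≤ x k i ∧ x k i ≤ lo k + 2 * γ)
    (h : ∀ w : ι → ℝ, ∑ i, w i = 0 →
      ∑ k, (-(∑ i, ∑ j, w i * w j * |x k i - x k j|) / 2) = ∑ i, c i * w i ^ 2) :
    Fintype.card ι + 2 * n ≤ 2 * n ^ 2 + 2 := by
  classical
  obtain ⟨q, hq⟩ : ∃ q, n = q + 1 := ⟨n - 1, by omega⟩
  have hn0 : (0 : ℝ) < n := by exact_mod_cast hn
  set δ : ℝ := 2 * γ / n with hδ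
  have hδ0 : 0 < δ := by positivity
  have hnδ : n * δ = 2 * γ := by
    rw [hδ]
    field_simp
  set f : Fin n → ι → ℕ := fun k i => ⌊(x k i - lo k) / δ⌋₊ with hf
  set cell : Fin n → ι → Fin (q + 1) := fun k i => ⟨min (f k i) q, by omega⟩ with hcell
  have hf1 : ∀ k i, (f k i : ℝ) * δ ≤ x k i - lo k := by
    intro k i
    have h1 : (f k i : ℝ) ≤ (x k i - lo k) / δ := Nat.floor_le (div_nonneg (by linarith [(hx k i).1]) hδ0.le)
    exact (le_div_iff₀ hδ0).mp h1
  have hf2 : ∀ k i, x k i - lo k < ((f k i : ℝ) + 1) * δ := by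
    intro k i
    have h1 : (x k i - lo k) / δ < (f k i : ℝ) + 1 := Nat.lt_floor_add_one _
    exact (div_lt_iff₀ hδ0).mp h1
  have hcv : ∀ k i, ((cell k i : ℕ)) = min (f k i) q := fun k i => rfl
  have hmono : ∀ k i j, cell k i < cell k j → x k i ≤ x k j := by
    intro k i j hij
    have h1 : min (f k i) q < min (f k j) q := hij
    have h2 : f k i + 1 ≤ f k j := by omega
    have h3 : ((f k i : ℝ) + 1) ≤ f k j := by exact_mod_cast h2
    have h4 := hf1 k j
    have h5 := hf2 k i
    have h6 : ((f k i : ℝ) + 1) * δ ≤ (f k j : ℝ) * δ := mul_le_mul_of_nonneg_right h3 hδ0.le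
    linarith
  set o : Fin n → ι → ℝ := fun k i => x k i - lo k - ((cell k i : ℕ) : ℝ) * δ with ho
  have hoo : ∀ k i, 0 ≤ o k i ∧ o k i ≤ δ := by
    intro k i
    have h1 := hf1 k i
    have h2 := hf2 k i
    rcases Nat.lt_or_ge q (f k i) with h3 | h3
    · have h4 : ((cell k i : ℕ) : ℝ) = q := by rw [hcv, min_eq_right h3.le]
      have h5 : ((q : ℝ) + 1) ≤ f k i := by exact_mod_cast h3
      have h6 : ((q : ℝ) + 1) * δ ≤ (f k i : ℝ) * δ := mul_le_mul_of_nonneg_right h5 hδ0.le
      have h7 : (n : ℝ) = q + 1 := by rw [hq]; push_cast; ring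
      have h8 := (hx k i).2
      rw [h7] at hnδ
      simp only [ho]
      rw [h4]
      constructor
      · nlinarith
      · nlinarith
    · have h4 : ((cell k i : ℕ) : ℝ) = f k i := by rw [hcv, min_eq_left h3]
      simp only [ho]
      rw [h4]
      constructor
      · linarith
      · linarith
  have hod : ∀ k i j, cell k i = cell k j → |o k i - o k j| = |x k i - x k j| := by
    intro k i j hij
    simp only [ho]
    rw [hij]
    congr 1
    ring
  obtain ⟨W, hW, hcard⟩ := tr_space cell
  set D := Module.finrank ℝ W with hD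
  have b := stdOrthonormalBasis ℝ W
  set e : Fin D → EuclideanSpace ℝ ι := fun l => (b l : EuclideanSpace ℝ ι) with he
  have heo : Orthonormal ℝ e := b.orthonormal.comp_linearIsometry W.subtypeₗᵢ
  have hew : ∀ l, e l ∈ W := fun l => (b l).2
  -- main inequality
  have h1 : ∀ l, ∑ k, ∑ i, ∑ j, e l i * e l j * (if cell k i = cell k j then δ / 4 - |o k i - o k j| / 2 else 0)
      = ∑ i, c i * (e l i) ^ 2 := by
    intro l
    obtain ⟨hw0, hwb⟩ := hW (e l) (hew l)
    rw [← h (fun i => e l i) hw0]
    refine Finset.sum_congr rfl fun k _ => ?_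
    rw [tr_kernel (cell k) (x k) δ (hmono k) (fun i => e l i) (hwb k)]
    refine Finset.sum_congr rfl fun i _ => Finset.sum_congr rfl fun j _ => ?_
    by_cases h2 : cell k i = cell k j
    · rw [if_pos h2, if_pos h2, hod k i j h2]
    · rw [if_neg h2, if_neg h2]
  have h2 : ∀ l, γ ≤ ∑ i, c i * (e l i) ^ 2 := by
    intro l
    have h3 : ∑ i, (e l i) ^ 2 = 1 := by
      have h4 := heo.1 l
      have h5 := EuclideanSpace.norm_sq_eq (e l)
      rw [h4] at h5
      simp only [Real.norm_eq_abs, sq_abs] at h5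
      linarith
    calc γ = ∑ i, γ * (e l i) ^ 2 := by rw [← Finset.mul_sum, h3, mul_one]
      _ ≤ _ := Finset.sum_le_sum fun i _ => mul_le_mul_of_nonneg_right (hc i) (sq_nonneg _)
  have h3 : (D : ℝ) * γ ≤ ∑ l, ∑ i, c i * (e l i) ^ 2 := by
    have h4 := Finset.sum_le_sum (s := (Finset.univ : Finset (Fin D))) fun l _ => h2 l
    rw [Finset.sum_const, Finset.card_univ, Fintype.card_fin, nsmul_eq_mul] at h4
    exact h4
  have h4 : ∑ l, ∑ i, c i * (e l i) ^ 2 ≤ n * (δ * Fintype.card ι / 4) := by
    calc ∑ l, ∑ i, c i * (e l i) ^ 2 = ∑ k, ∑ l, ∑ i, ∑ j, e l i * e l j *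
          (if cell k i = cell k j then δ / 4 - |o k i - o k j| / 2 else 0) := by
          symm
          rw [Finset.sum_comm]
          exact Finset.sum_congr rfl fun l _ => h1 l
      _ ≤ ∑ _k : Fin n, (δ * Fintype.card ι / 4) :=
          Finset.sum_le_sum fun k _ => tr_block (cell k) (o k) hδ0.le (hoo k) e heo
      _ = _ := by rw [Finset.sum_const, Finset.card_univ, Fintype.card_fin, nsmul_eq_mul]
  have h5 : (D : ℝ) * γ ≤ γ * Fintype.card ι / 2 := by
    have h6 : (n : ℝ) * (δ * Fintype.card ι / 4) = (n * δ) * Fintype.card ι / 4 := by ring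
    rw [h6, hnδ] at h4
    linarith
  have h6 : 2 * (D : ℝ) ≤ Fintype.card ι := by
    have h7 : γ * (2 * (D : ℝ)) ≤ γ * Fintype.card ι := by linarith
    exact le_of_mul_le_mul_left h7 hγ
  have h7 : 2 * D ≤ Fintype.card ι := by exact_mod_cast h6
  have h8 : Fintype.card ι ≤ 2 * (n * q + 1) := by omega
  rw [hq] at h8 ⊢
  nlinarith

/-- One cell of the weighted version of `tr_block`. -/
private theorem trw_cell {ι : Type} [Fintype ι] {D : ℕ} (ind : ι → Prop)
    [DecidablePred ind] (o a : ι → ℝ) {h : ℝ} (hh : 0 ≤ h)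
    (ho : ∀ i, ind i → 0 ≤ o i ∧ o i ≤ h) (e : Fin D → EuclideanSpace ℝ ι)
    (he : Orthonormal ℝ e) :
    ∑ l, ∑ i, ∑ j, (a i * e l i) * (a j * e l j) *
      (if ind i ∧ ind j then h / 4 - |o i - o j| / 2 else 0) ≤
      h * (∑ i, if ind i then a i ^ 2 else 0) / 4 := by
  have hint : ∀ l i j, IntervalIntegrable (fun t => (a i * e l i) * (a j * e l j) *
      (if ind i ∧ ind j then stp (t - o i) * stp (t - o j) else 0)) MeasureTheory.volume 0 h := by
    intro l i j
    by_cases h1 : ind i ∧ ind j
    · simp only [if_pos h1]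
      exact (tr1_both (ho i h1.1).1 (ho i h1.1).2 (ho j h1.2).1 (ho j h1.2).2).1.const_mul _
    · simp only [if_neg h1]
      exact intervalIntegrable_const
  have h1 : ∑ l, ∑ i, ∑ j, (a i * e l i) * (a j * e l j) *
      (if ind i ∧ ind j then h / 4 - |o i - o j| / 2 else 0) =
      (∫ t in (0 : ℝ)..h, ∑ l, ∑ i, ∑ j, (a i * e l i) * (a j * e l j) *
        (if ind i ∧ ind j then stp (t - o i) * stp (t - o j) else 0)) / 4 := by
    rw [intervalIntegral.integral_finsetSum fun l _ => tr2_sum _ fun i => tr2_sum _ fun j => hint l i j]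
    rw [Finset.sum_div]
    refine Finset.sum_congr rfl fun l _ => ?_
    rw [intervalIntegral.integral_finsetSum fun i _ => tr2_sum _ fun j => hint l i j]
    rw [Finset.sum_div]
    refine Finset.sum_congr rfl fun i _ => ?_
    rw [intervalIntegral.integral_finsetSum fun j _ => hint l i j]
    rw [Finset.sum_div]
    refine Finset.sum_congr rfl fun j _ => ?_
    rw [intervalIntegral.integral_const_mul]
    by_cases h2 : ind i ∧ ind j
    · simp only [if_pos h2]
      rw [stp_int (ho i h2.1).1 (ho i h2.1).2 (ho j h2.2).1 (ho j h2.2).2]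
      ring
    · simp only [if_neg h2]
      simp
  rw [h1]
  have h2 : ∫ t in (0 : ℝ)..h, ∑ l, ∑ i, ∑ j, (a i * e l i) * (a j * e l j) *
        (if ind i ∧ ind j then stp (t - o i) * stp (t - o j) else 0) ≤
      ∫ _t in (0 : ℝ)..h, (∑ i, if ind i then a i ^ 2 else 0) := by
    refine intervalIntegral.integral_mono_on hh ?_ intervalIntegrable_const ?_
    · exact tr2_sum _ fun l => tr2_sum _ fun i => tr2_sum _ fun j => hint l i j
    · intro t _
      have h3 := tr2_bessel e he (fun i => if ind i then a i * stp (t - o i) else 0)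
      have h4 : ∑ i, (if ind i then a i * stp (t - o i) else 0) ^ 2 =
          ∑ i, (if ind i then a i ^ 2 else 0) := by
        refine Finset.sum_congr rfl fun i _ => ?_
        by_cases h5 : ind i
        · rw [if_pos h5, if_pos h5, mul_pow, sq (stp _), tr2_sq, mul_one]
        · rw [if_neg h5, if_neg h5]; norm_num
      rw [h4] at h3
      refine le_trans (le_of_eq ?_) h3
      refine Finset.sum_congr rfl fun l _ => ?_
      rw [sq, Finset.sum_mul_sum]
      refine Finset.sum_congr rfl fun i _ => Finset.sum_congr rfl fun j _ => ?_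
      by_cases h5 : ind i
      · by_cases h6 : ind j
        · rw [if_pos ⟨h5, h6⟩, if_pos h5, if_pos h6]; ring
        · rw [if_neg (fun h => h6 h.2), if_neg h6]; ring
      · rw [if_neg (fun h => h5 h.1), if_neg h5]; ring
  rw [intervalIntegral.integral_const, smul_eq_mul, sub_zero] at h2
  linarith

/-- Weighted version of `tr_block` with cells of different widths. -/
theorem trw_block {ι : Type} [Fintype ι] [DecidableEq ι] {D q : ℕ} (cell : ι → Fin q)
    (o a : ι → ℝ) (h : Fin q → ℝ) (ho : ∀ i, 0 ≤ o i ∧ o i ≤ h (cell i))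
    (e : Fin D → EuclideanSpace ℝ ι) (he : Orthonormal ℝ e) :
    ∑ l, ∑ i, ∑ j, (a i * e l i) * (a j * e l j) *
      (if cell i = cell j then h (cell i) / 4 - |o i - o j| / 2 else 0) ≤
      (∑ i, a i ^ 2 * h (cell i)) / 4 := by
  have h1 : ∀ l, ∑ i, ∑ j, (a i * e l i) * (a j * e l j) *
      (if cell i = cell j then h (cell i) / 4 - |o i - o j| / 2 else 0) =
      ∑ v, ∑ i, ∑ j, (a i * e l i) * (a j * e l j) *
        (if cell i = v ∧ cell j = v then h v / 4 - |o i - o j| / 2 else 0) := by
    intro l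
    rw [Finset.sum_comm (s := (Finset.univ : Finset (Fin q))) (t := (Finset.univ : Finset ι))]
    refine Finset.sum_congr rfl fun i _ => ?_
    rw [Finset.sum_comm (s := (Finset.univ : Finset (Fin q))) (t := (Finset.univ : Finset ι))]
    refine Finset.sum_congr rfl fun j _ => ?_
    rw [← Finset.mul_sum]
    congr 1
    rw [Finset.sum_eq_single (cell i)]
    · by_cases h3 : cell i = cell j
      · rw [if_pos h3, if_pos ⟨rfl, h3.symm⟩]
      · rw [if_neg h3, if_neg (fun h => h3 h.2.symm)]
    · intro v _ hv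
      rw [if_neg (fun h => hv h.1.symm)]
    · intro h3
      exact absurd (Finset.mem_univ _) h3
  simp only [h1]
  rw [Finset.sum_comm]
  have h2 : ∀ v, ∑ l, ∑ i, ∑ j, (a i * e l i) * (a j * e l j) *
        (if cell i = v ∧ cell j = v then h v / 4 - |o i - o j| / 2 else 0) ≤
      (∑ i, if cell i = v then a i ^ 2 * h v else 0) / 4 := by
    intro v
    by_cases hv : ∃ i, cell i = v
    · obtain ⟨i0, hi0⟩ := hv
      have hh : 0 ≤ h v := by
        have := ho i0
        rw [hi0] at this
        linarith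
      refine (trw_cell (fun i => cell i = v) o a hh
        (fun i hi => by have := ho i; rwa [hi] at this) e he).trans (le_of_eq ?_)
      rw [Finset.mul_sum]
      congr 1
      refine Finset.sum_congr rfl fun i _ => ?_
      by_cases h5 : cell i = v
      · rw [if_pos h5, if_pos h5]; ring
      · rw [if_neg h5, if_neg h5, mul_zero]
    · push Not at hv
      have h3 : ∑ l, ∑ i, ∑ j, (a i * e l i) * (a j * e l j) *
        (if cell i = v ∧ cell j = v then h v / 4 - |o i - o j| / 2 else 0) = 0 := by
        refine Finset.sum_eq_zero fun l _ => Finset.sum_eq_zero fun i _ =>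
          Finset.sum_eq_zero fun j _ => ?_
        rw [if_neg (fun h => hv i h.1), mul_zero]
      have h4 : ∑ i, (if cell i = v then a i ^ 2 * h v else 0) = 0 :=
        Finset.sum_eq_zero fun i _ => if_neg (hv i)
      rw [h3, h4]
      norm_num
  refine (Finset.sum_le_sum fun v _ => h2 v).trans (le_of_eq ?_)
  rw [← Finset.sum_div, Finset.sum_comm]
  congr 1
  refine Finset.sum_congr rfl fun i _ => ?_
  rw [Finset.sum_ite_eq]
  simp

/-- Version of `tr_kernel` for cells of different widths. -/
theorem trw_kernel {ι : Type} [Fintype ι] [DecidableEq ι] {q : ℕ} (cell : ι → Fin q) (x : ι → ℝ)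
    (h : Fin q → ℝ) (hmono : ∀ i j, cell i < cell j → x i ≤ x j) (w : ι → ℝ)
    (hw : ∀ v, ∑ i ∈ Finset.univ.filter (fun i => cell i = v), w i = 0) :
    -(∑ i, ∑ j, w i * w j * |x i - x j|) / 2 =
      ∑ i, ∑ j, w i * w j *
        (if cell i = cell j then h (cell i) / 4 - |x i - x j| / 2 else 0) := by
  rw [tr_kernel cell x 0 hmono w hw]
  have hz := tr3_zero cell w hw
  have h1 : ∀ i j, w i * w j *
        (if cell i = cell j then h (cell i) / 4 - |x i - x j| / 2 else 0) =
      w i * w j * (if cell i = cell j then 0 / 4 - |x i - x j| / 2 else 0) +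
      w i * (h (cell i) / 4) * (w j * (if cell i = cell j then 1 else 0)) := by
    intro i j
    by_cases h2 : cell i = cell j
    · rw [if_pos h2, if_pos h2, if_pos h2]; ring
    · rw [if_neg h2, if_neg h2, if_neg h2]; ring
  have h2 : ∑ i, ∑ j, w i * (h (cell i) / 4) * (w j * (if cell i = cell j then (1 : ℝ) else 0)) = 0 := by
    refine Finset.sum_eq_zero fun i _ => ?_
    rw [← Finset.mul_sum, hz (fun v => if cell i = v then (1 : ℝ) else 0), mul_zero]
  simp only [h1, Finset.sum_add_distrib]
  rw [h2, add_zero]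

/-- The trace inequality with weights `c i` and cells of different widths. -/
theorem trw_core {ι : Type} [Fintype ι] {n q : ℕ} (x : Fin n → ι → ℝ) (c : ι → ℝ)
    (hc : ∀ i, 0 < c i) (cell : Fin n → ι → Fin (q + 1)) (lo h : Fin n → Fin (q + 1) → ℝ)
    (hx : ∀ k i, lo k (cell k i) ≤ x k i ∧ x k i ≤ lo k (cell k i) + h k (cell k i))
    (hmono : ∀ k i j, cell k i < cell k j → x k i ≤ x k j)
    (H : ∀ w : ι → ℝ, ∑ i, w i = 0 →
      ∑ k, (-(∑ i, ∑ j, w i * w j * |x k i - x k j|) / 2) = ∑ i, c i * w i ^ 2) :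
    (Fintype.card ι : ℝ) ≤ (∑ i, (∑ k, h k (cell k i)) / c i) / 4 + (n * q + 1) := by
  classical
  set a : ι → ℝ := fun i => 1 / Real.sqrt (c i) with ha
  have ha2 : ∀ i, a i ^ 2 = 1 / c i := by
    intro i
    rw [ha]
    simp only [div_pow, one_pow, Real.sq_sqrt (hc i).le]
  have ha0 : ∀ i, 0 < a i := fun i => by
    have := Real.sqrt_pos.2 (hc i)
    positivity
  -- the space: image of the space of `tr_space` under scaling
  obtain ⟨W, hW, hcard⟩ := tr_space cell
  let T : EuclideanSpace ℝ ι →ₗ[ℝ] EuclideanSpace ℝ ι :=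
    { toFun := fun v => WithLp.toLp 2 (fun i => a i * v i)
      map_add' := by
        intro v v'
        ext i
        simp [mul_add]
      map_smul' := by
        intro r v
        ext i
        simp
        ring }
  have hTinj : Function.Injective T := by
    intro v v' hvv
    ext i
    have h1 := congrArg (fun z : EuclideanSpace ℝ ι => z i) hvv
    have h2 : a i * v i = a i * v' i := h1
    exact mul_left_cancel₀ (ha0 i).ne' h2
  set V := W.comap T with hV
  have hVdim : Module.finrank ℝ W ≤ Module.finrank ℝ V := by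
    -- `T` is bijective
    have hTsur : Function.Surjective T := LinearMap.injective_iff_surjective.1 hTinj
    have h1 : Submodule.map T V = W := Submodule.map_comap_eq_of_surjective hTsur W
    rw [← h1]
    exact Submodule.finrank_map_le _ _
  set D := Module.finrank ℝ V with hD
  have b := stdOrthonormalBasis ℝ V
  set e : Fin D → EuclideanSpace ℝ ι := fun l => (b l : EuclideanSpace ℝ ι) with he
  have heo : Orthonormal ℝ e := b.orthonormal.comp_linearIsometry V.subtypeₗᵢ
  have hew : ∀ l, T (e l) ∈ W := fun l => (b l).2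
  have h1 : ∀ l, ∑ k, ∑ i, ∑ j, (a i * e l i) * (a j * e l j) *
      (if cell k i = cell k j then h k (cell k i) / 4 -
        |(x k i - lo k (cell k i)) - (x k j - lo k (cell k j))| / 2 else 0) = 1 := by
    intro l
    obtain ⟨hw0, hwb⟩ := hW (T (e l)) (hew l)
    have hH := H (fun i => a i * e l i) hw0
    have h3 : ∑ i, (e l i) ^ 2 = 1 := by
      have h4 := heo.1 l
      have h5 := EuclideanSpace.norm_sq_eq (e l)
      rw [h4] at h5
      simp only [Real.norm_eq_abs, sq_abs] at h5
      linarith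
    have h4 : ∑ i, c i * (a i * e l i) ^ 2 = 1 := by
      rw [← h3]
      refine Finset.sum_congr rfl fun i _ => ?_
      rw [mul_pow, ha2, ← mul_assoc, mul_one_div_cancel (hc i).ne', one_mul]
    rw [h4] at hH
    rw [← hH]
    refine Finset.sum_congr rfl fun k _ => ?_
    rw [trw_kernel (cell k) (x k) (h k) (hmono k) (fun i => a i * e l i) (hwb k)]
    refine Finset.sum_congr rfl fun i _ => Finset.sum_congr rfl fun j _ => ?_
    by_cases h2 : cell k i = cell k j
    · rw [if_pos h2, if_pos h2, h2]
      congr 4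
      ring
    · rw [if_neg h2, if_neg h2]
  have h4 : (D : ℝ) ≤ ∑ k, (∑ i, a i ^ 2 * h k (cell k i)) / 4 := by
    calc (D : ℝ) = ∑ _l : Fin D, (1 : ℝ) := by simp
      _ = ∑ l, ∑ k, ∑ i, ∑ j, (a i * e l i) * (a j * e l j) *
          (if cell k i = cell k j then h k (cell k i) / 4 -
          |(x k i - lo k (cell k i)) - (x k j - lo k (cell k j))| / 2 else 0) :=
          Finset.sum_congr rfl fun l _ => (h1 l).symm
      _ = ∑ k, ∑ l, ∑ i, ∑ j, (a i * e l i) * (a j * e l j) *
          (if cell k i = cell k j then h k (cell k i) / 4 -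
          |(x k i - lo k (cell k i)) - (x k j - lo k (cell k j))| / 2 else 0) := Finset.sum_comm
      _ ≤ _ := Finset.sum_le_sum fun k _ => trw_block (cell k)
          (fun i => x k i - lo k (cell k i)) a (h k)
          (fun i => ⟨by linarith [(hx k i).1], by linarith [(hx k i).2]⟩) e heo
  have h5 : ∑ k, (∑ i, a i ^ 2 * h k (cell k i)) / 4 = (∑ i, (∑ k, h k (cell k i)) / c i) / 4 := by
    rw [← Finset.sum_div, Finset.sum_comm]
    congr 1
    refine Finset.sum_congr rfl fun i _ => ?_
    rw [← Finset.mul_sum, ha2]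
    ring
  rw [h5] at h4
  have h6 : (Fintype.card ι : ℝ) ≤ D + (n * q + 1) := by
    have : Fintype.card ι ≤ D + (n * q + 1) := by omega
    exact_mod_cast this
  linarith

end Pool.Agent.StB
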