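import Pool.Agent.StB.LpK

/-!
# `1 ≤ p ≤ 2`: signs of the kernels `|s - t| ^ p` and `(c + c') ^ p` on the weights of sum zero
-/

set_option autoImplicit false

open scoped BigOperators
open MeasureTheory

namespace Pool.Agent.StB

private theorem zp_const {p : ℝ} (h1 : 0 < p) (h2 : p < 2) :
    0 < ∫ s in Set.Ioi (0 : ℝ), (cosP 1 s - Real.cos s) * s ^ (-p - 1) := by
  have hc1 : ∀ s : ℝ, cosP 1 s = 1 := by
    intro s
    simp [cosP]
  have hint : IntegrableOn (fun s : ℝ => (cosP 1 s - Real.cos s) * s ^ (-p - 1)) (Set.Ioi 0) := by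
    have h3 := (cos_int (m := 1) le_rfl (p := p) (by norm_num; exact h1) (by norm_num; exact h2) 1).neg
    refine h3.congr_fun (fun s _ => ?_) measurableSet_Ioi
    simp only [mul_one, Pi.neg_apply]
    ring
  have hnn : ∀ s : ℝ, 0 < s → 0 ≤ (cosP 1 s - Real.cos s) * s ^ (-p - 1) := by
    intro s hs
    rw [hc1]
    exact mul_nonneg (by linarith [Real.cos_le_one s]) (Real.rpow_nonneg hs.le _)
  rw [setIntegral_pos_iff_support_of_nonneg_ae _ hint]
  · have hsub : Set.Ioo (0 : ℝ) 1 ⊆
        Function.support (fun s : ℝ => (cosP 1 s - Real.cos s) * s ^ (-p - 1)) ∩ Set.Ioi 0 := by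
      intro s hs
      refine ⟨?_, hs.1⟩
      rw [Function.mem_support, hc1]
      have h3 : Real.cos s < 1 := by
        have h4 := Real.cos_lt_cos_of_nonneg_of_le_pi_div_two (le_refl (0 : ℝ))
          (by linarith [hs.2, Real.pi_gt_three] : s ≤ Real.pi / 2) hs.1
        rwa [Real.cos_zero] at h4
      exact (mul_pos (by linarith) (Real.rpow_pos_of_pos hs.1 _)).ne'
    refine lt_of_lt_of_le ?_ (measure_mono hsub)
    simp
  · rw [Filter.EventuallyLE, ae_restrict_iff' measurableSet_Ioi]
    exact Filter.Eventually.of_forall fun s hs => hnn s hs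

/-- The kernel `|s - t| ^ p`, `0 < p ≤ 2`, is nonpositive on the weights of sum zero. -/
theorem npsd {ι : Type} [Fintype ι] (w t : ι → ℝ) (hw : ∑ i, w i = 0) {p : ℝ} (h1 : 0 < p)
    (h2 : p ≤ 2) : ∑ i, ∑ j, w i * w j * |t i - t j| ^ p ≤ 0 := by
  have hu : ∀ a ≤ 0, ∑ i, w i * t i ^ a = 0 := by
    intro a ha
    have : a = 0 := by omega
    subst this
    simpa using hw
  rcases eq_or_lt_of_le h2 with h3 | h3
  · have h4 : ∀ i j, w i * w j * |t i - t j| ^ p =
        (w i * t i ^ 2) * w j + w i * (w j * t j ^ 2) - 2 * ((w i * t i) * (w j * t j)) := by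
      intro i j
      have h5 : p = ((2 : ℕ) : ℝ) := by rw [h3]; norm_num
      rw [h5, Real.rpow_natCast, sq_abs]
      ring
    simp only [h4, Finset.sum_sub_distrib, Finset.sum_add_distrib, ← Finset.mul_sum,
      ← Finset.sum_mul, hw]
    nlinarith [sq_nonneg (∑ i, w i * t i)]
  · have hm1 : 2 * ((1 : ℕ) : ℝ) - 2 < p := by push_cast; linarith
    have hm2 : p < 2 * ((1 : ℕ) : ℝ) := by push_cast; linarith
    have hpos := zp_const h1 h3
    set I0 := ∫ s in Set.Ioi (0 : ℝ), (cosP 1 s - Real.cos s) * s ^ (-p - 1) with hI0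
    have hI0' : ∫ s in Set.Ioi (0 : ℝ), (Real.cos s - cosP 1 s) * s ^ (-p - 1) = -I0 := by
      rw [hI0, ← integral_neg]
      refine setIntegral_congr_fun measurableSet_Ioi fun s _ => ?_
      ring
    have h4 : (∑ i, ∑ j, w i * w j * |t i - t j| ^ p) * (-I0) =
        ∫ s in Set.Ioi (0 : ℝ), ∑ i, ∑ j, w i * w j *
          ((Real.cos (s * (t i - t j)) - cosP 1 (s * (t i - t j))) * s ^ (-p - 1)) := by
      rw [integral_finsetSum]
      · rw [Finset.sum_mul]
        refine Finset.sum_congr rfl fun i _ => ?_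
        rw [integral_finsetSum]
        · rw [Finset.sum_mul]
          refine Finset.sum_congr rfl fun j _ => ?_
          rw [integral_const_mul, cos_scale le_rfl h1, hI0', mul_assoc]
        · intro j _
          exact (cos_int le_rfl hm1 hm2 _).const_mul _
      · intro i _
        refine integrable_finsetSum _ fun j _ => ?_
        exact (cos_int le_rfl hm1 hm2 _).const_mul _
    have h5 : 0 ≤ (∑ i, ∑ j, w i * w j * |t i - t j| ^ p) * (-I0) := by
      rw [h4]
      refine setIntegral_nonneg measurableSet_Ioi fun s hs => ?_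
      have h6 : ∑ i, ∑ j, w i * w j *
          ((Real.cos (s * (t i - t j)) - cosP 1 (s * (t i - t j))) * s ^ (-p - 1)) =
          (∑ i, ∑ j, w i * w j * Real.cos (s * (t i - t j)) -
            ∑ i, ∑ j, w i * w j * cosP 1 (s * (t i - t j))) * s ^ (-p - 1) := by
        rw [← Finset.sum_sub_distrib, Finset.sum_mul]
        refine Finset.sum_congr rfl fun i _ => ?_
        rw [← Finset.sum_sub_distrib, Finset.sum_mul]
        exact Finset.sum_congr rfl fun j _ => by ring
      have h7 : ∑ i, ∑ j, w i * w j * Real.cos (s * (t i - t j)) =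
          (∑ i, w i * Real.cos (s * t i)) ^ 2 + (∑ i, w i * Real.sin (s * t i)) ^ 2 := by
        rw [sq, sq, Finset.sum_mul_sum, Finset.sum_mul_sum, ← Finset.sum_add_distrib]
        refine Finset.sum_congr rfl fun i _ => ?_
        rw [← Finset.sum_add_distrib]
        refine Finset.sum_congr rfl fun j _ => ?_
        rw [mul_sub, Real.cos_sub]; ring
      rw [h6, h7, mom_cosP w t hu le_rfl, sub_zero]
      have : 0 ≤ s ^ (-p - 1) := Real.rpow_nonneg (le_of_lt hs) _
      positivity
    by_contra hne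
    push Not at hne
    have := mul_pos hne hpos
    linarith

/-- The kernel `(c + c') ^ p`, `1 ≤ p ≤ 2`, is nonnegative on the weights of sum zero. -/
theorem cpsd {ι : Type} [Fintype ι] (w c : ι → ℝ) (hw : ∑ i, w i = 0) (hc : ∀ i, 0 ≤ c i)
    {p : ℝ} (h1 : 1 ≤ p) (h2 : p ≤ 2) : 0 ≤ ∑ i, ∑ j, w i * w j * (c i + c j) ^ p := by
  have hu : ∀ a ≤ 0, ∑ i, w i * c i ^ a = 0 := by
    intro a ha
    have : a = 0 := by omega
    subst this
    simpa using hw
  rcases eq_or_lt_of_le h1 with h3 | h3
  · have h4 : ∀ i j, w i * w j * (c i + c j) ^ p = w i * w j * (c i + c j) ^ 1 := by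
      intro i j
      rw [← h3, Real.rpow_one, pow_one]
    simp only [h4]
    rw [mom_gen w c c hu hu (by omega)]
  rcases eq_or_lt_of_le h2 with h3' | h3'
  · have h4 : ∀ i j, w i * w j * (c i + c j) ^ p =
        (w i * c i ^ 2) * w j + w i * (w j * c j ^ 2) + 2 * ((w i * c i) * (w j * c j)) := by
      intro i j
      have h5 : p = ((2 : ℕ) : ℝ) := by rw [h3']; norm_num
      rw [h5, Real.rpow_natCast]
      ring
    simp only [h4, Finset.sum_add_distrib, ← Finset.mul_sum, ← Finset.sum_mul, hw]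
    nlinarith [sq_nonneg (∑ i, w i * c i)]
  have hp0 : 0 < p := by linarith
  have hm1 : ((2 : ℕ) : ℝ) - 1 < p := by push_cast; linarith
  have hm2 : p < ((2 : ℕ) : ℝ) := by push_cast; linarith
  have hpos := exp_const_pos' (n := 2) (by omega) even_two hm1 hm2
  set I0 := ∫ s in Set.Ioi (0 : ℝ), (Real.exp (-s) - expP 2 s) * s ^ (-p - 1) with hI0
  have hI0' : ∫ s in Set.Ioi (0 : ℝ), (expP 2 s - Real.exp (-s)) * s ^ (-p - 1) = -I0 := by
    rw [hI0, ← integral_neg]
    refine setIntegral_congr_fun measurableSet_Ioi fun s _ => ?_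
    ring
  have h4 : (∑ i, ∑ j, w i * w j * (c i + c j) ^ p) * (-I0) =
      ∫ s in Set.Ioi (0 : ℝ), ∑ i, ∑ j, w i * w j *
        ((expP 2 (s * (c i + c j)) - Real.exp (-(s * (c i + c j)))) * s ^ (-p - 1)) := by
    rw [integral_finsetSum]
    · rw [Finset.sum_mul]
      refine Finset.sum_congr rfl fun i _ => ?_
      rw [integral_finsetSum]
      · rw [Finset.sum_mul]
        refine Finset.sum_congr rfl fun j _ => ?_
        rw [integral_const_mul, exp_scale (by omega) hp0 (add_nonneg (hc i) (hc j)), hI0',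
          mul_assoc]
      · intro j _
        exact (exp_int (by omega) hm1 hm2 (add_nonneg (hc i) (hc j))).const_mul _
    · intro i _
      refine integrable_finsetSum _ fun j _ => ?_
      exact (exp_int (by omega) hm1 hm2 (add_nonneg (hc i) (hc j))).const_mul _
  have h5 : (∑ i, ∑ j, w i * w j * (c i + c j) ^ p) * (-I0) ≤ 0 := by
    rw [h4]
    refine setIntegral_nonpos measurableSet_Ioi fun s hs => ?_
    have h6 : ∑ i, ∑ j, w i * w j *
        ((expP 2 (s * (c i + c j)) - Real.exp (-(s * (c i + c j)))) * s ^ (-p - 1)) =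
        (∑ i, ∑ j, w i * w j * expP 2 (s * (c i + c j)) -
          ∑ i, ∑ j, w i * w j * Real.exp (-(s * (c i + c j)))) * s ^ (-p - 1) := by
      rw [← Finset.sum_sub_distrib, Finset.sum_mul]
      refine Finset.sum_congr rfl fun i _ => ?_
      rw [← Finset.sum_sub_distrib, Finset.sum_mul]
      exact Finset.sum_congr rfl fun j _ => by ring
    have h7 : ∑ i, ∑ j, w i * w j * Real.exp (-(s * (c i + c j))) =
        (∑ i, w i * Real.exp (-(s * c i))) ^ 2 := by
      rw [sq, Finset.sum_mul_sum]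
      refine Finset.sum_congr rfl fun i _ => ?_
      refine Finset.sum_congr rfl fun j _ => ?_
      rw [show -(s * (c i + c j)) = -(s * c i) + -(s * c j) by ring, Real.exp_add]; ring
    rw [h6, h7, mom_expP w c hu (by omega), zero_sub]
    have h8 : 0 ≤ s ^ (-p - 1) := Real.rpow_nonneg (le_of_lt hs) _
    have h9 := mul_nonneg (sq_nonneg (∑ i, w i * Real.exp (-(s * c i)))) h8
    linarith
  by_contra hne
  push Not at hne
  have := mul_neg_of_neg_of_pos hne hpos
  linarith

end Pool.Agent.StB
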