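import Pool.Agent.StB.Zp1

/-!
# `1 ≤ p ≤ 2`: the pointwise inequality
-/

set_option autoImplicit false

open scoped BigOperators

namespace Pool.Agent.StB

private theorem g_low {p a b : ℝ} (h1 : 1 ≤ p) (h2 : p ≤ 2) (ha : 0 < a) (hb : 0 ≤ b)
    (hba : b ≤ a) : p * (a ^ (p - 1) * b) ≤ a ^ p + b ^ p - (a - b) ^ p := by
  obtain ⟨x, hx⟩ : ∃ x, x = b / a := ⟨_, rfl⟩
  have hx0 : 0 ≤ x := by rw [hx]; positivity
  have hx1 : x ≤ 1 := by rw [hx]; exact (div_le_one ha).2 hba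
  have hbx : b = a * x := by rw [hx]; field_simp
  have e1 : (a - b) ^ p = a ^ p * (1 - x) ^ p := by
    rw [← Real.mul_rpow ha.le (by linarith)]
    congr 1
    rw [hbx]; ring
  have e2 : b ^ p = a ^ p * x ^ p := by
    rw [hbx, Real.mul_rpow ha.le hx0]
  have e3 : a ^ (p - 1) * b = a ^ p * x := by
    rw [Real.rpow_sub_one ha.ne', hbx]
    field_simp
  have e4 : (1 - x) ^ p ≤ (1 - (p - 1) * x) * (1 - x) := by
    have h3 : (1 - x) ^ p = (1 - x) ^ (p - 1) * (1 - x) := by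
      rw [← Real.rpow_add_one' (by linarith) (by linarith)]
      congr 1
      ring
    rw [h3]
    refine mul_le_mul_of_nonneg_right ?_ (by linarith)
    have h4 := rpow_one_add_le_one_add_mul_self (by linarith : (-1 : ℝ) ≤ -x)
      (by linarith : 0 ≤ p - 1) (by linarith : p - 1 ≤ 1)
    have e5 : (1 : ℝ) + -x = 1 - x := by ring
    rw [e5] at h4
    linarith
  have e5 : x ^ 2 ≤ x ^ p := by
    have h3 := Real.rpow_le_rpow_of_exponent_ge' hx0 hx1 (by linarith : 0 ≤ p) h2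
    have h4 : x ^ (2 : ℝ) = x ^ 2 := by
      rw [← Real.rpow_natCast]; norm_num
    rwa [h4] at h3
  have hap : 0 ≤ a ^ p := Real.rpow_nonneg ha.le _
  rw [e1, e2, e3]
  have h3 : p * x ≤ 1 + x ^ p - (1 - x) ^ p := by
    nlinarith [mul_nonneg (by linarith : 0 ≤ 2 - p) (sq_nonneg x)]
  have h4 := mul_le_mul_of_nonneg_left h3 hap
  linarith

private noncomputable def zQ (p τ a : ℝ) : ℝ := (max a 0) ^ p * (min (max a 0) τ) ^ (2 - p)

private theorem zQ_pos {p τ a : ℝ} (ha : 0 ≤ a) : zQ p τ a = a ^ p * (min a τ) ^ (2 - p) := by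
  rw [zQ, max_eq_left ha]

private theorem zQ_neg {p τ a : ℝ} (hp : p ≠ 0) (ha : a ≤ 0) : zQ p τ a = 0 := by
  rw [zQ, max_eq_right ha, Real.zero_rpow hp, zero_mul]

private theorem z1q_pos {p τ a b : ℝ} (h1 : 1 ≤ p) (h2 : p ≤ 2) (hτ : 0 < τ) (ha : 0 ≤ a)
    (hb : 0 ≤ b) : p * ((a ^ p * (min a τ) ^ (2 - p)) * (b ^ p * (min b τ) ^ (2 - p))) ≤
      τ ^ (2 - p) * (a * b * (a ^ p + b ^ p - |a - b| ^ p)) := by
  wlog h : b ≤ a generalizing a b
  · have h3 := this hb ha (le_of_lt (not_le.1 h))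
    rw [abs_sub_comm] at h3
    calc _ = p * ((b ^ p * (min b τ) ^ (2 - p)) * (a ^ p * (min a τ) ^ (2 - p))) := by ring
      _ ≤ _ := h3
      _ = _ := by ring
  rcases eq_or_lt_of_le hb with hb0 | hb0
  · rw [← hb0, Real.zero_rpow (by linarith : p ≠ 0)]
    simp
  have ha0 : 0 < a := lt_of_lt_of_le hb0 h
  have h3 : (min a τ) ^ (2 - p) * (min b τ) ^ (2 - p) ≤ τ ^ (2 - p) * b ^ (2 - p) := by
    refine mul_le_mul ?_ ?_ (Real.rpow_nonneg (le_min hb hτ.le) _) (Real.rpow_nonneg hτ.le _)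
    · exact Real.rpow_le_rpow (le_min ha hτ.le) (min_le_right _ _) (by linarith)
    · exact Real.rpow_le_rpow (le_min hb hτ.le) (min_le_left _ _) (by linarith)
  have h4 := g_low h1 h2 ha0 hb h
  have h5 : b ^ p * b ^ (2 - p) = b * b := by
    rw [← Real.rpow_add hb0]
    have : p + (2 - p) = (2 : ℝ) := by ring
    rw [this, ← Nat.cast_ofNat, Real.rpow_natCast, sq]
  have h6 : a * a ^ (p - 1) = a ^ p := by
    rw [Real.rpow_sub_one ha0.ne']
    field_simp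
  have hap : 0 ≤ a ^ p := Real.rpow_nonneg ha _
  have hbp : 0 ≤ b ^ p := Real.rpow_nonneg hb _
  have hτp : 0 ≤ τ ^ (2 - p) := Real.rpow_nonneg hτ.le _
  rw [abs_of_nonneg (by linarith : 0 ≤ a - b)]
  calc p * ((a ^ p * (min a τ) ^ (2 - p)) * (b ^ p * (min b τ) ^ (2 - p)))
      = p * (a ^ p * b ^ p) * ((min a τ) ^ (2 - p) * (min b τ) ^ (2 - p)) := by ring
    _ ≤ p * (a ^ p * b ^ p) * (τ ^ (2 - p) * b ^ (2 - p)) :=
        mul_le_mul_of_nonneg_left h3 (by positivity)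
    _ = τ ^ (2 - p) * (p * a ^ p * (b ^ p * b ^ (2 - p))) := by ring
    _ = τ ^ (2 - p) * (a * b * (p * (a ^ (p - 1) * b))) := by
        rw [h5, ← h6]; ring
    _ ≤ τ ^ (2 - p) * (a * b * (a ^ p + b ^ p - (a - b) ^ p)) :=
        mul_le_mul_of_nonneg_left (mul_le_mul_of_nonneg_left h4 (by positivity)) hτp

private theorem z1q_opp {p τ a b : ℝ} (h1 : 1 ≤ p) (hτ : 0 < τ) (ha : 0 ≤ a)
    (hb : b ≤ 0) : 0 ≤ τ ^ (2 - p) * (a * b * (|a| ^ p + |b| ^ p - |a - b| ^ p)) := by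
  have hτp : 0 ≤ τ ^ (2 - p) := Real.rpow_nonneg hτ.le _
  rw [abs_of_nonneg ha, abs_of_nonpos hb, abs_of_nonneg (by linarith : 0 ≤ a - b)]
  have h3 : a ^ p + (-b) ^ p ≤ (a - b) ^ p := by
    have h4 := Real.add_rpow_le_rpow_add ha (by linarith : 0 ≤ -b) h1
    rwa [← sub_eq_add_neg a b] at h4
  refine mul_nonneg hτp ?_
  have h5 : a * b ≤ 0 := mul_nonpos_of_nonneg_of_nonpos ha hb
  nlinarith

private theorem z1q {p τ : ℝ} (h1 : 1 ≤ p) (h2 : p ≤ 2) (hτ : 0 < τ) (a b : ℝ) :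
    p * (zQ p τ a * zQ p τ b + zQ p τ (-a) * zQ p τ (-b)) ≤
      τ ^ (2 - p) * (a * b * (|a| ^ p + |b| ^ p - |a - b| ^ p)) := by
  have hp : p ≠ 0 := by linarith
  rcases le_total 0 a with ha | ha <;> rcases le_total 0 b with hb | hb
  · rw [zQ_pos ha, zQ_pos hb, zQ_neg hp (by linarith : -a ≤ 0), zero_mul, add_zero,
      abs_of_nonneg ha, abs_of_nonneg hb]
    exact z1q_pos h1 h2 hτ ha hb
  · rw [zQ_neg hp hb, zQ_neg hp (by linarith : -a ≤ 0), mul_zero, zero_mul, add_zero, mul_zero]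
    exact z1q_opp h1 hτ ha hb
  · rw [zQ_neg hp ha, zQ_neg hp (by linarith : -b ≤ 0), mul_zero, zero_mul, add_zero, mul_zero]
    have h3 := z1q_opp (τ := τ) h1 hτ hb ha
    rw [abs_sub_comm a b]
    calc (0 : ℝ) ≤ _ := h3
      _ = _ := by ring
  · have h3 := z1q_pos h1 h2 hτ (by linarith : 0 ≤ -a) (by linarith : 0 ≤ -b)
    rw [zQ_neg hp ha, zero_mul, zero_add, zQ_pos (by linarith : 0 ≤ -a),
      zQ_pos (by linarith : 0 ≤ -b), abs_of_nonpos ha, abs_of_nonpos hb]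
    have h4 : |(-a) - (-b)| = |a - b| := by
      rw [← abs_neg]
      congr 1
      ring
    rw [h4] at h3
    calc _ ≤ _ := h3
      _ = _ := by ring

private theorem zQ_add {p : ℝ} (hp : p ≠ 0) (τ a : ℝ) :
    zQ p τ a + zQ p τ (-a) = |a| ^ p * (min |a| τ) ^ (2 - p) := by
  rcases le_total 0 a with ha | ha
  · rw [zQ_pos ha, zQ_neg hp (by linarith), abs_of_nonneg ha, add_zero]
  · rw [zQ_neg hp ha, zQ_pos (by linarith : 0 ≤ -a), abs_of_nonpos ha, zero_add]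

/-- Truncated lower bound for the form. -/
private theorem z2q {ι : Type} [Fintype ι] (π a : ι → ℝ) (hπ : ∀ i, 0 ≤ π i) {p τ : ℝ}
    (h1 : 1 ≤ p) (h2 : p ≤ 2) (hτ : 0 < τ) :
    p * (∑ i, π i * (|a i| ^ p * (min |a i| τ) ^ (2 - p))) ^ 2 ≤ 2 * (τ ^ (2 - p) *
      ∑ i, ∑ j, (π i * a i) * (π j * a j) * (|a i| ^ p + |a j| ^ p - |a i - a j| ^ p)) := by
  have hp : p ≠ 0 := by linarith
  have h3 : ∑ i, π i * (|a i| ^ p * (min |a i| τ) ^ (2 - p)) =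
      (∑ i, π i * zQ p τ (a i)) + ∑ i, π i * zQ p τ (-a i) := by
    rw [← Finset.sum_add_distrib]
    refine Finset.sum_congr rfl fun i _ => ?_
    rw [← mul_add, zQ_add hp]
  have h4 : ∀ X Y : ℝ, p * (X + Y) ^ 2 ≤ 2 * (p * (X * X + Y * Y)) := fun X Y => by
    nlinarith [mul_nonneg (by linarith : 0 ≤ p) (sq_nonneg (X - Y))]
  rw [h3]
  refine (h4 _ _).trans ?_
  refine mul_le_mul_of_nonneg_left ?_ (by norm_num)
  rw [Finset.sum_mul_sum, Finset.sum_mul_sum, ← Finset.sum_add_distrib, Finset.mul_sum,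
    Finset.mul_sum]
  refine Finset.sum_le_sum fun i _ => ?_
  rw [← Finset.sum_add_distrib, Finset.mul_sum, Finset.mul_sum]
  refine Finset.sum_le_sum fun j _ => ?_
  have h5 := mul_le_mul_of_nonneg_left (z1q h1 h2 hτ (a i) (a j)) (mul_nonneg (hπ i) (hπ j))
  linarith

private theorem zq_nonneg {ι : Type} [Fintype ι] (π a : ι → ℝ) (hπ : ∀ i, 0 ≤ π i) {p : ℝ}
    (h1 : 1 ≤ p) (h2 : p ≤ 2) :
    0 ≤ ∑ i, ∑ j, (π i * a i) * (π j * a j) * (|a i| ^ p + |a j| ^ p - |a i - a j| ^ p) := by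
  have h3 := z2q π a hπ h1 h2 (by norm_num : (0 : ℝ) < 1)
  rw [Real.one_rpow, one_mul] at h3
  have h4 := mul_nonneg (by linarith : 0 ≤ p)
    (sq_nonneg (∑ i, π i * (|a i| ^ p * (min |a i| 1) ^ (2 - p))))
  linarith

/-- Scalar truncation inequality. -/
private theorem z3q {p x τ : ℝ} (h1 : 1 ≤ p) (hx : 0 ≤ x) (hτ : 0 < τ) :
    τ ^ (2 - p) * x ^ p - τ ^ 2 / 4 ≤ x ^ p * (min x τ) ^ (2 - p) := by
  have hxp : 0 ≤ x ^ p := Real.rpow_nonneg hx _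
  rcases le_total x τ with h3 | h3
  · rw [min_eq_left h3]
    -- `y = x / τ`
    obtain ⟨y, hy⟩ : ∃ y, y = x / τ := ⟨_, rfl⟩
    have hy0 : 0 ≤ y := by rw [hy]; positivity
    have hy1 : y ≤ 1 := by rw [hy]; exact (div_le_one hτ).2 h3
    have hxy : x = τ * y := by rw [hy]; field_simp
    have e1 : x ^ p = τ ^ p * y ^ p := by rw [hxy, Real.mul_rpow hτ.le hy0]
    have e2 : τ ^ (2 - p) * τ ^ p = τ ^ 2 := by
      rw [← Real.rpow_add hτ]
      have : 2 - p + p = ((2 : ℕ) : ℝ) := by push_cast; ring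
      rw [this, Real.rpow_natCast]
    have e3 : x ^ p * x ^ (2 - p) = x ^ 2 := by
      rcases eq_or_lt_of_le hx with h4 | h4
      · rw [← h4, Real.zero_rpow (by linarith : p ≠ 0)]
        norm_num
      · rw [← Real.rpow_add h4]
        have : p + (2 - p) = ((2 : ℕ) : ℝ) := by push_cast; ring
        rw [this, Real.rpow_natCast]
    have e4 : y ^ p ≤ y := by
      have h4 := Real.rpow_le_rpow_of_exponent_ge' hy0 hy1 (by norm_num : (0 : ℝ) ≤ 1) h1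
      rwa [Real.rpow_one] at h4
    rw [e3, e1, ← mul_assoc, e2, hxy]
    have hτ2 : 0 ≤ τ ^ 2 := sq_nonneg _
    nlinarith [mul_nonneg hτ2 (sq_nonneg (y - 1 / 2)), mul_nonneg hτ2 (by linarith : 0 ≤ y - y ^ p)]
  · rw [min_eq_right h3]
    have : 0 ≤ τ ^ 2 := sq_nonneg _
    linarith

private theorem const_q {p : ℝ} (h1 : 1 ≤ p) (h2 : p ≤ 2) :
    (2 / 5 : ℝ) ^ (2 + p) ≤ p ^ 2 / 4 * (2 * p / 9) ^ p * (4 / 3 : ℝ) ^ (2 - p) := by
  have hp0 : 0 < p := by linarith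
  have e1 : (2 * p / 9) ^ p = (2 / 9 : ℝ) ^ p * p ^ p := by
    rw [← Real.mul_rpow (by norm_num) hp0.le]
    congr 1
    ring
  have e2 : p ≤ p ^ p := by
    have h3 := Real.rpow_le_rpow_of_exponent_le h1 h1
    rwa [Real.rpow_one] at h3
  have e3 : (4 / 3 : ℝ) ^ (2 - p) = 16 / 9 * (3 / 4 : ℝ) ^ p := by
    rw [Real.rpow_sub (by norm_num)]
    have h3 : (4 / 3 : ℝ) ^ (2 : ℝ) = 16 / 9 := by
      rw [Real.rpow_two]; norm_num
    have h4 : ((4 / 3 : ℝ) ^ p)⁻¹ = (3 / 4 : ℝ) ^ p := by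
      rw [← Real.inv_rpow (by norm_num)]
      norm_num
    rw [h3, div_eq_mul_inv, h4]
  have e4 : (2 / 5 : ℝ) ^ (2 + p) = 4 / 25 * (2 / 5 : ℝ) ^ p := by
    rw [Real.rpow_add (by norm_num)]
    have h3 : (2 / 5 : ℝ) ^ (2 : ℝ) = 4 / 25 := by
      rw [Real.rpow_two]; norm_num
    rw [h3]
  have e5 : (2 / 5 : ℝ) ^ p = (12 / 5 : ℝ) ^ p * (1 / 6 : ℝ) ^ p := by
    rw [← Real.mul_rpow (by norm_num) (by norm_num)]
    norm_num
  have e6 : (2 / 9 : ℝ) ^ p * (3 / 4 : ℝ) ^ p = (1 / 6 : ℝ) ^ p := by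
    rw [← Real.mul_rpow (by norm_num) (by norm_num)]
    norm_num
  have e7 : (12 / 5 : ℝ) ^ p ≤ 12 / 5 * (1 + 7 / 5 * (p - 1)) := by
    have h3 : (12 / 5 : ℝ) ^ p = 12 / 5 * (12 / 5 : ℝ) ^ (p - 1) := by
      rw [Real.rpow_sub_one (by norm_num)]
      field_simp
    have h4 := rpow_one_add_le_one_add_mul_self (by norm_num : (-1 : ℝ) ≤ 7 / 5)
      (by linarith : 0 ≤ p - 1) (by linarith : p - 1 ≤ 1)
    have h5 : (1 : ℝ) + 7 / 5 = 12 / 5 := by norm_num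
    rw [h5] at h4
    rw [h3]
    refine mul_le_mul_of_nonneg_left ?_ (by norm_num)
    linarith
  have h6 : 0 < (1 / 6 : ℝ) ^ p := Real.rpow_pos_of_pos (by norm_num) _
  have h29 : 0 < (2 / 9 : ℝ) ^ p := Real.rpow_pos_of_pos (by norm_num) _
  have h34 : 0 < (3 / 4 : ℝ) ^ p := Real.rpow_pos_of_pos (by norm_num) _
  rw [e1, e3, e4, e5]
  have h7 : 9 / 25 * (12 / 5 : ℝ) ^ p ≤ p ^ 3 := by
    have h8 : 9 / 25 * (12 / 5 * (1 + 7 / 5 * (p - 1))) ≤ p ^ 3 := by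
      nlinarith [mul_nonneg (by linarith : 0 ≤ p - 1) (by linarith : 0 ≤ p - 1),
        mul_nonneg (mul_nonneg (by linarith : 0 ≤ p - 1) (by linarith : 0 ≤ p - 1))
          (by linarith : 0 ≤ p - 1)]
    linarith
  calc 4 / 25 * ((12 / 5 : ℝ) ^ p * (1 / 6 : ℝ) ^ p)
      = 4 / 9 * (9 / 25 * (12 / 5 : ℝ) ^ p) * (1 / 6 : ℝ) ^ p := by ring
    _ ≤ 4 / 9 * p ^ 3 * (1 / 6 : ℝ) ^ p := by
        refine mul_le_mul_of_nonneg_right ?_ h6.le
        linarith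
    _ = p ^ 2 / 4 * ((2 / 9 : ℝ) ^ p * p) * (16 / 9 * (3 / 4 : ℝ) ^ p) := by
        rw [← e6]; ring
    _ ≤ p ^ 2 / 4 * ((2 / 9 : ℝ) ^ p * p ^ p) * (16 / 9 * (3 / 4 : ℝ) ^ p) := by
        refine mul_le_mul_of_nonneg_right ?_ (by positivity)
        refine mul_le_mul_of_nonneg_left ?_ (by positivity)
        exact mul_le_mul_of_nonneg_left e2 h29.le

/-- The pointwise inequality. -/
theorem z4q {ι : Type} [Fintype ι] (π a : ι → ℝ) {π0 : ℝ} (hπ0 : 0 < π0) (hπ : ∀ i, π0 ≤ π i)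
    {p : ℝ} (h1 : 1 ≤ p) (h2 : p ≤ 2) {κ : ℝ} (hκ0 : 0 ≤ κ)
    (hκ : κ ^ (2 + p) * (∑ i, π i) ^ (2 - p) ≤ (2 / 5 : ℝ) ^ (2 + p) * π0 ^ (2 - p)) :
    κ * (∑ i, π i * |a i| ^ p) * (∑ i, π i * a i ^ 2) ≤
      ∑ i, ∑ j, (π i * a i) * (π j * a j) * (|a i| ^ p + |a j| ^ p - |a i - a j| ^ p) := by
  have hp0 : 0 < p := by linarith
  have hpp : ∀ i, 0 < π i := fun i => lt_of_lt_of_le hπ0 (hπ i)
  have hp' : ∀ i, 0 ≤ π i := fun i => (hpp i).le
  set Q := ∑ i, ∑ j, (π i * a i) * (π j * a j) * (|a i| ^ p + |a j| ^ p - |a i - a j| ^ p) with hQ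
  set Ap := ∑ i, π i * |a i| ^ p with hAp
  set A2 := ∑ i, π i * a i ^ 2 with hA2
  set C := ∑ i, π i with hC
  have hQ0 : 0 ≤ Q := zq_nonneg π a hp' h1 h2
  have hA20 : 0 ≤ A2 := Finset.sum_nonneg fun i _ => mul_nonneg (hp' i) (sq_nonneg _)
  have hAp0 : 0 ≤ Ap := Finset.sum_nonneg fun i _ =>
    mul_nonneg (hp' i) (Real.rpow_nonneg (abs_nonneg _) _)
  rcases eq_or_lt_of_le hA20 with h0 | h0
  · rw [← h0, mul_zero]; exact hQ0
  rcases eq_or_lt_of_le hAp0 with h0' | h0'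
  · rw [← h0', mul_zero, zero_mul]; exact hQ0
  have hC0 : 0 < C := by
    have hne : Nonempty ι := by
      by_contra hemp
      rw [not_nonempty_iff] at hemp
      rw [hA2, Finset.univ_eq_empty, Finset.sum_empty] at h0
      exact lt_irrefl _ h0
    exact Finset.sum_pos (fun i _ => hpp i) Finset.univ_nonempty
  -- first bound
  have hT : 0 < Real.sqrt (A2 / π0) := Real.sqrt_pos.2 (div_pos h0 hπ0)
  have hb1 : p * A2 ^ 2 ≤ 2 * ((Real.sqrt (A2 / π0)) ^ (2 - p) * Q) := by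
    have h3 := z2q π a hp' h1 h2 hT
    have h4 : ∀ i, |a i| ^ p * (min |a i| (Real.sqrt (A2 / π0))) ^ (2 - p) = a i ^ 2 := by
      intro i
      have h5 : min |a i| (Real.sqrt (A2 / π0)) = |a i| := by
        refine min_eq_left ?_
        rw [← Real.sqrt_sq_eq_abs]
        refine Real.sqrt_le_sqrt ?_
        rw [le_div_iff₀ hπ0]
        calc a i ^ 2 * π0 ≤ a i ^ 2 * π i := mul_le_mul_of_nonneg_left (hπ i) (sq_nonneg _)
          _ = π i * a i ^ 2 := by ring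
          _ ≤ A2 := Finset.single_le_sum (f := fun i => π i * a i ^ 2)
              (fun j _ => mul_nonneg (hp' j) (sq_nonneg _)) (Finset.mem_univ i)
      rw [h5]
      rcases eq_or_lt_of_le (abs_nonneg (a i)) with h6 | h6
      · have h7 : a i = 0 := abs_eq_zero.1 h6.symm
        rw [h7, abs_zero, Real.zero_rpow hp0.ne', zero_mul]
        norm_num
      · rw [← Real.rpow_add h6]
        have : p + (2 - p) = ((2 : ℕ) : ℝ) := by push_cast; ring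
        rw [this, Real.rpow_natCast, sq_abs]
    have h5 : ∑ i, π i * (|a i| ^ p * (min |a i| (Real.sqrt (A2 / π0))) ^ (2 - p)) = A2 := by
      rw [hA2]
      exact Finset.sum_congr rfl fun i _ => by rw [h4 i]
    rw [h5] at h3
    exact h3
  have hb2 : p ^ 2 / 4 * (A2 ^ (2 + p) * π0 ^ (2 - p)) ≤ Q ^ 2 := by
    have h3 : (p * A2 ^ 2) ^ 2 ≤ (2 * ((Real.sqrt (A2 / π0)) ^ (2 - p) * Q)) ^ 2 :=
      pow_le_pow_left₀ (by positivity) hb1 2
    have h4 : ((Real.sqrt (A2 / π0)) ^ (2 - p)) ^ 2 = A2 ^ (2 - p) / π0 ^ (2 - p) := by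
      rw [← Real.rpow_natCast, ← Real.rpow_mul hT.le, mul_comm, Real.rpow_mul hT.le,
        Real.rpow_natCast, Real.sq_sqrt (div_pos h0 hπ0).le, Real.div_rpow h0.le hπ0.le]
    rw [mul_pow, mul_pow, mul_pow, h4] at h3
    have h5 : (A2 ^ 2) ^ 2 = A2 ^ (2 - p) * A2 ^ (2 + p) := by
      rw [← Real.rpow_add h0]
      have : 2 - p + (2 + p) = ((4 : ℕ) : ℝ) := by push_cast; ring
      rw [this, Real.rpow_natCast]
      ring
    rw [h5] at h3
    have hA : 0 < A2 ^ (2 - p) := Real.rpow_pos_of_pos h0 _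
    have hB : 0 < π0 ^ (2 - p) := Real.rpow_pos_of_pos hπ0 _
    have h6 : A2 ^ (2 - p) * (p ^ 2 / 4 * (A2 ^ (2 + p) * π0 ^ (2 - p))) ≤ A2 ^ (2 - p) * Q ^ 2 := by
      have h7 := mul_le_mul_of_nonneg_right h3 hB.le
      have h8 : 2 ^ 2 * (A2 ^ (2 - p) / π0 ^ (2 - p) * Q ^ 2) * π0 ^ (2 - p) =
          4 * (A2 ^ (2 - p) * Q ^ 2) := by
        field_simp
        ring
      rw [h8] at h7
      linarith
    exact le_of_mul_le_mul_left h6 hA
  -- second bound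
  have hτ : 0 < (4 * Ap / (3 * C)) ^ (1 / p) := Real.rpow_pos_of_pos (by positivity) _
  have hb3 : (2 * p / 9) ^ p * (4 / 3 : ℝ) ^ (2 - p) * Ap ^ (2 + p) ≤ Q ^ p * C ^ (2 - p) := by
    set τ := (4 * Ap / (3 * C)) ^ (1 / p) with hτd
    have hτp : τ ^ p = 4 * Ap / (3 * C) := by
      rw [hτd, ← Real.rpow_mul (by positivity), one_div, inv_mul_cancel₀ hp0.ne', Real.rpow_one]
    have hτr : 0 < τ ^ (2 - p) := Real.rpow_pos_of_pos hτ _
    have h3 := z2q π a hp' h1 h2 hτ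
    have h4 : 2 / 3 * (τ ^ (2 - p) * Ap) ≤
        ∑ i, π i * (|a i| ^ p * (min |a i| τ) ^ (2 - p)) := by
      have h5 : ∀ i, π i * (τ ^ (2 - p) * |a i| ^ p - τ ^ 2 / 4) ≤
          π i * (|a i| ^ p * (min |a i| τ) ^ (2 - p)) := fun i =>
        mul_le_mul_of_nonneg_left (z3q h1 (abs_nonneg _) hτ) (hp' i)
      refine le_trans (le_of_eq ?_) (Finset.sum_le_sum fun i _ => h5 i)
      have h6 : ∑ i, π i * (τ ^ (2 - p) * |a i| ^ p - τ ^ 2 / 4) =
          τ ^ (2 - p) * Ap - τ ^ 2 / 4 * C := by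
        rw [hAp, hC, Finset.mul_sum, Finset.mul_sum, ← Finset.sum_sub_distrib]
        refine Finset.sum_congr rfl fun i _ => ?_
        ring
      rw [h6]
      have h7 : τ ^ 2 = τ ^ (2 - p) * τ ^ p := by
        rw [← Real.rpow_add hτ]
        have : 2 - p + p = ((2 : ℕ) : ℝ) := by push_cast; ring
        rw [this, Real.rpow_natCast]
      have h8 : τ ^ p * C = 4 / 3 * Ap := by
        rw [hτp]; field_simp
      have h9 : τ ^ 2 / 4 * C = τ ^ (2 - p) / 4 * (τ ^ p * C) := by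
        rw [h7]; ring
      rw [h9, h8]
      ring
    have h5 : 2 * p / 9 * (τ ^ (2 - p) * Ap ^ 2) ≤ Q := by
      have h6 : p * (2 / 3 * (τ ^ (2 - p) * Ap)) ^ 2 ≤ 2 * (τ ^ (2 - p) * Q) :=
        (mul_le_mul_of_nonneg_left (pow_le_pow_left₀ (by positivity) h4 2) hp0.le).trans h3
      have h7 : (2 * τ ^ (2 - p)) * (2 * p / 9 * (τ ^ (2 - p) * Ap ^ 2)) ≤
          (2 * τ ^ (2 - p)) * Q := by
        calc (2 * τ ^ (2 - p)) * (2 * p / 9 * (τ ^ (2 - p) * Ap ^ 2))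
            = p * (2 / 3 * (τ ^ (2 - p) * Ap)) ^ 2 := by ring
          _ ≤ 2 * (τ ^ (2 - p) * Q) := h6
          _ = _ := by ring
      exact le_of_mul_le_mul_left h7 (by positivity)
    have h6 : (2 * p / 9 * (τ ^ (2 - p) * Ap ^ 2)) ^ p ≤ Q ^ p :=
      Real.rpow_le_rpow (by positivity) h5 hp0.le
    have h7 : (2 * p / 9 * (τ ^ (2 - p) * Ap ^ 2)) ^ p * C ^ (2 - p) =
        (2 * p / 9) ^ p * (4 / 3 : ℝ) ^ (2 - p) * Ap ^ (2 + p) := by
      rw [Real.mul_rpow (by positivity) (by positivity), Real.mul_rpow hτr.le (by positivity)]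
      have h8 : (τ ^ (2 - p)) ^ p * C ^ (2 - p) = (4 / 3 : ℝ) ^ (2 - p) * Ap ^ (2 - p) := by
        rw [← Real.rpow_mul hτ.le, mul_comm (2 - p) p, Real.rpow_mul hτ.le, hτp,
          ← Real.mul_rpow (by positivity) hC0.le, ← Real.mul_rpow (by norm_num) hAp0]
        congr 1
        field_simp
      have h9 : (Ap ^ 2) ^ p * Ap ^ (2 - p) = Ap ^ (2 + p) := by
        rw [← Real.rpow_natCast, ← Real.rpow_mul hAp0, ← Real.rpow_add h0']
        congr 1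
        push_cast
        ring
      calc (2 * p / 9) ^ p * ((τ ^ (2 - p)) ^ p * (Ap ^ 2) ^ p) * C ^ (2 - p)
          = (2 * p / 9) ^ p * ((τ ^ (2 - p)) ^ p * C ^ (2 - p)) * (Ap ^ 2) ^ p := by ring
        _ = (2 * p / 9) ^ p * (4 / 3 : ℝ) ^ (2 - p) * ((Ap ^ 2) ^ p * Ap ^ (2 - p)) := by
            rw [h8]; ring
        _ = _ := by rw [h9]
    rw [← h7]
    exact mul_le_mul_of_nonneg_right h6 (Real.rpow_nonneg hC0.le _)
  -- combination
  have hCr : 0 < C ^ (2 - p) := Real.rpow_pos_of_pos hC0 _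
  have hQp : 0 ≤ Q ^ p := Real.rpow_nonneg hQ0 _
  have hπr : 0 ≤ π0 ^ (2 - p) := Real.rpow_nonneg hπ0.le _
  have hA2r : 0 ≤ A2 ^ (2 + p) := Real.rpow_nonneg h0.le _
  have hApr : 0 ≤ Ap ^ (2 + p) := Real.rpow_nonneg hAp0 _
  have hc : (κ * Ap * A2) ^ (2 + p) ≤ Q ^ (2 + p) := by
    have h3 : (κ * Ap * A2) ^ (2 + p) * C ^ (2 - p) ≤ Q ^ (2 + p) * C ^ (2 - p) := by
      have hQ2 : Q ^ (2 + p) = Q ^ 2 * Q ^ p := by
        rcases eq_or_lt_of_le hQ0 with h4 | h4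
        · rw [← h4, Real.zero_rpow (by linarith : 2 + p ≠ 0)]
          norm_num
        · rw [Real.rpow_add h4]
          have : Q ^ (2 : ℝ) = Q ^ 2 := by rw [← Real.rpow_natCast]; norm_num
          rw [this]
      calc (κ * Ap * A2) ^ (2 + p) * C ^ (2 - p)
          = (κ ^ (2 + p) * C ^ (2 - p)) * (Ap ^ (2 + p) * A2 ^ (2 + p)) := by
            rw [Real.mul_rpow (by positivity) h0.le, Real.mul_rpow hκ0 hAp0]
            ring
        _ ≤ ((2 / 5 : ℝ) ^ (2 + p) * π0 ^ (2 - p)) * (Ap ^ (2 + p) * A2 ^ (2 + p)) :=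
            mul_le_mul_of_nonneg_right hκ (by positivity)
        _ ≤ (p ^ 2 / 4 * (2 * p / 9) ^ p * (4 / 3 : ℝ) ^ (2 - p) * π0 ^ (2 - p)) *
              (Ap ^ (2 + p) * A2 ^ (2 + p)) :=
            mul_le_mul_of_nonneg_right (mul_le_mul_of_nonneg_right (const_q h1 h2) hπr)
              (by positivity)
        _ = (p ^ 2 / 4 * (A2 ^ (2 + p) * π0 ^ (2 - p))) *
              ((2 * p / 9) ^ p * (4 / 3 : ℝ) ^ (2 - p) * Ap ^ (2 + p)) := by ring
        _ ≤ Q ^ 2 * (Q ^ p * C ^ (2 - p)) := mul_le_mul hb2 hb3 (by positivity) (sq_nonneg _)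
        _ = Q ^ (2 + p) * C ^ (2 - p) := by rw [hQ2]; ring
    exact le_of_mul_le_mul_right h3 hCr
  exact (Real.rpow_le_rpow_iff (by positivity) hQ0 (by linarith)).1 hc

end Pool.Agent.StB
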