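import Pool.Agent.StB.Zp2
import Pool.Agent.StB.LpM

/-!
# `1 ≤ p ≤ 2`: the trace over the linear functionals
-/

set_option autoImplicit false

open scoped BigOperators
open MeasureTheory

namespace Pool.Agent.StB

/-- Cauchy-Schwarz for a form which is nonnegative on the functions of sum zero. -/
theorem cs_form {ι : Type} [Fintype ι] {D : ℕ} (K : ι → ι → ℝ)
    (hK : ∀ w : ι → ℝ, ∑ i, w i = 0 → 0 ≤ ∑ i, ∑ j, w i * w j * K i j)
    (α : Fin D → ℝ) (W : Fin D → ι → ℝ) (hW : ∀ l, ∑ i, W l i = 0) :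
    ∑ i, ∑ j, (∑ l, α l * W l i) * (∑ l, α l * W l j) * K i j ≤
      (∑ l, α l ^ 2) * ∑ l, ∑ i, ∑ j, W l i * W l j * K i j := by
  have h1 : 0 ≤ ∑ l, ∑ m, ∑ i, ∑ j, (α l * W m i - α m * W l i) * (α l * W m j - α m * W l j) *
      K i j := by
    refine Finset.sum_nonneg fun l _ => Finset.sum_nonneg fun m _ => hK _ ?_
    rw [Finset.sum_sub_distrib, ← Finset.mul_sum, ← Finset.mul_sum, hW, hW]
    ring
  have h2 : ∑ l, ∑ m, ∑ i, ∑ j, (α l * W m i - α m * W l i) * (α l * W m j - α m * W l j) *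
      K i j = ∑ i, ∑ j, (∑ l, ∑ m, (α l * W m i - α m * W l i) * (α l * W m j - α m * W l j)) *
      K i j := by
    have h3 : ∀ l, ∑ m, ∑ i, ∑ j, (α l * W m i - α m * W l i) * (α l * W m j - α m * W l j) *
        K i j = ∑ i, ∑ j, ∑ m, (α l * W m i - α m * W l i) * (α l * W m j - α m * W l j) *
        K i j := by
      intro l
      rw [Finset.sum_comm]
      exact Finset.sum_congr rfl fun i _ => Finset.sum_comm
    rw [Finset.sum_congr rfl fun l _ => h3 l, Finset.sum_comm]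
    refine Finset.sum_congr rfl fun i _ => ?_
    rw [Finset.sum_comm]
    refine Finset.sum_congr rfl fun j _ => ?_
    rw [Finset.sum_mul]
    refine Finset.sum_congr rfl fun l _ => ?_
    rw [Finset.sum_mul]
  have h3 : ∀ i j, ∑ l, ∑ m, (α l * W m i - α m * W l i) * (α l * W m j - α m * W l j) =
      2 * ((∑ l, α l ^ 2) * ∑ l, W l i * W l j) -
      2 * ((∑ l, α l * W l i) * (∑ l, α l * W l j)) := by
    intro i j
    have h4 : ∀ l m, (α l * W m i - α m * W l i) * (α l * W m j - α m * W l j) =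
        α l ^ 2 * (W m i * W m j) - (α l * W l j) * (α m * W m i) -
        (α l * W l i) * (α m * W m j) + (W l i * W l j) * α m ^ 2 := by
      intro l m; ring
    simp only [h4, Finset.sum_add_distrib, Finset.sum_sub_distrib]
    rw [← Finset.sum_mul_sum, ← Finset.sum_mul_sum, ← Finset.sum_mul_sum, ← Finset.sum_mul_sum]
    ring
  rw [h2] at h1
  have h4 : ∑ i, ∑ j, (∑ l, ∑ m, (α l * W m i - α m * W l i) * (α l * W m j - α m * W l j)) *
      K i j = 2 * ((∑ l, α l ^ 2) * ∑ l, ∑ i, ∑ j, W l i * W l j * K i j) -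
      2 * ∑ i, ∑ j, (∑ l, α l * W l i) * (∑ l, α l * W l j) * K i j := by
    have h5 : ∑ l, ∑ i, ∑ j, W l i * W l j * K i j = ∑ i, ∑ j, (∑ l, W l i * W l j) * K i j := by
      rw [Finset.sum_comm]
      refine Finset.sum_congr rfl fun i _ => ?_
      rw [Finset.sum_comm]
      refine Finset.sum_congr rfl fun j _ => ?_
      rw [Finset.sum_mul]
    rw [h5, Finset.mul_sum, Finset.mul_sum, Finset.mul_sum, ← Finset.sum_sub_distrib]
    refine Finset.sum_congr rfl fun i _ => ?_
    rw [Finset.mul_sum, Finset.mul_sum, Finset.mul_sum, ← Finset.sum_sub_distrib]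
    refine Finset.sum_congr rfl fun j _ => ?_
    rw [h3]
    ring
  rw [h4] at h1
  linarith

private theorem dist_p {p : ℝ} (h1 : 1 ≤ p) (s t m : ℝ) :
    |s - t| ^ p ≤ 2 ^ (p - 1) * (|s - m| ^ p + |t - m| ^ p) := by
  have h3 : |s - t| ≤ |s - m| + |t - m| := by
    have : s - t = (s - m) - (t - m) := by ring
    rw [this]
    exact abs_sub _ _
  refine (Real.rpow_le_rpow (abs_nonneg _) h3 (by linarith)).trans ?_
  have h4 := NNReal.rpow_add_le_mul_rpow_add_rpow ⟨|s - m|, abs_nonneg _⟩ ⟨|t - m|, abs_nonneg _⟩ h1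
  exact_mod_cast h4

/-- The pointwise trace inequality. -/
private theorem z7q {ι : Type} [Fintype ι] {D : ℕ} (π s : ι → ℝ) {π0 : ℝ} (hπ0 : 0 < π0)
    (hπ : ∀ i, π0 ≤ π i) {p : ℝ} (h1 : 1 ≤ p) (h2 : p ≤ 2) {κ : ℝ} (hκ0 : 0 ≤ κ)
    (hκ : κ ^ (2 + p) * (∑ i, π i) ^ (2 - p) ≤ (2 / 5 : ℝ) ^ (2 + p) * π0 ^ (2 - p))
    (e : Fin D → EuclideanSpace ℝ ι) (he : ∀ l, ∑ i, Real.sqrt (π i) * e l i = 0) {m : ℝ}
    (hm : ∑ i, π i * (s i - m) = 0) (α : Fin D → ℝ)
    (hα : ∀ i, Real.sqrt (π i) * (s i - m) = ∑ l, α l * e l i)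
    (hα2 : ∑ l, α l ^ 2 = ∑ i, π i * (s i - m) ^ 2) :
    κ * ∑ i, ∑ j, π i * π j * |s i - s j| ^ p ≤ 2 ^ p * (∑ i, π i) *
      ∑ l, (-∑ i, ∑ j, (Real.sqrt (π i) * e l i) * (Real.sqrt (π j) * e l j) *
        |s i - s j| ^ p) := by
  have hpp : ∀ i, 0 < π i := fun i => lt_of_lt_of_le hπ0 (hπ i)
  have hC0 : 0 ≤ ∑ i, π i := Finset.sum_nonneg fun i _ => (hpp i).le
  set R := ∑ l, (-∑ i, ∑ j, (Real.sqrt (π i) * e l i) * (Real.sqrt (π j) * e l j) *
    |s i - s j| ^ p) with hR
  have hd1 : ∑ i, ∑ j, π i * π j * |s i - s j| ^ p ≤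
      2 ^ p * (∑ i, π i) * ∑ i, π i * |s i - m| ^ p := by
    have h3 : ∀ i j, π i * π j * |s i - s j| ^ p ≤
        2 ^ (p - 1) * ((π i * |s i - m| ^ p) * π j + π i * (π j * |s j - m| ^ p)) := by
      intro i j
      have h4 := mul_le_mul_of_nonneg_left (dist_p h1 (s i) (s j) m)
        (mul_nonneg (hpp i).le (hpp j).le)
      calc _ ≤ _ := h4
        _ = _ := by ring
    refine (Finset.sum_le_sum fun i _ => Finset.sum_le_sum fun j _ => h3 i j).trans (le_of_eq ?_)
    have h5 : (2 : ℝ) ^ p = 2 * 2 ^ (p - 1) := by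
      rw [Real.rpow_sub_one (by norm_num)]
      ring
    have h6 : ∑ i, ∑ j, 2 ^ (p - 1) * ((π i * |s i - m| ^ p) * π j + π i * (π j * |s j - m| ^ p)) =
        2 ^ (p - 1) * ((∑ i, π i * |s i - m| ^ p) * (∑ j, π j) +
          (∑ i, π i) * (∑ j, π j * |s j - m| ^ p)) := by
      rw [Finset.sum_mul_sum, Finset.sum_mul_sum, ← Finset.sum_add_distrib, Finset.mul_sum]
      refine Finset.sum_congr rfl fun i _ => ?_
      rw [← Finset.sum_add_distrib, Finset.mul_sum]
    rw [h6, h5]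
    ring
  have h3 : κ * (∑ i, π i * |s i - m| ^ p) ≤ R := by
    have h4 := z4q π (fun i => s i - m) hπ0 hπ h1 h2 hκ0 hκ
    have h5 : ∀ i, ∑ l, α l * (Real.sqrt (π i) * e l i) = π i * (s i - m) := by
      intro i
      have h6 : ∑ l, α l * (Real.sqrt (π i) * e l i) = Real.sqrt (π i) * ∑ l, α l * e l i := by
        rw [Finset.mul_sum]
        exact Finset.sum_congr rfl fun l _ => by ring
      rw [h6, ← hα i, ← mul_assoc, Real.mul_self_sqrt (hpp i).le]
    have h6 : ∑ i, ∑ j, (π i * (s i - m)) * (π j * (s j - m)) *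
        (|s i - m| ^ p + |s j - m| ^ p - |(s i - m) - (s j - m)| ^ p) =
        ∑ i, ∑ j, (∑ l, α l * (Real.sqrt (π i) * e l i)) *
          (∑ l, α l * (Real.sqrt (π j) * e l j)) * (-|s i - s j| ^ p) := by
      simp only [h5]
      have h7 : ∀ i j, (π i * (s i - m)) * (π j * (s j - m)) *
          (|s i - m| ^ p + |s j - m| ^ p - |(s i - m) - (s j - m)| ^ p) =
          (π i * (s i - m) * |s i - m| ^ p) * (π j * (s j - m)) +
          (π i * (s i - m)) * (π j * (s j - m) * |s j - m| ^ p) +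
          (π i * (s i - m)) * (π j * (s j - m)) * (-|s i - s j| ^ p) := by
        intro i j
        have : (s i - m) - (s j - m) = s i - s j := by ring
        rw [this]
        ring
      simp only [h7, Finset.sum_add_distrib]
      rw [← Finset.sum_mul_sum, ← Finset.sum_mul_sum, hm]
      ring
    rw [h6] at h4
    have h7 := cs_form (fun i j => -|s i - s j| ^ p) (fun w hw => by
      have h8 := npsd w s hw (by linarith : 0 < p) h2
      have h9 : ∑ i, ∑ j, w i * w j * (-|s i - s j| ^ p) =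
          -∑ i, ∑ j, w i * w j * |s i - s j| ^ p := by
        rw [← Finset.sum_neg_distrib]
        refine Finset.sum_congr rfl fun i _ => ?_
        rw [← Finset.sum_neg_distrib]
        exact Finset.sum_congr rfl fun j _ => by ring
      rw [h9]
      linarith) α (fun l i => Real.sqrt (π i) * e l i) he
    have h8 : ∑ l, ∑ i, ∑ j, (Real.sqrt (π i) * e l i) * (Real.sqrt (π j) * e l j) *
        (-|s i - s j| ^ p) = R := by
      rw [hR]
      refine Finset.sum_congr rfl fun l _ => ?_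
      rw [← Finset.sum_neg_distrib]
      refine Finset.sum_congr rfl fun i _ => ?_
      rw [← Finset.sum_neg_distrib]
      exact Finset.sum_congr rfl fun j _ => by ring
    rw [h8, hα2] at h7
    have h9 := h4.trans h7
    have hA20 : 0 ≤ ∑ i, π i * (s i - m) ^ 2 :=
      Finset.sum_nonneg fun i _ => mul_nonneg (hpp i).le (sq_nonneg _)
    rcases eq_or_lt_of_le hA20 with h0 | h0
    · have h10 : ∀ i, π i * (s i - m) ^ 2 = 0 := fun i =>
        (Finset.sum_eq_zero_iff_of_nonneg fun i _ => mul_nonneg (hpp i).le (sq_nonneg _)).1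
          h0.symm i (Finset.mem_univ i)
      have h11 : ∀ i, s i - m = 0 := by
        intro i
        rcases mul_eq_zero.1 (h10 i) with h12 | h12
        · exact absurd h12 (hpp i).ne'
        · exact pow_eq_zero_iff (two_ne_zero) |>.1 h12
      have h12 : ∀ i j, s i - s j = 0 := by
        intro i j
        have := h11 i
        have := h11 j
        linarith
      have hp0 : p ≠ 0 := by linarith
      have h13 : R = 0 := by
        rw [hR]
        refine Finset.sum_eq_zero fun l _ => ?_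
        rw [neg_eq_zero]
        refine Finset.sum_eq_zero fun i _ => Finset.sum_eq_zero fun j _ => ?_
        rw [h12 i j, abs_zero, Real.zero_rpow hp0, mul_zero]
      rw [h13]
      have h14 : ∑ i, π i * |s i - m| ^ p = 0 := by
        refine Finset.sum_eq_zero fun i _ => ?_
        rw [h11 i, abs_zero, Real.zero_rpow hp0, mul_zero]
      rw [h14, mul_zero]
    · have h10 : (∑ i, π i * (s i - m) ^ 2) * (κ * (∑ i, π i * |s i - m| ^ p)) ≤
          (∑ i, π i * (s i - m) ^ 2) * R := by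
        calc _ = κ * (∑ i, π i * |s i - m| ^ p) * (∑ i, π i * (s i - m) ^ 2) := by ring
          _ ≤ _ := h9
      exact le_of_mul_le_mul_left h10 h0
  have h2p : 0 ≤ (2 : ℝ) ^ p := Real.rpow_nonneg (by norm_num) _
  calc κ * ∑ i, ∑ j, π i * π j * |s i - s j| ^ p
      ≤ κ * (2 ^ p * (∑ i, π i) * ∑ i, π i * |s i - m| ^ p) :=
        mul_le_mul_of_nonneg_left hd1 hκ0
    _ = 2 ^ p * (∑ i, π i) * (κ * ∑ i, π i * |s i - m| ^ p) := by ring
    _ ≤ _ := mul_le_mul_of_nonneg_left h3 (by positivity)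

/-- The integrated trace inequality over the linear functionals. -/
theorem trace_Zp {e : ℕ} {ι : Type} [Fintype ι] (y : ι → E e) (μ : Measure (E e)) {p : ℝ}
    (h1 : 1 ≤ p) (h2 : p ≤ 2) (hint : ∀ z : E e, Integrable (fun u => |inner ℝ z u| ^ p) μ)
    (π : ι → ℝ) {π0 : ℝ} (hπ0 : 0 < π0) (hπ : ∀ i, π0 ≤ π i) {κ : ℝ} (hκ0 : 0 ≤ κ)
    (hκ : κ ^ (2 + p) * (∑ i, π i) ^ (2 - p) ≤ (2 / 5 : ℝ) ^ (2 + p) * π0 ^ (2 - p))
    {Λ : ℝ} (hΛ0 : 0 ≤ Λ) (hΛ : ∀ w : ι → ℝ, ∑ i, w i = 0 →
      (-∑ i, ∑ j, w i * w j * ∫ u, |inner ℝ (y i - y j) u| ^ p ∂μ) ≤ Λ * ∑ i, w i ^ 2 / π i) :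
    κ * ∑ i, ∑ j, π i * π j * ∫ u, |inner ℝ (y i - y j) u| ^ p ∂μ ≤
      2 ^ p * (∑ i, π i) * (Λ * e) := by
  classical
  rcases isEmpty_or_nonempty ι with hemp | hne
  · simp
  have hpp : ∀ i, 0 < π i := fun i => lt_of_lt_of_le hπ0 (hπ i)
  set C := ∑ i, π i with hC
  have hC0 : 0 < C := Finset.sum_pos (fun i _ => hpp i) Finset.univ_nonempty
  have h2p : 0 < (2 : ℝ) ^ p := Real.rpow_pos_of_pos (by norm_num) _
  let m : E e →ₗ[ℝ] ℝ :=
    { toFun := fun u => (∑ j, π j * inner ℝ (y j) u) / C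
      map_add' := by
        intro u v
        simp only [inner_add_right, mul_add, Finset.sum_add_distrib, add_div]
      map_smul' := by
        intro r u
        simp only [inner_smul_right, RingHom.id_apply, smul_eq_mul]
        rw [← mul_div_assoc, Finset.mul_sum]
        congr 1
        exact Finset.sum_congr rfl fun j _ => by ring }
  let Ψ : E e →ₗ[ℝ] EuclideanSpace ℝ ι :=
    { toFun := fun u => WithLp.toLp 2 (fun i => Real.sqrt (π i) * (inner ℝ (y i) u - m u))
      map_add' := by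
        intro u v
        ext i
        simp only [map_add, inner_add_right, PiLp.add_apply]
        ring
      map_smul' := by
        intro r u
        ext i
        simp only [map_smul, inner_smul_right, RingHom.id_apply, smul_eq_mul, PiLp.smul_apply]
        ring }
  have hΨ : ∀ u i, Ψ u i = Real.sqrt (π i) * (inner ℝ (y i) u - m u) := fun u i => rfl
  have hm : ∀ u, ∑ i, π i * (inner ℝ (y i) u - m u) = 0 := by
    intro u
    simp only [mul_sub, Finset.sum_sub_distrib]
    rw [← Finset.sum_mul, ← hC]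
    have : C * m u = ∑ j, π j * inner ℝ (y j) u := by
      change C * ((∑ j, π j * inner ℝ (y j) u) / C) = _
      field_simp
    rw [this, sub_self]
  set W := LinearMap.range Ψ with hW
  set D := Module.finrank ℝ W with hD
  have hDe : D ≤ e := by
    have h1 := LinearMap.finrank_range_le Ψ
    rwa [finrank_euclideanSpace_fin] at h1
  let b := stdOrthonormalBasis ℝ W
  let ev : Fin D → EuclideanSpace ℝ ι := fun l => (b l : EuclideanSpace ℝ ι)
  have heo : Orthonormal ℝ ev := b.orthonormal.comp_linearIsometry W.subtypeₗᵢ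
  have he0 : ∀ l, ∑ i, Real.sqrt (π i) * ev l i = 0 := by
    intro l
    obtain ⟨u, hu⟩ : ∃ u, Ψ u = (b l : EuclideanSpace ℝ ι) := (b l).2
    have h1 : ∀ i, Real.sqrt (π i) * ev l i = π i * (inner ℝ (y i) u - m u) := by
      intro i
      change Real.sqrt (π i) * (b l : EuclideanSpace ℝ ι) i = _
      rw [← hu, hΨ, ← mul_assoc, Real.mul_self_sqrt (hpp i).le]
    rw [Finset.sum_congr rfl fun i _ => h1 i]
    exact hm u
  have he1 : ∀ l, ∑ i, (ev l i) ^ 2 = 1 := by
    intro l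
    have h4 := heo.1 l
    have h5 := EuclideanSpace.norm_sq_eq (ev l)
    rw [h4] at h5
    simp only [Real.norm_eq_abs, sq_abs] at h5
    linarith
  have hpt : ∀ u, κ * ∑ i, ∑ j, π i * π j * |inner ℝ (y i - y j) u| ^ p ≤ 2 ^ p * C *
      ∑ l, (-∑ i, ∑ j, (Real.sqrt (π i) * ev l i) * (Real.sqrt (π j) * ev l j) *
        |inner ℝ (y i - y j) u| ^ p) := by
    intro u
    have hmem : Ψ u ∈ W := LinearMap.mem_range_self Ψ u
    have hsum := b.sum_repr ⟨Ψ u, hmem⟩
    have hs1 : ∀ i, Real.sqrt (π i) * (inner ℝ (y i) u - m u) =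
        ∑ l, b.repr ⟨Ψ u, hmem⟩ l * ev l i := by
      intro i
      rw [← hΨ]
      have h1 := congrArg (fun z : W => (z : EuclideanSpace ℝ ι) i) hsum
      simp only at h1
      rw [← h1]
      simp [ev]
    have hs2 : ∑ l, (b.repr ⟨Ψ u, hmem⟩ l) ^ 2 = ∑ i, π i * (inner ℝ (y i) u - m u) ^ 2 := by
      have h1 : ‖b.repr ⟨Ψ u, hmem⟩‖ ^ 2 = ‖Ψ u‖ ^ 2 := by
        rw [b.repr.norm_map]
        rfl
      rw [EuclideanSpace.norm_sq_eq, EuclideanSpace.norm_sq_eq] at h1
      simp only [Real.norm_eq_abs, sq_abs] at h1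
      rw [h1]
      refine Finset.sum_congr rfl fun i _ => ?_
      rw [hΨ, mul_pow, Real.sq_sqrt (hpp i).le]
    have h3 := z7q π (fun i => inner ℝ (y i) u) hπ0 hπ h1 h2 hκ0 hκ ev he0 (hm u)
      (fun l => b.repr ⟨Ψ u, hmem⟩ l) hs1 hs2
    simpa only [inner_sub_left] using h3
  have hI1 : ∀ i j, Integrable (fun u => |inner ℝ (y i - y j) u| ^ p) μ := fun i j => hint _
  have hL : Integrable (fun u => κ * ∑ i, ∑ j, π i * π j * |inner ℝ (y i - y j) u| ^ p) μ :=
    (integrable_finsetSum _ fun i _ => integrable_finsetSum _ fun j _ =>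
      (hI1 i j).const_mul _).const_mul _
  have hR1 : ∀ l, Integrable (fun u => -∑ i, ∑ j, (Real.sqrt (π i) * ev l i) *
      (Real.sqrt (π j) * ev l j) * |inner ℝ (y i - y j) u| ^ p) μ := fun l =>
    (integrable_finsetSum _ fun i _ => integrable_finsetSum _ fun j _ =>
      (hI1 i j).const_mul _).neg
  have hR : Integrable (fun u => 2 ^ p * C * ∑ l, (-∑ i, ∑ j, (Real.sqrt (π i) * ev l i) *
      (Real.sqrt (π j) * ev l j) * |inner ℝ (y i - y j) u| ^ p)) μ :=
    (integrable_finsetSum _ fun l _ => hR1 l).const_mul _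
  have hmono := integral_mono hL hR hpt
  rw [integral_const_mul, integral_const_mul] at hmono
  have hLi : ∫ u, ∑ i, ∑ j, π i * π j * |inner ℝ (y i - y j) u| ^ p ∂μ =
      ∑ i, ∑ j, π i * π j * ∫ u, |inner ℝ (y i - y j) u| ^ p ∂μ := by
    rw [integral_finsetSum _ fun i _ => integrable_finsetSum _ fun j _ => (hI1 i j).const_mul _]
    refine Finset.sum_congr rfl fun i _ => ?_
    rw [integral_finsetSum _ fun j _ => (hI1 i j).const_mul _]
    refine Finset.sum_congr rfl fun j _ => ?_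
    rw [integral_const_mul]
  have hRi : ∫ u, ∑ l, (-∑ i, ∑ j, (Real.sqrt (π i) * ev l i) *
      (Real.sqrt (π j) * ev l j) * |inner ℝ (y i - y j) u| ^ p) ∂μ =
      ∑ l, (-∑ i, ∑ j, (Real.sqrt (π i) * ev l i) *
      (Real.sqrt (π j) * ev l j) * ∫ u, |inner ℝ (y i - y j) u| ^ p ∂μ) := by
    rw [integral_finsetSum _ fun l _ => hR1 l]
    refine Finset.sum_congr rfl fun l _ => ?_
    rw [integral_neg]
    congr 1
    rw [integral_finsetSum _ fun i _ => integrable_finsetSum _ fun j _ => (hI1 i j).const_mul _]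
    refine Finset.sum_congr rfl fun i _ => ?_
    rw [integral_finsetSum _ fun j _ => (hI1 i j).const_mul _]
    refine Finset.sum_congr rfl fun j _ => ?_
    rw [integral_const_mul]
  rw [hLi, hRi] at hmono
  refine hmono.trans ?_
  refine mul_le_mul_of_nonneg_left ?_ (by positivity)
  have hl : ∀ l, (-∑ i, ∑ j, (Real.sqrt (π i) * ev l i) *
      (Real.sqrt (π j) * ev l j) * ∫ u, |inner ℝ (y i - y j) u| ^ p ∂μ) ≤ Λ := by
    intro l
    refine (hΛ (fun i => Real.sqrt (π i) * ev l i) (he0 l)).trans (le_of_eq ?_)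
    have h1 : ∀ i, (Real.sqrt (π i) * ev l i) ^ 2 / π i = (ev l i) ^ 2 := by
      intro i
      rw [mul_pow, Real.sq_sqrt (hpp i).le]
      have := (hpp i).ne'
      field_simp
    rw [Finset.sum_congr rfl fun i _ => h1 i, he1 l, mul_one]
  calc _ ≤ ∑ _l : Fin D, Λ := Finset.sum_le_sum fun l _ => hl l
    _ = D * Λ := by rw [Finset.sum_const, Finset.card_univ, Fintype.card_fin, nsmul_eq_mul]
    _ ≤ e * Λ := mul_le_mul_of_nonneg_right (by exact_mod_cast hDe) hΛ0
    _ = Λ * e := mul_comm _ _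

end Pool.Agent.StB
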