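import Pool.Agent.StB.Zp3

/-!
# `1 ≤ p ≤ 2`: comparable radii, large radii, the bound
-/

set_option autoImplicit false

open scoped BigOperators
open MeasureTheory

namespace Pool.Agent.StB

/-! ### Numerical facts -/

private theorem pow_e {n e p : ℝ} (h1 : 1 ≤ p) (he : 1 ≤ e)
    (hn : 25 * e ^ (1 / 2 + 1 / p) < n) : e ^ (2 + p) < n ^ (2 * p) * (1 / 625 : ℝ) ^ p := by
  have hp0 : 0 < p := by linarith
  have he0 : 0 < e := by linarith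
  have h3 : e ^ (1 / 2 + 1 / p) < n / 25 := by
    rw [lt_div_iff₀ (by norm_num)]
    linarith
  have h4 : (e ^ (1 / 2 + 1 / p)) ^ (2 * p) < (n / 25) ^ (2 * p) :=
    Real.rpow_lt_rpow (Real.rpow_nonneg he0.le _) h3 (by positivity)
  have h5 : (e ^ (1 / 2 + 1 / p)) ^ (2 * p) = e ^ (2 + p) := by
    rw [← Real.rpow_mul he0.le]
    congr 1
    field_simp
    ring
  have hn0 : 0 < n := by
    have : 0 < e ^ (1 / 2 + 1 / p) := Real.rpow_pos_of_pos he0 _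
    linarith
  have h6 : (n / 25) ^ (2 * p) = n ^ (2 * p) * (1 / 625 : ℝ) ^ p := by
    rw [div_eq_mul_inv, Real.mul_rpow hn0.le (by norm_num)]
    congr 1
    rw [Real.rpow_mul (by norm_num), Real.rpow_two]
    norm_num
  rw [h5, h6] at h4
  exact h4

theorem n_large {n e p : ℝ} (h1 : 1 ≤ p) (he : 1 ≤ e)
    (hn : 25 * e ^ (1 / 2 + 1 / p) < n) : 25 < n := by
  have h3 : (1 : ℝ) ≤ e ^ (1 / 2 + 1 / p) := Real.one_le_rpow he (by positivity)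
  linarith

theorem numN {n e p : ℝ} (h1 : 1 ≤ p) (he : 1 ≤ e)
    (hn : 25 * e ^ (1 / 2 + 1 / p) < n) :
    ((2 : ℝ) ^ (2 * p - 1) * e) ^ (2 + p) * ((4 : ℝ) ^ p * n) ^ (2 - p) <
      (2 / 5 * (n - 1)) ^ (2 + p) := by
  have hn25 := n_large h1 he hn
  have hn0 : 0 < n := by linarith
  have he0 : 0 < e := by linarith
  have h3 := pow_e h1 he hn
  have h4 : (48 / 125 * n) ^ (2 + p) ≤ (2 / 5 * (n - 1)) ^ (2 + p) :=
    Real.rpow_le_rpow (by positivity) (by linarith) (by linarith)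
  refine lt_of_lt_of_le ?_ h4
  have h2pos : ∀ x : ℝ, 0 < (2 : ℝ) ^ x := fun x => Real.rpow_pos_of_pos (by norm_num) _
  have e4 : (4 : ℝ) ^ p = 2 ^ (2 * p) := by
    rw [Real.rpow_mul (by norm_num), Real.rpow_two]
    norm_num
  -- the left side
  have hl : ((2 : ℝ) ^ (2 * p - 1) * e) ^ (2 + p) * ((4 : ℝ) ^ p * n) ^ (2 - p) =
      (2 : ℝ) ^ (7 * p - 2) * e ^ (2 + p) * n ^ (2 - p) := by
    rw [e4, Real.mul_rpow (h2pos _).le he0.le, Real.mul_rpow (h2pos _).le hn0.le,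
      ← Real.rpow_mul (by norm_num), ← Real.rpow_mul (by norm_num)]
    have h5 : (2 : ℝ) ^ ((2 * p - 1) * (2 + p)) * (2 : ℝ) ^ (2 * p * (2 - p)) =
        (2 : ℝ) ^ (7 * p - 2) := by
      rw [← Real.rpow_add (by norm_num)]
      congr 1
      ring
    calc _ = ((2 : ℝ) ^ ((2 * p - 1) * (2 + p)) * (2 : ℝ) ^ (2 * p * (2 - p))) * e ^ (2 + p) *
          n ^ (2 - p) := by ring
      _ = _ := by rw [h5]
  have hr : (48 / 125 * n) ^ (2 + p) = (2304 / 15625) * (48 / 125 : ℝ) ^ p *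
      (n ^ (2 * p) * n ^ (2 - p)) := by
    rw [Real.mul_rpow (by norm_num) hn0.le, Real.rpow_add (by norm_num), Real.rpow_two,
      ← Real.rpow_add hn0]
    have : 2 * p + (2 - p) = 2 + p := by ring
    rw [this]
    norm_num
  rw [hl, hr]
  have hA : 0 < (2 : ℝ) ^ (7 * p - 2) := h2pos _
  have hn2 : 0 < n ^ (2 - p) := Real.rpow_pos_of_pos hn0 _
  have hn2p : 0 < n ^ (2 * p) := Real.rpow_pos_of_pos hn0 _
  have h5 : (2 : ℝ) ^ (7 * p - 2) * e ^ (2 + p) * n ^ (2 - p) <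
      (2 : ℝ) ^ (7 * p - 2) * (n ^ (2 * p) * (1 / 625 : ℝ) ^ p) * n ^ (2 - p) :=
    mul_lt_mul_of_pos_right (mul_lt_mul_of_pos_left h3 hA) hn2
  refine lt_of_lt_of_le h5 ?_
  have e5 : (2 : ℝ) ^ (7 * p - 2) = 1 / 4 * (128 : ℝ) ^ p := by
    rw [Real.rpow_sub (by norm_num), Real.rpow_two, Real.rpow_mul (by norm_num)]
    norm_num
    ring
  have e6 : (128 : ℝ) ^ p * (1 / 625 : ℝ) ^ p = (128 / 625 : ℝ) ^ p := by
    rw [← Real.mul_rpow (by norm_num) (by norm_num)]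
    norm_num
  have e7 : (48 / 125 : ℝ) ^ p = (15 / 8 : ℝ) ^ p * (128 / 625 : ℝ) ^ p := by
    rw [← Real.mul_rpow (by norm_num) (by norm_num)]
    norm_num
  have e8 : (15 / 8 : ℝ) ≤ (15 / 8 : ℝ) ^ p := by
    have := Real.rpow_le_rpow_of_exponent_le (by norm_num : (1 : ℝ) ≤ 15 / 8) h1
    rwa [Real.rpow_one] at this
  have h128 : 0 < (128 / 625 : ℝ) ^ p := Real.rpow_pos_of_pos (by norm_num) _
  rw [e5]
  calc 1 / 4 * (128 : ℝ) ^ p * (n ^ (2 * p) * (1 / 625 : ℝ) ^ p) * n ^ (2 - p)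
      = 1 / 4 * ((128 : ℝ) ^ p * (1 / 625 : ℝ) ^ p) * (n ^ (2 * p) * n ^ (2 - p)) := by ring
    _ = 1 / 4 * (128 / 625 : ℝ) ^ p * (n ^ (2 * p) * n ^ (2 - p)) := by rw [e6]
    _ ≤ 2304 / 15625 * (48 / 125 : ℝ) ^ p * (n ^ (2 * p) * n ^ (2 - p)) := by
        refine mul_le_mul_of_nonneg_right ?_ (by positivity)
        rw [e7]
        nlinarith [mul_le_mul_of_nonneg_right e8 h128.le]

theorem numF {n e p : ℝ} (h1 : 1 ≤ p) (h2 : p ≤ 2) (he : 1 ≤ e)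
    (hn : 25 * e ^ (1 / 2 + 1 / p) < n) :
    (5 / 4 * (2 : ℝ) ^ p * e) ^ (2 + p) * n ^ (2 - p) < (2 / 5 * (n - 5 / 4)) ^ (2 + p) := by
  have hn25 := n_large h1 he hn
  have hn0 : 0 < n := by linarith
  have he0 : 0 < e := by linarith
  have h3 := pow_e h1 he hn
  have h4 : (19 / 50 * n) ^ (2 + p) ≤ (2 / 5 * (n - 5 / 4)) ^ (2 + p) :=
    Real.rpow_le_rpow (by positivity) (by linarith) (by linarith)
  refine lt_of_lt_of_le ?_ h4
  have h2p : 0 < (2 : ℝ) ^ p := Real.rpow_pos_of_pos (by norm_num) _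
  have hn2 : 0 < n ^ (2 - p) := Real.rpow_pos_of_pos hn0 _
  have hn2p : 0 < n ^ (2 * p) := Real.rpow_pos_of_pos hn0 _
  have h6 : 0 < (5 / 4 * (2 : ℝ) ^ p) ^ (2 + p) := Real.rpow_pos_of_pos (by positivity) _
  have hconst : (5 / 4 * (2 : ℝ) ^ p) ^ (2 + p) * (1 / 625 : ℝ) ^ p ≤ (19 / 50 : ℝ) ^ (2 + p) := by
    have e1 : 5 / 4 * (2 : ℝ) ^ p = 19 / 50 * (125 / 38 * (2 : ℝ) ^ p) := by ring
    rw [e1, Real.mul_rpow (by norm_num) (by positivity), Real.mul_rpow (by norm_num) h2p.le,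
      ← Real.rpow_mul (by norm_num)]
    have h19 : 0 < (19 / 50 : ℝ) ^ (2 + p) := Real.rpow_pos_of_pos (by norm_num) _
    have e2 : (2 : ℝ) ^ (p * (2 + p)) ≤ 1 / 4 * (32 : ℝ) ^ p := by
      have h7 : (2 : ℝ) ^ (p * (2 + p)) ≤ (2 : ℝ) ^ (5 * p - 2) := by
        refine Real.rpow_le_rpow_of_exponent_le (by norm_num) ?_
        nlinarith [mul_nonneg (by linarith : 0 ≤ p - 1) (by linarith : 0 ≤ 2 - p)]
      refine h7.trans (le_of_eq ?_)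
      rw [Real.rpow_sub (by norm_num), Real.rpow_two, Real.rpow_mul (by norm_num)]
      norm_num
      ring
    have e3 : (125 / 38 : ℝ) ^ (2 + p) = 15625 / 1444 * (125 / 38 : ℝ) ^ p := by
      rw [Real.rpow_add (by norm_num), Real.rpow_two]
      norm_num
    have e4 : (125 / 38 : ℝ) ^ p * (32 : ℝ) ^ p = (2000 / 19 : ℝ) ^ p := by
      rw [← Real.mul_rpow (by norm_num) (by norm_num)]
      norm_num
    have e5 : (2000 / 19 : ℝ) ^ p * (1 / 625 : ℝ) ^ p = (16 / 95 : ℝ) ^ p := by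
      rw [← Real.mul_rpow (by norm_num) (by norm_num)]
      norm_num
    have e6 : (16 / 95 : ℝ) ^ p ≤ 16 / 95 := by
      have := Real.rpow_le_rpow_of_exponent_ge (by norm_num : (0 : ℝ) < 16 / 95) (by norm_num) h1
      rwa [Real.rpow_one] at this
    have h125 : 0 < (125 / 38 : ℝ) ^ p := Real.rpow_pos_of_pos (by norm_num) _
    have h625 : 0 < (1 / 625 : ℝ) ^ p := Real.rpow_pos_of_pos (by norm_num) _
    have h8 : (125 / 38 : ℝ) ^ (2 + p) * (2 : ℝ) ^ (p * (2 + p)) * (1 / 625 : ℝ) ^ p ≤ 1 := by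
      rw [e3]
      calc 15625 / 1444 * (125 / 38 : ℝ) ^ p * (2 : ℝ) ^ (p * (2 + p)) * (1 / 625 : ℝ) ^ p
          ≤ 15625 / 1444 * (125 / 38 : ℝ) ^ p * (1 / 4 * (32 : ℝ) ^ p) * (1 / 625 : ℝ) ^ p := by
            refine mul_le_mul_of_nonneg_right ?_ h625.le
            exact mul_le_mul_of_nonneg_left e2 (by positivity)
        _ = 15625 / 5776 * (((125 / 38 : ℝ) ^ p * (32 : ℝ) ^ p) * (1 / 625 : ℝ) ^ p) := by ring
        _ = 15625 / 5776 * (16 / 95 : ℝ) ^ p := by rw [e4, e5]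
        _ ≤ 1 := by linarith
    calc (19 / 50 : ℝ) ^ (2 + p) * ((125 / 38 : ℝ) ^ (2 + p) * (2 : ℝ) ^ (p * (2 + p))) *
          (1 / 625 : ℝ) ^ p = (19 / 50 : ℝ) ^ (2 + p) *
          ((125 / 38 : ℝ) ^ (2 + p) * (2 : ℝ) ^ (p * (2 + p)) * (1 / 625 : ℝ) ^ p) := by ring
      _ ≤ (19 / 50 : ℝ) ^ (2 + p) * 1 := mul_le_mul_of_nonneg_left h8 h19.le
      _ = _ := mul_one _
  have hr : (19 / 50 * n) ^ (2 + p) = (19 / 50 : ℝ) ^ (2 + p) * (n ^ (2 * p) * n ^ (2 - p)) := by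
    rw [Real.mul_rpow (by norm_num) hn0.le, ← Real.rpow_add hn0]
    have : 2 * p + (2 - p) = 2 + p := by ring
    rw [this]
  rw [hr, Real.mul_rpow (by positivity) he0.le]
  calc (5 / 4 * (2 : ℝ) ^ p) ^ (2 + p) * e ^ (2 + p) * n ^ (2 - p)
      < (5 / 4 * (2 : ℝ) ^ p) ^ (2 + p) * (n ^ (2 * p) * (1 / 625 : ℝ) ^ p) * n ^ (2 - p) :=
        mul_lt_mul_of_pos_right (mul_lt_mul_of_pos_left h3 h6) hn2
    _ = ((5 / 4 * (2 : ℝ) ^ p) ^ (2 + p) * (1 / 625 : ℝ) ^ p) * (n ^ (2 * p) * n ^ (2 - p)) := by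
        ring
    _ ≤ (19 / 50 : ℝ) ^ (2 + p) * (n ^ (2 * p) * n ^ (2 - p)) :=
        mul_le_mul_of_nonneg_right hconst (by positivity)

end Pool.Agent.StB
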