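import Pool.Agent.StB.Zp4

/-!
# `1 ≤ p ≤ 2`: classes and the bound
-/

set_option autoImplicit false

open scoped BigOperators
open MeasureTheory

namespace Pool.Agent.StB

/-- A positive number with a prescribed real power. -/
private theorem root_q {x q : ℝ} (hx : 0 < x) (hq : q ≠ 0) : ∃ κ : ℝ, 0 < κ ∧ κ ^ q = x :=
  ⟨x ^ (1 / q), Real.rpow_pos_of_pos hx _, by
    rw [← Real.rpow_mul hx.le, one_div, inv_mul_cancel₀ hq, Real.rpow_one]⟩

/-- Comparable radii. -/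
theorem near_Zp {e : ℕ} (he : 1 ≤ e) {ι : Type} [Fintype ι] (y : ι → E e) (c : ι → ℝ)
    (μ : Measure (E e)) {p : ℝ} (h1 : 1 ≤ p) (h2 : p ≤ 2)
    (hint : ∀ z : E e, Integrable (fun u => |inner ℝ z u| ^ p) μ) {c0 : ℝ} (hc0 : 0 < c0)
    (hc1 : ∀ i, c0 ≤ c i) (hc2 : ∀ i, c i ≤ 4 * c0)
    (h : ∀ i j, i ≠ j → ∫ u, |inner ℝ (y i - y j) u| ^ p ∂μ = (c i + c j) ^ p) :
    (Fintype.card ι : ℝ) ≤ 25 * (e : ℝ) ^ (1 / 2 + 1 / p) := by
  classical
  by_contra hcon
  push Not at hcon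
  have he1 : (1 : ℝ) ≤ e := by exact_mod_cast he
  have he0 : (0 : ℝ) < e := by linarith
  have hp0 : 0 < p := by linarith
  have hn25 := n_large h1 he1 hcon
  have hN := numN h1 he1 hcon
  set n : ℝ := (Fintype.card ι : ℝ) with hn
  have hne : Nonempty ι := by
    by_contra hemp
    rw [not_nonempty_iff] at hemp
    rw [hn, Fintype.card_eq_zero] at hn25
    norm_num at hn25
  have hcp : ∀ i, 0 < c i := fun i => lt_of_lt_of_le hc0 (hc1 i)
  have h2p : 0 < (2 : ℝ) ^ p := Real.rpow_pos_of_pos (by norm_num) _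
  have h4p : 0 < (4 : ℝ) ^ p := Real.rpow_pos_of_pos (by norm_num) _
  have h4n : 0 < (4 : ℝ) ^ p * n := by positivity
  have h4nr : 0 < ((4 : ℝ) ^ p * n) ^ (2 - p) := Real.rpow_pos_of_pos h4n _
  have h25 : 0 < (2 / 5 : ℝ) ^ (2 + p) := Real.rpow_pos_of_pos (by norm_num) _
  obtain ⟨κ, hκ0, hκ⟩ := root_q (x := (2 / 5 : ℝ) ^ (2 + p) / ((4 : ℝ) ^ p * n) ^ (2 - p))
    (q := 2 + p) (by positivity) (by linarith)
  set π : ι → ℝ := fun i => 1 / (2 * c i) ^ p with hπd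
  have hcpp : ∀ i, 0 < (2 * c i) ^ p := fun i => Real.rpow_pos_of_pos (by have := hcp i; linarith) _
  have hπp : ∀ i, 0 < π i := fun i => one_div_pos.2 (hcpp i)
  set π0 : ℝ := 1 / (8 * c0) ^ p with hπ0d
  have h8c : 0 < (8 * c0) ^ p := Real.rpow_pos_of_pos (by linarith) _
  have hπ0 : 0 < π0 := one_div_pos.2 h8c
  have hπ : ∀ i, π0 ≤ π i := fun i => one_div_le_one_div_of_le (hcpp i)
    (Real.rpow_le_rpow (by have := hcp i; linarith) (by have := hc2 i; linarith) hp0.le)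
  set C := ∑ i, π i with hC
  have hC0 : 0 < C := Finset.sum_pos (fun i _ => hπp i) Finset.univ_nonempty
  have hCn : C ≤ (4 : ℝ) ^ p * n * π0 := by
    have h3 : ∀ i, π i ≤ (4 : ℝ) ^ p * π0 := by
      intro i
      rw [hπd, hπ0d, mul_one_div, div_le_div_iff₀ (hcpp i) h8c, one_mul,
        ← Real.mul_rpow (by norm_num) (by have := hcp i; linarith)]
      exact Real.rpow_le_rpow (by linarith) (by have := hc1 i; linarith) hp0.le
    have h4 : C ≤ ∑ _i : ι, (4 : ℝ) ^ p * π0 := Finset.sum_le_sum fun i _ => h3 i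
    rw [Finset.sum_const, Finset.card_univ, nsmul_eq_mul, ← hn] at h4
    linarith
  have hself : ∀ i, ∫ u, |inner ℝ (y i - y i) u| ^ p ∂μ = 0 := by
    intro i
    simp [Real.zero_rpow hp0.ne']
  have hI : ∀ i j, ∫ u, |inner ℝ (y i - y j) u| ^ p ∂μ =
      (c i + c j) ^ p - (if i = j then (2 * c i) ^ p else 0) := by
    intro i j
    by_cases hij : i = j
    · subst hij
      rw [hself, if_pos rfl, two_mul, sub_self]
    · rw [h i j hij, if_neg hij, sub_zero]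
  have ht := trace_Zp y μ h1 h2 hint π hπ0 hπ hκ0.le ?_ (Λ := 1) (by norm_num) ?_
  · -- the total
    have h3 : (2 : ℝ) ^ (-p) * (2 * (n - 1) * C) ≤
        ∑ i, ∑ j, π i * π j * ∫ u, |inner ℝ (y i - y j) u| ^ p ∂μ := by
      have h4 : ∀ i j, (2 : ℝ) ^ (-p) * (1 * π j + π i * 1 - (if i = j then 2 * π i else 0)) ≤
          π i * π j * ∫ u, |inner ℝ (y i - y j) u| ^ p ∂μ := by
        intro i j
        by_cases hij : i = j
        · subst hij
          rw [hself, if_pos rfl]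
          have : 1 * π i + π i * 1 - 2 * π i = 0 := by ring
          rw [this, mul_zero, mul_zero]
        · rw [h i j hij, if_neg hij, sub_zero]
          have h5 := Real.add_rpow_le_rpow_add (hcp i).le (hcp j).le h1
          have h6 : π i * π j * (c i ^ p + c j ^ p) = (2 : ℝ) ^ (-p) * (1 * π j + π i * 1) := by
            rw [hπd]
            simp only
            rw [Real.mul_rpow (by norm_num) (hcp i).le, Real.mul_rpow (by norm_num) (hcp j).le,
              Real.rpow_neg (by norm_num)]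
            have hi : 0 < c i ^ p := Real.rpow_pos_of_pos (hcp i) _
            have hj : 0 < c j ^ p := Real.rpow_pos_of_pos (hcp j) _
            field_simp
          rw [← h6]
          exact mul_le_mul_of_nonneg_left h5 (mul_nonneg (hπp i).le (hπp j).le)
      refine le_trans (le_of_eq ?_) (Finset.sum_le_sum fun i _ => Finset.sum_le_sum fun j _ => h4 i j)
      have h5 : ∑ i, ∑ j, (2 : ℝ) ^ (-p) * (1 * π j + π i * 1 - (if i = j then 2 * π i else 0)) =
          (2 : ℝ) ^ (-p) * ∑ i, ∑ j, (1 * π j + π i * 1 - (if i = j then 2 * π i else 0)) := by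
        rw [Finset.mul_sum]
        exact Finset.sum_congr rfl fun i _ => by rw [Finset.mul_sum]
      rw [h5]
      congr 1
      simp only [Finset.sum_sub_distrib, Finset.sum_add_distrib]
      rw [← Finset.sum_mul_sum, ← Finset.sum_mul_sum]
      simp only [Finset.sum_ite_eq, Finset.mem_univ, if_true]
      rw [← Finset.mul_sum, ← hC]
      simp only [Finset.sum_const, Finset.card_univ, nsmul_eq_mul, mul_one]
      rw [← hn]
      ring
    have h4 : κ * (n - 1) ≤ (2 : ℝ) ^ (2 * p - 1) * e := by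
      have h5 : κ * ((2 : ℝ) ^ (-p) * (2 * (n - 1) * C)) ≤ 2 ^ p * C * (1 * e) :=
        (mul_le_mul_of_nonneg_left h3 hκ0.le).trans ht
      have e1 : (2 : ℝ) ^ (-p) = ((2 : ℝ) ^ p)⁻¹ := Real.rpow_neg (by norm_num) _
      have e2 : (2 : ℝ) ^ (2 * p - 1) = 2 ^ p * 2 ^ p / 2 := by
        rw [Real.rpow_sub (by norm_num), two_mul, Real.rpow_add (by norm_num), Real.rpow_one]
      rw [e2]
      rw [e1] at h5
      have h6 : (2 * C * ((2 : ℝ) ^ p)⁻¹) * (κ * (n - 1)) ≤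
          (2 * C * ((2 : ℝ) ^ p)⁻¹) * (2 ^ p * 2 ^ p / 2 * e) := by
        calc (2 * C * ((2 : ℝ) ^ p)⁻¹) * (κ * (n - 1)) = κ * (((2 : ℝ) ^ p)⁻¹ * (2 * (n - 1) * C)) := by
              ring
          _ ≤ 2 ^ p * C * (1 * e) := h5
          _ = _ := by field_simp
      exact le_of_mul_le_mul_left h6 (by positivity)
    have h5 : (κ * (n - 1)) ^ (2 + p) ≤ ((2 : ℝ) ^ (2 * p - 1) * e) ^ (2 + p) :=
      Real.rpow_le_rpow (mul_nonneg hκ0.le (by linarith)) h4 (by linarith)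
    rw [Real.mul_rpow hκ0.le (by linarith), hκ] at h5
    have h6 := mul_le_mul_of_nonneg_right h5 h4nr.le
    have h7 : (2 / 5 : ℝ) ^ (2 + p) / ((4 : ℝ) ^ p * n) ^ (2 - p) * (n - 1) ^ (2 + p) *
        ((4 : ℝ) ^ p * n) ^ (2 - p) = (2 / 5 * (n - 1)) ^ (2 + p) := by
      have h8 : (2 / 5 * (n - 1)) ^ (2 + p) = (2 / 5 : ℝ) ^ (2 + p) * (n - 1) ^ (2 + p) :=
        Real.mul_rpow (by norm_num) (by linarith)
      rw [h8]
      have h9 := h4nr.ne'
      calc (2 / 5 : ℝ) ^ (2 + p) / ((4 : ℝ) ^ p * n) ^ (2 - p) * (n - 1) ^ (2 + p) *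
            ((4 : ℝ) ^ p * n) ^ (2 - p) = (2 / 5 : ℝ) ^ (2 + p) * (n - 1) ^ (2 + p) *
            (((4 : ℝ) ^ p * n) ^ (2 - p) / ((4 : ℝ) ^ p * n) ^ (2 - p)) := by ring
        _ = _ := by rw [div_self h9, mul_one]
    rw [h7] at h6
    linarith
  · -- the condition on `κ`
    rw [hκ, div_mul_eq_mul_div, div_le_iff₀ h4nr]
    have h3 : C ^ (2 - p) ≤ ((4 : ℝ) ^ p * n) ^ (2 - p) * π0 ^ (2 - p) := by
      rw [← Real.mul_rpow h4n.le hπ0.le]
      exact Real.rpow_le_rpow hC0.le hCn (by linarith)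
    calc (2 / 5 : ℝ) ^ (2 + p) * C ^ (2 - p)
        ≤ (2 / 5 : ℝ) ^ (2 + p) * (((4 : ℝ) ^ p * n) ^ (2 - p) * π0 ^ (2 - p)) :=
          mul_le_mul_of_nonneg_left h3 h25.le
      _ = _ := by ring
  · -- the tangency identity
    intro w hw
    have h3 : ∀ i j, w i * w j * ∫ u, |inner ℝ (y i - y j) u| ^ p ∂μ =
        w i * w j * (c i + c j) ^ p - (if i = j then (2 * c i) ^ p * w i ^ 2 else 0) := by
      intro i j
      rw [hI]
      by_cases hij : i = j
      · subst hij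
        simp only [if_true]
        ring
      · simp only [if_neg hij]
        ring
    simp only [h3, Finset.sum_sub_distrib]
    simp only [Finset.sum_ite_eq, Finset.mem_univ, if_true]
    have h4 := cpsd w c hw (fun i => (hcp i).le) h1 h2
    have h5 : ∀ i, w i ^ 2 / π i = (2 * c i) ^ p * w i ^ 2 := by
      intro i
      rw [hπd]
      simp only
      rw [div_div_eq_mul_div, div_one]
      ring
    rw [Finset.sum_congr rfl fun i _ => h5 i]
    linarith

/-- Minkowski's inequality in the form needed. -/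
private theorem tri_p {e : ℕ} (μ : Measure (E e)) {p : ℝ}
    (hcv : ConvexOn ℝ Set.univ (fun y : E e => ∫ u, |inner ℝ y u| ^ p ∂μ))
    {a b : E e} {α β : ℝ} (hα : 0 < α) (hβ : 0 < β) (ha : ∫ u, |inner ℝ a u| ^ p ∂μ ≤ α ^ p)
    (hb : ∫ u, |inner ℝ b u| ^ p ∂μ ≤ β ^ p) :
    ∫ u, |inner ℝ (a + b) u| ^ p ∂μ ≤ (α + β) ^ p := by
  have hs : 0 < α + β := by linarith
  have e1 : a + b = (α + β) • ((α / (α + β)) • (α⁻¹ • a) + (β / (α + β)) • (β⁻¹ • b)) := by
    rw [smul_add, smul_smul, smul_smul, smul_smul, smul_smul]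
    have h3 : (α + β) * (α / (α + β)) * α⁻¹ = 1 := by field_simp
    have h4 : (α + β) * (β / (α + β)) * β⁻¹ = 1 := by field_simp
    rw [h3, h4, one_smul, one_smul]
  have h3 := hcv.2 (Set.mem_univ (α⁻¹ • a)) (Set.mem_univ (β⁻¹ • b))
    (by positivity : 0 ≤ α / (α + β)) (by positivity : 0 ≤ β / (α + β))
    (by field_simp)
  simp only [smul_eq_mul] at h3
  have h4 : ∫ u, |inner ℝ (α⁻¹ • a) u| ^ p ∂μ ≤ 1 := by
    rw [lp_smul μ (inv_pos.2 hα).le, Real.inv_rpow hα.le, inv_mul_le_iff₀ (Real.rpow_pos_of_pos hα _),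
      mul_one]
    exact ha
  have h5 : ∫ u, |inner ℝ (β⁻¹ • b) u| ^ p ∂μ ≤ 1 := by
    rw [lp_smul μ (inv_pos.2 hβ).le, Real.inv_rpow hβ.le, inv_mul_le_iff₀ (Real.rpow_pos_of_pos hβ _),
      mul_one]
    exact hb
  rw [e1, lp_smul μ hs.le]
  have h6 : α / (α + β) * ∫ u, |inner ℝ (α⁻¹ • a) u| ^ p ∂μ +
      β / (α + β) * ∫ u, |inner ℝ (β⁻¹ • b) u| ^ p ∂μ ≤ 1 := by
    calc _ ≤ α / (α + β) * 1 + β / (α + β) * 1 := add_le_add
          (mul_le_mul_of_nonneg_left h4 (by positivity))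
          (mul_le_mul_of_nonneg_left h5 (by positivity))
      _ = 1 := by field_simp
  have h7 : 0 ≤ (α + β) ^ p := Real.rpow_nonneg hs.le _
  calc _ ≤ (α + β) ^ p * 1 := mul_le_mul_of_nonneg_left (h3.trans h6) h7
    _ = _ := mul_one _

/-- Unit vectors in the directions of large tangent homothets are almost opposite. -/
private theorem far_unit {e : ℕ} (μ : Measure (E e)) {p : ℝ} (h1 : 1 ≤ p)
    (hcv : ConvexOn ℝ Set.univ (fun y : E e => ∫ u, |inner ℝ y u| ^ p ∂μ)) {v v' : E e}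
    {r r' c0 : ℝ} (hr : 0 < r) (hrr : r ≤ r')
    (hv' : ∫ u, |inner ℝ v' u| ^ p ∂μ = r' ^ p)
    (hvv : ∫ u, |inner ℝ (v - v') u| ^ p ∂μ = (r + r' - 2 * c0) ^ p) (hcr : c0 ≤ r) :
    (2 - 2 * c0 / r) ^ p ≤ ∫ u, |inner ℝ ((r⁻¹ : ℝ) • v - (r'⁻¹ : ℝ) • v') u| ^ p ∂μ := by
  have hp0 : 0 < p := by linarith
  have hr' : 0 < r' := by linarith
  by_contra hcon
  push Not at hcon
  set h := ∫ u, |inner ℝ ((r⁻¹ : ℝ) • v - (r'⁻¹ : ℝ) • v') u| ^ p ∂μ with hh
  have hh0 : 0 ≤ h := integral_nonneg fun u => Real.rpow_nonneg (abs_nonneg _) _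
  have hb0 : 0 ≤ 2 - 2 * c0 / r := by
    have : 2 * c0 / r ≤ 2 := by rw [div_le_iff₀ hr]; linarith
    linarith
  obtain ⟨β, hβ⟩ : ∃ β, β = h ^ (1 / p) := ⟨_, rfl⟩
  have hβ0 : 0 ≤ β := by rw [hβ]; exact Real.rpow_nonneg hh0 _
  have hβp : β ^ p = h := by
    rw [hβ, ← Real.rpow_mul hh0, one_div, inv_mul_cancel₀ hp0.ne', Real.rpow_one]
  have hβ1 : β < 2 - 2 * c0 / r := by
    rw [← hβp] at hcon
    exact (Real.rpow_lt_rpow_iff hβ0 hb0 hp0).1 hcon
  have hβ2 : r * β < 2 * r - 2 * c0 := by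
    have h3 := mul_lt_mul_of_pos_left hβ1 hr
    have h4 : r * (2 - 2 * c0 / r) = 2 * r - 2 * c0 := by field_simp
    linarith
  obtain ⟨δ, hδ, hδ2⟩ : ∃ δ : ℝ, 0 < δ ∧ r * β + 2 * δ < 2 * r - 2 * c0 :=
    ⟨(2 * r - 2 * c0 - r * β) / 4, by linarith, by linarith⟩
  -- the two summands
  have ha : ∫ u, |inner ℝ (r • ((r⁻¹ : ℝ) • v - (r'⁻¹ : ℝ) • v')) u| ^ p ∂μ ≤ (r * β + δ) ^ p := by
    rw [lp_smul μ hr.le, ← hh, ← hβp, ← Real.mul_rpow hr.le hβ0]
    exact Real.rpow_le_rpow (mul_nonneg hr.le hβ0) (by linarith) hp0.le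
  have hb : ∫ u, |inner ℝ (-((r' - r) • ((r'⁻¹ : ℝ) • v'))) u| ^ p ∂μ ≤ (r' - r + δ) ^ p := by
    simp only [inner_neg_left, abs_neg]
    rw [lp_smul μ (by linarith), lp_smul μ (inv_pos.2 hr').le, hv', Real.inv_rpow hr'.le,
      inv_mul_cancel₀ (Real.rpow_pos_of_pos hr' _).ne', mul_one]
    exact Real.rpow_le_rpow (by linarith) (by linarith) hp0.le
  have hab := tri_p μ hcv (by nlinarith [mul_nonneg hr.le hβ0] : 0 < r * β + δ)
    (by linarith : 0 < r' - r + δ) ha hb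
  have e1 : r • ((r⁻¹ : ℝ) • v - (r'⁻¹ : ℝ) • v') + -((r' - r) • ((r'⁻¹ : ℝ) • v')) = v - v' := by
    rw [smul_sub, smul_smul, smul_smul, smul_smul, mul_inv_cancel₀ hr.ne', one_smul]
    have h3 : r' * r'⁻¹ = 1 := mul_inv_cancel₀ hr'.ne'
    have h4 : v - (r * r'⁻¹) • v' + -(((r' - r) * r'⁻¹) • v') = v - (r' * r'⁻¹) • v' := by
      rw [sub_mul, sub_smul]
      abel
    rw [h4, h3, one_smul]
  rw [e1, hvv] at hab
  have h5 : (r * β + δ + (r' - r + δ)) ^ p < (r + r' - 2 * c0) ^ p :=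
    Real.rpow_lt_rpow (by nlinarith [mul_nonneg hr.le hβ0]) (by linarith) hp0
  linarith

/-- Large radii. -/
theorem far_Zp {e : ℕ} (he : 1 ≤ e) {ι : Type} [Fintype ι] (y : ι → E e) (y0 : E e)
    (c : ι → ℝ) {c0 : ℝ} (μ : Measure (E e)) {p : ℝ} (h1 : 1 ≤ p) (h2 : p ≤ 2)
    (hint : ∀ z : E e, Integrable (fun u => |inner ℝ z u| ^ p) μ)
    (hcv : ConvexOn ℝ Set.univ (fun y : E e => ∫ u, |inner ℝ y u| ^ p ∂μ))
    (hc0 : 0 < c0) {R : ℝ} (hR : 8 * (Fintype.card ι : ℝ) ≤ R)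
    (hcR : ∀ i, R * c0 ≤ c i) (h0 : ∀ i, ∫ u, |inner ℝ (y i - y0) u| ^ p ∂μ = (c i + c0) ^ p)
    (h : ∀ i j, i ≠ j → ∫ u, |inner ℝ (y i - y j) u| ^ p ∂μ = (c i + c j) ^ p) :
    (Fintype.card ι : ℝ) ≤ 25 * (e : ℝ) ^ (1 / 2 + 1 / p) := by
  classical
  by_contra hcon
  push Not at hcon
  have he1 : (1 : ℝ) ≤ e := by exact_mod_cast he
  have he0 : (0 : ℝ) < e := by linarith
  have hp0 : 0 < p := by linarith
  have hn25 := n_large h1 he1 hcon
  have hN := numF h1 h2 he1 hcon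
  set n : ℝ := (Fintype.card ι : ℝ) with hn
  have hR0 : 0 < R := by linarith
  have hRc : 0 < R * c0 := mul_pos hR0 hc0
  have hcp : ∀ i, 0 < c i := fun i => lt_of_lt_of_le hRc (hcR i)
  have h2p : 0 < (2 : ℝ) ^ p := Real.rpow_pos_of_pos (by norm_num) _
  have h25 : 0 < (2 / 5 : ℝ) ^ (2 + p) := Real.rpow_pos_of_pos (by norm_num) _
  have hn0 : 0 < n := by linarith
  have hnr : 0 < n ^ (2 - p) := Real.rpow_pos_of_pos hn0 _
  obtain ⟨κ, hκ0, hκ⟩ := root_q (x := (2 / 5 : ℝ) ^ (2 + p) / n ^ (2 - p))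
    (q := 2 + p) (by positivity) (by linarith)
  set r : ι → ℝ := fun i => c i + c0 with hr
  have hrp : ∀ i, 0 < r i := fun i => add_pos (hcp i) hc0
  set z : ι → E e := fun i => ((r i)⁻¹ : ℝ) • (y i - y0) with hz
  set I : ι → ι → ℝ := fun i j => ∫ u, |inner ℝ (z i - z j) u| ^ p ∂μ with hI
  have hnorm : ∀ i, ∫ u, |inner ℝ (z i) u| ^ p ∂μ = 1 := by
    intro i
    rw [hz]
    simp only
    rw [lp_smul μ (inv_pos.2 (hrp i)).le, h0 i, Real.inv_rpow (hrp i).le]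
    exact inv_mul_cancel₀ (Real.rpow_pos_of_pos (hrp i) _).ne'
  have hIu : ∀ i j, I i j ≤ (2 : ℝ) ^ p := by
    intro i j
    have h3 : ∫ u, |inner ℝ (-(z j)) u| ^ p ∂μ ≤ (1 : ℝ) ^ p := by
      simp only [inner_neg_left, abs_neg]
      rw [hnorm, Real.one_rpow]
    have h4 := tri_p μ hcv one_pos one_pos (by rw [hnorm, Real.one_rpow] :
      ∫ u, |inner ℝ (z i) u| ^ p ∂μ ≤ (1 : ℝ) ^ p) h3
    rw [← sub_eq_add_neg] at h4
    have h5 : (1 : ℝ) + 1 = 2 := by norm_num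
    rwa [h5] at h4
  have hIs : ∀ i j, I i j = I j i := by
    intro i j
    rw [hI]
    simp only
    congr 1
    funext u
    rw [← neg_sub (z j) (z i), inner_neg_left, abs_neg]
  have hId : ∀ i, I i i = 0 := by
    intro i
    rw [hI]
    simp [Real.zero_rpow hp0.ne']
  have hc0r : ∀ i, 2 * c0 / r i ≤ 2 / R := by
    intro i
    rw [div_le_div_iff₀ (hrp i) hR0]
    have h3 := hcR i
    have h4 : r i = c i + c0 := rfl
    rw [h4]
    nlinarith
  have hIl' : ∀ i j, i ≠ j → r i ≤ r j → (2 - 2 / R) ^ p ≤ I i j := by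
    intro i j hij hrr
    have h3 := far_unit μ h1 hcv (v := y i - y0) (v' := y j - y0) (hrp i) hrr (h0 j)
      (by
        have h4 : y i - y0 - (y j - y0) = y i - y j := by abel
        have h5 : r i + r j - 2 * c0 = c i + c j := by
          have : r i = c i + c0 := rfl
          have : r j = c j + c0 := rfl
          linarith
        rw [h4, h5]
        exact h i j hij)
      (by
        have h4 : r i = c i + c0 := rfl
        have := hcp i
        linarith)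
    refine le_trans (Real.rpow_le_rpow ?_ ?_ hp0.le) h3
    · have : 2 / R ≤ 2 := by rw [div_le_iff₀ hR0]; linarith
      linarith
    · have := hc0r i
      linarith
  have hIl : ∀ i j, i ≠ j → (2 : ℝ) ^ p * (1 - 2 / R) ≤ I i j := by
    intro i j hij
    have h3 : (2 - 2 / R) ^ p ≤ I i j := by
      rcases le_total (r i) (r j) with h4 | h4
      · exact hIl' i j hij h4
      · rw [hIs]
        exact hIl' j i hij.symm h4
    refine le_trans ?_ h3
    have h4 : (2 : ℝ) - 2 / R = 2 * (1 - 1 / R) := by ring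
    have h1R : 1 / R ≤ 1 := by rw [div_le_iff₀ hR0]; linarith
    rw [h4, Real.mul_rpow (by norm_num) (by linarith)]
    refine mul_le_mul_of_nonneg_left ?_ h2p.le
    have h5 := one_add_mul_self_le_rpow_one_add (by linarith : (-1 : ℝ) ≤ -(1 / R)) h1
    have h6 : (1 : ℝ) + -(1 / R) = 1 - 1 / R := by ring
    rw [h6] at h5
    refine le_trans ?_ h5
    have h7 : 0 ≤ 1 / R := by positivity
    have h8 : 2 / R = 2 * (1 / R) := by ring
    rw [h8]
    nlinarith
  have hC : ∑ _i : ι, (1 : ℝ) = n := by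
    rw [Finset.sum_const, Finset.card_univ, nsmul_eq_mul, mul_one]
  have ht := trace_Zp z μ h1 h2 hint (fun _ => 1) (π0 := 1) one_pos (fun _ => le_rfl) hκ0.le ?_
    (Λ := 2 ^ p * (1 + 2 * n / R)) (by positivity) ?_
  · rw [hC] at ht
    have h3 : n * (n - 1) * (2 ^ p * (1 - 2 / R)) ≤
        ∑ i, ∑ j, 1 * 1 * ∫ u, |inner ℝ (z i - z j) u| ^ p ∂μ := by
      have h4 : ∀ i j, (2 : ℝ) ^ p * (1 - 2 / R) - (if i = j then (2 : ℝ) ^ p * (1 - 2 / R) else 0) ≤
          1 * 1 * ∫ u, |inner ℝ (z i - z j) u| ^ p ∂μ := by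
        intro i j
        rw [one_mul, one_mul]
        change _ ≤ I i j
        by_cases hij : i = j
        · subst hij
          rw [if_pos rfl, sub_self, hId]
        · rw [if_neg hij, sub_zero]
          exact hIl i j hij
      refine le_trans (le_of_eq ?_) (Finset.sum_le_sum fun i _ => Finset.sum_le_sum fun j _ => h4 i j)
      simp only [Finset.sum_sub_distrib, Finset.sum_ite_eq, Finset.mem_univ, if_true,
        Finset.sum_const, Finset.card_univ, nsmul_eq_mul]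
      rw [← hn]
      ring
    have h4 : κ * (n * (n - 1) * (2 ^ p * (1 - 2 / R))) ≤
        2 ^ p * n * (2 ^ p * (1 + 2 * n / R) * e) :=
      (mul_le_mul_of_nonneg_left h3 hκ0.le).trans ht
    have h5 : κ * ((n - 1) * (1 - 2 / R)) ≤ 2 ^ p * (1 + 2 * n / R) * e := by
      have h6 : (2 ^ p * n) * (κ * ((n - 1) * (1 - 2 / R))) ≤
          (2 ^ p * n) * (2 ^ p * (1 + 2 * n / R) * e) := by
        calc (2 ^ p * n) * (κ * ((n - 1) * (1 - 2 / R))) =
            κ * (n * (n - 1) * (2 ^ p * (1 - 2 / R))) := by ring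
          _ ≤ _ := h4
      exact le_of_mul_le_mul_left h6 (by positivity)
    have h6 : n - 5 / 4 ≤ (n - 1) * (1 - 2 / R) := by
      have h7 : (n - 1) * (2 / R) ≤ 1 / 4 := by
        rw [mul_div_assoc', div_le_div_iff₀ hR0 (by norm_num)]
        linarith
      have h8 : (n - 1) * (1 - 2 / R) = (n - 1) - (n - 1) * (2 / R) := by ring
      rw [h8]
      linarith
    have h7 : 2 ^ p * (1 + 2 * n / R) * e ≤ 5 / 4 * (2 : ℝ) ^ p * e := by
      have h8 : 2 * n / R ≤ 1 / 4 := by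
        rw [div_le_div_iff₀ hR0 (by norm_num)]
        linarith
      refine mul_le_mul_of_nonneg_right ?_ he0.le
      nlinarith
    have h8 : κ * (n - 5 / 4) ≤ 5 / 4 * (2 : ℝ) ^ p * e :=
      (mul_le_mul_of_nonneg_left h6 hκ0.le).trans (h5.trans h7)
    have h9 : (κ * (n - 5 / 4)) ^ (2 + p) ≤ (5 / 4 * (2 : ℝ) ^ p * e) ^ (2 + p) :=
      Real.rpow_le_rpow (mul_nonneg hκ0.le (by linarith)) h8 (by linarith)
    rw [Real.mul_rpow hκ0.le (by linarith), hκ] at h9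
    have h10 := mul_le_mul_of_nonneg_right h9 hnr.le
    have h11 : (2 / 5 : ℝ) ^ (2 + p) / n ^ (2 - p) * (n - 5 / 4) ^ (2 + p) *
        n ^ (2 - p) = (2 / 5 * (n - 5 / 4)) ^ (2 + p) := by
      have h12 : (2 / 5 * (n - 5 / 4)) ^ (2 + p) = (2 / 5 : ℝ) ^ (2 + p) * (n - 5 / 4) ^ (2 + p) :=
        Real.mul_rpow (by norm_num) (by linarith)
      rw [h12]
      calc (2 / 5 : ℝ) ^ (2 + p) / n ^ (2 - p) * (n - 5 / 4) ^ (2 + p) *
            n ^ (2 - p) = (2 / 5 : ℝ) ^ (2 + p) * (n - 5 / 4) ^ (2 + p) *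
            (n ^ (2 - p) / n ^ (2 - p)) := by ring
        _ = _ := by rw [div_self hnr.ne', mul_one]
    rw [h11] at h10
    linarith
  · rw [hC, hκ, div_mul_cancel₀ _ hnr.ne', Real.one_rpow, mul_one]
  · intro w hw
    have h3 : (-∑ i, ∑ j, w i * w j * ∫ u, |inner ℝ (z i - z j) u| ^ p ∂μ) =
        ∑ i, ∑ j, w i * w j * (2 ^ p - I i j) := by
      have h4 : ∀ i j, w i * w j * ((2 : ℝ) ^ p - I i j) =
          (w i * 2 ^ p) * w j - w i * w j * I i j := by
        intro i j; ring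
      simp only [h4, Finset.sum_sub_distrib]
      rw [← Finset.sum_mul_sum, hw, mul_zero, zero_sub]
    rw [h3]
    have h4 : ∀ i j, w i * w j * ((2 : ℝ) ^ p - I i j) ≤
        (w i ^ 2 * 1 + 1 * w j ^ 2) * (2 ^ p * (1 / R)) +
        (if i = j then 2 ^ p * w i ^ 2 else 0) := by
      intro i j
      by_cases hij : i = j
      · subst hij
        rw [if_pos rfl, hId, sub_zero]
        have h5 : 0 ≤ (w i ^ 2 * 1 + 1 * w i ^ 2) * (2 ^ p * (1 / R)) := by positivity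
        nlinarith
      · rw [if_neg hij, add_zero]
        have h5 := hIl i j hij
        have h6 := hIu i j
        have h7 : w i * w j * ((2 : ℝ) ^ p - I i j) ≤
            ((w i ^ 2 + w j ^ 2) / 2) * ((2 : ℝ) ^ p - I i j) :=
          mul_le_mul_of_nonneg_right (by nlinarith [sq_nonneg (w i - w j)]) (by linarith)
        have h8 : ((w i ^ 2 + w j ^ 2) / 2) * ((2 : ℝ) ^ p - I i j) ≤
            ((w i ^ 2 + w j ^ 2) / 2) * (2 ^ p * (2 / R)) :=
          mul_le_mul_of_nonneg_left (by linarith) (by positivity)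
        refine h7.trans (h8.trans (le_of_eq ?_))
        ring
    refine (Finset.sum_le_sum fun i _ => Finset.sum_le_sum fun j _ => h4 i j).trans (le_of_eq ?_)
    simp only [Finset.sum_add_distrib, ← Finset.sum_mul, Finset.sum_ite_eq, Finset.mem_univ,
      if_true, mul_one, one_mul, Finset.sum_const, Finset.card_univ, nsmul_eq_mul, div_one]
    rw [← Finset.mul_sum, ← Finset.mul_sum, ← hn]
    ring

end Pool.Agent.StB
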