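import Pool.Agent.StB.Zp5

/-!
# `1 ≤ p ≤ 2`: the theorem
-/

set_option autoImplicit false

open scoped BigOperators
open MeasureTheory

namespace Pool.Agent.StB

theorem class_Zp {e : ℕ} (he : 1 ≤ e) {p : ℝ} (h1 : 1 ≤ p) (h2 : p ≤ 2) {M : ℕ}
    (hM : M = ⌊25 * (e : ℝ) ^ (1 / 2 + 1 / p)⌋₊) {ι : Type} [Fintype ι] (y : ι → E e)
    (c : ι → ℝ) (μ : Measure (E e))
    (hint : ∀ z : E e, Integrable (fun u => |inner ℝ z u| ^ p) μ)
    (hcv : ConvexOn ℝ Set.univ (fun y : E e => ∫ u, |inner ℝ y u| ^ p ∂μ))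
    (hc : ∀ i, 0 < c i)
    (h : ∀ i j, i ≠ j → ∫ u, |inner ℝ (y i - y j) u| ^ p ∂μ = (c i + c j) ^ p) :
    Fintype.card ι ≤ (Nat.clog 4 (8 * (M + 1)) + 1) * M := by
  classical
  rcases isEmpty_or_nonempty ι with hemp | hne
  · simp
  obtain ⟨i0, h0⟩ := Finite.exists_min c
  have hc0 := hc i0
  set B := Nat.clog 4 (8 * (M + 1)) with hB
  have hB1 : 1 ≤ B := by
    rw [hB]
    exact Nat.clog_pos (by norm_num) (by omega)
  have hB2 : 8 * (M + 1) ≤ 4 ^ B := Nat.le_pow_clog (by norm_num) _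
  have hex : ∀ i, ∃ b : ℕ, (4 : ℝ) ^ b ≤ c i / c i0 ∧ c i / c i0 < (4 : ℝ) ^ (b + 1) := fun i =>
    exists_nat_pow_near ((one_le_div₀ hc0).2 (h0 i)) (by norm_num)
  choose b hb using hex
  have hb1 : ∀ i, 4 ^ b i * c i0 ≤ c i := fun i => (le_div_iff₀ hc0).1 (hb i).1
  have hb2 : ∀ i, c i ≤ 4 * (4 ^ b i * c i0) := by
    intro i
    have h1 := ((div_lt_iff₀ hc0).1 (hb i).2).le
    rw [pow_succ] at h1
    linarith
  have hnear : ∀ v : ℕ, (Finset.univ.filter (fun i => b i = v)).card ≤ M := by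
    intro v
    have h3 := near_Zp he (ι := {i : ι // i ∈ Finset.univ.filter (fun i => b i = v)})
      (fun i => y i) (fun i => c i) μ h1 h2 hint (c0 := 4 ^ v * c i0) (by positivity)
      (fun i => by
        have := hb1 i
        rwa [(Finset.mem_filter.1 i.2).2] at this)
      (fun i => by
        have := hb2 i
        rwa [(Finset.mem_filter.1 i.2).2] at this)
      (fun i j hij => h i j (fun h => hij (Subtype.ext h)))
    rw [Fintype.card_coe] at h3
    rw [hM]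
    exact Nat.le_floor h3
  have hfar : (Finset.univ.filter (fun i => B ≤ b i)).card ≤ M := by
    by_contra hcon
    push Not at hcon
    obtain ⟨F, hF, hFc⟩ := Finset.exists_subset_card_eq (Nat.succ_le_of_lt hcon)
    have hmem : ∀ i : {i : ι // i ∈ F}, B ≤ b i := fun i => (Finset.mem_filter.1 (hF i.2)).2
    have hne : ∀ i : {i : ι // i ∈ F}, (i : ι) ≠ i0 := by
      intro i hi
      have h1 := hb1 i
      have h2 := hmem i
      rw [hi] at h1 h2
      have h3 : (4 : ℝ) ^ 1 ≤ 4 ^ b i0 := pow_le_pow_right₀ (by norm_num) (hB1.trans h2)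
      have h4 := mul_le_mul_of_nonneg_right h3 hc0.le
      linarith
    have hcard : Fintype.card {i : ι // i ∈ F} = M + 1 := by
      rw [Fintype.card_coe, hFc]
    have h3 := far_Zp he (ι := {i : ι // i ∈ F}) (fun i => y i) (y i0) (fun i => c i)
      (c0 := c i0) μ h1 h2 hint hcv hc0 (R := (4 : ℝ) ^ B)
      (by rw [hcard]; exact_mod_cast hB2)
      (fun i => by
        have h2 : (4 : ℝ) ^ B ≤ 4 ^ b i := pow_le_pow_right₀ (by norm_num) (hmem i)
        exact (mul_le_mul_of_nonneg_right h2 hc0.le).trans (hb1 i))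
      (fun i => h i i0 (hne i))
      (fun i j hij => h i j (fun h => hij (Subtype.ext h)))
    rw [hcard] at h3
    have h4 : M + 1 ≤ M := by
      conv_rhs => rw [hM]
      exact Nat.le_floor h3
    omega
  have hcov : (Finset.univ : Finset ι) ⊆
      ((Finset.range B).biUnion fun v => Finset.univ.filter (fun i => b i = v)) ∪
      Finset.univ.filter (fun i => B ≤ b i) := by
    intro i _
    rcases lt_or_ge (b i) B with h1 | h1
    · exact Finset.mem_union_left _ (Finset.mem_biUnion.2 ⟨b i, Finset.mem_range.2 h1,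
        Finset.mem_filter.2 ⟨Finset.mem_univ _, rfl⟩⟩)
    · exact Finset.mem_union_right _ (Finset.mem_filter.2 ⟨Finset.mem_univ _, h1⟩)
  have h3 := Finset.card_le_card hcov
  have h4 := Finset.card_union_le ((Finset.range B).biUnion fun v =>
    Finset.univ.filter (fun i => b i = v)) (Finset.univ.filter (fun i => B ≤ b i))
  have h5 : ((Finset.range B).biUnion fun v => Finset.univ.filter (fun i => b i = v)).card ≤
      B * M := by
    refine Finset.card_biUnion_le.trans ?_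
    refine (Finset.sum_le_card_nsmul _ _ M fun v _ => hnear v).trans ?_
    rw [Finset.card_range, smul_eq_mul]
  rw [Finset.card_univ] at h3
  have h6 : (B + 1) * M = B * M + M := by ring
  omega

/-- THEOREM Zp: subspaces of `L_p`, `1 ≤ p ≤ 2`. -/
theorem main_Zp {d s e N M : ℕ} (he : 1 ≤ e) {p : ℝ} (h1 : 1 ≤ p) (h2 : p ≤ 2)
    (hM : M = ⌊25 * (e : ℝ) ^ (1 / 2 + 1 / p)⌋₊) (f : Fin s → E d →ₗ[ℝ] ℝ) (A : E d →ₗ[ℝ] E e)
    (μ : Measure (E e)) (hμ : Integrable (fun u => ‖u‖ ^ p) μ) (c : Fin N → ℝ)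
    (x : Fin N → E d) (hT : Tangent (lpBody f A p μ) c x) :
    N ≤ 2 ^ s * ((Nat.clog 4 (8 * (M + 1)) + 1) * M) :=
  main_gen h1 f A μ hμ (fun _ι _ y c hc h => class_Zp he h1 h2 hM y c μ (fun z => lp_int h1 hμ z)
    (lp_convex h1 hμ) hc (fun i j hij => h i j hij)) c x hT

private theorem zp_aux {M M' B' : ℕ} (h1 : M ≤ M') (h2 : 8 * (M' + 1) ≤ 4 ^ B') :
    (Nat.clog 4 (8 * (M + 1)) + 1) * M ≤ (B' + 1) * M' := by
  have h4 : Nat.clog 4 (8 * (M + 1)) ≤ B' :=
    Nat.clog_le_of_le_pow (le_trans (by omega) h2)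
  exact Nat.mul_le_mul (by omega) h1

/-- The bound is at most `2 ^ e` from `e = 14` on. -/
theorem zp_le {e M : ℕ} (he : 14 ≤ e) {p : ℝ} (h1 : 1 ≤ p)
    (hM : M = ⌊25 * (e : ℝ) ^ (1 / 2 + 1 / p)⌋₊) :
    (Nat.clog 4 (8 * (M + 1)) + 1) * M ≤ 2 ^ e := by
  have he0 : (0 : ℝ) < e := by
    have : (14 : ℝ) ≤ e := by exact_mod_cast he
    linarith
  have he1 : (1 : ℝ) ≤ e := by
    have : (14 : ℝ) ≤ e := by exact_mod_cast he
    linarith
  have hMr : (M : ℝ) ≤ 25 * (e : ℝ) ^ (1 / 2 + 1 / p) := by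
    rw [hM]
    exact Nat.floor_le (by positivity)
  have hM2 : M ^ 2 ≤ 625 * e ^ 3 := by
    have h3 : (e : ℝ) ^ (1 / 2 + 1 / p) ≤ (e : ℝ) ^ ((3 : ℝ) / 2) := by
      refine Real.rpow_le_rpow_of_exponent_le he1 ?_
      have : 1 / p ≤ 1 := by rw [div_le_one (by linarith)]; exact h1
      linarith
    have h4 : (M : ℝ) ^ 2 ≤ (25 * (e : ℝ) ^ ((3 : ℝ) / 2)) ^ 2 :=
      pow_le_pow_left₀ (Nat.cast_nonneg _) (hMr.trans (by linarith)) 2
    have h5 : (25 * (e : ℝ) ^ ((3 : ℝ) / 2)) ^ 2 = 625 * (e : ℝ) ^ 3 := by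
      rw [mul_pow, ← Real.rpow_natCast, ← Real.rpow_natCast, ← Real.rpow_mul he0.le,
        ← Real.rpow_natCast]
      norm_num
    rw [h5] at h4
    exact_mod_cast h4
  rcases lt_or_ge e 17 with h3 | h3
  · interval_cases e
    · refine (zp_aux (M' := 1309) (B' := 7) ?_ (by norm_num)).trans (by norm_num)
      by_contra h4
      have : 1310 ^ 2 ≤ M ^ 2 := Nat.pow_le_pow_left (by omega) 2
      omega
    · refine (zp_aux (M' := 1452) (B' := 7) ?_ (by norm_num)).trans (by norm_num)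
      by_contra h4
      have : 1453 ^ 2 ≤ M ^ 2 := Nat.pow_le_pow_left (by omega) 2
      omega
    · refine (zp_aux (M' := 1600) (B' := 7) ?_ (by norm_num)).trans (by norm_num)
      by_contra h4
      have : 1601 ^ 2 ≤ M ^ 2 := Nat.pow_le_pow_left (by omega) 2
      omega
  · have h4 : 25 * e ^ 3 ≤ 2 ^ e := by
      clear hMr hM2 hM he0 he1
      induction e, h3 using Nat.le_induction with
      | base => norm_num
      | succ e h1 ih =>
        have h3 := ih (by omega)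
        rw [pow_succ 2 e]
        nlinarith [Nat.mul_le_mul h1 h1, Nat.mul_le_mul (Nat.mul_le_mul h1 h1) h1,
          Nat.mul_le_mul h1 (Nat.mul_le_mul (le_refl e) (le_refl e))]
    have h5 : 8 * (25 * e ^ 2 + 1) ≤ 4 ^ (e - 1) := by
      have h4' : 4 * 4 ^ (e - 1) = 2 ^ e * 2 ^ e := by
        rw [← pow_succ', Nat.sub_add_cancel (by omega), ← mul_pow]
        norm_num
      have h5 : (25 * e ^ 3) * (25 * e ^ 3) ≤ 2 ^ e * 2 ^ e := Nat.mul_le_mul h4 h4
      have h6 : 4 * (8 * (25 * e ^ 2 + 1)) ≤ (25 * e ^ 3) * (25 * e ^ 3) := by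
        have h7 : 1 ≤ e ^ 2 := Nat.one_le_pow _ _ (by omega)
        have h9 : 2 ≤ e ^ 4 := by
          calc 2 ≤ e := by omega
            _ = e ^ 1 := (pow_one e).symm
            _ ≤ e ^ 4 := Nat.pow_le_pow_right (by omega) (by norm_num)
        calc 4 * (8 * (25 * e ^ 2 + 1)) = 800 * e ^ 2 + 32 := by ring
          _ ≤ 832 * e ^ 2 := by omega
          _ ≤ 625 * (2 * e ^ 2) := by omega
          _ ≤ 625 * (e ^ 4 * e ^ 2) := Nat.mul_le_mul_left _ (Nat.mul_le_mul_right _ h9)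
          _ = _ := by ring
      omega
    have h6 : M ≤ 25 * e ^ 2 := by
      by_contra h7
      have h8 : (25 * e ^ 2 + 1) ^ 2 ≤ M ^ 2 := Nat.pow_le_pow_left (by omega) 2
      have h9 : 625 * e ^ 3 < (25 * e ^ 2 + 1) ^ 2 := by
        nlinarith [Nat.mul_le_mul_left (e ^ 3) (by omega : 1 ≤ e)]
      omega
    have h7 := zp_aux (M' := 25 * e ^ 2) (B' := e - 1) h6 h5
    rw [Nat.sub_add_cancel (by omega)] at h7
    refine h7.trans (le_trans (le_of_eq ?_) h4)
    ring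

end Pool.Agent.StB
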